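import Mathlib

/-!
Interpolation between two lines for sums of absolute values of analytic functions, and the
number of analytic functions of a family that take large values in a disc.
-/

set_option autoImplicit false

namespace Pool.Agent.Y766

open Finset Complex

/-- polynomial growth against a Gaussian -/
lemma gauss_absorb (A : ℕ) : ∃ C : ℝ, 1 ≤ C ∧ ∀ t t0 : ℝ,
    (1 + |t|) ^ A * Real.exp (-(t - t0) ^ 2) ≤ C * (1 + |t0|) ^ A := by
  refine ⟨(A.factorial : ℝ) * Real.exp 2, ?_, ?_⟩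
  · have h1 : (1:ℝ) ≤ A.factorial := by
      exact_mod_cast Nat.one_le_iff_ne_zero.2 (Nat.factorial_ne_zero A)
    have h2 : 1 ≤ Real.exp 2 := Real.one_le_exp (by norm_num)
    nlinarith
  intro t t0
  have h1 : 1 + |t| ≤ (1 + |t0|) * (1 + |t - t0|) := by
    have h2 : |t| ≤ |t0| + |t - t0| := by
      have := abs_add_le t0 (t - t0)
      rwa [add_sub_cancel] at this
    nlinarith [abs_nonneg t0, abs_nonneg (t - t0), mul_nonneg (abs_nonneg t0) (abs_nonneg (t - t0))]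
  have h3 : (1 + |t|) ^ A ≤ (1 + |t0|) ^ A * (1 + |t - t0|) ^ A := by
    rw [← mul_pow]
    exact pow_le_pow_left₀ (by positivity) h1 A
  have h4 : (1 + |t - t0|) ^ A ≤ A.factorial * Real.exp (1 + |t - t0|) := by
    have := Real.pow_div_factorial_le_exp (1 + |t - t0|) (by positivity) A
    rwa [div_le_iff₀ (by positivity), mul_comm] at this
  have h5 : 1 + |t - t0| ≤ 2 + (t - t0) ^ 2 := by
    nlinarith [sq_abs (t - t0), sq_nonneg (|t - t0| - 1), abs_nonneg (t - t0)]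
  have h6 : Real.exp (1 + |t - t0|) ≤ Real.exp 2 * Real.exp ((t - t0) ^ 2) := by
    rw [← Real.exp_add]
    exact Real.exp_le_exp.2 h5
  have h7 : Real.exp ((t - t0) ^ 2) * Real.exp (-(t - t0) ^ 2) = 1 := by
    rw [← Real.exp_add]; simp
  calc (1 + |t|) ^ A * Real.exp (-(t - t0) ^ 2)
      ≤ ((1 + |t0|) ^ A * (A.factorial * (Real.exp 2 * Real.exp ((t - t0) ^ 2)))) *
        Real.exp (-(t - t0) ^ 2) := by
        have := h4.trans (mul_le_mul_of_nonneg_left h6 (by positivity))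
        gcongr
        exact h3.trans (mul_le_mul_of_nonneg_left this (by positivity))
    _ = ((1 + |t0|) ^ A * (A.factorial * Real.exp 2)) *
        (Real.exp ((t - t0) ^ 2) * Real.exp (-(t - t0) ^ 2)) := by ring
    _ = _ := by rw [h7]; ring

lemma norm_exp_sq (z s : ℂ) : ‖Complex.exp ((z - s) ^ 2)‖ =
    Real.exp ((z.re - s.re) ^ 2) * Real.exp (-(z.im - s.im) ^ 2) := by
  rw [Complex.norm_exp, ← Real.exp_add]
  congr 1
  rw [sq, Complex.mul_re, Complex.sub_re, Complex.sub_im]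
  ring

/-- interpolation between two lines for sums of absolute values -/
lemma interp_sum (A : ℕ) (κ : ℝ) (hκ : 1 ≤ κ) : ∃ C : ℝ, 1 ≤ C ∧ ∀ {ι : Type} (P : Finset ι)
    (G : ι → ℂ → ℂ) (B1 B2 : ℝ), 0 < B1 → 0 < B2 →
    (∀ i ∈ P, ∀ s : ℂ, 1 / 4 < s.re → DifferentiableAt ℂ (G i) s) →
    (∀ i ∈ P, ∃ (K : ℝ) (m : ℕ), ∀ s : ℂ, 1 / 2 ≤ s.re → s.re ≤ κ →
      ‖G i s‖ ≤ K * (1 + |s.im|) ^ m) →
    (∀ s : ℂ, s.re = 1 / 2 → ∑ i ∈ P, ‖G i s‖ ≤ B1 * (1 + |s.im|) ^ A) →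
    (∀ s : ℂ, s.re = κ → ∑ i ∈ P, ‖G i s‖ ≤ B2) →
    ∀ s0 : ℂ, 1 / 2 ≤ s0.re → s0.re ≤ κ →
    ∑ i ∈ P, ‖G i s0‖ ≤ C * (1 + |s0.im|) ^ A *
      (B1 ^ (1 - (s0.re - 1 / 2) / (κ - 1 / 2)) * B2 ^ ((s0.re - 1 / 2) / (κ - 1 / 2))) := by
  obtain ⟨CA, hCA, hA⟩ := gauss_absorb A
  have hκe : 1 ≤ Real.exp (κ ^ 2) := Real.one_le_exp (by positivity)
  refine ⟨Real.exp (κ ^ 2) * CA, by nlinarith, ?_⟩
  intro ι P G B1 B2 hB1 hB2 hd hg h1 h2 s0 hs1 hs2
  set c : ι → ℂ := fun i => (starRingEnd ℂ) (G i s0) / (‖G i s0‖ : ℂ) with hc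
  have hcn : ∀ i, ‖c i‖ ≤ 1 := by
    intro i
    rw [hc]
    simp only
    rw [norm_div, RCLike.norm_conj, Complex.norm_real, norm_norm]
    exact div_self_le_one _
  have hcG : ∀ i, c i * G i s0 = (‖G i s0‖ : ℂ) := by
    intro i
    rw [hc]
    simp only
    rcases eq_or_ne (G i s0) 0 with h | h
    · rw [h]; simp
    · have h3 : (‖G i s0‖ : ℂ) ≠ 0 := by exact_mod_cast (norm_ne_zero_iff.2 h)
      rw [div_mul_eq_mul_div, Complex.conj_mul', div_eq_iff h3]
      ring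
  set f : ℂ → ℂ := fun z => (∑ i ∈ P, c i * G i z) * Complex.exp ((z - s0) ^ 2) with hf
  have hfn : ∀ z, ‖f z‖ ≤ (∑ i ∈ P, ‖G i z‖) *
      (Real.exp ((z.re - s0.re) ^ 2) * Real.exp (-(z.im - s0.im) ^ 2)) := by
    intro z
    rw [hf]
    simp only
    rw [norm_mul, norm_exp_sq]
    refine mul_le_mul_of_nonneg_right ?_ (by positivity)
    refine (norm_sum_le _ _).trans (sum_le_sum fun i _ => ?_)
    rw [norm_mul]
    have := mul_le_mul_of_nonneg_right (hcn i) (norm_nonneg (G i z))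
    linarith
  have hf0 : ‖f s0‖ = ∑ i ∈ P, ‖G i s0‖ := by
    rw [hf]
    simp only
    rw [sub_self, zero_pow two_ne_zero, Complex.exp_zero, mul_one, sum_congr rfl fun i _ => hcG i,
      ← Complex.ofReal_sum, Complex.norm_real, Real.norm_of_nonneg (sum_nonneg fun i _ => norm_nonneg _)]
  have hκ2 : ∀ z : ℂ, 1 / 2 ≤ z.re → z.re ≤ κ → Real.exp ((z.re - s0.re) ^ 2) ≤ Real.exp (κ ^ 2) := by
    intro z hz1 hz2
    apply Real.exp_le_exp.2
    have h3 : |z.re - s0.re| ≤ κ := by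
      rw [abs_le]; constructor <;> linarith
    calc (z.re - s0.re) ^ 2 = |z.re - s0.re| ^ 2 := (sq_abs _).symm
      _ ≤ κ ^ 2 := pow_le_pow_left₀ (abs_nonneg _) h3 2
  -- boundedness in the strip
  have hbd : ∀ i ∈ P, ∃ M : ℝ, ∀ z : ℂ, 1 / 2 ≤ z.re → z.re ≤ κ →
      ‖G i z‖ * Real.exp (-(z.im - s0.im) ^ 2) ≤ M := by
    intro i hi
    obtain ⟨K, m, hK⟩ := hg i hi
    obtain ⟨Cm, hCm, hm⟩ := gauss_absorb m
    have hK0 : 0 ≤ K := by
      have h3 := hK s0 hs1 hs2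
      have h4 : 0 < (1 + |s0.im|) ^ m := by positivity
      by_contra h
      push Not at h
      have h5 : K * (1 + |s0.im|) ^ m < 0 := mul_neg_of_neg_of_pos h h4
      linarith [norm_nonneg (G i s0)]
    refine ⟨K * (Cm * (1 + |s0.im|) ^ m), ?_⟩
    intro z hz1 hz2
    calc ‖G i z‖ * Real.exp (-(z.im - s0.im) ^ 2)
        ≤ (K * (1 + |z.im|) ^ m) * Real.exp (-(z.im - s0.im) ^ 2) := by
          gcongr
          exact hK z hz1 hz2
      _ = K * ((1 + |z.im|) ^ m * Real.exp (-(z.im - s0.im) ^ 2)) := by ring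
      _ ≤ _ := mul_le_mul_of_nonneg_left (hm _ _) hK0
  choose! M hM using hbd
  have hB : BddAbove ((norm ∘ f) '' HadamardThreeLines.verticalClosedStrip (1 / 2) κ) := by
    refine ⟨Real.exp (κ ^ 2) * ∑ i ∈ P, M i, ?_⟩
    rintro _ ⟨z, hz, rfl⟩
    have hz' : 1 / 2 ≤ z.re ∧ z.re ≤ κ := hz
    simp only [Function.comp_apply]
    calc ‖f z‖ ≤ (∑ i ∈ P, ‖G i z‖) *
          (Real.exp ((z.re - s0.re) ^ 2) * Real.exp (-(z.im - s0.im) ^ 2)) := hfn z
      _ = Real.exp ((z.re - s0.re) ^ 2) * ∑ i ∈ P, ‖G i z‖ * Real.exp (-(z.im - s0.im) ^ 2) := by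
          rw [← sum_mul]; ring
      _ ≤ Real.exp (κ ^ 2) * ∑ i ∈ P, M i := by
          apply mul_le_mul (hκ2 z hz'.1 hz'.2) _ (sum_nonneg fun i _ => by positivity)
            (Real.exp_pos _).le
          exact sum_le_sum fun i hi => hM i hi z hz'.1 hz'.2
  have hdf : DiffContOnCl ℂ f (HadamardThreeLines.verticalStrip (1 / 2) κ) := by
    apply DifferentiableOn.diffContOnCl
    intro z hz
    have hz' : z.re ∈ Set.Icc (1 / 2) κ := by
      have h3 : closure (HadamardThreeLines.verticalStrip (1 / 2) κ) ⊆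
          Complex.re ⁻¹' (Set.Icc (1 / 2) κ) := by
        apply closure_minimal
        · intro w hw
          exact Set.Ioo_subset_Icc_self hw
        · exact isClosed_Icc.preimage Complex.continuous_re
      exact h3 hz
    apply DifferentiableAt.differentiableWithinAt
    rw [hf]
    apply DifferentiableAt.mul
    · apply DifferentiableAt.fun_sum
      intro i hi
      exact (hd i hi z (by linarith [hz'.1])).const_mul _
    · fun_prop
  set Q : ℝ := Real.exp (κ ^ 2) * CA * (1 + |s0.im|) ^ A with hQ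
  have hQ0 : 0 < Q := by positivity
  have h1p : (1 : ℝ) ≤ (1 + |s0.im|) ^ A := one_le_pow₀ (by linarith [abs_nonneg s0.im])
  have key := HadamardThreeLines.norm_le_interp_of_mem_verticalClosedStrip'
    (f := f) (z := s0) (a := Q * B1) (b := Q * B2) (l := 1 / 2) (u := κ) (by linarith)
    (show s0.re ∈ Set.Icc (1 / 2) κ from ⟨hs1, hs2⟩) (by exact_mod_cast hdf) (by exact_mod_cast hB)
    (by
      intro z hz
      have hz' : z.re = 1 / 2 := hz
      calc ‖f z‖ ≤ (∑ i ∈ P, ‖G i z‖) *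
            (Real.exp ((z.re - s0.re) ^ 2) * Real.exp (-(z.im - s0.im) ^ 2)) := hfn z
        _ ≤ (B1 * (1 + |z.im|) ^ A) * (Real.exp (κ ^ 2) * Real.exp (-(z.im - s0.im) ^ 2)) := by
            have h3 := h1 z hz'
            have h4 := hκ2 z (by rw [hz']) (by rw [hz']; linarith)
            gcongr
        _ = B1 * Real.exp (κ ^ 2) * ((1 + |z.im|) ^ A * Real.exp (-(z.im - s0.im) ^ 2)) := by ring
        _ ≤ B1 * Real.exp (κ ^ 2) * (CA * (1 + |s0.im|) ^ A) :=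
            mul_le_mul_of_nonneg_left (hA _ _) (by positivity)
        _ = Q * B1 := by rw [hQ]; ring)
    (by
      intro z hz
      have hz' : z.re = κ := hz
      have h5 : Real.exp (-(z.im - s0.im) ^ 2) ≤ 1 := by
        rw [Real.exp_le_one_iff]
        nlinarith [sq_nonneg (z.im - s0.im)]
      calc ‖f z‖ ≤ (∑ i ∈ P, ‖G i z‖) *
            (Real.exp ((z.re - s0.re) ^ 2) * Real.exp (-(z.im - s0.im) ^ 2)) := hfn z
        _ ≤ B2 * (Real.exp (κ ^ 2) * 1) := by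
            have h3 := h2 z hz'
            have h4 := hκ2 z (by rw [hz']; linarith) (by rw [hz'])
            gcongr
        _ ≤ Q * B2 := by
            rw [hQ]
            have h6 : Real.exp (κ ^ 2) ≤ Real.exp (κ ^ 2) * CA := by nlinarith
            have h7 : Real.exp (κ ^ 2) ≤ Real.exp (κ ^ 2) * CA * (1 + |s0.im|) ^ A := by nlinarith
            nlinarith)
  rw [hf0] at key
  refine key.trans (le_of_eq ?_)
  have hx : (1 - (s0.re - 1 / 2) / (κ - 1 / 2)) + (s0.re - 1 / 2) / (κ - 1 / 2) = 1 := by ring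
  rw [Real.mul_rpow hQ0.le hB1.le, Real.mul_rpow hQ0.le hB2.le]
  calc Q ^ (1 - (s0.re - 1 / 2) / (κ - 1 / 2)) * B1 ^ (1 - (s0.re - 1 / 2) / (κ - 1 / 2)) *
        (Q ^ ((s0.re - 1 / 2) / (κ - 1 / 2)) * B2 ^ ((s0.re - 1 / 2) / (κ - 1 / 2)))
      = (Q ^ (1 - (s0.re - 1 / 2) / (κ - 1 / 2)) * Q ^ ((s0.re - 1 / 2) / (κ - 1 / 2))) *
        (B1 ^ (1 - (s0.re - 1 / 2) / (κ - 1 / 2)) * B2 ^ ((s0.re - 1 / 2) / (κ - 1 / 2))) := by ring
    _ = _ := by rw [← Real.rpow_add hQ0, hx, Real.rpow_one]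

/-- the number of members of a family with a large value in a disc -/
lemma count_circle {ι : Type} (Z : Finset ι) (G : ι → ℂ → ℂ) (ρ : ι → ℂ) (c : ℂ) (r w S : ℝ)
    (hr : 0 < r) (hρ : ∀ i ∈ Z, ‖ρ i - c‖ ≤ r / 2)
    (hG : ∀ i ∈ Z, DiffContOnCl ℂ (G i) (Metric.ball c r))
    (hwG : ∀ i ∈ Z, w ≤ ‖G i (ρ i)‖)
    (hS : ∀ z : ℂ, ‖z - c‖ = r → ∑ i ∈ Z, ‖G i z‖ ≤ S) : w * (Z.card : ℝ) ≤ 2 * S := by
  set u : ι → ℂ := fun i => (starRingEnd ℂ) (G i (ρ i)) / (‖G i (ρ i)‖ : ℂ) with hu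
  have hun : ∀ i, ‖u i‖ ≤ 1 := by
    intro i
    rw [hu]
    simp only
    rw [norm_div, RCLike.norm_conj, Complex.norm_real, norm_norm]
    exact div_self_le_one _
  have huG : ∀ i, u i * G i (ρ i) = (‖G i (ρ i)‖ : ℂ) := by
    intro i
    rw [hu]
    simp only
    rcases eq_or_ne (G i (ρ i)) 0 with h | h
    · rw [h]; simp
    · have h3 : (‖G i (ρ i)‖ : ℂ) ≠ 0 := by exact_mod_cast (norm_ne_zero_iff.2 h)
      rw [div_mul_eq_mul_div, Complex.conj_mul', div_eq_iff h3]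
      ring
  have hmem : ∀ i ∈ Z, ρ i ∈ Metric.ball c r := by
    intro i hi
    rw [Metric.mem_ball, dist_eq_norm]
    linarith [hρ i hi]
  have hne : ∀ i ∈ Z, ∀ z ∈ Metric.sphere c r, z - ρ i ≠ 0 := by
    intro i hi z hz h
    rw [sub_eq_zero] at h
    rw [h] at hz
    have h1 := hmem i hi
    rw [Metric.mem_ball] at h1
    rw [Metric.mem_sphere] at hz
    linarith
  have hcint : ∀ i ∈ Z, CircleIntegrable (fun z => u i * ((z - ρ i)⁻¹ • G i z)) c r := by
    intro i hi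
    apply ContinuousOn.circleIntegrable hr.le
    apply ContinuousOn.mul continuousOn_const
    simp only [smul_eq_mul]
    apply ContinuousOn.mul
    · apply ContinuousOn.inv₀ (by fun_prop)
      exact hne i hi
    · exact (hG i hi).continuousOn_ball.mono Metric.sphere_subset_closedBall
  have h1 : (2 * Real.pi * I : ℂ)⁻¹ • (∮ z in C(c, r), ∑ i ∈ Z, u i * ((z - ρ i)⁻¹ • G i z)) =
      ∑ i ∈ Z, (‖G i (ρ i)‖ : ℂ) := by
    rw [circleIntegral.integral_fun_sum hcint, smul_sum]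
    refine sum_congr rfl fun i hi => ?_
    rw [circleIntegral.integral_const_mul, ← huG i,
      ← (hG i hi).two_pi_i_inv_smul_circleIntegral_sub_inv_smul (hmem i hi)]
    simp only [smul_eq_mul]
    ring
  have h2 : ‖(2 * Real.pi * I : ℂ)⁻¹ • (∮ z in C(c, r), ∑ i ∈ Z, u i * ((z - ρ i)⁻¹ • G i z))‖ ≤
      r * ((2 / r) * S) := by
    apply circleIntegral.norm_two_pi_i_inv_smul_integral_le_of_norm_le_const hr.le
    intro z hz
    have hz' : ‖z - c‖ = r := by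
      rw [Metric.mem_sphere, dist_eq_norm] at hz
      exact hz
    calc ‖∑ i ∈ Z, u i * ((z - ρ i)⁻¹ • G i z)‖ ≤ ∑ i ∈ Z, ‖u i * ((z - ρ i)⁻¹ • G i z)‖ :=
          norm_sum_le _ _
      _ ≤ ∑ i ∈ Z, (2 / r) * ‖G i z‖ := by
          refine sum_le_sum fun i hi => ?_
          rw [norm_mul, norm_smul, norm_inv]
          have h3 : r / 2 ≤ ‖z - ρ i‖ := by
            have h4 : ‖z - c‖ ≤ ‖z - ρ i‖ + ‖ρ i - c‖ := by
              have := norm_add_le (z - ρ i) (ρ i - c)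
              rwa [sub_add_sub_cancel] at this
            linarith [hρ i hi]
          have h5 : ‖z - ρ i‖⁻¹ ≤ 2 / r := by
            rw [show 2 / r = (r / 2)⁻¹ by field_simp]
            exact inv_anti₀ (by positivity) h3
          calc ‖u i‖ * (‖z - ρ i‖⁻¹ * ‖G i z‖) ≤ 1 * ((2 / r) * ‖G i z‖) := by
                gcongr
                exact hun i
            _ = _ := one_mul _
      _ = (2 / r) * ∑ i ∈ Z, ‖G i z‖ := by rw [mul_sum]
      _ ≤ (2 / r) * S := by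
          gcongr
          exact hS z hz'
  rw [h1, ← Complex.ofReal_sum, Complex.norm_real,
    Real.norm_of_nonneg (sum_nonneg fun i _ => norm_nonneg _)] at h2
  have h3 : w * (Z.card : ℝ) ≤ ∑ i ∈ Z, ‖G i (ρ i)‖ := by
    calc w * (Z.card : ℝ) = ∑ i ∈ Z, w := by rw [sum_const, nsmul_eq_mul]; ring
      _ ≤ _ := sum_le_sum hwG
  calc w * (Z.card : ℝ) ≤ r * ((2 / r) * S) := h3.trans h2
    _ = 2 * S := by field_simp

end Pool.Agent.Y766
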