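import Mathlib

/-!
Mollifiers: truncated inverses of Dirichlet series.
-/

set_option autoImplicit false

namespace Pool.Agent.Y766

open Finset Complex

/-- a Dirichlet polynomial -/
noncomputable def mol (b : ℕ → ℂ) (Y : ℕ) (s : ℂ) : ℂ := ∑ n ∈ Icc 1 Y, b n * (n : ℂ) ^ (-s)

lemma mol_diff (b : ℕ → ℂ) (Y : ℕ) : Differentiable ℂ (mol b Y) := by
  unfold mol
  apply Differentiable.fun_sum
  intro n hn
  rw [mem_Icc] at hn
  have hn0 : (n : ℂ) ≠ 0 := by
    have : n ≠ 0 := by omega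
    exact_mod_cast this
  intro s
  exact (differentiableAt_id.neg.const_cpow (Or.inl hn0)).const_mul _

lemma norm_nat_cpow_le_one {n : ℕ} (hn : 1 ≤ n) {s : ℂ} (hs : 0 ≤ s.re) : ‖(n : ℂ) ^ (-s)‖ ≤ 1 := by
  rw [Complex.norm_natCast_cpow_of_pos hn, Complex.neg_re]
  apply Real.rpow_le_one_of_one_le_of_nonpos _ (by linarith)
  exact_mod_cast hn

lemma mol_norm {b : ℕ → ℂ} (hb : ∀ n, ‖b n‖ ≤ 1) (Y : ℕ) {s : ℂ} (hs : 0 ≤ s.re) :
    ‖mol b Y s‖ ≤ Y := by
  unfold mol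
  refine (norm_sum_le _ _).trans ?_
  calc ∑ n ∈ Icc 1 Y, ‖b n * (n : ℂ) ^ (-s)‖ ≤ ∑ n ∈ Icc 1 Y, (1 : ℝ) := by
        refine sum_le_sum fun n hn => ?_
        rw [mem_Icc] at hn
        rw [norm_mul]
        have := mul_le_mul (hb n) (norm_nat_cpow_le_one hn.1 hs) (norm_nonneg _) zero_le_one
        linarith
    _ = Y := by rw [sum_const, Nat.card_Icc]; simp

lemma lser_tail : ∃ c : ℝ, 1 ≤ c ∧ ∀ (f : ℕ → ℂ), (∀ n, ‖f n‖ ≤ 1) → ∀ (s : ℂ), 2 ≤ s.re →
    ‖LSeries f s‖ ≤ c ∧ ∀ Y : ℕ, 1 ≤ Y → ‖mol f Y s - LSeries f s‖ ≤ c * (Y : ℝ) ^ (2 - s.re) := by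
  have hsum : Summable (fun i : ℕ => 1 / ((i + 1 : ℕ) : ℝ) ^ 2) :=
    (summable_nat_add_iff 1).2 (Real.summable_one_div_nat_pow.2 one_lt_two)
  have h0 : 0 ≤ ∑' i : ℕ, 1 / ((i + 1 : ℕ) : ℝ) ^ 2 := tsum_nonneg fun i => by positivity
  refine ⟨1 + ∑' i : ℕ, 1 / ((i + 1 : ℕ) : ℝ) ^ 2, by linarith, ?_⟩
  intro f hf s hs
  have hsm : LSeriesSummable f s :=
    LSeriesSummable_of_bounded_of_one_lt_re (m := 1) (fun n _ => hf n) (by linarith)
  have hterm : ∀ n : ℕ, n ≠ 0 → ‖LSeries.term f s n‖ ≤ (n : ℝ) ^ (-s.re) := by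
    intro n hn
    rw [LSeries.term_of_ne_zero hn, norm_div, Complex.norm_natCast_cpow_of_pos (Nat.pos_of_ne_zero hn),
      Real.rpow_neg (Nat.cast_nonneg n), ← one_div]
    apply div_le_div_of_nonneg_right (hf n) (by positivity)
  constructor
  · have e : LSeries f s = ∑' i, LSeries.term f s (i + 1) := by
      unfold LSeries
      rw [← hsm.sum_add_tsum_nat_add 1]
      simp
    rw [e]
    refine (tsum_of_norm_bounded hsum.hasSum (f := fun i => LSeries.term f s (i + 1)) ?_).trans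
      (by linarith)
    intro i
    refine (hterm (i + 1) (by omega)).trans ?_
    have h1 : (1 : ℝ) ≤ ((i + 1 : ℕ) : ℝ) := by exact_mod_cast Nat.succ_le_succ (Nat.zero_le i)
    calc (((i + 1 : ℕ) : ℝ)) ^ (-s.re) ≤ (((i + 1 : ℕ) : ℝ)) ^ (-2 : ℝ) :=
          Real.rpow_le_rpow_of_exponent_le h1 (by linarith)
      _ = _ := by
          rw [Real.rpow_neg (by positivity), Real.rpow_two, one_div]
  · intro Y hY
    have hY0 : (0 : ℝ) < Y := by exact_mod_cast hY
    have e1 : mol f Y s = ∑ n ∈ range (Y + 1), LSeries.term f s n := by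
      unfold mol
      rw [← sum_subset (s₁ := Icc 1 Y) (s₂ := range (Y + 1))]
      · refine sum_congr rfl fun n hn => ?_
        rw [mem_Icc] at hn
        rw [LSeries.term_of_ne_zero (by omega), Complex.cpow_neg]
        rfl
      · intro n hn
        rw [mem_Icc] at hn
        rw [mem_range]
        omega
      · intro n hn hn'
        rw [mem_range] at hn
        rw [mem_Icc] at hn'
        have : n = 0 := by omega
        rw [this, LSeries.term_zero]
    have e : mol f Y s - LSeries f s = -∑' i, LSeries.term f s (i + (Y + 1)) := by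
      unfold LSeries
      rw [e1, ← hsm.sum_add_tsum_nat_add (Y + 1)]
      ring
    rw [e, norm_neg]
    refine (tsum_of_norm_bounded (hsum.hasSum.mul_left ((Y : ℝ) ^ (2 - s.re)))
      (f := fun i => LSeries.term f s (i + (Y + 1))) ?_).trans ?_
    · intro i
      refine (hterm (i + (Y + 1)) (by omega)).trans ?_
      have h1 : (0 : ℝ) < ((i + (Y + 1) : ℕ) : ℝ) := by
        have : 0 < i + (Y + 1) := by omega
        exact_mod_cast this
      have h2 : ((i + 1 : ℕ) : ℝ) ≤ ((i + (Y + 1) : ℕ) : ℝ) := by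
        have : i + 1 ≤ i + (Y + 1) := by omega
        exact_mod_cast this
      have h3 : (Y : ℝ) ≤ ((i + (Y + 1) : ℕ) : ℝ) := by
        have : Y ≤ i + (Y + 1) := by omega
        exact_mod_cast this
      have h4 : (0 : ℝ) < ((i + 1 : ℕ) : ℝ) := by positivity
      rw [show -s.re = (2 - s.re) + (-2 : ℝ) by ring, Real.rpow_add h1]
      apply mul_le_mul
      · exact Real.rpow_le_rpow_of_nonpos hY0 h3 (by linarith)
      · rw [Real.rpow_neg h1.le, Real.rpow_two, one_div]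
        apply inv_anti₀ (by positivity)
        exact pow_le_pow_left₀ h4.le h2 2
      · positivity
      · positivity
    · have h5 : 0 ≤ (Y : ℝ) ^ (2 - s.re) := by positivity
      nlinarith

/-- the mollified series is close to one far to the right -/
lemma mol_inv : ∃ c : ℝ, 1 ≤ c ∧ ∀ (a b : ℕ → ℂ), (∀ n, ‖a n‖ ≤ 1) → (∀ n, ‖b n‖ ≤ 1) →
    ∀ s : ℂ, 2 ≤ s.re → LSeries a s * LSeries b s = 1 → ∀ Y : ℕ, 1 ≤ Y →
    ‖LSeries a s * mol b Y s - 1‖ ≤ c * (Y : ℝ) ^ (2 - s.re) := by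
  obtain ⟨c, hc, h⟩ := lser_tail
  refine ⟨c * c, by nlinarith, ?_⟩
  intro a b ha hb s hs hab Y hY
  have e : LSeries a s * mol b Y s - 1 = LSeries a s * (mol b Y s - LSeries b s) := by
    rw [mul_sub, hab]
  rw [e, norm_mul, mul_assoc]
  exact mul_le_mul (h a ha s hs).1 ((h b hb s hs).2 Y hY) (norm_nonneg _) (by linarith)

end Pool.Agent.Y766
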