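import Pool.Agent.TH75.AFE2
import Pool.Agent.H448R2.GC.K1
import Pool.Agent.H448R2.GC.X1

/-!
The symmetric approximate functional equation with fixed lengths, as an inequality for squares.
The lemmas `g_ext` to `g_diff'` follow the team library file `TH110/N4_AFP`.
-/

set_option autoImplicit false

namespace Pool.Agent.Y766

open Finset MeasureTheory Filter Complex
open Pool.Agent.H448R2.GC (cu cs XX)

/-- a point of the critical line -/
noncomputable def hl (t : ℝ) : ℂ := ((1 / 2 : ℝ) : ℂ) + (t : ℂ) * I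

/-- the smoothed sum with a fixed range -/
noncomputable def gs (N k : ℕ) (c : ℝ) (s : ℂ) (D : ℝ) : ℂ :=
  ∑ m ∈ Finset.Icc 1 N, (cu k c (Real.log m - D) : ℂ) * (m : ℂ) ^ (-s)

theorem cs_conj' (k : ℕ) (c D : ℝ) (s : ℂ) :
    cs k c D ((starRingEnd ℂ) s) = (starRingEnd ℂ) (cs k c D s) := by
  unfold cs
  rw [map_sum]
  refine Finset.sum_congr rfl ?_
  intro m hm
  rw [map_mul, Complex.conj_ofReal]
  congr 1
  have h := Complex.cpow_conj (m : ℂ) (-s) (by rw [Complex.natCast_arg]; exact Real.pi_pos.ne)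
  rw [Complex.conj_natCast] at h
  rw [← map_neg, h]

theorem g_ext (k : ℕ) (c D : ℝ) (hc : 0 < c) (N : ℕ) (hN : Real.exp (D + k * c) ≤ N) (s : ℂ) :
    cs k c D s = gs N k c s D := by
  unfold cs gs
  refine Finset.sum_subset ?_ ?_
  · intro m hm
    rw [Finset.mem_Icc] at hm ⊢
    refine ⟨hm.1, ?_⟩
    have h1 : (m : ℝ) ≤ Real.exp (D + k * c) :=
      le_trans (by exact_mod_cast hm.2) (Nat.floor_le (Real.exp_pos _).le)
    exact_mod_cast h1.trans hN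
  · intro m hm hm'
    rw [Finset.mem_Icc] at hm hm'
    have h1 : ⌊Real.exp (D + k * c)⌋₊ < m := by
      by_contra h
      exact hm' ⟨hm.1, by omega⟩
    have h2 : Real.exp (D + k * c) < m := (Nat.floor_lt (Real.exp_pos _).le).1 h1
    have hm0 : (0 : ℝ) < m := by exact_mod_cast hm.1
    have h3 : D + k * c < Real.log m := (Real.lt_log_iff_exp_lt hm0).2 h2
    rw [Pool.Agent.H448R2.GC.cu_zero k c _ hc (by linarith)]
    simp

theorem g_deriv (N k : ℕ) (c : ℝ) (hc : 0 < c) (s : ℂ) (D : ℝ) :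
    HasDerivAt (gs N (k + 2) c s) ((gs N (k + 1) c s (D + c) - gs N (k + 1) c s D) / c) D := by
  unfold gs
  have h : ∀ m ∈ Finset.Icc 1 N, HasDerivAt
      (fun D : ℝ => (cu (k + 2) c (Real.log m - D) : ℂ) * (m : ℂ) ^ (-s))
      (((-((cu (k + 1) c (Real.log m - D) - cu (k + 1) c (Real.log m - D - c)) / c) : ℝ) : ℂ) *
        (m : ℂ) ^ (-s)) D := by
    intro m _
    have h1 := Pool.Agent.H448R2.GC.cu_deriv k c (Real.log m - D) hc
    have h2 : HasDerivAt (fun D : ℝ => Real.log m - D) (-1) D := by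
      simpa using (hasDerivAt_id D).const_sub (Real.log m)
    have h3 := HasDerivAt.comp D h1 h2
    have h4 := h3.ofReal_comp
    have h5 := h4.mul_const ((m : ℂ) ^ (-s))
    refine h5.congr_deriv ?_
    congr 2
    ring
  have h1 := HasDerivAt.fun_sum h
  refine h1.congr_deriv ?_
  rw [← Finset.sum_sub_distrib, Finset.sum_div]
  refine Finset.sum_congr rfl fun m _ => ?_
  rw [show Real.log m - (D + c) = Real.log m - D - c by ring]
  have hc' : (c : ℂ) ≠ 0 := by exact_mod_cast hc.ne'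
  push_cast
  field_simp
  ring

theorem g_cont (N k : ℕ) (c : ℝ) (hc : 0 < c) (s : ℂ) : Continuous (gs N (k + 1) c s) := by
  unfold gs
  refine continuous_finsetSum _ fun m _ => ?_
  refine Continuous.mul (Complex.continuous_ofReal.comp ?_) continuous_const
  exact (Pool.Agent.H448R2.GC.cu_cont k c hc).comp (by fun_prop)

/-- Cauchy-Schwarz on `[-3,3]` -/
theorem sq_int_le (g : ℝ → ℝ) (hg : Continuous g) :
    (∫ u in (-3:ℝ)..3, g u) ^ 2 ≤ 6 * ∫ u in (-3:ℝ)..3, g u ^ 2 := by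
  set m := (∫ u in (-3:ℝ)..3, g u) / 6 with hm
  have h0 : 0 ≤ ∫ u in (-3:ℝ)..3, (g u - m) ^ 2 :=
    intervalIntegral.integral_nonneg (by norm_num) fun u _ => sq_nonneg _
  have h1 : (∫ u in (-3:ℝ)..3, (g u - m) ^ 2) =
      (∫ u in (-3:ℝ)..3, g u ^ 2) - 2 * m * (∫ u in (-3:ℝ)..3, g u) + 6 * m ^ 2 := by
    have e : ∀ u, (g u - m) ^ 2 = g u ^ 2 - 2 * m * g u + m ^ 2 := fun u => by ring
    simp_rw [e]
    rw [intervalIntegral.integral_add, intervalIntegral.integral_sub,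
      intervalIntegral.integral_const_mul, intervalIntegral.integral_const]
    · norm_num
    · exact (hg.pow 2).intervalIntegrable _ _
    · exact (continuous_const.mul hg).intervalIntegrable _ _
    · exact ((hg.pow 2).sub (continuous_const.mul hg)).intervalIntegrable _ _
    · exact continuous_const.intervalIntegrable _ _
  rw [h1] at h0
  have h2 : (∫ u in (-3:ℝ)..3, g u) = 6 * m := by rw [hm]; ring
  rw [h2] at h0 ⊢
  nlinarith

/-- the difference of two values of a smoothed sum -/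
theorem g_diff (N k : ℕ) (c : ℝ) (hc : 0 < c) (s : ℂ) (D v : ℝ) (hv : |v| ≤ 3) :
    ‖gs N (k + 2) c s (D + v) - gs N (k + 2) c s D‖ ^ 2 ≤ 12 / c ^ 2 *
      ∫ u in (-3:ℝ)..3, (‖gs N (k + 1) c s (D + u + c)‖ ^ 2 + ‖gs N (k + 1) c s (D + u)‖ ^ 2) := by
  set g' : ℝ → ℂ := fun u => (gs N (k + 1) c s (D + u + c) - gs N (k + 1) c s (D + u)) / c with hg'
  have hc1 : Continuous g' := by
    rw [hg']
    refine Continuous.div_const (Continuous.sub ?_ ?_) _
    · exact (g_cont N k c hc s).comp (by fun_prop)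
    · exact (g_cont N k c hc s).comp (by fun_prop)
  have hd : ∀ u : ℝ, HasDerivAt (fun u : ℝ => gs N (k + 2) c s (D + u)) (g' u) u := by
    intro u
    have := g_deriv N k c hc s (D + u)
    exact HasDerivAt.comp_const_add D u this
  have h1 : gs N (k + 2) c s (D + v) - gs N (k + 2) c s D = ∫ u in (0:ℝ)..v, g' u := by
    rw [intervalIntegral.integral_eq_sub_of_hasDerivAt (fun u _ => hd u)
      (hc1.intervalIntegrable _ _)]
    simp
  have h2 : ‖gs N (k + 2) c s (D + v) - gs N (k + 2) c s D‖ ≤ ∫ u in (-3:ℝ)..3, ‖g' u‖ := by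
    rw [h1]
    refine (intervalIntegral.norm_integral_le_abs_integral_norm).trans ?_
    rw [abs_le] at hv
    rcases le_total 0 v with h | h
    · rw [abs_of_nonneg (intervalIntegral.integral_nonneg h fun u _ => norm_nonneg _)]
      refine intervalIntegral.integral_mono_interval (by norm_num) h hv.2
        (Eventually.of_forall fun u => norm_nonneg _) (hc1.norm.intervalIntegrable _ _)
    · rw [intervalIntegral.integral_symm, abs_neg,
        abs_of_nonneg (intervalIntegral.integral_nonneg h fun u _ => norm_nonneg _)]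
      refine intervalIntegral.integral_mono_interval hv.1 h (by norm_num)
        (Eventually.of_forall fun u => norm_nonneg _) (hc1.norm.intervalIntegrable _ _)
  have h3 := sq_int_le (fun u => ‖g' u‖) hc1.norm
  have h4 : ∀ u, ‖g' u‖ ^ 2 ≤ 2 / c ^ 2 *
      (‖gs N (k + 1) c s (D + u + c)‖ ^ 2 + ‖gs N (k + 1) c s (D + u)‖ ^ 2) := by
    intro u
    rw [hg']
    simp only
    rw [norm_div, div_pow, Complex.norm_real, Real.norm_eq_abs, sq_abs, div_mul_eq_mul_div]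
    refine div_le_div_of_nonneg_right ?_ (sq_nonneg c)
    have h5 := norm_sub_le (gs N (k + 1) c s (D + u + c)) (gs N (k + 1) c s (D + u))
    have h6 : ‖gs N (k + 1) c s (D + u + c) - gs N (k + 1) c s (D + u)‖ ^ 2 ≤
        (‖gs N (k + 1) c s (D + u + c)‖ + ‖gs N (k + 1) c s (D + u)‖) ^ 2 :=
      pow_le_pow_left₀ (norm_nonneg _) h5 2
    nlinarith [sq_nonneg (‖gs N (k + 1) c s (D + u + c)‖ - ‖gs N (k + 1) c s (D + u)‖)]
  have hc2 : Continuous fun u : ℝ =>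
      (‖gs N (k + 1) c s (D + u + c)‖ ^ 2 + ‖gs N (k + 1) c s (D + u)‖ ^ 2) := by
    refine Continuous.add ?_ ?_
    · exact (((g_cont N k c hc s).comp (by fun_prop)).norm).pow 2
    · exact (((g_cont N k c hc s).comp (by fun_prop)).norm).pow 2
  have h7 : (∫ u in (-3:ℝ)..3, ‖g' u‖ ^ 2) ≤ 2 / c ^ 2 *
      ∫ u in (-3:ℝ)..3, (‖gs N (k + 1) c s (D + u + c)‖ ^ 2 + ‖gs N (k + 1) c s (D + u)‖ ^ 2) := by
    rw [← intervalIntegral.integral_const_mul]
    exact intervalIntegral.integral_mono_on (by norm_num) ((hc1.norm.pow 2).intervalIntegrable _ _)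
      ((continuous_const.mul hc2).intervalIntegrable _ _) (fun u _ => h4 u)
  calc ‖gs N (k + 2) c s (D + v) - gs N (k + 2) c s D‖ ^ 2
      ≤ (∫ u in (-3:ℝ)..3, ‖g' u‖) ^ 2 := pow_le_pow_left₀ (norm_nonneg _) h2 2
    _ ≤ 6 * ∫ u in (-3:ℝ)..3, ‖g' u‖ ^ 2 := h3
    _ ≤ 6 * (2 / c ^ 2 *
      ∫ u in (-3:ℝ)..3, (‖gs N (k + 1) c s (D + u + c)‖ ^ 2 + ‖gs N (k + 1) c s (D + u)‖ ^ 2)) := by
        linarith
    _ = _ := by ring

theorem one_sub_hl (t : ℝ) : 1 - hl t = (starRingEnd ℂ) (hl t) := by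
  unfold hl
  simp only [map_add, map_mul, conj_ofReal, conj_I]
  push_cast
  ring

theorem norm_XX_hl (t : ℝ) : ‖XX (1 - hl t)‖ = 1 := by
  rw [one_sub_hl, Pool.Agent.H448R2.GC.X1.norm_XX_conj, Pool.Agent.H448R2.GC.X1.XX_eq]
  have h : hl t = 1 / 2 + (t : ℂ) * I := by unfold hl; push_cast; ring
  rw [h]
  exact H345.norm_XX_half t

/-- the square of zeta is bounded by squares of Dirichlet polynomials with fixed coefficients -/
theorem afe_sq {η : ℝ} (hη : 0 < η) (hη1 : η ≤ 1 / 100) : ∃ k : ℕ, ∃ C T₀ : ℝ, 1 ≤ C ∧ 1 ≤ T₀ ∧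
    ∀ T : ℝ, T₀ ≤ T → ∃ c D1 D2 : ℝ, ∃ N : ℕ, 0 < c ∧ (N : ℝ) ≤ 30 * T ^ (1 / 2 + 2 * η) ∧
    ∀ t : ℝ, T ≤ t → t ≤ 2 * T → ‖riemannZeta (hl t)‖ ^ 2 ≤ C *
      (1 + ‖gs N (k + 2) c (hl t) D1‖ ^ 2 + ‖gs N (k + 2) c (hl t) D2‖ ^ 2 +
      ∫ u in (-3:ℝ)..3, (‖gs N (k + 1) c (hl t) (D2 + u + c)‖ ^ 2 +
        ‖gs N (k + 1) c (hl t) (D2 + u)‖ ^ 2)) := by
  obtain ⟨k₀, hk₀⟩ := Pool.Agent.TH75.AFE1.main η hη hη1
  obtain ⟨T₁, hT₁⟩ := hk₀ (k₀ + 2) (by omega)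
  refine ⟨k₀, 4 + 48 * ((k₀ : ℝ) + 2) ^ 2 / η ^ 2, max T₁ (Real.exp 100), ?_, ?_, ?_⟩
  · have : 0 ≤ 48 * ((k₀ : ℝ) + 2) ^ 2 / η ^ 2 := by positivity
    linarith
  · exact le_max_of_le_right (Real.one_le_exp (by norm_num))
  intro T hT
  have hT1 : T₁ ≤ T := (le_max_left _ _).trans hT
  have hTe : Real.exp 100 ≤ T := (le_max_right _ _).trans hT
  have hTpos : 0 < T := (Real.exp_pos _).trans_le hTe
  have hL : 100 ≤ Real.log T := (Real.le_log_iff_exp_le hTpos).2 hTe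
  obtain ⟨c, hc⟩ : ∃ c : ℝ, c = η * Real.log T / ((k₀ : ℝ) + 2) := ⟨_, rfl⟩
  obtain ⟨D1, hD1⟩ : ∃ D1 : ℝ, D1 = 1 / 2 * Real.log T := ⟨_, rfl⟩
  obtain ⟨D2, hD2⟩ : ∃ D2 : ℝ, D2 = Real.log (T / (2 * Real.pi)) - D1 - η * Real.log T := ⟨_, rfl⟩
  have hcpos : 0 < c := by
    rw [hc]
    positivity
  have hkc : ((k₀ : ℝ) + 2) * c = η * Real.log T := by
    rw [hc]
    field_simp
  refine ⟨c, D1, D2, ⌊30 * T ^ (1 / 2 + 2 * η)⌋₊, hcpos, Nat.floor_le (by positivity), ?_⟩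
  set N := ⌊30 * T ^ (1 / 2 + 2 * η)⌋₊ with hNd
  have hpi : 0 < Real.log (2 * Real.pi) := Real.log_pos (by linarith [Real.pi_gt_three])
  have hexp3 : Real.exp 3 ≤ 21 := by
    have h3 : Real.exp 3 = Real.exp 1 ^ 3 := by
      rw [← Real.exp_nat_mul]; norm_num
    rw [h3]
    have h4 := Real.exp_one_lt_d9
    have h5 : Real.exp 1 ≤ 2.7183 := by linarith
    calc Real.exp 1 ^ 3 ≤ 2.7183 ^ 3 := pow_le_pow_left₀ (Real.exp_pos _).le h5 3
      _ ≤ 21 := by norm_num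
  have hTp : 1 ≤ T ^ (1 / 2 + 2 * η) := by
    apply Real.one_le_rpow _ (by positivity)
    exact (Real.one_le_exp (by norm_num)).trans hTe
  have hNbd : ∀ x : ℝ, x ≤ (1 / 2 + 2 * η) * Real.log T + 3 → Real.exp x ≤ N := by
    intro x hx
    have h1 : Real.exp x ≤ 21 * T ^ (1 / 2 + 2 * η) := by
      calc Real.exp x ≤ Real.exp ((1 / 2 + 2 * η) * Real.log T + 3) := Real.exp_le_exp.2 hx
        _ = Real.exp 3 * T ^ (1 / 2 + 2 * η) := by
          rw [Real.rpow_def_of_pos hTpos, Real.exp_add, mul_comm (Real.log T), mul_comm]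
        _ ≤ _ := by gcongr
    have h2 := Nat.lt_floor_add_one (30 * T ^ (1 / 2 + 2 * η))
    rw [← hNd] at h2
    linarith
  have hlogT2 : Real.log (T / (2 * Real.pi)) = Real.log T - Real.log (2 * Real.pi) :=
    Real.log_div hTpos.ne' (by positivity)
  intro t ht1 ht2
  have htpos : 0 < t := by linarith
  -- the approximate functional equation
  have h1 := hT₁ T hT1 t (by linarith) D1 (by rw [hD1]; nlinarith) (by rw [hD1]) (hl t) rfl
  have hcc : η * Real.log T / ((k₀ + 2 : ℕ) : ℝ) = c := by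
    rw [hc]; push_cast; ring
  rw [hcc] at h1
  set D2t := Real.log (t / (2 * Real.pi)) - D1 - η * Real.log T with hD2t
  have hconj : cs (k₀ + 2) c D2t (1 - hl t) = (starRingEnd ℂ) (cs (k₀ + 2) c D2t (hl t)) := by
    rw [one_sub_hl, cs_conj']
  rw [hconj] at h1
  -- the change of the length
  set v := Real.log (t / T) with hv
  have hv0 : 0 ≤ v := Real.log_nonneg (by rw [le_div_iff₀ hTpos]; linarith)
  have hv1 : v ≤ 1 := by
    rw [hv, Real.log_le_iff_le_exp (by positivity), div_le_iff₀ hTpos]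
    have h2 := Real.add_one_le_exp (1:ℝ)
    nlinarith
  have hv3 : |v| ≤ 3 := by
    rw [abs_of_nonneg hv0]; linarith
  have hD2v : D2t = D2 + v := by
    rw [hD2t, hD2, hv, Real.log_div (by positivity) (by positivity),
      Real.log_div (by positivity) (by positivity), Real.log_div (by positivity) (by positivity)]
    ring
  have e1 : cs (k₀ + 2) c D1 (hl t) = gs N (k₀ + 2) c (hl t) D1 := by
    apply g_ext _ _ _ hcpos
    apply hNbd
    push_cast
    rw [hkc, hD1]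
    nlinarith
  have e2 : cs (k₀ + 2) c D2t (hl t) = gs N (k₀ + 2) c (hl t) (D2 + v) := by
    rw [hD2v]
    apply g_ext _ _ _ hcpos
    apply hNbd
    push_cast
    rw [hkc, hD2, hlogT2, hD1]
    nlinarith
  rw [e1, e2] at h1
  have h2 := g_diff N k₀ c hcpos (hl t) D2 v hv3
  set a := gs N (k₀ + 2) c (hl t) D1 with ha
  set x := gs N (k₀ + 2) c (hl t) (D2 + v) with hx
  set y := gs N (k₀ + 2) c (hl t) D2 with hy
  set J := ∫ u in (-3:ℝ)..3, (‖gs N (k₀ + 1) c (hl t) (D2 + u + c)‖ ^ 2 +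
    ‖gs N (k₀ + 1) c (hl t) (D2 + u)‖ ^ 2) with hJ
  have hJ0 : 0 ≤ J := intervalIntegral.integral_nonneg (by norm_num) fun u _ => by positivity
  have hT5 : T ^ (-(1 / 5) : ℝ) ≤ 1 := by
    apply Real.rpow_le_one_of_one_le_of_nonpos _ (by norm_num)
    exact (Real.one_le_exp (by norm_num)).trans hTe
  have h3 : ‖riemannZeta (hl t)‖ ≤ 1 + ‖a‖ + ‖y‖ + ‖x - y‖ := by
    have e : riemannZeta (hl t) = (riemannZeta (hl t) - a - XX (1 - hl t) * (starRingEnd ℂ) x) +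
        a + (XX (1 - hl t) * (starRingEnd ℂ) y + XX (1 - hl t) * (starRingEnd ℂ) (x - y)) := by
      rw [map_sub]; ring
    rw [e]
    refine (norm_add_le _ _).trans ?_
    have e4 : ‖XX (1 - hl t) * (starRingEnd ℂ) y + XX (1 - hl t) * (starRingEnd ℂ) (x - y)‖ ≤
        ‖y‖ + ‖x - y‖ := by
      refine (norm_add_le _ _).trans ?_
      rw [norm_mul, norm_mul, norm_XX_hl, one_mul, one_mul, RCLike.norm_conj, RCLike.norm_conj]
    have e5 := norm_add_le (riemannZeta (hl t) - a - XX (1 - hl t) * (starRingEnd ℂ) x) a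
    linarith
  have h4 : ‖riemannZeta (hl t)‖ ^ 2 ≤ 4 * (1 + ‖a‖ ^ 2 + ‖y‖ ^ 2 + ‖x - y‖ ^ 2) := by
    have := pow_le_pow_left₀ (norm_nonneg _) h3 2
    nlinarith [sq_nonneg (1 - ‖a‖), sq_nonneg (1 - ‖y‖), sq_nonneg (1 - ‖x - y‖),
      sq_nonneg (‖a‖ - ‖y‖), sq_nonneg (‖a‖ - ‖x - y‖), sq_nonneg (‖y‖ - ‖x - y‖)]
  have h6 : 12 / c ^ 2 ≤ 12 * ((k₀ : ℝ) + 2) ^ 2 / η ^ 2 := by
    have h7 : η / ((k₀ : ℝ) + 2) ≤ c := by
      rw [hc]
      apply div_le_div_of_nonneg_right _ (by positivity)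
      nlinarith
    have h8 : 0 < η / ((k₀ : ℝ) + 2) := by positivity
    calc 12 / c ^ 2 ≤ 12 / (η / ((k₀ : ℝ) + 2)) ^ 2 := by gcongr
      _ = _ := by
        field_simp
  have h9 : ‖x - y‖ ^ 2 ≤ 12 * ((k₀ : ℝ) + 2) ^ 2 / η ^ 2 * J := by
    refine h2.trans ?_
    exact mul_le_mul_of_nonneg_right h6 hJ0
  obtain ⟨Q, hQ⟩ : ∃ Q : ℝ, Q = 12 * ((k₀ : ℝ) + 2) ^ 2 / η ^ 2 := ⟨_, rfl⟩
  have hQ0 : 0 ≤ Q := by rw [hQ]; positivity
  have e7 : 48 * ((k₀ : ℝ) + 2) ^ 2 / η ^ 2 = 4 * Q := by rw [hQ]; ring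
  rw [e7]
  rw [← hQ] at h9
  calc ‖riemannZeta (hl t)‖ ^ 2 ≤ 4 * (1 + ‖a‖ ^ 2 + ‖y‖ ^ 2 + ‖x - y‖ ^ 2) := h4
    _ ≤ 4 * (1 + ‖a‖ ^ 2 + ‖y‖ ^ 2 + Q * J) := by gcongr
    _ ≤ (4 + 4 * Q) * (1 + ‖a‖ ^ 2 + ‖y‖ ^ 2 + J) := by
      have : 0 ≤ Q * (1 + ‖a‖ ^ 2 + ‖y‖ ^ 2) := by positivity
      nlinarith

end Pool.Agent.Y766
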