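import Pool.Agent.Y766.W3

/-!
Poisson summation for smooth character sums; the long approximation with polynomial dependence
on `t`.
-/

set_option autoImplicit false

namespace Pool.Agent.Y766

open Finset MeasureTheory
open Pool.Agent.H442R2 Pool.Agent.H442R2.TSM Pool.Agent.H442R2.TSM.TaskTA
open Pool.Agent.H442R2.TSM.TaskQI

/-- smooth character sum of length `N` -/
noncomputable def SS {q : ℕ} (χ : DirichletCharacter ℂ q) (g : ℝ → ℂ) (N : ℝ) : ℂ :=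
  ∑ n ∈ Icc 1 ⌊4 * N⌋₊, χ (n : ZMod q) * g ((n : ℝ) / N)

lemma sum_fin_zmod {q : ℕ} [NeZero q] (F : ZMod q → ℂ) :
    ∑ a : Fin q, F ((a : ℕ) : ZMod q) = ∑ x : ZMod q, F x := by
  have hbij : Function.Bijective (fun a : Fin q => ((a : ℕ) : ZMod q)) := by
    rw [Fintype.bijective_iff_injective_and_card]
    refine ⟨fun a b hab => ?_, by rw [Fintype.card_fin, ZMod.card]⟩
    have h1 : (a : ℕ) ≡ b [MOD q] := (ZMod.natCast_eq_natCast_iff a b q).1 hab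
    exact Fin.ext (h1.eq_of_lt_of_lt a.2 b.2)
  exact Fintype.sum_bijective _ hbij _ _ (fun _ => rfl)

lemma gauss_e {q : ℕ} [NeZero q] {χ : DirichletCharacter ℂ q} (hχ : χ.IsPrimitive) (j : ℤ) :
    ∑ a : Fin q, χ ((a : ℕ) : ZMod q) * KF.e ((j : ℝ) * (((a : ℕ) : ℝ) / q)) =
      χ⁻¹ (j : ZMod q) * gaussSum χ (ZMod.stdAddChar : AddChar (ZMod q) ℂ) := by
  have h1 : ∀ a : Fin q, KF.e ((j : ℝ) * (((a : ℕ) : ℝ) / q)) =
      (ZMod.stdAddChar : AddChar (ZMod q) ℂ) ((j : ZMod q) * ((a : ℕ) : ZMod q)) := by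
    intro a
    have : ((j : ZMod q) * ((a : ℕ) : ZMod q)) = ((j * (a : ℕ) : ℤ) : ZMod q) := by push_cast; rfl
    rw [this, ZMod.stdAddChar_coe]
    unfold KF.e
    congr 1
    push_cast
    ring
  simp_rw [h1]
  rw [sum_fin_zmod (fun x => χ x * (ZMod.stdAddChar : AddChar (ZMod q) ℂ) ((j : ZMod q) * x)),
    ← gaussSum_mulShift_of_isPrimitive _ hχ (j : ZMod q)]
  rfl

lemma pois_char {q : ℕ} [NeZero q] {χ : DirichletCharacter ℂ q} (hχ : χ.IsPrimitive)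
    {f : ℝ → ℂ} (hf : Tst f) {Y : ℝ} (hY : 0 < Y) :
    Summable (fun j : ℤ => χ⁻¹ (j : ZMod q) * Fh f ((j : ℝ) * (Y / q))) ∧
    SS χ f Y = ((Y / q : ℝ) : ℂ) * gaussSum χ (ZMod.stdAddChar : AddChar (ZMod q) ℂ) *
      ∑' j : ℤ, χ⁻¹ (j : ZMod q) * Fh f ((j : ℝ) * (Y / q)) := by
  have hq0 : (0 : ℝ) < q := by exact_mod_cast NeZero.pos q
  set l : ℝ := (q : ℝ) / Y with hl
  have hl0 : 0 < l := by positivity
  have hp := fun a : Fin q => pois f hf l hl0 (((a : ℕ) : ℝ) / q)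
  have hjl : ∀ j : ℤ, (j : ℝ) / l = (j : ℝ) * (Y / q) := by
    intro j
    rw [hl]
    field_simp
  have hs0 : Summable (fun j : ℤ => Fh f ((j : ℝ) * (Y / q))) := by
    have h := (pois f hf l hl0 0).1
    refine h.congr fun j => ?_
    rw [hjl, mul_zero, KF.e_zero, mul_one]
  have hs : Summable (fun j : ℤ => χ⁻¹ (j : ZMod q) * Fh f ((j : ℝ) * (Y / q))) := by
    refine Summable.of_norm_bounded hs0.norm fun j => ?_
    rw [norm_mul]
    exact mul_le_of_le_one_left (norm_nonneg _) (χ⁻¹.norm_le_one _)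
  refine ⟨hs, ?_⟩
  unfold SS
  rw [class_sum χ f hf Y hY]
  have e1 : ∀ a : Fin q, χ ((a : ℕ) : ZMod q) *
        ∑' k : ℤ, f ((q : ℝ) / Y * ((k : ℝ) + ((a : ℕ) : ℝ) / q)) =
      ((1 / l : ℝ) : ℂ) * ∑' j : ℤ, Fh f ((j : ℝ) * (Y / q)) * (χ ((a : ℕ) : ZMod q) *
        KF.e ((j : ℝ) * (((a : ℕ) : ℝ) / q))) := by
    intro a
    rw [(hp a).2, ← tsum_mul_left, ← tsum_mul_left, ← tsum_mul_left]
    refine tsum_congr fun j => ?_
    rw [hjl]
    ring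
  simp_rw [e1]
  rw [← mul_sum]
  have hsa : ∀ a ∈ (univ : Finset (Fin q)), Summable (fun j : ℤ => Fh f ((j : ℝ) * (Y / q)) *
      (χ ((a : ℕ) : ZMod q) * KF.e ((j : ℝ) * (((a : ℕ) : ℝ) / q)))) := by
    intro a _
    refine Summable.of_norm_bounded hs0.norm fun j => ?_
    rw [norm_mul, norm_mul, KF.norm_e, mul_one]
    exact mul_le_of_le_one_right (norm_nonneg _) (χ.norm_le_one _)
  have e2 := Summable.tsum_finsetSum (s := (univ : Finset (Fin q))) (f := fun (a : Fin q) (j : ℤ) =>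
    Fh f ((j : ℝ) * (Y / q)) * (χ ((a : ℕ) : ZMod q) * KF.e ((j : ℝ) * (((a : ℕ) : ℝ) / q)))) hsa
  rw [← e2]
  simp_rw [← mul_sum, gauss_e hχ]
  have e3 : ∑' j : ℤ, Fh f ((j : ℝ) * (Y / q)) * (χ⁻¹ (j : ZMod q) *
      gaussSum χ (ZMod.stdAddChar : AddChar (ZMod q) ℂ)) =
      gaussSum χ (ZMod.stdAddChar : AddChar (ZMod q) ℂ) *
      ∑' j : ℤ, χ⁻¹ (j : ZMod q) * Fh f ((j : ℝ) * (Y / q)) := by
    rw [← tsum_mul_left]
    refine tsum_congr fun j => ?_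
    ring
  rw [e3, show (1 / l : ℝ) = Y / q by rw [hl]; field_simp, mul_assoc]

/-- one dyadic step, with polynomial dependence on `t` -/
lemma stepT : ∃ C : ℝ, 0 < C ∧ ∀ (t : ℝ) (q : ℕ) [NeZero q], ∀ χ : DirichletCharacter ℂ q,
    χ ≠ 1 → ∀ Y : ℝ, (q : ℝ) ^ (4 / 3 : ℝ) ≤ Y →
      ‖Sm χ t (2 * Y) - Sm χ t Y‖ ≤ C * (1 + |t|) ^ 6 / Y := by
  obtain ⟨C0, hC0, h0⟩ := osc_fourier _ tst_half 6
  have hW : Summable (fun j : ℤ => 1 / (j : ℝ) ^ 6) :=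
    Real.summable_one_div_int_pow.2 (by norm_num)
  set W : ℝ := ∑' j : ℤ, 1 / (j : ℝ) ^ 6 with hWd
  have hW0 : 0 ≤ W := tsum_nonneg fun j => by positivity
  refine ⟨C0 * (W + 1), by positivity, ?_⟩
  intro t q _ χ hχ Y hY
  have hq1 : (1 : ℝ) ≤ q := by exact_mod_cast Nat.one_le_iff_ne_zero.2 (NeZero.ne q)
  have hY1 : 1 ≤ Y := (Real.one_le_rpow hq1 (by norm_num)).trans hY
  have hY0 : 0 < Y := by linarith
  have hq0 : (0 : ℝ) < q := by linarith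
  set l : ℝ := (q : ℝ) / Y with hl
  have hl0 : 0 < l := by positivity
  set f : ℝ → ℂ := ph t with hf
  have hft : Tst f := ph_tst t
  set B : ℝ := C0 * ((1 + |t|) * l) ^ 6 * W with hB
  have hB0 : 0 ≤ B := by positivity
  have hR : ∀ x : ℝ, ‖∑' j : ℤ, Fh f ((j : ℝ) / l) * KF.e ((j : ℝ) * x) - Fh f 0‖ ≤ B := by
    intro x
    obtain ⟨hs, -⟩ := pois f hft l hl0 x
    have e1 := hs.tsum_eq_add_tsum_ite (b := 0)
    rw [e1]
    have e2 : Fh f (((0 : ℤ) : ℝ) / l) * KF.e (((0 : ℤ) : ℝ) * x) = Fh f 0 := by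
      rw [Int.cast_zero, zero_div, zero_mul, KF.e_zero, mul_one]
    rw [e2, add_sub_cancel_left]
    have hs2 : HasSum (fun j : ℤ => C0 * ((1 + |t|) * l) ^ 6 * (1 / (j : ℝ) ^ 6)) B :=
      hW.hasSum.mul_left _
    refine tsum_of_norm_bounded hs2 fun j => ?_
    split_ifs with hj
    · rw [norm_zero]
      positivity
    · rw [norm_mul, KF.norm_e, mul_one]
      have hj' : (j : ℝ) ≠ 0 := by exact_mod_cast hj
      have h1 := h0 t 0 0 le_rfl ((j : ℝ) / l) (by positivity)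
      refine h1.trans (le_of_eq ?_)
      rw [abs_div, abs_of_pos hl0, abs_zero, add_zero, add_zero]
      have e3 : (j : ℝ) ^ 6 = |(j : ℝ)| ^ 6 := by
        rw [← abs_pow, abs_of_nonneg (by positivity)]
      have hj2 : |(j : ℝ)| ≠ 0 := abs_ne_zero.2 hj'
      rw [e3]
      field_simp
  rw [Sm_diff χ t Y hY0, class_sum χ f hft Y hY0, norm_mul, pw_norm t Y hY0]
  have key : ∑ a : Fin q, χ ((a : ℕ) : ZMod q) *
        ∑' k : ℤ, f ((q : ℝ) / Y * ((k : ℝ) + ((a : ℕ) : ℝ) / q)) =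
      ((1 / l : ℝ) : ℂ) * ∑ a : Fin q, χ ((a : ℕ) : ZMod q) *
        (∑' j : ℤ, Fh f ((j : ℝ) / l) * KF.e ((j : ℝ) * (((a : ℕ) : ℝ) / q)) - Fh f 0) := by
    have e4 : ∑ a : Fin q, χ ((a : ℕ) : ZMod q) * Fh f 0 = 0 := by
      rw [← sum_mul, char_sum0 hχ, zero_mul]
    have e5 : ∑ a : Fin q, χ ((a : ℕ) : ZMod q) *
        (∑' j : ℤ, Fh f ((j : ℝ) / l) * KF.e ((j : ℝ) * (((a : ℕ) : ℝ) / q)) - Fh f 0) =
        ∑ a : Fin q, χ ((a : ℕ) : ZMod q) *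
        ∑' j : ℤ, Fh f ((j : ℝ) / l) * KF.e ((j : ℝ) * (((a : ℕ) : ℝ) / q)) := by
      simp_rw [mul_sub]
      rw [sum_sub_distrib, e4, sub_zero]
    rw [e5, mul_sum]
    refine sum_congr rfl fun a _ => ?_
    rw [(pois f hft l hl0 (((a : ℕ) : ℝ) / q)).2]
    ring
  rw [key, norm_mul, Complex.norm_real, Real.norm_eq_abs, abs_of_pos (by positivity)]
  have h5 : ‖∑ a : Fin q, χ ((a : ℕ) : ZMod q) *
        (∑' j : ℤ, Fh f ((j : ℝ) / l) * KF.e ((j : ℝ) * (((a : ℕ) : ℝ) / q)) - Fh f 0)‖ ≤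
      q * B := by
    refine (norm_sum_le _ _).trans ?_
    calc _ ≤ ∑ a : Fin q, B := by
          refine sum_le_sum fun a _ => ?_
          rw [norm_mul]
          calc _ ≤ 1 * B := mul_le_mul (χ.norm_le_one _) (hR _) (norm_nonneg _) zero_le_one
            _ = B := one_mul B
      _ = q * B := by simp
  calc Y ^ (-(1 / 2) : ℝ) * (1 / l * ‖_‖) ≤ Y ^ (-(1 / 2) : ℝ) * (1 / l * (q * B)) := by gcongr
    _ = (Y ^ (-(1 / 2) : ℝ) * (Y * ((q : ℝ) / Y) ^ 6)) * (C0 * (1 + |t|) ^ 6 * W) := by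
        rw [hB, hl]
        field_simp
    _ ≤ (1 / Y) * (C0 * (1 + |t|) ^ 6 * (W + 1)) := by
        have := pow_help (q := q) hY0 hY
        gcongr
        linarith
    _ = _ := by ring

lemma apxT : ∃ C : ℝ, 0 < C ∧ ∀ (t : ℝ) (q : ℕ) [NeZero q], ∀ χ : DirichletCharacter ℂ q,
    χ ≠ 1 → ∀ Y : ℝ, (q : ℝ) ^ (4 / 3 : ℝ) ≤ Y →
    ‖χ.LFunction (1 / 2 + (t : ℂ) * Complex.I) - Sm χ t Y‖ ≤ C * (1 + |t|) ^ 6 := by
  obtain ⟨C, hC, h⟩ := stepT
  refine ⟨2 * C, by positivity, ?_⟩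
  intro t q _ χ hχ Y hY
  have hq1 : (1 : ℝ) ≤ q := by exact_mod_cast Nat.one_le_iff_ne_zero.2 (NeZero.ne q)
  have hY1 : 1 ≤ Y := (Real.one_le_rpow hq1 (by norm_num)).trans hY
  have hY0 : 0 < Y := by linarith
  obtain ⟨K, hK, hlim⟩ := lim hχ t
  set L := χ.LFunction (1 / 2 + (t : ℂ) * Complex.I) with hL
  set D := C * (1 + |t|) ^ 6 with hD
  have hD0 : 0 < D := by positivity
  have hmain : ∀ n : ℕ, 1 ≤ n →
      ‖L - Sm χ t Y‖ ≤ K * ((2 ^ n * Y) / 2) ^ (-(1 / 2) : ℝ) + 2 * (D / Y) := by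
    intro n hn
    have h1 := iter χ t D Y hY0 hY (h t q χ hχ) n
    have h2n : (2 : ℝ) ≤ 2 ^ n := by
      calc (2 : ℝ) = 2 ^ 1 := (pow_one _).symm
        _ ≤ _ := pow_le_pow_right₀ (by norm_num) hn
    have h2 := hlim (2 ^ n * Y) (by nlinarith)
    have e : L - Sm χ t Y = -(Sm χ t (2 ^ n * Y) - L) + (Sm χ t (2 ^ n * Y) - Sm χ t Y) := by ring
    rw [e]
    refine (norm_add_le _ _).trans ?_
    rw [norm_neg]
    refine add_le_add h2 (h1.trans ?_)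
    have h3 : (0 : ℝ) ≤ 2 / 2 ^ n := by positivity
    have h4 : 0 ≤ D / Y := by positivity
    nlinarith
  have htend : Filter.Tendsto (fun n : ℕ => K * ((2 ^ n * Y) / 2) ^ (-(1 / 2) : ℝ) + 2 * (D / Y))
      Filter.atTop (nhds (K * 0 + 2 * (D / Y))) := by
    refine Filter.Tendsto.add_const _ (Filter.Tendsto.const_mul _ ?_)
    refine (tendsto_rpow_neg_atTop (y := 1 / 2) (by norm_num)).comp ?_
    refine Filter.Tendsto.atTop_div_const (by norm_num) ?_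
    exact Filter.Tendsto.atTop_mul_const hY0 (tendsto_pow_atTop_atTop_of_one_lt (by norm_num))
  have hfin : ‖L - Sm χ t Y‖ ≤ K * 0 + 2 * (D / Y) :=
    ge_of_tendsto htend (Filter.eventually_atTop.2 ⟨1, hmain⟩)
  refine hfin.trans ?_
  rw [mul_zero, zero_add]
  have : D / Y ≤ D := div_le_self hD0.le hY1
  calc 2 * (D / Y) ≤ 2 * D := by gcongr
    _ = _ := by rw [hD]; ring

end Pool.Agent.Y766
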