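import Pool.Agent.Y766.A1

/-!
The dual side: dyadic decomposition.
-/

set_option autoImplicit false

namespace Pool.Agent.Y766

open Finset MeasureTheory
open Pool.Agent.H442R2 Pool.Agent.H442R2.TSM Pool.Agent.H442R2.TSM.TaskTA
open Pool.Agent.H442R2.TSM.TaskQI

lemma two_sided {q : ℕ} [NeZero q] (hq : 1 < q) (χ : DirichletCharacter ℂ q) (F : ℝ → ℂ) (v : ℝ)
    (hs : Summable (fun j : ℤ => χ (j : ZMod q) * F ((j : ℝ) * v))) :
    ‖∑' j : ℤ, χ (j : ZMod q) * F ((j : ℝ) * v)‖ ≤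
      ‖∑' n : ℕ, χ ((n + 1 : ℕ) : ZMod q) * F (((n + 1 : ℕ) : ℝ) * v)‖ +
      ‖∑' n : ℕ, χ ((n + 1 : ℕ) : ZMod q) * F (((n + 1 : ℕ) : ℝ) * (-v))‖ := by
  set a : ℤ → ℂ := fun j => χ (j : ZMod q) * F ((j : ℝ) * v) with ha
  have hs1 : Summable (fun n : ℕ => a n) := hs.comp_injective Nat.cast_injective
  have hs2 : Summable (fun n : ℕ => a (-(n + 1 : ℤ))) := by
    refine hs.comp_injective (i := fun n : ℕ => (-(n + 1 : ℤ))) fun x y h => ?_
    simpa using h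
  have h0 : a 0 = 0 := by
    simp only [ha]
    have h0' : χ ((0 : ℤ) : ZMod q) = 0 := by
      have hnt : Nontrivial (ZMod q) := ZMod.nontrivial_iff.2 (by omega)
      rw [Int.cast_zero]
      exact χ.map_nonunit (by simp)
    rw [h0', zero_mul]
  rw [tsum_of_nat_of_neg_add_one hs1 hs2, hs1.tsum_eq_zero_add]
  refine (norm_add_le _ _).trans (add_le_add (le_of_eq ?_) (le_of_eq ?_))
  · rw [show a ((0 : ℕ) : ℤ) = 0 from h0, zero_add]
    congr 1
    refine tsum_congr fun n => ?_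
    simp only [ha]
    push_cast
    rfl
  · have e : ∀ n : ℕ, a (-(n + 1 : ℤ)) = χ (-1) *
        (χ ((n + 1 : ℕ) : ZMod q) * F (((n + 1 : ℕ) : ℝ) * (-v))) := by
      intro n
      simp only [ha]
      rw [← mul_assoc, ← map_mul]
      congr 2
      · push_cast; ring
      · push_cast; ring
    simp_rw [e]
    rw [tsum_mul_left, norm_mul]
    have : ‖χ (-1)‖ = 1 := by
      have h2 : χ (-1) * χ (-1) = 1 := by rw [← map_mul]; simp
      have h3 : ‖χ (-1)‖ * ‖χ (-1)‖ = 1 := by rw [← norm_mul, h2, norm_one]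
      nlinarith [norm_nonneg (χ (-1))]
    rw [this, one_mul]

/-- dyadic points -/
noncomputable def Md (i : ℕ) : ℝ := 2 ^ i / 4

lemma Md_pos (i : ℕ) : 0 < Md i := by unfold Md; positivity

lemma Md_succ (i : ℕ) : Md (i + 1) = 2 * Md i := by unfold Md; ring

lemma floor_Md (i : ℕ) : ⌊4 * Md i⌋₊ = 2 ^ i := by
  unfold Md
  rw [show (4 : ℝ) * (2 ^ i / 4) = ((2 ^ i : ℕ) : ℝ) by push_cast; ring, Nat.floor_natCast]

lemma part (n : ℕ) (hn : 1 ≤ n) (I : ℕ) :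
    ∑ i ∈ range (I + 1), Bu ((n : ℝ) / Md i) = Cu ((n : ℝ) / (2 * Md I)) := by
  have h : ∀ i : ℕ, Bu ((n : ℝ) / Md i) = Cu ((n : ℝ) / Md (i + 1)) - Cu ((n : ℝ) / Md i) := by
    intro i
    unfold Bu
    rw [Md_succ]
    congr 2
    have := (Md_pos i).ne'
    field_simp
  simp_rw [h]
  rw [sum_range_sub (fun i => Cu ((n : ℝ) / Md i)), Md_succ]
  have : Cu ((n : ℝ) / Md 0) = 0 := by
    apply cu_facts.2.2.2
    have : (1 : ℝ) ≤ n := by exact_mod_cast hn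
    unfold Md
    rw [le_div_iff₀ (by norm_num)]
    norm_num
    linarith
  rw [this, sub_zero]

lemma split_dyadic {q : ℕ} [NeZero q] (χ : DirichletCharacter ℂ q) (F : ℝ → ℂ) (v : ℝ) (I : ℕ)
    (hs : Summable (fun n : ℕ => ‖F (((n + 1 : ℕ) : ℝ) * v)‖)) :
    ‖∑' n : ℕ, χ ((n + 1 : ℕ) : ZMod q) * F (((n + 1 : ℕ) : ℝ) * v)‖ ≤
      ∑ i ∈ range (I + 1), ‖∑ n ∈ Icc 1 ⌊4 * Md i⌋₊, χ (n : ZMod q) *
        (((Bu ((n : ℝ) / Md i) : ℝ) : ℂ) * F ((n : ℝ) * v))‖ +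
      ∑' n : ℕ, (if 2 * Md I < ((n + 1 : ℕ) : ℝ) then ‖F (((n + 1 : ℕ) : ℝ) * v)‖ else 0) := by
  set a : ℕ → ℂ := fun n => χ (n : ZMod q) * F ((n : ℝ) * v) with ha
  set c : ℕ → ℝ := fun n => Cu ((n : ℝ) / (2 * Md I)) with hc
  have hMI := Md_pos I
  have hs0 : Summable (fun n : ℕ => ‖a (n + 1)‖) := by
    refine Summable.of_nonneg_of_le (fun _ => norm_nonneg _) (fun n => ?_) hs
    simp only [ha]
    rw [norm_mul]
    exact mul_le_of_le_one_left (norm_nonneg _) (χ.norm_le_one _)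
  have hc01 : ∀ n, 0 ≤ c n ∧ c n ≤ 1 := fun n => cu_facts.2.1 _
  have hs1 : Summable (fun n : ℕ => a (n + 1) * (c (n + 1) : ℂ)) := by
    refine Summable.of_norm_bounded hs0 fun n => ?_
    rw [norm_mul, Complex.norm_real, Real.norm_eq_abs, abs_of_nonneg (hc01 _).1]
    exact mul_le_of_le_one_right (norm_nonneg _) (hc01 _).2
  have hs2 : Summable (fun n : ℕ => a (n + 1) * ((1 - c (n + 1) : ℝ) : ℂ)) := by
    refine Summable.of_norm_bounded hs0 fun n => ?_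
    rw [norm_mul, Complex.norm_real, Real.norm_eq_abs, abs_of_nonneg (by linarith [(hc01 (n+1)).2])]
    exact mul_le_of_le_one_right (norm_nonneg _) (by linarith [(hc01 (n+1)).1])
  have e1 : ∑' n : ℕ, a (n + 1) = ∑' n : ℕ, a (n + 1) * (c (n + 1) : ℂ) +
      ∑' n : ℕ, a (n + 1) * ((1 - c (n + 1) : ℝ) : ℂ) := by
    rw [← hs1.tsum_add hs2]
    refine tsum_congr fun n => ?_
    push_cast
    ring
  have e2 : ∑' n : ℕ, a (n + 1) * (c (n + 1) : ℂ) = ∑ n ∈ Icc 1 (2 ^ I), a n * (c n : ℂ) := by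
    rw [tsum_eq_sum (s := range (2 ^ I))]
    · rw [range_eq_Ico, sum_Ico_add' (fun n => a n * (c n : ℂ)) 0 (2 ^ I) 1]
      rfl
    · intro n hn
      rw [mem_range, not_lt] at hn
      have : c (n + 1) = 0 := by
        apply cu_facts.2.2.2
        rw [le_div_iff₀ (by positivity)]
        have h1 : ((2 ^ I : ℕ) : ℝ) ≤ (n : ℝ) := by exact_mod_cast hn
        push_cast at h1 ⊢
        unfold Md
        linarith
      rw [this]
      simp
  have e3 : ∑ n ∈ Icc 1 (2 ^ I), a n * (c n : ℂ) = ∑ i ∈ range (I + 1),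
      ∑ n ∈ Icc 1 ⌊4 * Md i⌋₊, χ (n : ZMod q) * (((Bu ((n : ℝ) / Md i) : ℝ) : ℂ) *
        F ((n : ℝ) * v)) := by
    have h1 : ∀ n ∈ Icc 1 (2 ^ I), a n * (c n : ℂ) = ∑ i ∈ range (I + 1),
        χ (n : ZMod q) * (((Bu ((n : ℝ) / Md i) : ℝ) : ℂ) * F ((n : ℝ) * v)) := by
      intro n hn
      rw [mem_Icc] at hn
      simp only [hc, ha]
      rw [← part n hn.1 I]
      push_cast
      rw [mul_sum]
      refine sum_congr rfl fun i _ => ?_
      ring
    rw [sum_congr rfl h1, sum_comm]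
    refine sum_congr rfl fun i hi => ?_
    rw [mem_range] at hi
    rw [floor_Md]
    refine (sum_subset (Icc_subset_Icc_right (Nat.pow_le_pow_right (by norm_num) (by omega)))
      fun n hn hn' => ?_).symm
    rw [mem_Icc] at hn hn'
    have h2 : 2 ^ i < n := by
      by_contra h
      exact hn' ⟨hn.1, by omega⟩
    have : Bu ((n : ℝ) / Md i) = 0 := by
      apply bu_facts.2.2.2.1
      rw [le_div_iff₀ (Md_pos i)]
      have h3 : ((2 ^ i : ℕ) : ℝ) ≤ (n : ℝ) := by exact_mod_cast h2.le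
      push_cast at h3
      unfold Md
      linarith
    rw [this]
    simp
  have e0 : ∑' n : ℕ, χ ((n + 1 : ℕ) : ZMod q) * F (((n + 1 : ℕ) : ℝ) * v) =
      ∑' n : ℕ, a (n + 1) := rfl
  rw [e0, e1, e2, e3]
  refine (norm_add_le _ _).trans (add_le_add (norm_sum_le _ _) ?_)
  have hs3 : Summable (fun n : ℕ => (if 2 * Md I < ((n + 1 : ℕ) : ℝ) then
      ‖F (((n + 1 : ℕ) : ℝ) * v)‖ else 0)) := by
    refine Summable.of_nonneg_of_le (fun n => ?_) (fun n => ?_) hs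
    · split_ifs
      · exact norm_nonneg _
      · exact le_rfl
    · split_ifs
      · exact le_rfl
      · exact norm_nonneg _
  refine tsum_of_norm_bounded hs3.hasSum fun n => ?_
  split_ifs with h
  · rw [norm_mul, Complex.norm_real, Real.norm_eq_abs, abs_of_nonneg (by linarith [(hc01 (n+1)).2])]
    refine (mul_le_of_le_one_right (norm_nonneg _) (by linarith [(hc01 (n+1)).1])).trans ?_
    simp only [ha]
    rw [norm_mul]
    exact mul_le_of_le_one_left (norm_nonneg _) (χ.norm_le_one _)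
  · have : c (n + 1) = 1 := by
      apply cu_facts.2.2.1
      rw [div_le_one (by positivity)]
      push Not at h
      exact h
    rw [this]
    simp

lemma piece_eq {q : ℕ} [NeZero q] (χ : DirichletCharacter ℂ q) (f : ℝ → ℂ) (v M : ℝ)
    (hv : v ≠ 0) (hM : 0 < M) :
    ‖∑ n ∈ Icc 1 ⌊4 * M⌋₊, χ (n : ZMod q) * (((Bu ((n : ℝ) / M) : ℝ) : ℂ) * Fh f ((n : ℝ) * v))‖ =
      |v| ^ (-(1 / 2) : ℝ) * (M ^ (-(1 / 2) : ℝ) * ‖SS χ (dw f (v * M)) M‖) := by
  have hv0 : 0 < |v| := abs_pos.2 hv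
  have e : SS χ (dw f (v * M)) M = ((|v * M| ^ (1 / 2 : ℝ) : ℝ) : ℂ) *
      ∑ n ∈ Icc 1 ⌊4 * M⌋₊, χ (n : ZMod q) * (((Bu ((n : ℝ) / M) : ℝ) : ℂ) *
        Fh f ((n : ℝ) * v)) := by
    unfold SS dw
    rw [mul_sum]
    refine sum_congr rfl fun n _ => ?_
    have : v * M * ((n : ℝ) / M) = (n : ℝ) * v := by field_simp
    rw [this]
    ring
  have hvM : 0 ≤ |v * M| ^ (1 / 2 : ℝ) := Real.rpow_nonneg (abs_nonneg _) _
  rw [e, norm_mul, Complex.norm_real, Real.norm_eq_abs, abs_of_nonneg hvM, abs_mul,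
    abs_of_pos hM, Real.mul_rpow hv0.le hM.le, Real.rpow_neg hv0.le, Real.rpow_neg hM.le]
  have h1 : |v| ^ (1 / 2 : ℝ) ≠ 0 := (Real.rpow_pos_of_pos hv0 _).ne'
  have h2 : M ^ (1 / 2 : ℝ) ≠ 0 := (Real.rpow_pos_of_pos hM _).ne'
  generalize ‖∑ n ∈ Icc 1 ⌊4 * M⌋₊, χ (n : ZMod q) * (((Bu ((n : ℝ) / M) : ℝ) : ℂ) *
        Fh f ((n : ℝ) * v))‖ = X
  field_simp

lemma norm_SS_inv {q : ℕ} [NeZero q] (χ : DirichletCharacter ℂ q) (g : ℝ → ℂ) (M : ℝ) :
    ‖SS χ⁻¹ g M‖ = ‖SS χ (fun x => (starRingEnd ℂ) (g x)) M‖ := by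
  have e : SS χ⁻¹ g M = (starRingEnd ℂ) (SS χ (fun x => (starRingEnd ℂ) (g x)) M) := by
    unfold SS
    rw [map_sum]
    refine sum_congr rfl fun n _ => ?_
    rw [map_mul, Complex.conj_conj]
    congr 1
    rw [starRingEnd_apply, MulChar.star_apply']
  rw [e, Complex.norm_conj]

end Pool.Agent.Y766
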