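import Pool.Agent.Y766.A2

/-!
`L(1/2 + it, χ)` by smooth sums of length at most `q^(1/2+ε)`.
-/

set_option autoImplicit false

namespace Pool.Agent.Y766

open Finset MeasureTheory
open Pool.Agent.H442R2 Pool.Agent.H442R2.TSM Pool.Agent.H442R2.TSM.TaskTA
open Pool.Agent.H442R2.TSM.TaskQI

lemma summable_sq : Summable (fun n : ℕ => 1 / (((n + 1 : ℕ) : ℝ)) ^ 2) :=
  (summable_nat_add_iff 1).2 (Real.summable_one_div_nat_pow.2 (by norm_num : 1 < 2))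

lemma tail_le (B : ℕ) : ∃ C : ℝ, 0 < C ∧ ∀ t v : ℝ, v ≠ 0 →
    Summable (fun n : ℕ => ‖Fh (ph t) (((n + 1 : ℕ) : ℝ) * v)‖) ∧ ∀ I : ℕ,
    ∑' n : ℕ, (if 2 * Md I < ((n + 1 : ℕ) : ℝ) then ‖Fh (ph t) (((n + 1 : ℕ) : ℝ) * v)‖ else 0) ≤
      C * (1 + |t|) ^ (B + 2) / |v| ^ (B + 2) / (2 * Md I) ^ B := by
  obtain ⟨C, hC, h⟩ := fh_decay tst_half (B + 2)
  set Z : ℝ := ∑' n : ℕ, 1 / (((n + 1 : ℕ) : ℝ)) ^ 2 with hZ
  have hZ0 : 0 ≤ Z := tsum_nonneg fun n => by positivity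
  refine ⟨C * (Z + 1), by positivity, fun t v hv => ?_⟩
  have hv0 : 0 < |v| := abs_pos.2 hv
  set T := (1 + |t|) ^ (B + 2) with hT
  have hT0 : 0 < T := by positivity
  have hb : ∀ n : ℕ, ‖Fh (ph t) (((n + 1 : ℕ) : ℝ) * v)‖ ≤
      C * T / |v| ^ (B + 2) / ((n + 1 : ℕ) : ℝ) ^ (B + 2) := by
    intro n
    have h1 := (h t (((n + 1 : ℕ) : ℝ) * v)).2
    have hn : (0 : ℝ) < ((n + 1 : ℕ) : ℝ) := by positivity
    rw [abs_mul, abs_of_pos hn, mul_pow] at h1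
    rw [div_div, le_div_iff₀ (by positivity)]
    calc _ = ‖Fh (ph t) (((n + 1 : ℕ) : ℝ) * v)‖ * (((n + 1 : ℕ) : ℝ) ^ (B + 2) * |v| ^ (B + 2)) := by
          ring
      _ ≤ _ := h1
  have hs : Summable (fun n : ℕ => ‖Fh (ph t) (((n + 1 : ℕ) : ℝ) * v)‖) := by
    refine Summable.of_nonneg_of_le (fun _ => norm_nonneg _) (fun n => ?_)
      (summable_sq.mul_left (C * T / |v| ^ (B + 2)))
    refine (hb n).trans ?_
    rw [mul_one_div]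
    have : (1 : ℝ) ≤ ((n + 1 : ℕ) : ℝ) := by push_cast; linarith [Nat.cast_nonneg (α := ℝ) n]
    have h2 : ((n + 1 : ℕ) : ℝ) ^ 2 ≤ ((n + 1 : ℕ) : ℝ) ^ (B + 2) :=
      pow_le_pow_right₀ this (by omega)
    gcongr
  refine ⟨hs, fun I => ?_⟩
  have hM := Md_pos I
  have hsum : HasSum (fun n : ℕ => C * T / |v| ^ (B + 2) / (2 * Md I) ^ B *
      (1 / (((n + 1 : ℕ) : ℝ)) ^ 2)) (C * T / |v| ^ (B + 2) / (2 * Md I) ^ B * Z) :=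
    summable_sq.hasSum.mul_left _
  have hs3 : Summable (fun n : ℕ => (if 2 * Md I < ((n + 1 : ℕ) : ℝ) then
      ‖Fh (ph t) (((n + 1 : ℕ) : ℝ) * v)‖ else 0)) := by
    refine Summable.of_nonneg_of_le (fun n => ?_) (fun n => ?_) hs
    · split_ifs
      · exact norm_nonneg _
      · exact le_rfl
    · split_ifs
      · exact le_rfl
      · exact norm_nonneg _
  have h5 : ∑' n : ℕ, (if 2 * Md I < ((n + 1 : ℕ) : ℝ) then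
      ‖Fh (ph t) (((n + 1 : ℕ) : ℝ) * v)‖ else 0) ≤ C * T / |v| ^ (B + 2) / (2 * Md I) ^ B * Z := by
    refine hasSum_le (fun n => ?_) hs3.hasSum hsum
    split_ifs with hn
    · refine (hb n).trans ?_
      rw [pow_add ((n + 1 : ℕ) : ℝ), ← div_div, div_div (C * T / |v| ^ (B + 2)), mul_one_div,
        div_div (C * T / |v| ^ (B + 2))]
      have : (2 * Md I) ^ B ≤ ((n + 1 : ℕ) : ℝ) ^ B := pow_le_pow_left₀ (by positivity) hn.le B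
      gcongr
    · positivity
  refine h5.trans ?_
  calc _ ≤ C * T / |v| ^ (B + 2) / (2 * Md I) ^ B * (Z + 1) := by gcongr; linarith
    _ = _ := by ring

/-- the dual decomposition of one dyadic piece -/
lemma dual_piece (B : ℕ) : ∃ C : ℝ, 0 < C ∧ ∀ (t : ℝ) (q : ℕ) [NeZero q], 1 < q →
    ∀ χ : DirichletCharacter ℂ q, χ.IsPrimitive → ∀ (Y : ℝ) (I : ℕ), 0 < Y →
    Y ^ (-(1 / 2) : ℝ) * ‖SS χ (ph t) Y‖ ≤ ∑ i ∈ range (I + 1), Md i ^ (-(1 / 2) : ℝ) *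
      (‖SS χ (fun x => (starRingEnd ℂ) (dw (ph t) (Y / q * Md i) x)) (Md i)‖ +
       ‖SS χ (fun x => (starRingEnd ℂ) (dw (ph t) (-(Y / q) * Md i) x)) (Md i)‖) +
      C * (1 + |t|) ^ (B + 2) * ((Y / q) ^ (1 / 2 : ℝ) / (Y / q) ^ (B + 2) / (2 * Md I) ^ B) := by
  obtain ⟨C, hC, h⟩ := tail_le B
  refine ⟨2 * C, by positivity, fun t q _ hq χ hχ Y I hY => ?_⟩
  have hq0 : (0 : ℝ) < q := by exact_mod_cast NeZero.pos q
  set v : ℝ := Y / q with hv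
  have hv0 : 0 < v := by positivity
  obtain ⟨hs, e⟩ := pois_char hχ (ph_tst t) hY
  obtain ⟨s1, t1⟩ := h t v hv0.ne'
  obtain ⟨s2, t2⟩ := h t (-v) (neg_ne_zero.2 hv0.ne')
  have hg : ‖gaussSum χ (ZMod.stdAddChar : AddChar (ZMod q) ℂ)‖ = (q : ℝ) ^ (1 / 2 : ℝ) := by
    have h1 := Pool.Agent.Helper112.MLS.norm_gauss q hχ
    rw [← Real.sqrt_eq_rpow, ← h1, Real.sqrt_sq (norm_nonneg _)]
  have d1 := split_dyadic χ⁻¹ (Fh (ph t)) v I s1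
  have d2 := split_dyadic χ⁻¹ (Fh (ph t)) (-v) I s2
  have p1 : ∀ i, ‖∑ n ∈ Icc 1 ⌊4 * Md i⌋₊, χ⁻¹ (n : ZMod q) *
        (((Bu ((n : ℝ) / Md i) : ℝ) : ℂ) * Fh (ph t) ((n : ℝ) * v))‖ =
      v ^ (-(1 / 2) : ℝ) * (Md i ^ (-(1 / 2) : ℝ) *
        ‖SS χ (fun x => (starRingEnd ℂ) (dw (ph t) (v * Md i) x)) (Md i)‖) := by
    intro i
    rw [piece_eq χ⁻¹ (ph t) v (Md i) hv0.ne' (Md_pos i), abs_of_pos hv0, norm_SS_inv]
  have p2 : ∀ i, ‖∑ n ∈ Icc 1 ⌊4 * Md i⌋₊, χ⁻¹ (n : ZMod q) *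
        (((Bu ((n : ℝ) / Md i) : ℝ) : ℂ) * Fh (ph t) ((n : ℝ) * (-v)))‖ =
      v ^ (-(1 / 2) : ℝ) * (Md i ^ (-(1 / 2) : ℝ) *
        ‖SS χ (fun x => (starRingEnd ℂ) (dw (ph t) (-v * Md i) x)) (Md i)‖) := by
    intro i
    rw [piece_eq χ⁻¹ (ph t) (-v) (Md i) (neg_ne_zero.2 hv0.ne') (Md_pos i), abs_neg,
      abs_of_pos hv0, norm_SS_inv]
  simp_rw [p1] at d1
  simp_rw [p2] at d2
  rw [← mul_sum] at d1 d2
  have t1' := t1 I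
  have t2' := t2 I
  rw [abs_of_pos hv0] at t1'
  rw [abs_neg, abs_of_pos hv0] at t2'
  have hts := two_sided hq χ⁻¹ (Fh (ph t)) v hs
  set S1 := ∑ i ∈ range (I + 1), Md i ^ (-(1 / 2) : ℝ) *
        ‖SS χ (fun x => (starRingEnd ℂ) (dw (ph t) (v * Md i) x)) (Md i)‖ with hS1
  set S2 := ∑ i ∈ range (I + 1), Md i ^ (-(1 / 2) : ℝ) *
        ‖SS χ (fun x => (starRingEnd ℂ) (dw (ph t) (-v * Md i) x)) (Md i)‖ with hS2
  have e2 : ∑ i ∈ range (I + 1), Md i ^ (-(1 / 2) : ℝ) *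
      (‖SS χ (fun x => (starRingEnd ℂ) (dw (ph t) (v * Md i) x)) (Md i)‖ +
       ‖SS χ (fun x => (starRingEnd ℂ) (dw (ph t) (-v * Md i) x)) (Md i)‖) = S1 + S2 := by
    rw [hS1, hS2, ← sum_add_distrib]
    refine sum_congr rfl fun i _ => by ring
  rw [e2, e, norm_mul, norm_mul, hg, Complex.norm_real, Real.norm_eq_abs, abs_of_pos hv0]
  have hcoef : Y ^ (-(1 / 2) : ℝ) * (v * (q : ℝ) ^ (1 / 2 : ℝ)) = v ^ (1 / 2 : ℝ) := by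
    have hYe : Y = v * q := by rw [hv]; field_simp
    rw [hYe, Real.mul_rpow hv0.le hq0.le]
    have h1 : v = v ^ (1 / 2 : ℝ) * v ^ (1 / 2 : ℝ) := by
      rw [← Real.rpow_add hv0]; norm_num
    have h2 : v ^ (-(1 / 2) : ℝ) * v ^ (1 / 2 : ℝ) = 1 := by
      rw [← Real.rpow_add hv0]; norm_num
    have h3 : (q : ℝ) ^ (-(1 / 2) : ℝ) * (q : ℝ) ^ (1 / 2 : ℝ) = 1 := by
      rw [← Real.rpow_add hq0]; norm_num
    calc v ^ (-(1 / 2) : ℝ) * (q : ℝ) ^ (-(1 / 2) : ℝ) * (v * (q : ℝ) ^ (1 / 2 : ℝ))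
        = (v ^ (-(1 / 2) : ℝ) * v) * ((q : ℝ) ^ (-(1 / 2) : ℝ) * (q : ℝ) ^ (1 / 2 : ℝ)) := by ring
      _ = v ^ (-(1 / 2) : ℝ) * v := by rw [h3, mul_one]
      _ = (v ^ (-(1 / 2) : ℝ) * v ^ (1 / 2 : ℝ)) * v ^ (1 / 2 : ℝ) := by
          rw [mul_assoc, ← h1]
      _ = _ := by rw [h2, one_mul]
  have hvv : v ^ (1 / 2 : ℝ) * v ^ (-(1 / 2) : ℝ) = 1 := by
    rw [← Real.rpow_add hv0]; norm_num
  set R := C * (1 + |t|) ^ (B + 2) / v ^ (B + 2) / (2 * Md I) ^ B with hR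
  calc Y ^ (-(1 / 2) : ℝ) * (v * (q : ℝ) ^ (1 / 2 : ℝ) * ‖∑' j : ℤ, χ⁻¹ (j : ZMod q) *
        Fh (ph t) ((j : ℝ) * v)‖)
      = v ^ (1 / 2 : ℝ) * ‖∑' j : ℤ, χ⁻¹ (j : ZMod q) * Fh (ph t) ((j : ℝ) * v)‖ := by
        rw [← hcoef]; ring
    _ ≤ v ^ (1 / 2 : ℝ) * ((v ^ (-(1 / 2) : ℝ) * S1 + R) + (v ^ (-(1 / 2) : ℝ) * S2 + R)) := by
        gcongr
        refine hts.trans (add_le_add (d1.trans ?_) (d2.trans ?_))
        · gcongr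
        · gcongr
    _ = (v ^ (1 / 2 : ℝ) * v ^ (-(1 / 2) : ℝ)) * (S1 + S2) + 2 * v ^ (1 / 2 : ℝ) * R := by ring
    _ = _ := by rw [hvv, one_mul, hR]; ring

end Pool.Agent.Y766
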