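import Pool.Agent.Y766.A3

/-!
`L(1/2 + it, χ)` by smooth sums of length at most `q^(1/2+ε)`: final form.
-/

set_option autoImplicit false

namespace Pool.Agent.Y766

open Finset MeasureTheory
open Pool.Agent.H442R2 Pool.Agent.H442R2.TSM Pool.Agent.H442R2.TSM.TaskTA
open Pool.Agent.H442R2.TSM.TaskQI

lemma nat_le_pow {δ : ℝ} (hδ : 0 < δ) (n : ℕ) :
    (n : ℝ) ≤ (1 / (δ * Real.log 2)) * ((2 : ℝ) ^ n) ^ δ := by
  have hl : 0 < Real.log 2 := Real.log_pos (by norm_num)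
  have e : ((2 : ℝ) ^ n) ^ δ = Real.exp (n * (δ * Real.log 2)) := by
    rw [← Real.rpow_natCast, ← Real.rpow_mul (by norm_num), Real.rpow_def_of_pos (by norm_num)]
    congr 1
    ring
  have h := Real.add_one_le_exp ((n : ℝ) * (δ * Real.log 2))
  rw [e, one_div, inv_mul_eq_div, le_div_iff₀ (by positivity)]
  linarith

lemma tail_num {q : ℕ} (hq : 1 < q) {ε : ℝ} {B : ℕ} (hB : 2 ≤ ε * B) {Y M : ℝ}
    (hY : (q : ℝ) ^ (1 / 2 : ℝ) ≤ Y) (hM : (q : ℝ) ^ (1 / 2 + ε) ≤ M) :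
    (Y / q) ^ (1 / 2 : ℝ) / (Y / q) ^ (B + 2) / M ^ B ≤ 1 / q := by
  have hq1 : (1 : ℝ) < q := by exact_mod_cast hq
  have hq0 : (0 : ℝ) < q := by linarith
  have hY0 : 0 < Y := lt_of_lt_of_le (by positivity) hY
  have hM0 : 0 < M := lt_of_lt_of_le (by positivity) hM
  set v := Y / q with hv
  have hv0 : 0 < v := by positivity
  have hvq : (q : ℝ) ^ (-(1 / 2) : ℝ) ≤ v := by
    rw [hv, le_div_iff₀ hq0]
    calc _ = (q : ℝ) ^ (1 / 2 : ℝ) := by
          nth_rw 2 [← Real.rpow_one (q : ℝ)]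
          rw [← Real.rpow_add hq0]; norm_num
      _ ≤ Y := hY
  have e1 : v ^ (1 / 2 : ℝ) / v ^ (B + 2) = v ^ (-((B : ℝ) + 3 / 2)) := by
    rw [← Real.rpow_natCast v (B + 2), ← Real.rpow_sub hv0]
    congr 1
    push_cast
    ring
  have e2 : v ^ (-((B : ℝ) + 3 / 2)) ≤ (q : ℝ) ^ (((B : ℝ) + 3 / 2) / 2) := by
    calc _ ≤ ((q : ℝ) ^ (-(1 / 2) : ℝ)) ^ (-((B : ℝ) + 3 / 2)) :=
          Real.rpow_le_rpow_of_nonpos (by positivity) hvq (by
            have : (0 : ℝ) ≤ B := Nat.cast_nonneg _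
            linarith)
      _ = _ := by rw [← Real.rpow_mul hq0.le]; congr 1; ring
  have e3 : (q : ℝ) ^ ((1 / 2 + ε) * B) ≤ M ^ B := by
    rw [Real.rpow_mul hq0.le, Real.rpow_natCast]
    gcongr
  rw [e1, div_le_iff₀ (by positivity)]
  calc _ ≤ (q : ℝ) ^ (((B : ℝ) + 3 / 2) / 2) := e2
    _ ≤ (q : ℝ) ^ (-1 + (1 / 2 + ε) * B) := by
        apply Real.rpow_le_rpow_of_exponent_le hq1.le
        nlinarith
    _ = 1 / q * (q : ℝ) ^ ((1 / 2 + ε) * B) := by
        rw [Real.rpow_add hq0, Real.rpow_neg_one]; ring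
    _ ≤ _ := by gcongr

lemma Sm_tele {q : ℕ} (χ : DirichletCharacter ℂ q) (t : ℝ) (K : ℕ) :
    ‖Sm χ t (Md K)‖ ≤ ∑ k ∈ range K, Md k ^ (-(1 / 2) : ℝ) * ‖SS χ (ph t) (Md k)‖ := by
  have h0 : Sm χ t (Md 0) = 0 := by
    have : ⌊2 * Md 0⌋₊ = 0 := by
      rw [Nat.floor_eq_zero]; unfold Md; norm_num
    unfold Sm
    rw [this]
    simp
  induction K with
  | zero => rw [h0]; simp
  | succ K ih =>
    rw [sum_range_succ]
    have e : Sm χ t (Md (K + 1)) = Sm χ t (Md K) + (Sm χ t (2 * Md K) - Sm χ t (Md K)) := by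
      rw [Md_succ]; ring
    rw [e]
    refine (norm_add_le _ _).trans (add_le_add ih (le_of_eq ?_))
    rw [Sm_diff χ t (Md K) (Md_pos K), norm_mul, pw_norm t (Md K) (Md_pos K)]
    rfl

lemma zero_good {B : ℝ} (hB : 0 ≤ B) : Good B (fun _ : ℝ => (0 : ℂ)) := by
  refine ⟨⟨contDiff_const, fun _ _ => rfl⟩, fun x => by simpa, fun x => by simpa, fun x => ?_⟩
  have : deriv (fun _ : ℝ => (0 : ℂ)) = fun _ => 0 := by funext x; simp
  rw [this]
  simpa

lemma SS_zero {q : ℕ} (χ : DirichletCharacter ℂ q) (M : ℝ) : SS χ (fun _ => 0) M = 0 := by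
  unfold SS; simp

open Classical in
theorem afe1 {ε : ℝ} (hε : 0 < ε) (hε1 : ε ≤ 1) : ∃ (C : ℝ) (A : ℕ), 0 < C ∧
    ∀ (t : ℝ) (q : ℕ) [NeZero q], 1 < q →
    ∃ (ι : Type) (_ : Fintype ι) (N : ι → ℝ) (g : ι → ℝ → ℂ),
      (Fintype.card ι : ℝ) ≤ C * (q : ℝ) ^ ε ∧
      (∀ i, 1 / 4 ≤ N i ∧ N i ≤ (q : ℝ) ^ (1 / 2 + ε)) ∧
      (∀ i, Good (C * (1 + |t|) ^ A) (g i)) ∧
      ∀ χ : DirichletCharacter ℂ q, χ.IsPrimitive →
        ‖χ.LFunction (1 / 2 + (t : ℂ) * Complex.I)‖ ≤ C * (1 + |t|) ^ A +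
          ∑ i, N i ^ (-(1 / 2) : ℝ) * ‖SS χ (g i) (N i)‖ := by
  set B : ℕ := ⌈2 / ε⌉₊ with hBd
  have hB : 2 ≤ ε * B := by
    have := Nat.le_ceil (2 / ε)
    rw [← hBd, div_le_iff₀ hε] at this
    linarith
  obtain ⟨C1, hC1, h1⟩ := apxT
  obtain ⟨C2, hC2, h2⟩ := dual_piece B
  obtain ⟨C3, hC3, h3⟩ := ph_good
  obtain ⟨C4, hC4, h4⟩ := dw_good tst_half
  set cδ : ℝ := 1 / (ε / 4 * Real.log 2) with hcδ
  have hlog : 0 < Real.log 2 := Real.log_pos (by norm_num)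
  have hcδ0 : 0 < cδ := by positivity
  set ch : ℝ := 1 / (1 / 2 * Real.log 2) with hch
  have hch0 : 0 < ch := by positivity
  -- final constants
  refine ⟨C1 + C2 * (ch * 3) + C3 + C4 + (8 * cδ + 8 * cδ * (1 + 4 * cδ) * 2), B + 8,
    by positivity, fun t q _ hq => ?_⟩
  set CC := C1 + C2 * (ch * 3) + C3 + C4 + (8 * cδ + 8 * cδ * (1 + 4 * cδ) * 2) with hCC
  have hq1 : (1 : ℝ) < q := by exact_mod_cast hq
  have hq0 : (0 : ℝ) < q := by linarith
  set K : ℕ := Nat.clog 2 (4 * q ^ 2) with hK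
  set x : ℝ := 4 * (q : ℝ) ^ (1 / 2 + ε) with hx
  have hqe1 : 1 ≤ (q : ℝ) ^ (1 / 2 + ε) := Real.one_le_rpow hq1.le (by positivity)
  set I : ℕ := Nat.log 2 ⌊x⌋₊ with hI
  have hKle : (4 * q ^ 2 : ℝ) ≤ 2 ^ K := by
    have := Nat.le_pow_clog (b := 2) (by norm_num) (4 * q ^ 2)
    exact_mod_cast this
  have hKge : (2 : ℝ) ^ K ≤ 8 * q ^ 2 := by
    have h4q : 1 < 4 * q ^ 2 := by nlinarith
    have h := Nat.pow_pred_clog_lt_self (b := 2) (by norm_num) h4q
    have hK0 : 0 < K := Nat.clog_pos (by norm_num) (by omega)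
    have h' : 2 ^ K ≤ 8 * q ^ 2 := by
      have e : 2 ^ K = 2 * 2 ^ (K.pred) := by
        rw [← pow_succ']; congr 1; exact (Nat.succ_pred_eq_of_pos hK0).symm
      rw [e]
      rw [← hK] at h
      omega
    exact_mod_cast h'
  have hfx : ⌊x⌋₊ ≠ 0 := by
    have : 1 ≤ ⌊x⌋₊ := Nat.le_floor (by push_cast; rw [hx]; linarith)
    omega
  have hI1 : (2 : ℝ) ^ I ≤ x := by
    have h := Nat.pow_log_le_self 2 hfx
    have h' : ((2 ^ I : ℕ) : ℝ) ≤ (⌊x⌋₊ : ℝ) := by exact_mod_cast h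
    have h'' := Nat.floor_le (show 0 ≤ x by positivity)
    push_cast at h'
    linarith
  have hI2 : x < 2 ^ (I + 1) := by
    have h := Nat.lt_pow_succ_log_self (b := 2) (by norm_num) ⌊x⌋₊
    have h' : ((⌊x⌋₊ + 1 : ℕ) : ℝ) ≤ ((2 ^ (I + 1) : ℕ) : ℝ) := by exact_mod_cast h
    have h'' := Nat.lt_floor_add_one x
    push_cast at h'
    linarith
  -- bounds for K, I
  have hKb : (K : ℝ) ≤ 8 * cδ * (q : ℝ) ^ (ε / 2) := by
    have h := nat_le_pow (δ := ε / 4) (by positivity) K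
    have h5 : ((2 : ℝ) ^ K) ^ (ε / 4) ≤ 8 * (q : ℝ) ^ (ε / 2) := by
      calc _ ≤ (8 * (q : ℝ) ^ 2) ^ (ε / 4) := Real.rpow_le_rpow (by positivity) hKge (by positivity)
        _ = (8 : ℝ) ^ (ε / 4) * (q : ℝ) ^ (ε / 2) := by
            rw [Real.mul_rpow (by norm_num) (by positivity), ← Real.rpow_natCast (q : ℝ) 2,
              ← Real.rpow_mul hq0.le]
            congr 2
            push_cast; ring
        _ ≤ 8 * (q : ℝ) ^ (ε / 2) := by
            gcongr
            calc (8 : ℝ) ^ (ε / 4) ≤ 8 ^ (1 : ℝ) :=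
                  Real.rpow_le_rpow_of_exponent_le (by norm_num) (by linarith)
              _ = 8 := Real.rpow_one _
    calc (K : ℝ) ≤ cδ * ((2 : ℝ) ^ K) ^ (ε / 4) := h
      _ ≤ cδ * (8 * (q : ℝ) ^ (ε / 2)) := by gcongr
      _ = _ := by ring
  have hIb : (I : ℝ) ≤ 4 * cδ * (q : ℝ) ^ (ε / 2) := by
    have h := nat_le_pow (δ := ε / 4) (by positivity) I
    have h5 : ((2 : ℝ) ^ I) ^ (ε / 4) ≤ 4 * (q : ℝ) ^ (ε / 2) := by
      calc _ ≤ (4 * (q : ℝ) ^ (2 : ℝ)) ^ (ε / 4) := by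
            apply Real.rpow_le_rpow (by positivity) _ (by positivity)
            refine hI1.trans ?_
            rw [hx]
            gcongr
            · exact hq1.le
            · linarith
        _ = (4 : ℝ) ^ (ε / 4) * (q : ℝ) ^ (ε / 2) := by
            rw [Real.mul_rpow (by norm_num) (by positivity), ← Real.rpow_mul hq0.le]
            congr 2
            ring
        _ ≤ 4 * (q : ℝ) ^ (ε / 2) := by
            gcongr
            calc (4 : ℝ) ^ (ε / 4) ≤ 4 ^ (1 : ℝ) :=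
                  Real.rpow_le_rpow_of_exponent_le (by norm_num) (by linarith)
              _ = 4 := Real.rpow_one _
    calc (I : ℝ) ≤ cδ * ((2 : ℝ) ^ I) ^ (ε / 4) := h
      _ ≤ cδ * (4 * (q : ℝ) ^ (ε / 2)) := by gcongr
      _ = _ := by ring
  have hqe2 : 1 ≤ (q : ℝ) ^ (ε / 2) := Real.one_le_rpow hq1.le (by positivity)
  have hqee : (q : ℝ) ^ (ε / 2) * (q : ℝ) ^ (ε / 2) = (q : ℝ) ^ ε := by
    rw [← Real.rpow_add hq0]; congr 1; ring
  have ht1 : (1 : ℝ) ≤ 1 + |t| := by linarith [abs_nonneg t]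
  have htp : ∀ n : ℕ, n ≤ B + 8 → (1 + |t|) ^ n ≤ (1 + |t|) ^ (B + 8) := fun n hn =>
    pow_le_pow_right₀ ht1 hn
  have htB : (1 : ℝ) ≤ (1 + |t|) ^ (B + 8) := one_le_pow₀ ht1
  have hCC0 : 0 < CC := by positivity
  have hBnd : 0 ≤ CC * (1 + |t|) ^ (B + 8) := by positivity
  let P : ℕ → Prop := fun k => Md k ≤ (q : ℝ) ^ (1 / 2 : ℝ)
  let sg : Bool → ℝ := fun s => if s then 1 else -1
  refine ⟨Fin K ⊕ (Fin K × Fin (I + 1) × Bool), inferInstance,
    Sum.elim (fun k => if P k then Md k else 1 / 4) (fun p => Md p.2.1),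
    Sum.elim (fun k => if P k then ph t else fun _ => 0)
      (fun p => if P p.1 then (fun _ => 0) else
        fun x => (starRingEnd ℂ) (dw (ph t) (sg p.2.2 * (Md p.1 / q) * Md p.2.1) x)),
    ?_, ?_, ?_, ?_⟩
  · rw [Fintype.card_sum, Fintype.card_prod, Fintype.card_prod, Fintype.card_fin,
      Fintype.card_fin, Fintype.card_bool]
    push_cast
    have hI3 : (I : ℝ) + 1 ≤ (1 + 4 * cδ) * (q : ℝ) ^ (ε / 2) := by nlinarith
    have hqe3 : (q : ℝ) ^ (ε / 2) ≤ (q : ℝ) ^ ε := by rw [← hqee]; nlinarith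
    calc (K : ℝ) + K * ((I + 1) * 2)
        ≤ 8 * cδ * (q : ℝ) ^ (ε / 2) + 8 * cδ * (q : ℝ) ^ (ε / 2) *
          (((1 + 4 * cδ) * (q : ℝ) ^ (ε / 2)) * 2) := by gcongr
      _ = 8 * cδ * (q : ℝ) ^ (ε / 2) + 8 * cδ * (1 + 4 * cδ) * 2 * ((q : ℝ) ^ (ε / 2) *
          (q : ℝ) ^ (ε / 2)) := by ring
      _ ≤ 8 * cδ * (q : ℝ) ^ ε + 8 * cδ * (1 + 4 * cδ) * 2 * (q : ℝ) ^ ε := by
          rw [hqee]
          gcongr
      _ = (8 * cδ + 8 * cδ * (1 + 4 * cδ) * 2) * (q : ℝ) ^ ε := by ring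
      _ ≤ CC * (q : ℝ) ^ ε := by
          have : (8 * cδ + 8 * cδ * (1 + 4 * cδ) * 2) ≤ CC := by
            rw [hCC]
            have : 0 < C1 + C2 * (ch * 3) + C3 + C4 := by positivity
            linarith
          gcongr
  · have hq12 : (q : ℝ) ^ (1 / 2 : ℝ) ≤ (q : ℝ) ^ (1 / 2 + ε) :=
      Real.rpow_le_rpow_of_exponent_le hq1.le (by linarith)
    rintro (k | ⟨k, i, s⟩)
    · simp only [Sum.elim_inl]
      split_ifs with h
      · refine ⟨?_, le_trans h hq12⟩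
        have : (1 : ℝ) ≤ 2 ^ (k : ℕ) := one_le_pow₀ (by norm_num)
        unfold Md; linarith
      · exact ⟨le_rfl, by linarith⟩
    · simp only [Sum.elim_inr]
      have hi : (i : ℕ) ≤ I := by have := i.2; omega
      constructor
      · have : (1 : ℝ) ≤ 2 ^ (i : ℕ) := one_le_pow₀ (by norm_num)
        unfold Md; linarith
      · have : (2 : ℝ) ^ (i : ℕ) ≤ 2 ^ I := pow_le_pow_right₀ (by norm_num) hi
        unfold Md
        rw [hx] at hI1
        linarith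
  · rintro (k | ⟨k, i, s⟩)
    · simp only [Sum.elim_inl]
      split_ifs with h
      · refine (h3 t).mono ?_
        have h5 := htp 2 (by omega)
        have : C3 ≤ CC := by
          rw [hCC]
          have : 0 < C1 + C2 * (ch * 3) + C4 + (8 * cδ + 8 * cδ * (1 + 4 * cδ) * 2) := by positivity
          linarith
        gcongr
      · exact zero_good hBnd
    · simp only [Sum.elim_inr]
      split_ifs with h
      · exact zero_good hBnd
      · refine good_conj ((h4 t _).mono ?_)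
        have h5 := htp 3 (by omega)
        have : C4 ≤ CC := by
          rw [hCC]
          have : 0 < C1 + C2 * (ch * 3) + C3 + (8 * cδ + 8 * cδ * (1 + 4 * cδ) * 2) := by positivity
          linarith
        gcongr
  · intro χ hχ
    have hχ1 : χ ≠ 1 := by
      intro h
      rw [h, DirichletCharacter.isPrimitive_def, DirichletCharacter.conductor_one] at hχ
      omega
    have hYK : (q : ℝ) ^ (4 / 3 : ℝ) ≤ Md K := by
      calc (q : ℝ) ^ (4 / 3 : ℝ) ≤ (q : ℝ) ^ (2 : ℝ) :=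
            Real.rpow_le_rpow_of_exponent_le hq1.le (by norm_num)
        _ = (q : ℝ) ^ 2 := by rw [← Real.rpow_natCast]; norm_num
        _ ≤ Md K := by unfold Md; linarith
    have hL := h1 t q χ hχ1 (Md K) hYK
    have hS := Sm_tele χ t K
    -- each piece
    have hpiece : ∀ k ∈ range K, Md k ^ (-(1 / 2) : ℝ) * ‖SS χ (ph t) (Md k)‖ ≤
        ((if P k then Md k else 1 / 4) ^ (-(1 / 2) : ℝ) *
          ‖SS χ (if P k then ph t else fun _ => 0) (if P k then Md k else 1 / 4)‖ +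
        ∑ p : Fin (I + 1) × Bool, Md p.1 ^ (-(1 / 2) : ℝ) *
          ‖SS χ (if P k then (fun _ => 0) else
            fun x => (starRingEnd ℂ) (dw (ph t) (sg p.2 * (Md k / q) * Md p.1) x)) (Md p.1)‖) +
        C2 * (1 + |t|) ^ (B + 2) * (1 / q) := by
      intro k _
      by_cases h : P k
      · simp only [h, if_true, SS_zero, norm_zero, mul_zero, sum_const_zero, add_zero]
        have : 0 ≤ C2 * (1 + |t|) ^ (B + 2) * (1 / (q : ℝ)) := by positivity
        linarith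
      · simp only [h, if_false, SS_zero, norm_zero, mul_zero, zero_add]
        have h6 := h2 t q hq χ hχ (Md k) I (Md_pos k)
        refine h6.trans (add_le_add (le_of_eq ?_) ?_)
        · rw [Fintype.sum_prod_type, Fin.sum_univ_eq_sum_range (fun i => ∑ s : Bool,
            Md i ^ (-(1 / 2) : ℝ) * ‖SS χ (fun x => (starRingEnd ℂ)
              (dw (ph t) (sg s * (Md k / q) * Md i) x)) (Md i)‖) (I + 1)]
          refine sum_congr rfl fun i _ => ?_
          rw [Fintype.sum_bool]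
          simp only [sg, if_true, Bool.false_eq_true, if_false, one_mul, neg_mul]
          ring
        · have hMI : (q : ℝ) ^ (1 / 2 + ε) ≤ 2 * Md I := by
            rw [hx, pow_succ] at hI2
            unfold Md
            linarith
          have hYk : (q : ℝ) ^ (1 / 2 : ℝ) ≤ Md k := by
            simp only [P, not_le] at h
            exact h.le
          exact mul_le_mul_of_nonneg_left (tail_num hq hB hYk hMI) (by positivity)
    have hsum := sum_le_sum hpiece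
    rw [sum_add_distrib, sum_const, card_range, nsmul_eq_mul] at hsum
    have hKq : (K : ℝ) * (C2 * (1 + |t|) ^ (B + 2) * (1 / q)) ≤
        C2 * (ch * 3) * (1 + |t|) ^ (B + 8) := by
      have hk := nat_le_pow (δ := 1 / 2) (by norm_num) K
      have h7 : ((2 : ℝ) ^ K) ^ (1 / 2 : ℝ) ≤ 3 * q := by
        rw [← Real.sqrt_eq_rpow]
        apply Real.sqrt_le_iff.2
        refine ⟨by positivity, ?_⟩
        nlinarith
      have h8 : (K : ℝ) ≤ ch * (3 * q) := hk.trans (by gcongr)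
      calc _ ≤ (ch * (3 * q)) * (C2 * (1 + |t|) ^ (B + 8) * (1 / q)) := by
            have := htp (B + 2) (by omega)
            gcongr
        _ = _ := by field_simp
    have e5 : ∀ a b : ℂ, ‖a‖ ≤ ‖a - b‖ + ‖b‖ := fun a b => by
      have := norm_add_le (a - b) b
      rwa [sub_add_cancel] at this
    refine (e5 _ (Sm χ t (Md K))).trans ?_
    rw [Fintype.sum_sum_type]
    simp only [Sum.elim_inl, Sum.elim_inr]
    have e6 := Fin.sum_univ_eq_sum_range (fun k => (if P k then Md k else 1 / 4) ^ (-(1 / 2) : ℝ) *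
          ‖SS χ (if P k then ph t else fun _ => 0) (if P k then Md k else 1 / 4)‖) K
    have e7 : ∑ x : Fin K × Fin (I + 1) × Bool, Md x.2.1 ^ (-(1 / 2) : ℝ) *
          ‖SS χ (if P x.1 then (fun _ => 0) else
            fun y => (starRingEnd ℂ) (dw (ph t) (sg x.2.2 * (Md x.1 / q) * Md x.2.1) y)) (Md x.2.1)‖ =
        ∑ k ∈ range K, ∑ p : Fin (I + 1) × Bool, Md p.1 ^ (-(1 / 2) : ℝ) *
          ‖SS χ (if P k then (fun _ => 0) else
            fun x => (starRingEnd ℂ) (dw (ph t) (sg p.2 * (Md k / q) * Md p.1) x)) (Md p.1)‖ := by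
      rw [Fintype.sum_prod_type, Fin.sum_univ_eq_sum_range (fun k => ∑ p : Fin (I + 1) × Bool,
        Md p.1 ^ (-(1 / 2) : ℝ) * ‖SS χ (if P k then (fun _ => 0) else
            fun x => (starRingEnd ℂ) (dw (ph t) (sg p.2 * (Md k / q) * Md p.1) x)) (Md p.1)‖) K]
    rw [e6, e7]
    rw [sum_add_distrib] at hsum
    have hC1' : C1 * (1 + |t|) ^ 6 ≤ C1 * (1 + |t|) ^ (B + 8) := by
      have := htp 6 (by omega)
      gcongr
    have hfin : C1 * (1 + |t|) ^ (B + 8) + C2 * (ch * 3) * (1 + |t|) ^ (B + 8) ≤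
        CC * (1 + |t|) ^ (B + 8) := by
      rw [← add_mul]
      have : C1 + C2 * (ch * 3) ≤ CC := by
        rw [hCC]
        have : 0 < C3 + C4 + (8 * cδ + 8 * cδ * (1 + 4 * cδ) * 2) := by positivity
        linarith
      gcongr
    linarith [hL, hS, hsum, hKq]

end Pool.Agent.Y766
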