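import Pool.Agent.Y766.CN

/-!
Characters in a proper coset progression: the residues on which all of them are close to one.
-/

set_option autoImplicit false

namespace Pool.Agent.Y766

open Finset

lemma norm_pow_sub_one_le {z : ℂ} (hz : ‖z‖ ≤ 1) (j : ℕ) : ‖z ^ j - 1‖ ≤ j * ‖z - 1‖ := by
  induction j with
  | zero => simp
  | succ j ih =>
    have e : z ^ (j + 1) - 1 = z * (z ^ j - 1) + (z - 1) := by ring
    rw [e]
    refine (norm_add_le _ _).trans ?_
    rw [norm_mul]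
    push_cast
    have : ‖z‖ * ‖z ^ j - 1‖ ≤ 1 * (j * ‖z - 1‖) := mul_le_mul hz ih (norm_nonneg _) zero_le_one
    linarith

lemma geom_lower {z : ℂ} (hz : ‖z‖ ≤ 1) {V : ℕ} (hV : 1 ≤ V) (h : (V - 1 : ℝ) * ‖z - 1‖ ≤ 1 / 2) :
    (V : ℝ) / 2 ≤ ‖∑ j ∈ range V, z ^ j‖ := by
  have h1 : ‖∑ j ∈ range V, (z ^ j - 1)‖ ≤ V * (1 / 2) := by
    refine (norm_sum_le _ _).trans ?_
    calc ∑ j ∈ range V, ‖z ^ j - 1‖ ≤ ∑ j ∈ range V, (1 / 2 : ℝ) := by
          refine sum_le_sum fun j hj => ?_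
          rw [mem_range] at hj
          refine (norm_pow_sub_one_le hz j).trans (le_trans ?_ h)
          have : (j : ℝ) ≤ (V : ℝ) - 1 := by
            have : ((j + 1 : ℕ) : ℝ) ≤ V := by exact_mod_cast hj
            push_cast at this; linarith
          gcongr
      _ = _ := by rw [sum_const, card_range, nsmul_eq_mul]
  have h2 : ∑ j ∈ range V, (z ^ j - 1) = ∑ j ∈ range V, z ^ j - V := by
    rw [sum_sub_distrib]; simp
  rw [h2] at h1
  have h3 : ‖(V : ℂ)‖ ≤ ‖∑ j ∈ range V, z ^ j‖ + ‖∑ j ∈ range V, z ^ j - V‖ := by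
    have := norm_sub_le (∑ j ∈ range V, z ^ j) (∑ j ∈ range V, z ^ j - V)
    rwa [sub_sub_cancel] at this
  rw [Complex.norm_natCast] at h3
  linarith

/-- the members of a progression -/
noncomputable def mem {d k : ℕ} (χ : Fin k → DirichletCharacter ℂ d)
    (χ0 : DirichletCharacter ℂ d) (j : Fin k → ℕ) : DirichletCharacter ℂ d :=
  χ0 * ∏ i, χ i ^ j i

lemma mem_apply {d k : ℕ} (χ : Fin k → DirichletCharacter ℂ d)
    (χ0 : DirichletCharacter ℂ d) (j : Fin k → ℕ) {a : ZMod d} (ha : IsUnit a) :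
    mem χ χ0 j a = χ0 a * ∏ i, (χ i a) ^ j i := by
  unfold mem
  rw [MulChar.mul_apply]
  congr 1
  have : ∀ s : Finset (Fin k), (∏ i ∈ s, χ i ^ j i) a = ∏ i ∈ s, (χ i a) ^ j i := by
    classical
    intro s
    induction s using Finset.induction_on with
    | empty => rw [prod_empty, prod_empty, MulChar.one_apply ha]
    | insert i s hi ih =>
      rw [prod_insert hi, prod_insert hi, MulChar.mul_apply, ih]
      congr 1
      obtain ⟨u, rfl⟩ := ha
      exact MulChar.pow_apply_coe _ _ u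
  exact this univ

/-- the pairs `(χ₀, j)` of the progression -/
def Proper {d k : ℕ} (H : Subgroup (DirichletCharacter ℂ d)) (χ : Fin k → DirichletCharacter ℂ d)
    (J : Fin k → ℕ) : Prop :=
  ∀ a ∈ H, ∀ b ∈ H, ∀ i ∈ Fintype.piFinset (fun s => range (J s)),
    ∀ j ∈ Fintype.piFinset (fun s => range (J s)), mem χ a i = mem χ b j → a = b ∧ i = j

lemma sum_zmod_char {d : ℕ} [NeZero d] (θ : DirichletCharacter ℂ d) :
    ∑ a : ZMod d, θ a = if θ = 1 then (Nat.totient d : ℂ) else 0 := by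
  split_ifs with h
  · rw [h, MulChar.sum_one_eq_card_units, ZMod.card_units_eq_totient]
  · exact MulChar.sum_eq_zero_of_ne_one h

lemma near_card {d k : ℕ} [NeZero d] (H : Subgroup (DirichletCharacter ℂ d)) [Fintype H]
    (χ : Fin k → DirichletCharacter ℂ d) (J V : Fin k → ℕ) (hP : Proper H χ J)
    (hV1 : ∀ i, 1 ≤ V i) (hVJ : ∀ i, V i ≤ J i) (δ : Fin k → ℝ)
    (hδ : ∀ i, ((V i : ℝ) - 1) * δ i ≤ 1 / 2) (S : Finset (ZMod d))
    (hS : ∀ a ∈ S, IsUnit a ∧ (∀ χ0 ∈ H, χ0 a = 1) ∧ ∀ i, ‖χ i a - 1‖ ≤ δ i) :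
    (S.card : ℝ) * (Fintype.card H * ∏ i, (V i : ℝ)) ≤ 4 ^ k * d := by
  classical
  set T : Finset (Fin k → ℕ) := Fintype.piFinset (fun s => range (V s)) with hT
  have hTJ : ∀ j ∈ T, j ∈ Fintype.piFinset (fun s => range (J s)) := by
    intro j hj
    rw [hT, Fintype.mem_piFinset] at hj
    rw [Fintype.mem_piFinset]
    intro i
    have := hj i
    rw [mem_range] at this ⊢
    exact this.trans_le (hVJ i)
  have hTc : (T.card : ℝ) = ∏ i, (V i : ℝ) := by
    rw [hT, Fintype.card_piFinset]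
    push_cast
    simp
  set P : Finset (H × (Fin k → ℕ)) := univ ×ˢ T with hPd
  set θ : H × (Fin k → ℕ) → DirichletCharacter ℂ d := fun p => mem χ p.1 p.2 with hθ
  set X : ℝ := (Fintype.card H : ℝ) * ∏ i, (V i : ℝ) with hX
  have hPc : (P.card : ℝ) = X := by
    rw [hPd, card_product, card_univ]; push_cast; rw [hTc]
  have hHpos : 0 < (Fintype.card H : ℝ) := by exact_mod_cast Fintype.card_pos
  have hVpos : 0 < ∏ i, (V i : ℝ) := prod_pos fun i _ => by exact_mod_cast hV1 i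
  have hX0 : 0 < X := by positivity
  -- second moment
  have hsum : ∑ a : ZMod d, ‖∑ p ∈ P, θ p a‖ ^ 2 = (Nat.totient d : ℝ) * X := by
    have e : ((∑ a : ZMod d, ‖∑ p ∈ P, θ p a‖ ^ 2 : ℝ) : ℂ) = ((Nat.totient d : ℝ) * X : ℝ) := by
      push_cast
      have e1 : ∀ a : ZMod d, ((‖∑ p ∈ P, θ p a‖ : ℂ)) ^ 2 =
          ∑ p ∈ P, ∑ p' ∈ P, (θ p * (θ p')⁻¹) a := by
        intro a
        rw [← Complex.mul_conj', map_sum, sum_mul_sum]
        refine sum_congr rfl fun p _ => sum_congr rfl fun p' _ => ?_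
        rw [MulChar.mul_apply]
        congr 1
        rw [starRingEnd_apply, MulChar.star_apply']
      simp_rw [e1]
      rw [sum_comm]
      have e2 : ∀ p ∈ P, ∑ a : ZMod d, ∑ p' ∈ P, (θ p * (θ p')⁻¹) a = (Nat.totient d : ℂ) := by
        intro p hp
        rw [sum_comm]
        simp_rw [sum_zmod_char]
        have e3 : ∀ p' ∈ P, (if θ p * (θ p')⁻¹ = 1 then (Nat.totient d : ℂ) else 0) =
            if p' = p then (Nat.totient d : ℂ) else 0 := by
          intro p' hp'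
          congr 1
          rw [mul_inv_eq_one, eq_iff_iff]
          constructor
          · intro h
            rw [hPd, mem_product] at hp hp'
            have := hP p.1 p.1.2 p'.1 p'.1.2 p.2 (hTJ _ hp.2) p'.2 (hTJ _ hp'.2) h
            exact (Prod.ext (Subtype.ext this.1) this.2).symm
          · rintro rfl; rfl
        rw [sum_congr rfl e3, sum_ite_eq' P p, if_pos hp]
      rw [sum_congr rfl e2, sum_const, nsmul_eq_mul]
      have : (P.card : ℂ) = (X : ℂ) := by
        have := hPc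
        have h2 : ((P.card : ℝ) : ℂ) = (X : ℂ) := by rw [this]
        simpa using h2
      rw [this, mul_comm, hX]
    exact_mod_cast e
  have hlow : ∀ a ∈ S, (X / 2 ^ k) ^ 2 ≤ ‖∑ p ∈ P, θ p a‖ ^ 2 := by
    intro a ha
    obtain ⟨hu, h1, h2⟩ := hS a ha
    have e : ∑ p ∈ P, θ p a = (Fintype.card H : ℂ) * ∏ i, ∑ j ∈ range (V i), (χ i a) ^ j := by
      rw [hPd, sum_product]
      have e1 : ∀ x : H, ∑ j ∈ T, θ (x, j) a = ∏ i, ∑ j ∈ range (V i), (χ i a) ^ j := by
        intro x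
        rw [prod_univ_sum]
        refine sum_congr rfl fun j _ => ?_
        simp only [hθ]
        rw [mem_apply χ _ _ hu, h1 x x.2, one_mul]
      rw [sum_congr rfl (fun x _ => e1 x), sum_const, nsmul_eq_mul, card_univ]
    rw [e, norm_mul, Complex.norm_natCast, norm_prod]
    have h3 : ∏ i, ((V i : ℝ) / 2) ≤ ∏ i, ‖∑ j ∈ range (V i), (χ i a) ^ j‖ := by
      refine prod_le_prod (fun i _ => by positivity) fun i _ => ?_
      refine geom_lower ((χ i).norm_le_one a) (hV1 i) (le_trans ?_ (hδ i))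
      have h4 : (0 : ℝ) ≤ (V i : ℝ) - 1 := by
        have : (1 : ℝ) ≤ V i := by exact_mod_cast hV1 i
        linarith
      exact mul_le_mul_of_nonneg_left (h2 i) h4
    have h5 : X / 2 ^ k = Fintype.card H * ∏ i, ((V i : ℝ) / 2) := by
      rw [hX, prod_div_distrib]
      simp only [prod_const, card_univ, Fintype.card_fin, mul_div_assoc]
    rw [h5]
    exact pow_le_pow_left₀ (by positivity) (mul_le_mul_of_nonneg_left h3 hHpos.le) 2
  have hfin : (S.card : ℝ) * (X / 2 ^ k) ^ 2 ≤ (Nat.totient d : ℝ) * X := by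
    rw [← hsum]
    calc (S.card : ℝ) * (X / 2 ^ k) ^ 2 = ∑ a ∈ S, (X / 2 ^ k) ^ 2 := by
          rw [sum_const, nsmul_eq_mul]
      _ ≤ ∑ a ∈ S, ‖∑ p ∈ P, θ p a‖ ^ 2 := sum_le_sum hlow
      _ ≤ _ := sum_le_sum_of_subset_of_nonneg (subset_univ _) fun _ _ _ => by positivity
  have htot : (Nat.totient d : ℝ) ≤ d := by exact_mod_cast Nat.totient_le d
  have h4k : (2 ^ k : ℝ) ^ 2 = 4 ^ k := by rw [← pow_mul, mul_comm, pow_mul]; norm_num
  have h6 : (S.card : ℝ) * X * X ≤ 4 ^ k * d * X := by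
    have : (S.card : ℝ) * (X / 2 ^ k) ^ 2 * 4 ^ k = (S.card : ℝ) * X * X := by
      rw [div_pow, h4k]; field_simp
    calc (S.card : ℝ) * X * X = (S.card : ℝ) * (X / 2 ^ k) ^ 2 * 4 ^ k := this.symm
      _ ≤ (Nat.totient d : ℝ) * X * 4 ^ k := by gcongr
      _ ≤ d * X * 4 ^ k := by gcongr
      _ = _ := by ring
  exact le_of_mul_le_mul_right h6 hX0

end Pool.Agent.Y766
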