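import Pool.Agent.Y766.PS2

/-!
Rationals of bounded height in residue classes.
-/

set_option autoImplicit false

namespace Pool.Agent.Y766

open Finset Pool.Agent.Y766.PS
open scoped Pointwise

/-- the residue of a positive rational -/
noncomputable def rho (d : ℕ) (r : ℚ) : ZMod d := (r.num.natAbs : ZMod d) * (r.den : ZMod d)⁻¹

/-- positive rational whose numerator and denominator are coprime to `d` -/
def Cop (d : ℕ) (r : ℚ) : Prop := 0 < r ∧ Nat.Coprime r.num.natAbs d ∧ Nat.Coprime r.den d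

lemma rho_spec {d : ℕ} {r : ℚ} (h : Nat.Coprime r.den d) :
    rho d r * (r.den : ZMod d) = (r.num.natAbs : ZMod d) := by
  unfold rho
  rw [mul_assoc, mul_comm ((r.den : ZMod d)⁻¹), ZMod.coe_mul_inv_eq_one _ h, mul_one]

lemma rho_mul {d : ℕ} {r s : ℚ} (hr : Cop d r) (hs : Cop d s) :
    Cop d (r * s) ∧ rho d (r * s) = rho d r * rho d s := by
  obtain ⟨r0, r1, r2⟩ := hr
  obtain ⟨s0, s1, s2⟩ := hs
  obtain ⟨e1, e2⟩ := mul_nd r0 s0
  set g := Nat.gcd r.num.natAbs s.den * Nat.gcd s.num.natAbs r.den with hg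
  have c1 : Nat.Coprime ((r * s).num.natAbs) d := by
    have : Nat.Coprime (r.num.natAbs * s.num.natAbs) d := Nat.Coprime.mul_left r1 s1
    rw [← e1] at this
    exact Nat.Coprime.coprime_mul_right this
  have c2' : Nat.Coprime ((r * s).den * g) d := by
    rw [e2]; exact Nat.Coprime.mul_left r2 s2
  have c2 : Nat.Coprime ((r * s).den) d := Nat.Coprime.coprime_mul_right c2'
  have cg : Nat.Coprime g d := Nat.Coprime.coprime_mul_left c2'
  refine ⟨⟨mul_pos r0 s0, c1, c2⟩, ?_⟩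
  have h1 := rho_spec c2
  have hu : IsUnit (((r.den * s.den : ℕ) : ZMod d)) :=
    (ZMod.isUnit_iff_coprime _ _).2 (Nat.Coprime.mul_left r2 s2)
  apply hu.mul_right_cancel
  have e3 : ((r.den * s.den : ℕ) : ZMod d) = ((r * s).den : ZMod d) * (g : ZMod d) := by
    rw [← e2]; push_cast; rfl
  have e4 : ((r.num.natAbs * s.num.natAbs : ℕ) : ZMod d) = ((r * s).num.natAbs : ZMod d) * (g : ZMod d) := by
    rw [← e1]; push_cast; rfl
  calc rho d (r * s) * ((r.den * s.den : ℕ) : ZMod d)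
      = (rho d (r * s) * ((r * s).den : ZMod d)) * g := by rw [e3]; ring
    _ = ((r.num.natAbs * s.num.natAbs : ℕ) : ZMod d) := by rw [h1, e4]
    _ = (rho d r * (r.den : ZMod d)) * (rho d s * (s.den : ZMod d)) := by
        rw [rho_spec r2, rho_spec s2]; push_cast; rfl
    _ = _ := by push_cast; ring

lemma fiber {d h : ℕ} (hd : 0 < d) (hh : 0 < h) (A : Finset ℚ) (hA : Box h h A)
    (hc : ∀ r ∈ A, Cop d r) {c : ℝ} (hcc : ∀ r ∈ A, (r : ℝ) ≤ c) (hc0 : 0 ≤ c) (s : ZMod d)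
    (hs : ∀ r ∈ A, rho d r = s) : (A.card : ℝ) ≤ 1 + c * (h : ℝ) ^ 2 / d := by
  have hd0 : (0 : ℝ) < d := by exact_mod_cast hd
  have hh0 : (0 : ℝ) < h := by exact_mod_cast hh
  have gap : ∀ r ∈ A, ∀ r' ∈ A, r < r' → (1 : ℝ) ≤ r' * (h : ℝ) ^ 2 / d - r * (h : ℝ) ^ 2 / d := by
    intro r hr r' hr' hlt
    obtain ⟨p0, p1, p2⟩ := hA r hr
    obtain ⟨p0', p1', p2'⟩ := hA r' hr'
    have hb := r.den_pos
    have hb' := r'.den_pos
    have e1 := rat_eq p0
    have e2 := rat_eq p0'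
    -- congruence
    have hcong : ((r'.num.natAbs * r.den : ℕ) : ZMod d) = ((r.num.natAbs * r'.den : ℕ) : ZMod d) := by
      have h1 := rho_spec (d := d) (hc r hr).2.2
      have h2 := rho_spec (d := d) (hc r' hr').2.2
      rw [hs r hr] at h1
      rw [hs r' hr'] at h2
      push_cast
      rw [← h1, ← h2]
      ring
    have hlt2 : r.num.natAbs * r'.den < r'.num.natAbs * r.den := by
      have h3 : (r.num.natAbs : ℚ) / r.den < (r'.num.natAbs : ℚ) / r'.den := by rwa [← e1, ← e2]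
      rw [div_lt_div_iff₀ (by exact_mod_cast hb) (by exact_mod_cast hb')] at h3
      exact_mod_cast h3
    have hdvd : d ∣ r'.num.natAbs * r.den - r.num.natAbs * r'.den := by
      have h4 := (ZMod.natCast_eq_natCast_iff' _ _ _).1 hcong
      exact (Nat.modEq_iff_dvd' hlt2.le).1 (by
        rw [Nat.ModEq]; exact h4.symm)
    have hge : r.num.natAbs * r'.den + d ≤ r'.num.natAbs * r.den := by
      have := Nat.le_of_dvd (by omega) hdvd
      omega
    have hge' : (r.num.natAbs : ℝ) * r'.den + d ≤ r'.num.natAbs * r.den := by exact_mod_cast hge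
    have e1' : (r : ℝ) = (r.num.natAbs : ℝ) / r.den := by
      conv_lhs => rw [e1]
      push_cast; rfl
    have e2' : (r' : ℝ) = (r'.num.natAbs : ℝ) / r'.den := by
      conv_lhs => rw [e2]
      push_cast; rfl
    have hb1 : (0 : ℝ) < r.den := by exact_mod_cast hb
    have hb2 : (0 : ℝ) < r'.den := by exact_mod_cast hb'
    have hq1 : (r.den : ℝ) ≤ h := by exact_mod_cast p2
    have hq2 : (r'.den : ℝ) ≤ h := by exact_mod_cast p2'
    have h5 : (r' : ℝ) - r = ((r'.num.natAbs : ℝ) * r.den - r.num.natAbs * r'.den) /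
        (r.den * r'.den) := by
      rw [e1', e2']; field_simp
    have h6 : (d : ℝ) / (h : ℝ) ^ 2 ≤ (r' : ℝ) - r := by
      rw [h5]
      calc (d : ℝ) / (h : ℝ) ^ 2 ≤ d / (r.den * r'.den) := by
            gcongr
            nlinarith
        _ ≤ _ := by
            gcongr
            linarith
    rw [← sub_div, ← sub_mul, le_div_iff₀ hd0, one_mul]
    rw [div_le_iff₀ (by positivity)] at h6
    exact h6
  have hinj : Set.InjOn (fun r : ℚ => ⌊(r : ℝ) * (h : ℝ) ^ 2 / d⌋₊) A := by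
    intro r hr r' hr' hrr
    by_contra hne
    simp only at hrr
    have pos : ∀ x ∈ A, 0 ≤ (x : ℝ) * (h : ℝ) ^ 2 / d := by
      intro x hx
      have : (0 : ℝ) < x := by exact_mod_cast (hA x hx).1
      positivity
    rcases lt_or_gt_of_ne hne with hlt | hlt
    · have g := gap r hr r' hr' hlt
      have f1 := Nat.floor_le (pos r hr)
      have f2 := Nat.lt_floor_add_one ((r' : ℝ) * (h : ℝ) ^ 2 / d)
      rw [← hrr] at f2
      linarith
    · have g := gap r' hr' r hr hlt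
      have f1 := Nat.floor_le (pos r' hr')
      have f2 := Nat.lt_floor_add_one ((r : ℝ) * (h : ℝ) ^ 2 / d)
      rw [hrr] at f2
      linarith
  have hmaps : Set.MapsTo (fun r : ℚ => ⌊(r : ℝ) * (h : ℝ) ^ 2 / d⌋₊) A
      (range (⌊c * (h : ℝ) ^ 2 / d⌋₊ + 1)) := by
    intro r hr
    simp only [coe_range, Set.mem_Iio, Nat.lt_succ_iff]
    apply Nat.floor_le_floor
    have := hcc r hr
    gcongr
  have hcard := card_le_card_of_injOn _ hmaps hinj
  rw [card_range] at hcard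
  have h7 : (A.card : ℝ) ≤ (⌊c * (h : ℝ) ^ 2 / d⌋₊ : ℝ) + 1 := by exact_mod_cast hcard
  have h8 := Nat.floor_le (show 0 ≤ c * (h : ℝ) ^ 2 / d by positivity)
  linarith

lemma fiber_sum {d h : ℕ} (hd : 0 < d) (hh : 0 < h) (A : Finset ℚ) (hA : Box h h A)
    (hc : ∀ r ∈ A, Cop d r) {c : ℝ} (hcc : ∀ r ∈ A, (r : ℝ) ≤ c) (hc0 : 0 ≤ c)
    (S : Finset (ZMod d)) (hs : ∀ r ∈ A, rho d r ∈ S) :
    (A.card : ℝ) ≤ S.card * (1 + c * (h : ℝ) ^ 2 / d) := by
  classical
  have e := card_eq_sum_card_fiberwise (f := rho d) (s := A) (t := S) hs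
  rw [e]
  push_cast
  calc ∑ b ∈ S, (({a ∈ A | rho d a = b} : Finset ℚ).card : ℝ)
      ≤ ∑ b ∈ S, (1 + c * (h : ℝ) ^ 2 / d) := by
        refine sum_le_sum fun b _ => ?_
        refine fiber hd hh _ (fun r hr => hA r (mem_filter.1 hr).1)
          (fun r hr => hc r (mem_filter.1 hr).1) (fun r hr => hcc r (mem_filter.1 hr).1) hc0 b
          (fun r hr => (mem_filter.1 hr).2)
    _ = _ := by rw [sum_const, nsmul_eq_mul]

/-- powers of a set of rationals -/
lemma pow_sets {d : ℕ} (A : Finset ℚ) (hc : ∀ r ∈ A, Cop d r)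
    (hcc : ∀ r ∈ A, (r : ℝ) ≤ 4) (Q : ℕ → ZMod d → Prop) (h0 : Q 0 1)
    (h1 : ∀ r ∈ A, Q 1 (rho d r)) (hmul : ∀ n a b, Q n a → Q 1 b → Q (n + 1) (a * b)) (n : ℕ) :
    ∀ r ∈ A ^ n, Cop d r ∧ (r : ℝ) ≤ 4 ^ n ∧ Q n (rho d r) := by
  induction n with
  | zero =>
    intro r hr
    rw [pow_zero, Finset.mem_one] at hr
    subst hr
    refine ⟨⟨by norm_num, by simp, by simp⟩, by norm_num, ?_⟩
    have : rho d 1 = 1 := by
      unfold rho
      simp
    rw [this]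
    exact h0
  | succ n ih =>
    intro x hx
    rw [pow_succ] at hx
    obtain ⟨r, hr, s, hs, rfl⟩ := mem_mul.1 hx
    obtain ⟨c1, c2, c3⟩ := ih r hr
    obtain ⟨m1, m2⟩ := rho_mul c1 (hc s hs)
    refine ⟨m1, ?_, ?_⟩
    · push_cast
      rw [pow_succ]
      have : (0 : ℝ) < s := by exact_mod_cast (hc s hs).1
      have h4 := hcc s hs
      gcongr
    · rw [m2]
      exact hmul n _ _ c3 (h1 s hs)

/-- the counting bound by product sets -/
theorem count_pow {ε : ℝ} (hε : 0 < ε) (n : ℕ) (hn : 1 ≤ n) : ∃ C : ℝ, 1 ≤ C ∧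
    ∀ (d h : ℕ), 0 < d → 0 < h → ∀ A : Finset ℚ, Box h h A → (∀ r ∈ A, Cop d r) →
    (∀ r ∈ A, (r : ℝ) ≤ 4) → ∀ (Q : ℕ → ZMod d → Prop), Q 0 1 → (∀ r ∈ A, Q 1 (rho d r)) →
    (∀ n a b, Q n a → Q 1 b → Q (n + 1) (a * b)) → ∀ S : Finset (ZMod d), (∀ a, Q n a → a ∈ S) →
    (A.card : ℝ) ^ n ≤ C * (h : ℝ) ^ ε * (S.card * (1 + (h : ℝ) ^ (2 * n) / d)) := by
  obtain ⟨C, hC1, hC⟩ := prodset_pow hε n hn
  refine ⟨C * 4 ^ n, ?_, ?_⟩
  · have : (1 : ℝ) ≤ 4 ^ n := one_le_pow₀ (by norm_num)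
    nlinarith
  intro d h hd hh A hA hc hcc Q h0 h1 hmul S hS
  have hp := pow_sets A hc hcc Q h0 h1 hmul n
  have hf := fiber_sum hd (Nat.pow_pos (n := n) hh) (A ^ n) (box_pow hA n) (fun r hr => (hp r hr).1)
    (c := 4 ^ n) (fun r hr => (hp r hr).2.1) (by positivity) S (fun r hr => hS _ (hp r hr).2.2)
  have h2 := hC h hh A hA
  have h4 : (1 : ℝ) ≤ 4 ^ n := one_le_pow₀ (by norm_num)
  have hd0 : (0 : ℝ) < d := by exact_mod_cast hd
  have e : (((h ^ n : ℕ) : ℝ)) ^ 2 = (h : ℝ) ^ (2 * n) := by push_cast; ring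
  rw [e] at hf
  calc (A.card : ℝ) ^ n ≤ C * (h : ℝ) ^ ε * ((A ^ n).card : ℝ) := h2
    _ ≤ C * (h : ℝ) ^ ε * (S.card * (1 + 4 ^ n * (h : ℝ) ^ (2 * n) / d)) := by gcongr
    _ ≤ C * (h : ℝ) ^ ε * (S.card * (4 ^ n * (1 + (h : ℝ) ^ (2 * n) / d))) := by
        gcongr
        rw [mul_add, mul_one, mul_div_assoc]
        gcongr
    _ = _ := by ring

end Pool.Agent.Y766
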