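import Pool.Agent.Y766.CN

/-!
The number of rationals of small height in a multiplicatively structured set of residues.
-/

set_option autoImplicit false

namespace Pool.Agent.Y766

open Finset Pool.Agent.Y766.PS
open scoped Pointwise

lemma box_card {h : ℕ} {A : Finset ℚ} (hA : Box h h A) : A.card ≤ h ^ 2 := by
  have hinj : Set.InjOn (fun r : ℚ => (r.num.natAbs, r.den)) A := by
    intro r hr s hs hrs
    simp only [Prod.mk.injEq] at hrs
    rw [rat_eq (hA r hr).1, rat_eq (hA s hs).1, hrs.1, hrs.2]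
  have hmaps : Set.MapsTo (fun r : ℚ => (r.num.natAbs, r.den)) A (Icc 1 h ×ˢ Icc 1 h : Finset (ℕ × ℕ)) := by
    intro r hr
    have h1 := hA r hr
    have h2 := num_pos h1.1
    have h3 := r.den_pos
    simp only [coe_product, Set.mem_prod, mem_coe, mem_Icc]
    exact ⟨⟨h2, h1.2.1⟩, ⟨h3, h1.2.2⟩⟩
  have := card_le_card_of_injOn _ hmaps hinj
  rw [card_product, Nat.card_Icc] at this
  rw [pow_two]
  simpa using this

/-- the data of a count: rationals of height `≤ h` whose residues satisfy `Q 1` -/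
structure Dat (K : ℕ → ℝ) (d h : ℕ) (X ρ : ℝ) (A : Finset ℚ) : Prop where
  hd : 0 < d
  hh : 0 < h
  hX : (d : ℝ) ^ (2 / 3 : ℝ) ≤ X
  hXd : X ≤ d
  hρ : 1 ≤ ρ
  box : Box h h A
  cop : ∀ r ∈ A, Cop d r
  le4 : ∀ r ∈ A, (r : ℝ) ≤ 4
  ex : ∃ Q : ℕ → ZMod d → Prop, Q 0 1 ∧ (∀ r ∈ A, Q 1 (rho d r)) ∧
    (∀ n a b, Q n a → Q 1 b → Q (n + 1) (a * b)) ∧
    ∀ n, 1 ≤ n → ∃ S : Finset (ZMod d), (∀ a, Q n a → a ∈ S) ∧ (S.card : ℝ) ≤ K n * (d / X * ρ)

theorem W_bound {ε : ℝ} (hε : 0 < ε) (K : ℕ → ℝ) (hK : ∀ n, 1 ≤ K n) : ∃ C : ℝ, 1 ≤ C ∧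
    ∀ (d h : ℕ) (X ρ E : ℝ) (A : Finset ℚ), Dat K d h X ρ A → 1 ≤ E → (h : ℝ) ≤ X * E →
    (A.card : ℝ) ≤ C * ((d : ℝ) * E) ^ ε * (E * h * ρ) := by
  set R : ℕ := ⌈1 / ε⌉₊ with hR
  have hR1 : 1 ≤ R := Nat.one_le_ceil_iff.2 (by positivity)
  have hRε : 1 ≤ ε * R := by
    have := Nat.le_ceil (1 / ε)
    rw [← hR, div_le_iff₀ hε] at this
    linarith
  choose! CC hCC1 hCC using fun n (hn : 1 ≤ n) => count_pow hε n hn
  set C : ℝ := 1 + ∑ n ∈ Icc 1 R, 2 * (CC n * K n) with hC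
  have hCn : ∀ n, 1 ≤ n → n ≤ R → 2 * (CC n * K n) ≤ C := by
    intro n h1 h2
    have h3 : 2 * (CC n * K n) ≤ ∑ n ∈ Icc 1 R, 2 * (CC n * K n) := by
      refine single_le_sum (f := fun n => 2 * (CC n * K n)) (fun m hm => ?_) (mem_Icc.2 ⟨h1, h2⟩)
      rw [mem_Icc] at hm
      have := hCC1 m hm.1
      have := hK m
      positivity
    linarith
  have hC1 : 1 ≤ C := by
    have : 0 ≤ ∑ n ∈ Icc 1 R, 2 * (CC n * K n) := sum_nonneg fun m hm => by
      rw [mem_Icc] at hm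
      have := hCC1 m hm.1
      have := hK m
      positivity
    linarith
  refine ⟨C, hC1, fun d h X ρ E A D hE hhX => ?_⟩
  obtain ⟨hd, hh, hX, hXd, hρ, hbox, hcop, h4, Q, q0, q1, qm, hS⟩ := D
  have hd1 : (1 : ℝ) ≤ d := by exact_mod_cast hd
  have hd0 : (0 : ℝ) < d := by linarith
  have hh1 : (1 : ℝ) ≤ h := by exact_mod_cast hh
  have hh0 : (0 : ℝ) < h := by linarith
  have hX0 : 0 < X := lt_of_lt_of_le (by positivity) hX
  have hdE : (1 : ℝ) ≤ (d : ℝ) * E := by nlinarith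
  have hdEε : 1 ≤ ((d : ℝ) * E) ^ ε := Real.one_le_rpow hdE hε.le
  rcases lt_or_ge (h : ℝ) (((d : ℝ) * E) ^ ε) with hsm | hbig
  · have h1 : (A.card : ℝ) ≤ (h : ℝ) ^ 2 := by exact_mod_cast box_card hbox
    calc (A.card : ℝ) ≤ (h : ℝ) ^ 2 := h1
      _ = h * h := by ring
      _ ≤ ((d : ℝ) * E) ^ ε * h := by gcongr
      _ = 1 * ((d : ℝ) * E) ^ ε * (1 * h * 1) := by ring
      _ ≤ C * ((d : ℝ) * E) ^ ε * (E * h * ρ) := by gcongr
  set G : ℝ := d / X with hG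
  have hG1 : 1 ≤ G := by rw [hG, le_div_iff₀ hX0]; linarith
  have hex : ∃ n : ℕ, 1 ≤ n ∧ G ≤ (h : ℝ) ^ n := by
    refine ⟨R, hR1, ?_⟩
    calc G ≤ d := by
          rw [hG]
          apply div_le_self hd0.le
          have : (1 : ℝ) ≤ (d : ℝ) ^ (2 / 3 : ℝ) := Real.one_le_rpow hd1 (by norm_num)
          linarith
      _ ≤ (d : ℝ) * E := by nlinarith
      _ = ((d : ℝ) * E) ^ (1 : ℝ) := (Real.rpow_one _).symm
      _ ≤ ((d : ℝ) * E) ^ (ε * R) := Real.rpow_le_rpow_of_exponent_le hdE hRε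
      _ = (((d : ℝ) * E) ^ ε) ^ R := by rw [Real.rpow_mul (by positivity), Real.rpow_natCast]
      _ ≤ (h : ℝ) ^ R := by gcongr
  classical
  set n := Nat.find hex with hn
  obtain ⟨hn1, hnG⟩ := Nat.find_spec hex
  rw [← hn] at hn1 hnG
  have hnR : n ≤ R := by
    by_contra hlt
    push Not at hlt
    refine Nat.find_min hex hlt ⟨hR1, ?_⟩
    obtain ⟨m, hm1, hm2⟩ := hex
    calc G ≤ d := by
          rw [hG]
          apply div_le_self hd0.le
          have : (1 : ℝ) ≤ (d : ℝ) ^ (2 / 3 : ℝ) := Real.one_le_rpow hd1 (by norm_num)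
          linarith
      _ ≤ (d : ℝ) * E := by nlinarith
      _ = ((d : ℝ) * E) ^ (1 : ℝ) := (Real.rpow_one _).symm
      _ ≤ ((d : ℝ) * E) ^ (ε * R) := Real.rpow_le_rpow_of_exponent_le hdE hRε
      _ = (((d : ℝ) * E) ^ ε) ^ R := by rw [Real.rpow_mul (by positivity), Real.rpow_natCast]
      _ ≤ (h : ℝ) ^ R := by gcongr
  -- `h^n ≤ X E`
  have hnX : (h : ℝ) ^ n ≤ X * E := by
    rcases Nat.eq_or_lt_of_le hn1 with h1 | h1
    · rw [← h1, pow_one]; exact hhX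
    · have hm : ¬ (1 ≤ n - 1 ∧ G ≤ (h : ℝ) ^ (n - 1)) := Nat.find_min hex (by omega)
      have hm' : (h : ℝ) ^ (n - 1) < G := by
        by_contra hcon
        push Not at hcon
        exact hm ⟨by omega, hcon⟩
      have hle : (h : ℝ) ≤ (h : ℝ) ^ (n - 1) := by
        calc (h : ℝ) = (h : ℝ) ^ 1 := (pow_one _).symm
          _ ≤ _ := pow_le_pow_right₀ hh1 (by omega)
      have e : (h : ℝ) ^ n = (h : ℝ) ^ (n - 1) * h := by
        rw [← pow_succ]; congr 1; omega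
      have hX3 : (d : ℝ) ^ 2 ≤ X ^ 3 := by
        calc (d : ℝ) ^ 2 = ((d : ℝ) ^ (2 / 3 : ℝ)) ^ 3 := by
              rw [← Real.rpow_natCast, ← Real.rpow_natCast, ← Real.rpow_mul hd0.le]
              norm_num
          _ ≤ X ^ 3 := by gcongr
      have hG2 : G * G ≤ X := by
        rw [hG, div_mul_div_comm, div_le_iff₀ (by positivity)]
        nlinarith
      calc (h : ℝ) ^ n = (h : ℝ) ^ (n - 1) * h := e
        _ ≤ G * G := by
            have := hm'.le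
            have h5 : (h : ℝ) ≤ G := hle.trans this
            gcongr
        _ ≤ X := hG2
        _ ≤ X * E := le_mul_of_one_le_right hX0.le hE
  obtain ⟨S, hS1, hS2⟩ := hS n hn1
  have key := hCC n hn1 d h hd hh A hbox hcop h4 Q q0 q1 qm S hS1
  have hCCn := hCC1 n hn1
  have hKn := hK n
  have hhε : (h : ℝ) ^ ε ≤ ((d : ℝ) * E) ^ ε := by
    apply Real.rpow_le_rpow hh0.le _ hε.le
    refine hhX.trans ?_
    gcongr
  have h2n : (h : ℝ) ^ (2 * n) = (h : ℝ) ^ n * (h : ℝ) ^ n := by rw [two_mul, pow_add]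
  have hbr : G * (1 + (h : ℝ) ^ (2 * n) / d) ≤ 2 * ((h : ℝ) ^ n * E) := by
    have h3 : G * ((h : ℝ) ^ (2 * n) / d) ≤ (h : ℝ) ^ n * E := by
      rw [h2n, hG]
      calc d / X * ((h : ℝ) ^ n * (h : ℝ) ^ n / d) = (h : ℝ) ^ n * ((h : ℝ) ^ n / X) := by
            field_simp
        _ ≤ (h : ℝ) ^ n * E := by
            gcongr
            rw [div_le_iff₀ hX0]; linarith
    have h5 : G ≤ (h : ℝ) ^ n * E := hnG.trans (le_mul_of_one_le_right (by positivity) hE)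
    nlinarith
  have hpow : (A.card : ℝ) ^ n ≤ (C * ((d : ℝ) * E) ^ ε * (E * h * ρ)) ^ n := by
    calc (A.card : ℝ) ^ n ≤ CC n * (h : ℝ) ^ ε * (S.card * (1 + (h : ℝ) ^ (2 * n) / d)) := key
      _ ≤ CC n * ((d : ℝ) * E) ^ ε * ((K n * (d / X * ρ)) * (1 + (h : ℝ) ^ (2 * n) / d)) := by
          gcongr
      _ = CC n * ((d : ℝ) * E) ^ ε * (K n * ρ * (G * (1 + (h : ℝ) ^ (2 * n) / d))) := by
          rw [hG]; ring
      _ ≤ CC n * ((d : ℝ) * E) ^ ε * (K n * ρ * (2 * ((h : ℝ) ^ n * E))) := by gcongr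
      _ = (2 * (CC n * K n)) * ((d : ℝ) * E) ^ ε * (E * ρ) * (h : ℝ) ^ n := by ring
      _ ≤ C * ((d : ℝ) * E) ^ ε * (E * ρ) * (h : ℝ) ^ n := by
          have := hCn n hn1 hnR
          gcongr
      _ ≤ (C * ((d : ℝ) * E) ^ ε * (E * ρ)) ^ n * (h : ℝ) ^ n := by
          gcongr
          apply le_self_pow₀ _ (by omega)
          have h6 : 1 ≤ E * ρ := by nlinarith
          have h7 : 1 ≤ C * ((d : ℝ) * E) ^ ε := by nlinarith
          nlinarith
      _ = _ := by rw [← mul_pow]; congr 1; ring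
  exact le_of_pow_le_pow_left₀ (by omega) (by positivity) hpow

end Pool.Agent.Y766
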