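import Pool.Agent.Y766.MS
import Pool.Agent.Y766.WB

/-!
Mean squares over coset progressions of characters.
-/

set_option autoImplicit false

namespace Pool.Agent.Y766

open Finset Pool.Agent.Y766.PS

/-- all rationals of height at most `h` satisfying a condition -/
noncomputable def ratset (h : ℕ) (P : ℚ → Prop) : Finset ℚ := by
  classical
  exact (((Icc 1 h ×ˢ Icc 1 h).filter (fun p : ℕ × ℕ => Nat.Coprime p.1 p.2)).image
    (fun p : ℕ × ℕ => (p.1 : ℚ) / p.2)).filter P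

lemma mem_ratset {h : ℕ} {P : ℚ → Prop} {r : ℚ} : r ∈ ratset h P ↔
    (∃ a b : ℕ, 1 ≤ a ∧ a ≤ h ∧ 1 ≤ b ∧ b ≤ h ∧ Nat.Coprime a b ∧ r = (a : ℚ) / b) ∧ P r := by
  unfold ratset
  simp only [mem_filter, mem_image, mem_product, mem_Icc, Prod.exists]
  constructor
  · rintro ⟨⟨a, b, ⟨⟨⟨h1, h2⟩, h3, h4⟩, h5⟩, h6⟩, h7⟩
    exact ⟨⟨a, b, h1, h2, h3, h4, h5, h6.symm⟩, h7⟩
  · rintro ⟨⟨a, b, h1, h2, h3, h4, h5, h6⟩, h7⟩
    exact ⟨⟨a, b, ⟨⟨⟨h1, h2⟩, h3, h4⟩, h5⟩, h6.symm⟩, h7⟩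

lemma ratset_box (h : ℕ) (P : ℚ → Prop) : Box h h (ratset h P) := by
  intro r hr
  obtain ⟨⟨a, b, h1, h2, h3, h4, h5, h6⟩, -⟩ := mem_ratset.1 hr
  obtain ⟨e1, e2⟩ := nd_of_coprime h1 h3 h5
  rw [← h6] at e1 e2
  refine ⟨?_, by omega, by omega⟩
  rw [h6]
  have : (0 : ℚ) < a := by exact_mod_cast h1
  have : (0 : ℚ) < b := by exact_mod_cast h3
  positivity

/-- pairs counted by greatest common divisor and ratio -/
lemma pairs_le (M : ℕ) (s : Finset (ℕ × ℕ)) (P : ℚ → Prop)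
    (hs : ∀ p ∈ s, 1 ≤ p.1 ∧ p.1 ≤ M ∧ 1 ≤ p.2 ∧ p.2 ≤ M ∧ P ((p.1 : ℚ) / p.2)) :
    s.card ≤ ∑ g ∈ Icc 1 M, (ratset (M / g) P).card := by
  classical
  have hmaps : ∀ p ∈ s, Nat.gcd p.1 p.2 ∈ Icc 1 M := by
    intro p hp
    obtain ⟨h1, h2, h3, h4, -⟩ := hs p hp
    rw [mem_Icc]
    refine ⟨Nat.gcd_pos_of_pos_left _ h1, (Nat.le_of_dvd h1 (Nat.gcd_dvd_left _ _)).trans h2⟩
  rw [card_eq_sum_card_fiberwise hmaps]
  refine sum_le_sum fun g hg => ?_
  rw [mem_Icc] at hg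
  refine card_le_card_of_injOn (fun p => (p.1 : ℚ) / p.2) ?_ ?_
  · intro p hp
    simp only [coe_filter, Set.mem_ofPred_eq] at hp
    obtain ⟨hp, hgcd⟩ := hp
    obtain ⟨h1, h2, h3, h4, h5⟩ := hs p hp
    obtain ⟨a, ha⟩ := Nat.gcd_dvd_left p.1 p.2
    obtain ⟨b, hb⟩ := Nat.gcd_dvd_right p.1 p.2
    rw [hgcd] at ha hb
    have hg0 : 0 < g := hg.1
    have ha0 : 1 ≤ a := Nat.pos_of_ne_zero (by rintro rfl; omega)
    have hb0 : 1 ≤ b := Nat.pos_of_ne_zero (by rintro rfl; omega)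
    have hcop : Nat.Coprime a b := by
      have h6 : g * Nat.gcd a b = g * 1 := by
        rw [← Nat.gcd_mul_left, ← ha, ← hb, hgcd, mul_one]
      exact Nat.eq_of_mul_eq_mul_left hg0 h6
    rw [mem_coe, mem_ratset]
    refine ⟨⟨a, b, ha0, ?_, hb0, ?_, hcop, ?_⟩, h5⟩
    · rw [Nat.le_div_iff_mul_le hg0, mul_comm, ← ha]; exact h2
    · rw [Nat.le_div_iff_mul_le hg0, mul_comm, ← hb]; exact h4
    · simp only
      rw [ha, hb]
      push_cast
      have : (g : ℚ) ≠ 0 := by exact_mod_cast hg0.ne'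
      rw [mul_div_mul_left _ _ this]
  · intro p hp p' hp' hpp
    simp only [coe_filter, Set.mem_ofPred_eq] at hp hp' hpp
    obtain ⟨hp, hgcd⟩ := hp
    obtain ⟨hp', hgcd'⟩ := hp'
    obtain ⟨h1, h2, h3, h4, h5⟩ := hs p hp
    obtain ⟨h1', h2', h3', h4', h5'⟩ := hs p' hp'
    have hg0 : 0 < g := hg.1
    have key : ∀ x : ℕ × ℕ, 1 ≤ x.1 → 1 ≤ x.2 → Nat.gcd x.1 x.2 = g →
        x.1 = g * ((x.1 : ℚ) / x.2).num.natAbs ∧ x.2 = g * ((x.1 : ℚ) / x.2).den := by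
      intro x hx1 hx2 hxg
      obtain ⟨a, ha⟩ := Nat.gcd_dvd_left x.1 x.2
      obtain ⟨b, hb⟩ := Nat.gcd_dvd_right x.1 x.2
      rw [hxg] at ha hb
      have ha0 : 1 ≤ a := Nat.pos_of_ne_zero (by rintro rfl; omega)
      have hb0 : 1 ≤ b := Nat.pos_of_ne_zero (by rintro rfl; omega)
      have hcop : Nat.Coprime a b := by
        have h6 : g * Nat.gcd a b = g * 1 := by
          rw [← Nat.gcd_mul_left, ← ha, ← hb, hxg, mul_one]
        exact Nat.eq_of_mul_eq_mul_left hg0 h6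
      have e : (x.1 : ℚ) / x.2 = (a : ℚ) / b := by
        rw [ha, hb]
        push_cast
        have : (g : ℚ) ≠ 0 := by exact_mod_cast hg0.ne'
        rw [mul_div_mul_left _ _ this]
      obtain ⟨e1, e2⟩ := nd_of_coprime ha0 hb0 hcop
      rw [e, e1, e2]
      exact ⟨ha, hb⟩
    obtain ⟨k1, k2⟩ := key p h1 h3 hgcd
    obtain ⟨k1', k2'⟩ := key p' h1' h3' hgcd'
    rw [hpp] at k1 k2
    exact Prod.ext (k1.trans k1'.symm) (k2.trans k2'.symm)

lemma char_rho {d : ℕ} {m n : ℕ} (hm1 : 1 ≤ m) (hn1 : 1 ≤ n) (hm : IsUnit (m : ZMod d))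
    (hn : IsUnit (n : ZMod d)) :
    Cop d ((m : ℚ) / n) ∧ IsUnit (rho d ((m : ℚ) / n)) ∧ ∀ χ : DirichletCharacter ℂ d,
      χ (rho d ((m : ℚ) / n)) = χ (m : ZMod d) * (starRingEnd ℂ) (χ (n : ZMod d)) := by
  set g := Nat.gcd m n with hg
  obtain ⟨a, ha⟩ := Nat.gcd_dvd_left m n
  obtain ⟨b, hb⟩ := Nat.gcd_dvd_right m n
  rw [← hg] at ha hb
  have hg0 : 0 < g := Nat.gcd_pos_of_pos_left _ hm1
  have ha0 : 1 ≤ a := Nat.pos_of_ne_zero (by rintro rfl; omega)
  have hb0 : 1 ≤ b := Nat.pos_of_ne_zero (by rintro rfl; omega)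
  have hcop : Nat.Coprime a b := by
    have h6 : g * Nat.gcd a b = g * 1 := by
      rw [← Nat.gcd_mul_left, ← ha, ← hb, mul_one]
    exact Nat.eq_of_mul_eq_mul_left hg0 h6
  have e : (m : ℚ) / n = (a : ℚ) / b := by
    rw [ha, hb]
    push_cast
    have : (g : ℚ) ≠ 0 := by exact_mod_cast hg0.ne'
    rw [mul_div_mul_left _ _ this]
  obtain ⟨e1, e2⟩ := nd_of_coprime ha0 hb0 hcop
  have cm : Nat.Coprime m d := (ZMod.isUnit_iff_coprime _ _).1 hm
  have cn : Nat.Coprime n d := (ZMod.isUnit_iff_coprime _ _).1 hn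
  have ca : Nat.Coprime a d := by
    rw [ha] at cm; exact Nat.Coprime.coprime_mul_left cm
  have cb : Nat.Coprime b d := by
    rw [hb] at cn; exact Nat.Coprime.coprime_mul_left cn
  have hpos : (0 : ℚ) < (a : ℚ) / b := by
    have : (0 : ℚ) < a := by exact_mod_cast ha0
    have : (0 : ℚ) < b := by exact_mod_cast hb0
    positivity
  have hCop : Cop d ((m : ℚ) / n) := by
    rw [e]
    exact ⟨hpos, by rw [e1]; exact ca, by rw [e2]; exact cb⟩
  have hsp : rho d ((m : ℚ) / n) * (n : ZMod d) = (m : ZMod d) := by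
    have h1 := rho_spec hCop.2.2
    rw [e, e1, e2] at h1
    rw [e]
    have hn' : (n : ZMod d) = (g : ZMod d) * (b : ZMod d) := by
      rw [← Nat.cast_mul]; exact congrArg _ hb
    have hm' : (m : ZMod d) = (g : ZMod d) * (a : ZMod d) := by
      rw [← Nat.cast_mul]; exact congrArg _ ha
    rw [hn', hm', ← h1]
    ring
  refine ⟨hCop, ?_, fun χ => ?_⟩
  · have : IsUnit (rho d ((m : ℚ) / n) * (n : ZMod d)) := by rw [hsp]; exact hm
    exact isUnit_of_mul_isUnit_left this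
  · rw [← hsp, map_mul, mul_assoc, Complex.mul_conj', char_norm χ hn]
    simp

lemma prog_card_le {d k : ℕ} [NeZero d] (H : Subgroup (DirichletCharacter ℂ d)) [Fintype H]
    (χ : Fin k → DirichletCharacter ℂ d) (J : Fin k → ℕ) (hP : Proper H χ J) :
    (Fintype.card H : ℝ) * ∏ i, (J i : ℝ) ≤ d := by
  classical
  set P : Finset (H × (Fin k → ℕ)) := univ ×ˢ Fintype.piFinset (fun s => range (J s)) with hPd
  have hPc : (P.card : ℝ) = (Fintype.card H : ℝ) * ∏ i, (J i : ℝ) := by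
    rw [hPd, card_product, card_univ, Fintype.card_piFinset]; push_cast; simp
  have hinj : Set.InjOn (fun p : H × (Fin k → ℕ) => mem χ p.1 p.2) P := by
    intro p hp p' hp' h
    rw [mem_coe, hPd, mem_product] at hp hp'
    have := hP p.1 p.1.2 p'.1 p'.1.2 p.2 hp.2 p'.2 hp'.2 h
    exact Prod.ext (Subtype.ext this.1) this.2
  have : Fintype (DirichletCharacter ℂ d) := Fintype.ofFinite _
  have h1 : P.card ≤ Fintype.card (DirichletCharacter ℂ d) := by
    rw [← card_univ, ← card_image_of_injOn hinj]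
    exact card_le_card (subset_univ _)
  have h2 : Fintype.card (DirichletCharacter ℂ d) = d.totient := by
    rw [← Nat.card_eq_fintype_card]
    exact DirichletCharacter.card_eq_totient_of_hasEnoughRootsOfUnity ℂ d
  rw [h2] at h1
  rw [← hPc]
  exact_mod_cast h1.trans (Nat.totient_le d)

/-- one level of the kernel -/
lemma prs_bound {ε : ℝ} (hε : 0 < ε) (k : ℕ) : ∃ C : ℝ, 1 ≤ C ∧
    ∀ (d : ℕ) [NeZero d] (H : Subgroup (DirichletCharacter ℂ d)) [Fintype H]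
    (χ : Fin k → DirichletCharacter ℂ d) (J : Fin k → ℕ), Proper H χ J → (∀ i, 1 ≤ J i) →
    (d : ℝ) ^ (2 / 3 : ℝ) ≤ Fintype.card H * ∏ i, (J i : ℝ) →
    ∀ (l : Fin k → ℕ), (∀ i, 2 ^ l i ≤ J i) → ∀ (M : ℕ) (E : ℝ) (s : Finset ℕ), 1 ≤ E →
    (M : ℝ) ≤ (Fintype.card H * ∏ i, (J i : ℝ)) * E →
    (∀ n ∈ s, IsUnit (n : ZMod d) ∧ 1 ≤ n ∧ n ≤ M) → (∀ m ∈ s, ∀ n ∈ s, m ≤ 4 * n) →
    ((prs H χ l s).card : ℝ) ≤ C * ((d : ℝ) * E) ^ ε * E * ((∏ i, (J i : ℝ)) / ∏ i, (2 : ℝ) ^ l i) *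
      (M * (1 + Real.log M)) := by
  classical
  obtain ⟨C, hC1, hC⟩ := W_bound hε (fun n => (16 * ((n : ℝ) + 1)) ^ k)
    (fun n => one_le_pow₀ (by have : (0 : ℝ) ≤ n := Nat.cast_nonneg _; linarith))
  refine ⟨C, hC1, ?_⟩
  intro d _ H _ χ J hP hJ hX l hl M E s hE hM hs h4
  have hd : 0 < d := NeZero.pos d
  have hd0 : (0 : ℝ) < d := by exact_mod_cast hd
  set X : ℝ := Fintype.card H * ∏ i, (J i : ℝ) with hXd
  set ρ : ℝ := (∏ i, (J i : ℝ)) / ∏ i, (2 : ℝ) ^ l i with hρ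
  have hX0 : 0 < X := lt_of_lt_of_le (by positivity) hX
  have hXle : X ≤ d := prog_card_le H χ J hP
  have h2l : 0 < ∏ i, (2 : ℝ) ^ l i := prod_pos fun i _ => by positivity
  have hJ0 : 0 < ∏ i, (J i : ℝ) := prod_pos fun i _ => by exact_mod_cast hJ i
  have hρ1 : 1 ≤ ρ := by
    rw [hρ, le_div_iff₀ h2l, one_mul]
    exact prod_le_prod (fun i _ => by positivity) fun i _ => by exact_mod_cast hl i
  set Q : ℕ → ZMod d → Prop := fun n a => IsUnit a ∧ (∀ χ0 ∈ H, χ0 a = 1) ∧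
    ∀ i, ‖χ i a - 1‖ ≤ n * (2 / 2 ^ l i) with hQ
  have q0 : Q 0 1 := by
    refine ⟨isUnit_one, fun χ0 _ => by simp, fun i => by simp⟩
  have qm : ∀ n a b, Q n a → Q 1 b → Q (n + 1) (a * b) := by
    rintro n a b ⟨a1, a2, a3⟩ ⟨b1, b2, b3⟩
    refine ⟨a1.mul b1, fun χ0 h => by rw [map_mul, a2 χ0 h, b2 χ0 h, one_mul], fun i => ?_⟩
    have e : χ i (a * b) - 1 = χ i a * (χ i b - 1) + (χ i a - 1) := by rw [map_mul]; ring
    rw [e]
    refine (norm_add_le _ _).trans ?_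
    rw [norm_mul, char_norm _ a1, one_mul]
    have h1 := a3 i
    have h2 := b3 i
    push_cast at h2 ⊢
    linarith
  set P : ℚ → Prop := fun r => Cop d r ∧ (r : ℝ) ≤ 4 ∧ Q 1 (rho d r) with hPdef
  have hpr := pairs_le M (prs H χ l s) P (by
    intro p hp
    unfold prs at hp
    rw [mem_filter, mem_product] at hp
    obtain ⟨⟨hp1, hp2⟩, hp3, hp4⟩ := hp
    obtain ⟨u1, l1, m1⟩ := hs p.1 hp1
    obtain ⟨u2, l2, m2⟩ := hs p.2 hp2
    obtain ⟨c1, c2, c3⟩ := char_rho l1 l2 u1 u2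
    refine ⟨l1, m1, l2, m2, c1, ?_, c2, fun χ0 h => ?_, fun i => ?_⟩
    · push_cast
      have h0 : (0 : ℝ) < p.2 := by exact_mod_cast l2
      rw [div_le_iff₀ h0]
      exact_mod_cast h4 p.1 hp1 p.2 hp2
    · rw [c3, hp3 χ0 h, Complex.mul_conj', char_norm _ u2]; simp
    · rw [c3]
      have := hp4 i
      push_cast
      linarith)
  have hA : ∀ g ∈ Icc 1 M, ((ratset (M / g) P).card : ℝ) ≤
      C * ((d : ℝ) * E) ^ ε * E * ρ * (M * (1 / (g : ℝ))) := by
    intro g hg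
    rw [mem_Icc] at hg
    have hMg : 0 < M / g := Nat.div_pos hg.2 hg.1
    have hMg2 : ((M / g : ℕ) : ℝ) ≤ M / g := Nat.cast_div_le
    have hg0 : (0 : ℝ) < g := by exact_mod_cast hg.1
    have hMgM : ((M / g : ℕ) : ℝ) ≤ M := by exact_mod_cast Nat.div_le_self M g
    have hdat : Dat (fun n => (16 * ((n : ℝ) + 1)) ^ k) d (M / g) X ρ (ratset (M / g) P) := by
      refine ⟨hd, hMg, hX, hXle, hρ1, ratset_box _ _, fun r hr => (mem_ratset.1 hr).2.1,
        fun r hr => (mem_ratset.1 hr).2.2.1, Q, q0, fun r hr => (mem_ratset.1 hr).2.2.2, qm, ?_⟩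
      intro n hn
      refine ⟨univ.filter (Q n), fun a ha => by rw [mem_filter]; exact ⟨mem_univ _, ha⟩, ?_⟩
      have hn0 : (0 : ℝ) < n := by exact_mod_cast hn
      have hV := near_card H χ J (fun i => 2 ^ l i / (4 * n) + 1) hP (fun i => Nat.succ_pos _)
        (fun i => by
          have h1 := hl i
          have h2 := hJ i
          have h3 : 2 ^ l i / (4 * n) ≤ 2 ^ l i / 4 := Nat.div_le_div_left (by omega) (by norm_num)
          rcases Nat.eq_zero_or_pos (l i) with h5 | h5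
          · have h6 : 2 ^ l i = 1 := by rw [h5, pow_zero]
            rw [h6] at h3 ⊢
            generalize 1 / (4 * n) = x at h3 ⊢
            omega
          · have h6 : 2 ≤ 2 ^ l i := Nat.le_self_pow h5.ne' 2
            generalize 2 ^ l i / (4 * n) = x at h3 ⊢
            generalize 2 ^ l i = y at h1 h3 h6
            omega)
        (fun i => n * (2 / 2 ^ l i)) (fun i => by
          push_cast
          have h1 : ((2 ^ l i / (4 * n) : ℕ) : ℝ) ≤ 2 ^ l i / (4 * n) := by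
            have := Nat.cast_div_le (α := ℝ) (m := 2 ^ l i) (n := 4 * n)
            push_cast at this
            exact this
          have h2 : (0 : ℝ) < 2 ^ l i := by positivity
          calc ((2 ^ l i / (4 * n) : ℕ) + 1 - 1 : ℝ) * (n * (2 / 2 ^ l i))
              = ((2 ^ l i / (4 * n) : ℕ) : ℝ) * (n * (2 / 2 ^ l i)) := by ring
            _ ≤ (2 ^ l i / (4 * n)) * (n * (2 / 2 ^ l i)) := by gcongr
            _ = 1 / 2 := by field_simp; norm_num)
        (univ.filter (Q n)) (fun a ha => (mem_filter.1 ha).2)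
      have hVl : ∏ i, ((2 : ℝ) ^ l i / (4 * n)) ≤ ∏ i, (((2 ^ l i / (4 * n) + 1 : ℕ)) : ℝ) := by
        refine prod_le_prod (fun i _ => by positivity) fun i _ => ?_
        rw [div_le_iff₀ (by positivity)]
        have h1 : 2 ^ l i < (2 ^ l i / (4 * n) + 1) * (4 * n) := by
          have := Nat.lt_mul_div_succ (2 ^ l i) (show 0 < 4 * n by omega)
          rw [mul_comm]
          exact this
        exact_mod_cast h1.le
      have hcH : (0 : ℝ) < Fintype.card H := by exact_mod_cast Fintype.card_pos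
      have h5 : ((univ.filter (Q n)).card : ℝ) * (Fintype.card H * ∏ i, ((2 : ℝ) ^ l i / (4 * n))) ≤
          4 ^ k * d := by
        refine le_trans ?_ hV
        gcongr
      have h6 : ∏ i, ((2 : ℝ) ^ l i / (4 * n)) = (∏ i, (2 : ℝ) ^ l i) / (4 * n) ^ k := by
        rw [prod_div_distrib]; simp
      rw [h6] at h5
      have h7 : (d : ℝ) / X * ρ = d / (Fintype.card H * ∏ i, (2 : ℝ) ^ l i) := by
        rw [hρ, hXd]
        field_simp
      rw [h7]
      rw [mul_div_assoc', le_div_iff₀ (by positivity)]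
      have h8 : ((univ.filter (Q n)).card : ℝ) * (Fintype.card H * ∏ i, (2 : ℝ) ^ l i) ≤
          (16 * (n : ℝ)) ^ k * d := by
        have e : (16 * (n : ℝ)) ^ k * d = 4 ^ k * d * (4 * n) ^ k := by
          rw [show (16 * (n : ℝ)) = 4 * (4 * n) by ring, mul_pow]; ring
        rw [e]
        calc _ = ((univ.filter (Q n)).card : ℝ) * (Fintype.card H *
              ((∏ i, (2 : ℝ) ^ l i) / (4 * n) ^ k)) * (4 * n) ^ k := by
              field_simp
          _ ≤ _ := by gcongr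
      refine h8.trans ?_
      gcongr
      linarith
    have := hC d (M / g) X ρ E _ hdat hE (hMgM.trans hM)
    refine this.trans ?_
    have hdE : 0 < ((d : ℝ) * E) ^ ε := by positivity
    calc C * ((d : ℝ) * E) ^ ε * (E * ((M / g : ℕ) : ℝ) * ρ) ≤
          C * ((d : ℝ) * E) ^ ε * (E * (M / g) * ρ) := by gcongr
      _ = _ := by ring
  have hsum : ((prs H χ l s).card : ℝ) ≤ ∑ g ∈ Icc 1 M, ((ratset (M / g) P).card : ℝ) := by
    exact_mod_cast hpr
  refine hsum.trans ((sum_le_sum hA).trans ?_)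
  rw [← mul_sum, ← mul_sum]
  have hlog : ∑ g ∈ Icc 1 M, 1 / (g : ℝ) ≤ 1 + Real.log M := by
    have h := harmonic_le_one_add_log M
    rw [harmonic_eq_sum_Icc] at h
    push_cast at h
    simpa using h
  have hdE : 0 < ((d : ℝ) * E) ^ ε := by positivity
  gcongr

end Pool.Agent.Y766
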