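import Pool.Agent.Y766.F1
import Pool.Agent.Y766.A4

/-!
Mean squares over coset progressions of characters: one smooth sum.
-/

set_option autoImplicit false

namespace Pool.Agent.Y766

open Finset Pool.Agent.Y766.PS
open Pool.Agent.H442R2 Pool.Agent.H442R2.TSM

lemma log_count {ε : ℝ} (hε : 0 < ε) (k : ℕ) : ∃ C : ℝ, 1 ≤ C ∧ ∀ (d : ℕ) (J : Fin k → ℕ), 1 ≤ d →
    (∀ i, 1 ≤ J i) → (∀ i, J i ≤ d) →
    ((Fintype.piFinset (fun i => range (Nat.log 2 (J i) + 1))).card : ℝ) ≤ C * (d : ℝ) ^ ε := by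
  set δ : ℝ := ε / (k + 1) with hδ
  have hδ0 : 0 < δ := by positivity
  set c : ℝ := 1 / (δ * Real.log 2) with hc
  have hl : 0 < Real.log 2 := Real.log_pos (by norm_num)
  have hc0 : 0 < c := by positivity
  refine ⟨(c + 1) ^ k, one_le_pow₀ (by linarith), fun d J hd hJ hJd => ?_⟩
  have hd1 : (1 : ℝ) ≤ d := by exact_mod_cast hd
  have hd0 : (0 : ℝ) < d := by linarith
  rw [Fintype.card_piFinset]
  push_cast
  have h1 : ∀ i, ((range (Nat.log 2 (J i) + 1)).card : ℝ) ≤ (c + 1) * (d : ℝ) ^ δ := by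
    intro i
    rw [card_range]
    push_cast
    have h2 := nat_le_pow hδ0 (Nat.log 2 (J i))
    have h3 : (2 : ℝ) ^ (Nat.log 2 (J i)) ≤ d := by
      have h4 := Nat.pow_log_le_self 2 (show J i ≠ 0 by have := hJ i; omega)
      exact_mod_cast h4.trans (hJd i)
    have h5 : ((2 : ℝ) ^ (Nat.log 2 (J i))) ^ δ ≤ (d : ℝ) ^ δ :=
      Real.rpow_le_rpow (by positivity) h3 hδ0.le
    have h6 : 1 ≤ (d : ℝ) ^ δ := Real.one_le_rpow hd1 hδ0.le
    calc (Nat.log 2 (J i) : ℝ) + 1 ≤ c * ((2 : ℝ) ^ (Nat.log 2 (J i))) ^ δ + 1 := by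
          rw [hc]; linarith
      _ ≤ c * (d : ℝ) ^ δ + 1 * (d : ℝ) ^ δ := by
          have := mul_le_mul_of_nonneg_left h5 hc0.le
          linarith
      _ = _ := by ring
  calc ∏ i, ((range (Nat.log 2 (J i) + 1)).card : ℝ) ≤ ∏ i : Fin k, ((c + 1) * (d : ℝ) ^ δ) :=
        prod_le_prod (fun i _ => by positivity) fun i _ => h1 i
    _ = (c + 1) ^ k * ((d : ℝ) ^ δ) ^ k := by simp [mul_pow]
    _ ≤ (c + 1) ^ k * (d : ℝ) ^ ε := by
        have : ((d : ℝ) ^ δ) ^ k ≤ (d : ℝ) ^ ε := by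
          rw [← Real.rpow_natCast, ← Real.rpow_mul hd0.le]
          apply Real.rpow_le_rpow_of_exponent_le hd1
          rw [hδ, div_mul_eq_mul_div, div_le_iff₀ (by positivity)]
          nlinarith
        gcongr

theorem ms_prog {ε : ℝ} (hε : 0 < ε) (k : ℕ) : ∃ C : ℝ, 1 ≤ C ∧
    ∀ (d : ℕ) [NeZero d] (H : Subgroup (DirichletCharacter ℂ d)) [Fintype H]
    (χ : Fin k → DirichletCharacter ℂ d) (J : Fin k → ℕ), Proper H χ J → (∀ i, 1 ≤ J i) →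
    (d : ℝ) ^ (2 / 3 : ℝ) ≤ Fintype.card H * ∏ i, (J i : ℝ) →
    ∀ (M : ℕ) (E : ℝ) (s : Finset ℕ), 1 ≤ E →
    (M : ℝ) ≤ (Fintype.card H * ∏ i, (J i : ℝ)) * E →
    (∀ n ∈ s, IsUnit (n : ZMod d) ∧ 1 ≤ n ∧ n ≤ M) → (∀ m ∈ s, ∀ n ∈ s, m ≤ 4 * n) →
    ∀ (a : ℕ → ℂ) (B : ℝ), (∀ n ∈ s, ‖a n‖ ≤ B) →
    ∑ x : H, ∑ j ∈ Fintype.piFinset (fun i => range (J i)),
      ‖∑ n ∈ s, a n * mem χ x j (n : ZMod d)‖ ^ 2 ≤
      C * ((d : ℝ) * E) ^ ε * E * (M * (1 + Real.log M)) * B ^ 2 *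
        (Fintype.card H * ∏ i, (J i : ℝ)) := by
  obtain ⟨C1, hC1, h1⟩ := prs_bound (half_pos hε) k
  obtain ⟨C2, hC2, h2⟩ := log_count (half_pos hε) k
  refine ⟨C1 * C2 * 8 ^ k, ?_, ?_⟩
  · have : (1 : ℝ) ≤ 8 ^ k := one_le_pow₀ (by norm_num)
    have h12 : 1 ≤ C1 * C2 := by nlinarith
    nlinarith
  intro d _ H _ χ J hP hJ hX M E s hE hM hs h4 a B hB
  have hd1' : 1 ≤ d := NeZero.one_le
  have hd1 : (1 : ℝ) ≤ d := by exact_mod_cast hd1'
  have hd0 : (0 : ℝ) < d := by linarith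
  set X : ℝ := Fintype.card H * ∏ i, (J i : ℝ) with hXd
  have hXle : X ≤ d := prog_card_le H χ J hP
  have hcH : (1 : ℝ) ≤ Fintype.card H := by exact_mod_cast Fintype.card_pos
  have hJ1 : ∀ i, (1 : ℝ) ≤ J i := fun i => by exact_mod_cast hJ i
  have hJ0 : 0 < ∏ i, (J i : ℝ) := prod_pos fun i _ => by linarith [hJ1 i]
  have hJd : ∀ i, J i ≤ d := by
    intro i
    have h3 : (J i : ℝ) ≤ ∏ i, (J i : ℝ) := by
      classical
      rw [← mul_prod_erase univ _ (mem_univ i)]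
      apply le_mul_of_one_le_right (by positivity)
      exact (prod_const_one (s := univ.erase i) (M := ℝ)).symm.le.trans
        (prod_le_prod (fun _ _ => zero_le_one) fun j _ => hJ1 j)
    have h5 : (J i : ℝ) ≤ d := by
      calc (J i : ℝ) ≤ 1 * ∏ i, (J i : ℝ) := by rw [one_mul]; exact h3
        _ ≤ X := by rw [hXd]; gcongr
        _ ≤ d := hXle
    exact_mod_cast h5
  have hms := mean_square H χ J hJ s (fun n hn => (hs n hn).1) a B hB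
  refine hms.trans ?_
  set L := Fintype.piFinset (fun i => range (Nat.log 2 (J i) + 1)) with hL
  have hdE : 1 ≤ (d : ℝ) * E := by nlinarith
  have hdE0 : 0 < (d : ℝ) * E := by linarith
  have hlogM : 0 ≤ Real.log M := Real.log_natCast_nonneg M
  have hterm : ∀ l ∈ L, (∏ i, (8 * 2 ^ l i : ℝ)) * ((prs H χ l s).card : ℝ) ≤
      8 ^ k * (∏ i, (J i : ℝ)) * (C1 * ((d : ℝ) * E) ^ (ε / 2) * E * (M * (1 + Real.log M))) := by
    intro l hl
    have hlJ : ∀ i, 2 ^ l i ≤ J i := by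
      intro i
      have h3 : l i ∈ range (Nat.log 2 (J i) + 1) := by
        rw [hL, Fintype.mem_piFinset] at hl; exact hl i
      rw [mem_range] at h3
      exact (Nat.pow_le_pow_right (by norm_num) (by omega)).trans
        (Nat.pow_log_le_self 2 (by have := hJ i; omega))
    have h3 := h1 d H χ J hP hJ hX l hlJ M E s hE hM hs h4
    have h2l : 0 < ∏ i, (2 : ℝ) ^ l i := prod_pos fun i _ => by positivity
    have e : ∏ i, (8 * 2 ^ l i : ℝ) = 8 ^ k * ∏ i, (2 : ℝ) ^ l i := by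
      rw [prod_mul_distrib]; simp
    rw [e]
    calc _ ≤ 8 ^ k * (∏ i, (2 : ℝ) ^ l i) * (C1 * ((d : ℝ) * E) ^ (ε / 2) * E *
          ((∏ i, (J i : ℝ)) / ∏ i, (2 : ℝ) ^ l i) * (M * (1 + Real.log M))) := by gcongr
      _ = _ := by field_simp
  have hsum := sum_le_sum hterm
  rw [sum_const, nsmul_eq_mul] at hsum
  have hLc := h2 d J hd1' hJ hJd
  have hε2 : (d : ℝ) ^ (ε / 2) * ((d : ℝ) * E) ^ (ε / 2) ≤ ((d : ℝ) * E) ^ ε := by
    have : (d : ℝ) ^ (ε / 2) ≤ ((d : ℝ) * E) ^ (ε / 2) :=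
      Real.rpow_le_rpow hd0.le (by nlinarith) (by positivity)
    calc _ ≤ ((d : ℝ) * E) ^ (ε / 2) * ((d : ℝ) * E) ^ (ε / 2) := by gcongr
      _ = _ := by rw [← Real.rpow_add hdE0]; congr 1; ring
  have hdEε : 0 < ((d : ℝ) * E) ^ (ε / 2) := by positivity
  have hMl : 0 ≤ (M : ℝ) * (1 + Real.log M) := by positivity
  calc (Fintype.card H : ℝ) * B ^ 2 * ∑ l ∈ L, (∏ i, (8 * 2 ^ l i : ℝ)) * ((prs H χ l s).card : ℝ)
      ≤ (Fintype.card H : ℝ) * B ^ 2 * (L.card * (8 ^ k * (∏ i, (J i : ℝ)) *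
          (C1 * ((d : ℝ) * E) ^ (ε / 2) * E * (M * (1 + Real.log M))))) := by gcongr
    _ ≤ (Fintype.card H : ℝ) * B ^ 2 * ((C2 * (d : ℝ) ^ (ε / 2)) * (8 ^ k * (∏ i, (J i : ℝ)) *
          (C1 * ((d : ℝ) * E) ^ (ε / 2) * E * (M * (1 + Real.log M))))) := by gcongr
    _ = (C1 * C2 * 8 ^ k) * ((d : ℝ) ^ (ε / 2) * ((d : ℝ) * E) ^ (ε / 2)) * E *
          (M * (1 + Real.log M)) * B ^ 2 * X := by rw [hXd]; ring
    _ ≤ (C1 * C2 * 8 ^ k) * ((d : ℝ) * E) ^ ε * E *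
          (M * (1 + Real.log M)) * B ^ 2 * X := by
        have hX0 : 0 < X := lt_of_lt_of_le (by positivity) hX
        gcongr

end Pool.Agent.Y766
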