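import Pool.Agent.Y766.F2

/-!
Mean squares of `L(1/2+it, ψχ)` over coset progressions of characters.
-/

set_option autoImplicit false

namespace Pool.Agent.Y766

open Finset Pool.Agent.Y766.PS
open Pool.Agent.H442R2 Pool.Agent.H442R2.TSM

/-- the twisted member at level `q` -/
noncomputable def tw {q d k : ℕ} (hd : d ∣ q) (ψ : DirichletCharacter ℂ q)
    (χ : Fin k → DirichletCharacter ℂ d) (χ0 : DirichletCharacter ℂ d) (j : Fin k → ℕ) :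
    DirichletCharacter ℂ q := ψ * DirichletCharacter.changeLevel hd (mem χ χ0 j)

lemma tw_apply {q d k : ℕ} (hd : d ∣ q) (ψ : DirichletCharacter ℂ q)
    (χ : Fin k → DirichletCharacter ℂ d) (χ0 : DirichletCharacter ℂ d) (j : Fin k → ℕ)
    {n : ℕ} (hn : Nat.Coprime n q) :
    tw hd ψ χ χ0 j (n : ZMod q) = ψ (n : ZMod q) * mem χ χ0 j (n : ZMod d) := by
  unfold tw
  rw [MulChar.mul_apply]
  congr 1
  obtain ⟨u, hu⟩ := (ZMod.isUnit_iff_coprime n q).2 hn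
  rw [← hu, DirichletCharacter.changeLevel_eq_cast_of_dvd, hu, ZMod.cast_natCast hd]

lemma SS_tw {q d k : ℕ} [NeZero q] (hd : d ∣ q) (ψ : DirichletCharacter ℂ q)
    (χ : Fin k → DirichletCharacter ℂ d) (χ0 : DirichletCharacter ℂ d) (j : Fin k → ℕ)
    {g : ℝ → ℂ} (hg : Tst g) {N : ℝ} (hN : 0 < N)
    [DecidablePred fun n : ℕ => Nat.Coprime n q ∧ N ≤ n] :
    SS (tw hd ψ χ χ0 j) g N =
      ∑ n ∈ (Icc 1 ⌊4 * N⌋₊).filter (fun n : ℕ => Nat.Coprime n q ∧ N ≤ n),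
        (ψ (n : ZMod q) * g ((n : ℝ) / N)) * mem χ χ0 j (n : ZMod d) := by
  unfold SS
  rw [sum_filter]
  refine sum_congr rfl fun n _ => ?_
  split_ifs with h
  · rw [tw_apply hd ψ χ χ0 j h.1]; ring
  · by_cases h1 : Nat.Coprime n q
    · have h2 : (n : ℝ) < N := by
        by_contra h3
        exact h ⟨h1, not_lt.1 h3⟩
      have h3 : g ((n : ℝ) / N) = 0 := by
        apply hg.supp
        intro h4
        have h5 := h4.1
        rw [le_div_iff₀ hN] at h5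
        linarith
      rw [h3, mul_zero]
    · have h2 : tw hd ψ χ χ0 j (n : ZMod q) = 0 := by
        apply MulChar.map_nonunit
        rw [ZMod.isUnit_iff_coprime]
        exact h1
      rw [h2, zero_mul]

lemma one_sum {ε : ℝ} (hε : 0 < ε) (hε1 : ε ≤ 1) (k : ℕ) : ∃ C : ℝ, 1 ≤ C ∧
    ∀ (q d : ℕ) [NeZero q] [NeZero d] (_ : 1 < q) (hd : d ∣ q)
    (H : Subgroup (DirichletCharacter ℂ d)) [Fintype H]
    (χ : Fin k → DirichletCharacter ℂ d) (J : Fin k → ℕ), Proper H χ J → (∀ i, 1 ≤ J i) →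
    (d : ℝ) ^ (2 / 3 : ℝ) ≤ Fintype.card H * ∏ i, (J i : ℝ) →
    (q : ℝ) ^ (1 / 2 : ℝ) ≤ Fintype.card H * ∏ i, (J i : ℝ) →
    ∀ (ψ : DirichletCharacter ℂ q) (B : ℝ) (g : ℝ → ℂ) (N : ℝ), Good B g → 1 / 4 ≤ N →
    N ≤ (q : ℝ) ^ (1 / 2 + ε) →
    ∑ x : H, ∑ j ∈ Fintype.piFinset (fun i => range (J i)),
      (N ^ (-(1 / 2) : ℝ) * ‖SS (tw hd ψ χ x j) g N‖) ^ 2 ≤
      C * (q : ℝ) ^ (4 * ε) * B ^ 2 * (Fintype.card H * ∏ i, (J i : ℝ)) := by
  classical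
  obtain ⟨C1, hC1, h1⟩ := ms_prog hε k
  refine ⟨C1 * 4 * 4 * 4 * (1 + 8 / ε), ?_, ?_⟩
  · have : 0 < 8 / ε := by positivity
    have : 1 ≤ C1 * 4 * 4 * 4 := by linarith
    nlinarith
  intro q d _ _ hq hd H _ χ J hP hJ hX hXq ψ B g N hg hN hNq
  have hq1 : (1 : ℝ) < q := by exact_mod_cast hq
  have hq0 : (0 : ℝ) < q := by linarith
  have hN0 : 0 < N := by linarith
  have hd00 : (0 : ℝ) < d := by exact_mod_cast NeZero.pos d
  set X : ℝ := Fintype.card H * ∏ i, (J i : ℝ) with hXd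
  have hX0 : 0 < X := lt_of_lt_of_le (by positivity) hX
  set s := (Icc 1 ⌊4 * N⌋₊).filter (fun n : ℕ => Nat.Coprime n q ∧ N ≤ n) with hs
  set M := ⌊4 * N⌋₊ with hM
  have hM1 : 1 ≤ M := Nat.le_floor (by push_cast; linarith)
  have hM4 : (M : ℝ) ≤ 4 * N := Nat.floor_le (by positivity)
  set E : ℝ := 4 * (q : ℝ) ^ ε with hE
  have hqε : 1 ≤ (q : ℝ) ^ ε := Real.one_le_rpow hq1.le hε.le
  have hE1 : 1 ≤ E := by linarith
  have hME : (M : ℝ) ≤ X * E := by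
    calc (M : ℝ) ≤ 4 * N := hM4
      _ ≤ 4 * (q : ℝ) ^ (1 / 2 + ε) := by gcongr
      _ = (q : ℝ) ^ (1 / 2 : ℝ) * E := by rw [Real.rpow_add hq0, hE]; ring
      _ ≤ X * E := by gcongr
  have hsu : ∀ n ∈ s, IsUnit (n : ZMod d) ∧ 1 ≤ n ∧ n ≤ M := by
    intro n hn
    rw [hs, mem_filter, mem_Icc] at hn
    refine ⟨?_, hn.1.1, hn.1.2⟩
    rw [ZMod.isUnit_iff_coprime]
    exact Nat.Coprime.coprime_dvd_right hd hn.2.1
  have hs4 : ∀ m ∈ s, ∀ n ∈ s, m ≤ 4 * n := by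
    intro m hm n hn
    rw [hs, mem_filter, mem_Icc] at hm hn
    have h2 : (m : ℝ) ≤ 4 * n := by
      calc (m : ℝ) ≤ M := by exact_mod_cast hm.1.2
        _ ≤ 4 * N := hM4
        _ ≤ 4 * n := by linarith [hn.2.2]
    exact_mod_cast h2
  have hB0 : 0 ≤ B := (norm_nonneg _).trans (hg.b0 0)
  have key := h1 d H χ J hP hJ hX M E s hE1 hME hsu hs4
    (fun n => ψ (n : ZMod q) * g ((n : ℝ) / N)) B (fun n _ => by
      rw [norm_mul]
      calc _ ≤ 1 * B := mul_le_mul (ψ.norm_le_one _) (hg.b0 _) (norm_nonneg _) zero_le_one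
        _ = B := one_mul B)
  have e1 : ∑ x : H, ∑ j ∈ Fintype.piFinset (fun i => range (J i)),
      (N ^ (-(1 / 2) : ℝ) * ‖SS (tw hd ψ χ x j) g N‖) ^ 2 = N⁻¹ *
      ∑ x : H, ∑ j ∈ Fintype.piFinset (fun i => range (J i)),
        ‖∑ n ∈ s, ψ (n : ZMod q) * g ((n : ℝ) / N) * mem χ x j (n : ZMod d)‖ ^ 2 := by
    rw [mul_sum]
    refine sum_congr rfl fun x _ => ?_
    rw [mul_sum]
    refine sum_congr rfl fun j _ => ?_
    rw [SS_tw hd ψ χ x j hg.tst hN0, mul_pow]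
    congr 1
    rw [← Real.rpow_natCast, ← Real.rpow_mul hN0.le]
    norm_num
    exact Real.rpow_neg_one N
  rw [e1]
  have hd1 : (1 : ℝ) ≤ d := by exact_mod_cast (NeZero.one_le : 1 ≤ d)
  have hdq : (d : ℝ) ≤ q := by exact_mod_cast Nat.le_of_dvd (NeZero.pos q) hd
  have hq2 : ((4 : ℝ) * (q : ℝ) ^ 2) ^ ε ≤ 4 * (q : ℝ) ^ (2 * ε) := by
    rw [Real.mul_rpow (by norm_num) (by positivity), ← Real.rpow_natCast (q : ℝ) 2,
      ← Real.rpow_mul hq0.le]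
    push_cast
    gcongr
    calc (4 : ℝ) ^ ε ≤ 4 ^ (1 : ℝ) := Real.rpow_le_rpow_of_exponent_le (by norm_num) hε1
      _ = 4 := Real.rpow_one _
  have hdE : ((d : ℝ) * E) ^ ε ≤ 4 * (q : ℝ) ^ (2 * ε) := by
    refine le_trans ?_ hq2
    apply Real.rpow_le_rpow (by positivity) _ hε.le
    rw [hE]
    have : (q : ℝ) ^ ε ≤ q := by
      calc (q : ℝ) ^ ε ≤ (q : ℝ) ^ (1 : ℝ) := Real.rpow_le_rpow_of_exponent_le hq1.le hε1
        _ = q := Real.rpow_one _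
    calc (d : ℝ) * (4 * (q : ℝ) ^ ε) ≤ q * (4 * q) := by gcongr
      _ = _ := by ring
  have hlogM : 1 + Real.log M ≤ (1 + 8 / ε) * (q : ℝ) ^ ε := by
    have hM0 : (0 : ℝ) < M := by exact_mod_cast hM1
    have hMq : (M : ℝ) ≤ 4 * (q : ℝ) ^ 2 := by
      calc (M : ℝ) ≤ 4 * N := hM4
        _ ≤ 4 * (q : ℝ) ^ (1 / 2 + ε) := by gcongr
        _ ≤ 4 * (q : ℝ) ^ (2 : ℝ) := by
            gcongr
            · exact hq1.le
            · linarith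
        _ = _ := by rw [← Real.rpow_natCast]; norm_num
    have h2 := Real.log_le_rpow_div hM0.le (half_pos hε)
    have h3 : (M : ℝ) ^ (ε / 2) ≤ 4 * (q : ℝ) ^ ε := by
      calc (M : ℝ) ^ (ε / 2) ≤ (4 * (q : ℝ) ^ 2) ^ (ε / 2) :=
            Real.rpow_le_rpow hM0.le hMq (by positivity)
        _ = (4 : ℝ) ^ (ε / 2) * (q : ℝ) ^ ε := by
            rw [Real.mul_rpow (by norm_num) (by positivity), ← Real.rpow_natCast (q : ℝ) 2,
              ← Real.rpow_mul hq0.le]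
            congr 2
            push_cast; ring
        _ ≤ 4 * (q : ℝ) ^ ε := by
            gcongr
            calc (4 : ℝ) ^ (ε / 2) ≤ 4 ^ (1 : ℝ) :=
                  Real.rpow_le_rpow_of_exponent_le (by norm_num) (by linarith)
              _ = 4 := Real.rpow_one _
    calc 1 + Real.log M ≤ 1 + (M : ℝ) ^ (ε / 2) / (ε / 2) := by linarith
      _ ≤ 1 * (q : ℝ) ^ ε + (4 * (q : ℝ) ^ ε) / (ε / 2) := by
          gcongr
          linarith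
      _ = _ := by field_simp; ring
  have hNM : N⁻¹ * (M : ℝ) ≤ 4 := by
    rw [inv_mul_le_iff₀ hN0]; linarith
  have hlog0 : 0 ≤ Real.log M := Real.log_natCast_nonneg M
  calc N⁻¹ * ∑ x : H, ∑ j ∈ Fintype.piFinset (fun i => range (J i)),
        ‖∑ n ∈ s, ψ (n : ZMod q) * g ((n : ℝ) / N) * mem χ x j (n : ZMod d)‖ ^ 2
      ≤ N⁻¹ * (C1 * ((d : ℝ) * E) ^ ε * E * (M * (1 + Real.log M)) * B ^ 2 * X) := by gcongr
    _ = C1 * ((d : ℝ) * E) ^ ε * E * ((N⁻¹ * M) * (1 + Real.log M)) * B ^ 2 * X := by ring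
    _ ≤ C1 * (4 * (q : ℝ) ^ (2 * ε)) * (4 * (q : ℝ) ^ ε) * (4 * ((1 + 8 / ε) * (q : ℝ) ^ ε)) *
        B ^ 2 * X := by
        rw [hE] at *
        gcongr
    _ = (C1 * 4 * 4 * 4 * (1 + 8 / ε)) * ((q : ℝ) ^ (2 * ε) * (q : ℝ) ^ ε * (q : ℝ) ^ ε) *
        B ^ 2 * X := by ring
    _ = _ := by
        rw [← Real.rpow_add hq0, ← Real.rpow_add hq0]
        congr 4
        ring

open Classical in
theorem main1 (k : ℕ) {ε : ℝ} (hε : 0 < ε) : ∃ (C : ℝ) (A : ℕ), 0 < C ∧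
    ∀ (q d : ℕ) [NeZero q] [NeZero d] (_ : 1 < q) (hd : d ∣ q)
    (H : Subgroup (DirichletCharacter ℂ d)) [Fintype H]
    (χ : Fin k → DirichletCharacter ℂ d) (J : Fin k → ℕ), Proper H χ J →
    (d : ℝ) ^ (2 / 3 : ℝ) ≤ Fintype.card H * ∏ i, (J i : ℝ) →
    (q : ℝ) ^ (1 / 2 : ℝ) ≤ Fintype.card H * ∏ i, (J i : ℝ) →
    ∀ (ψ : DirichletCharacter ℂ q) (t : ℝ),
    ∑ x : H, ∑ j ∈ Fintype.piFinset (fun i => range (J i)),
      (if (tw hd ψ χ x j).IsPrimitive then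
        ‖(tw hd ψ χ x j).LFunction (1 / 2 + (t : ℂ) * Complex.I)‖ ^ 2 else 0) ≤
      C * (1 + |t|) ^ A * (q : ℝ) ^ ε * (Fintype.card H * ∏ i, (J i : ℝ)) := by
  set δ : ℝ := min ε 1 / 8 with hδ
  have hδ0 : 0 < δ := by positivity
  have hδε : 6 * δ ≤ ε := by
    have := min_le_left ε 1
    have h0 : 0 < min ε 1 := by positivity
    rw [hδ]; linarith
  have hδ1 : δ ≤ 1 := by
    have := min_le_right ε 1
    rw [hδ]; linarith
  obtain ⟨C1, A, hC1, h1⟩ := afe1 hδ0 hδ1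
  obtain ⟨C2, hC2, h2⟩ := one_sum hδ0 hδ1 k
  refine ⟨2 * C1 ^ 2 + 2 * (C1 * C1 * C2 * C1 ^ 2), 2 * A, by positivity, ?_⟩
  intro q d _ _ hq hd H _ χ J hP hX hXq ψ t
  have hq1 : (1 : ℝ) < q := by exact_mod_cast hq
  have hq0 : (0 : ℝ) < q := by linarith
  have hd0 : (0 : ℝ) < d := by exact_mod_cast NeZero.pos d
  set X : ℝ := Fintype.card H * ∏ i, (J i : ℝ) with hXd
  have hX0 : 0 < X := lt_of_lt_of_le (by positivity) hX
  have hJ : ∀ i, 1 ≤ J i := by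
    intro i
    by_contra h
    have hJi : J i = 0 := by omega
    have : ∏ i, (J i : ℝ) = 0 := prod_eq_zero (mem_univ i) (by rw [hJi]; simp)
    rw [hXd, this, mul_zero] at hX0
    exact lt_irrefl _ hX0
  obtain ⟨ι, _, N, g, hcard, hN, hg, hL⟩ := h1 t q hq
  set T : ℝ := C1 * (1 + |t|) ^ A with hT
  have hT0 : 0 < T := by positivity
  set n : ℝ := (Fintype.card ι : ℝ) with hn
  have hn0 : 0 ≤ n := Nat.cast_nonneg _
  have hpt : ∀ (x : H) (j : Fin k → ℕ), (if (tw hd ψ χ x j).IsPrimitive then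
        ‖(tw hd ψ χ x j).LFunction (1 / 2 + (t : ℂ) * Complex.I)‖ ^ 2 else 0) ≤
      2 * T ^ 2 + 2 * (n * ∑ i, (N i ^ (-(1 / 2) : ℝ) * ‖SS (tw hd ψ χ x j) (g i) (N i)‖) ^ 2) := by
    intro x j
    split_ifs with h
    · have h3 := hL _ h
      have h4 : (∑ i, N i ^ (-(1 / 2) : ℝ) * ‖SS (tw hd ψ χ x j) (g i) (N i)‖) ^ 2 ≤
          n * ∑ i, (N i ^ (-(1 / 2) : ℝ) * ‖SS (tw hd ψ χ x j) (g i) (N i)‖) ^ 2 := by
        have := sq_sum_le_card_mul_sum_sq (s := (univ : Finset ι))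
          (f := fun i => N i ^ (-(1 / 2) : ℝ) * ‖SS (tw hd ψ χ x j) (g i) (N i)‖)
        rwa [card_univ] at this
      set S := ∑ i, N i ^ (-(1 / 2) : ℝ) * ‖SS (tw hd ψ χ x j) (g i) (N i)‖ with hS
      calc _ ≤ (T + S) ^ 2 := by gcongr
        _ ≤ 2 * T ^ 2 + 2 * S ^ 2 := by nlinarith [sq_nonneg (T - S)]
        _ ≤ _ := by linarith
    · positivity
  have hcardP : ∑ x : H, ∑ j ∈ Fintype.piFinset (fun i => range (J i)), (1 : ℝ) = X := by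
    simp only [sum_const, card_univ, nsmul_eq_mul, mul_one, Fintype.card_piFinset, card_range]
    rw [hXd]; push_cast; rfl
  calc _ ≤ ∑ x : H, ∑ j ∈ Fintype.piFinset (fun i => range (J i)), (2 * T ^ 2 +
        2 * (n * ∑ i, (N i ^ (-(1 / 2) : ℝ) * ‖SS (tw hd ψ χ x j) (g i) (N i)‖) ^ 2)) :=
        sum_le_sum fun x _ => sum_le_sum fun j _ => hpt x j
    _ = 2 * T ^ 2 * X + 2 * (n * ∑ i, ∑ x : H, ∑ j ∈ Fintype.piFinset (fun i => range (J i)),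
        (N i ^ (-(1 / 2) : ℝ) * ‖SS (tw hd ψ χ x j) (g i) (N i)‖) ^ 2) := by
        have e1 : ∑ x : H, ∑ j ∈ Fintype.piFinset (fun i => range (J i)), (2 * T ^ 2 : ℝ) =
            2 * T ^ 2 * X := by
          rw [← hcardP, mul_sum]
          refine sum_congr rfl fun x _ => ?_
          rw [mul_sum]
          simp only [mul_one]
        have e2 : ∀ f : H → (Fin k → ℕ) → ι → ℝ,
            ∑ x : H, ∑ j ∈ Fintype.piFinset (fun i => range (J i)), ∑ i, f x j i =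
            ∑ i, ∑ x : H, ∑ j ∈ Fintype.piFinset (fun i => range (J i)), f x j i := by
          intro f
          rw [sum_congr rfl (fun x _ => sum_comm), sum_comm]
        rw [← e1, ← e2]
        simp_rw [sum_add_distrib, ← mul_sum]
    _ ≤ 2 * T ^ 2 * X + 2 * (n * ∑ i : ι, C2 * (q : ℝ) ^ (4 * δ) * T ^ 2 * X) := by
        gcongr with i _
        exact h2 q d hq hd H χ J hP hJ hX hXq ψ T (g i) (N i) (hg i) (hN i).1 (hN i).2
    _ = 2 * T ^ 2 * X + 2 * (n * n * (C2 * (q : ℝ) ^ (4 * δ) * T ^ 2 * X)) := by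
        rw [sum_const, nsmul_eq_mul, card_univ]; ring
    _ ≤ 2 * T ^ 2 * X * (q : ℝ) ^ ε + 2 * ((C1 * (q : ℝ) ^ δ) * (C1 * (q : ℝ) ^ δ) *
        (C2 * (q : ℝ) ^ (4 * δ) * T ^ 2 * X)) := by
        have hqe : 1 ≤ (q : ℝ) ^ ε := Real.one_le_rpow hq1.le hε.le
        have h5 : 2 * T ^ 2 * X ≤ 2 * T ^ 2 * X * (q : ℝ) ^ ε :=
          le_mul_of_one_le_right (by positivity) hqe
        gcongr
    _ = 2 * T ^ 2 * X * (q : ℝ) ^ ε + 2 * (C1 * C1 * C2 * T ^ 2 * X) *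
        ((q : ℝ) ^ δ * (q : ℝ) ^ δ * (q : ℝ) ^ (4 * δ)) := by ring
    _ ≤ 2 * T ^ 2 * X * (q : ℝ) ^ ε + 2 * (C1 * C1 * C2 * T ^ 2 * X) * (q : ℝ) ^ ε := by
        have h6 : (q : ℝ) ^ δ * (q : ℝ) ^ δ * (q : ℝ) ^ (4 * δ) ≤ (q : ℝ) ^ ε := by
          rw [← Real.rpow_add hq0, ← Real.rpow_add hq0]
          exact Real.rpow_le_rpow_of_exponent_le hq1.le (by linarith)
        gcongr
    _ = _ := by rw [hT]; ring

end Pool.Agent.Y766
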