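import Pool.Agent.Y766.F3

/-!
Mean squares over proper coset progressions of characters: final form.
-/

set_option autoImplicit false

namespace Pool.Agent.Y766

open Finset

open Classical in
theorem coset_final (k : ℕ) {ε : ℝ} (hε : 0 < ε) : ∃ (C : ℝ) (A : ℕ), 0 < C ∧
    ∀ (q d : ℕ) [NeZero q] [NeZero d], 1 < q → ∀ (hd : d ∣ q)
    (F : Finset (DirichletCharacter ℂ d)),
    (∃ (H : Subgroup (DirichletCharacter ℂ d)) (χ : Fin k → DirichletCharacter ℂ d)
      (J : Fin k → ℕ),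
      (∀ θ : DirichletCharacter ℂ d, θ ∈ F ↔
        ∃ η ∈ H, ∃ j : Fin k → ℕ, (∀ i, j i < J i) ∧ θ = η * ∏ i, χ i ^ j i) ∧
      F.card = Nat.card H * ∏ i, J i) →
    (d : ℝ) ^ (2 / 3 : ℝ) ≤ F.card → (q : ℝ) ^ (1 / 2 : ℝ) ≤ F.card →
    ∀ (ψ : DirichletCharacter ℂ q) (t : ℝ),
    ∑ θ ∈ F.filter (fun θ => (ψ * DirichletCharacter.changeLevel hd θ).IsPrimitive),
      ‖(ψ * DirichletCharacter.changeLevel hd θ).LFunction (1 / 2 + (t : ℂ) * Complex.I)‖ ^ 2 ≤
      C * (1 + |t|) ^ A * (q : ℝ) ^ ε * F.card := by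
  obtain ⟨C, A, hC, h⟩ := main1 k hε
  refine ⟨C, A, hC, ?_⟩
  intro q d _ _ hq hd F ⟨H, χ, J, hF, hcard⟩ hX hXq ψ t
  have : Fintype H := Fintype.ofFinite _
  rw [Nat.card_eq_fintype_card] at hcard
  set P : Finset (H × (Fin k → ℕ)) := univ ×ˢ Fintype.piFinset (fun s => range (J s)) with hPd
  have hPc : P.card = Fintype.card H * ∏ i, J i := by
    rw [hPd, card_product, card_univ, Fintype.card_piFinset]; simp
  have himg : F = P.image (fun p : H × (Fin k → ℕ) => mem χ p.1 p.2) := by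
    ext θ
    rw [hF, mem_image]
    constructor
    · rintro ⟨η, hη, j, hj, rfl⟩
      refine ⟨(⟨η, hη⟩, j), ?_, rfl⟩
      rw [hPd, mem_product, Fintype.mem_piFinset]
      exact ⟨mem_univ _, fun i => mem_range.2 (hj i)⟩
    · rintro ⟨⟨η, j⟩, hp, rfl⟩
      rw [hPd, mem_product, Fintype.mem_piFinset] at hp
      exact ⟨η, η.2, j, fun i => mem_range.1 (hp.2 i), rfl⟩
  have hinj : Set.InjOn (fun p : H × (Fin k → ℕ) => mem χ p.1 p.2) P := by
    rw [← card_image_iff, ← himg, hPc, hcard]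
  have hProp : Proper H χ J := by
    intro a ha b hb i hi j hj hab
    have h1 : ((⟨a, ha⟩ : H), i) ∈ (P : Set (H × (Fin k → ℕ))) := by
      rw [mem_coe, hPd, mem_product]; exact ⟨mem_univ _, hi⟩
    have h2 : ((⟨b, hb⟩ : H), j) ∈ (P : Set (H × (Fin k → ℕ))) := by
      rw [mem_coe, hPd, mem_product]; exact ⟨mem_univ _, hj⟩
    have h3 := hinj h1 h2 hab
    simp only [Prod.mk.injEq, Subtype.mk.injEq] at h3
    exact h3
  have hXe : (F.card : ℝ) = Fintype.card H * ∏ i, (J i : ℝ) := by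
    rw [hcard]; push_cast; rfl
  rw [hXe] at hX hXq ⊢
  have key := h q d hq hd H χ J hProp hX hXq ψ t
  refine le_trans (le_of_eq ?_) key
  rw [sum_filter, himg, sum_image hinj, hPd, sum_product]
  rfl

end Pool.Agent.Y766
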