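import Pool.Agent.Y766.WB

/-!
An abstract form of the bound for the number of rationals of small height.
-/

set_option autoImplicit false

namespace Pool.Agent.Y766

open Finset Pool.Agent.Y766.PS
open scoped Pointwise

theorem W_abs {ε : ℝ} (hε : 0 < ε) (K : ℕ → ℝ) (hK : ∀ n, 1 ≤ K n) : ∃ C : ℝ, 1 ≤ C ∧
    ∀ (D : ℝ) (h : ℕ) (X ρ E : ℝ) (A : Finset ℚ), 1 ≤ D → D ^ (2 / 3 : ℝ) ≤ X → X ≤ 2 * D →
    1 ≤ ρ → 0 < h → Box h h A → 1 ≤ E → (h : ℝ) ≤ X * E →
    (∀ n, 1 ≤ n → (A.card : ℝ) ^ n ≤ K n * ((h : ℝ) ^ ε * ((D / X * ρ) * (1 + (h : ℝ) ^ (2 * n) / D)))) →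
    (A.card : ℝ) ≤ C * (2 * D * E) ^ ε * (E * h * ρ) := by
  set R : ℕ := ⌈1 / ε⌉₊ with hR
  have hR1 : 1 ≤ R := Nat.one_le_ceil_iff.2 (by positivity)
  have hRε : 1 ≤ ε * R := by
    have := Nat.le_ceil (1 / ε)
    rw [← hR, div_le_iff₀ hε] at this
    linarith
  set C : ℝ := 1 + ∑ n ∈ Icc 1 R, 2 * K n with hC
  have hCn : ∀ n, 1 ≤ n → n ≤ R → 2 * K n ≤ C := by
    intro n h1 h2
    have h3 : 2 * K n ≤ ∑ n ∈ Icc 1 R, 2 * K n := by
      refine single_le_sum (f := fun n => 2 * K n) (fun m hm => ?_) (mem_Icc.2 ⟨h1, h2⟩)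
      have := hK m
      positivity
    linarith
  have hC1 : 1 ≤ C := by
    have : 0 ≤ ∑ n ∈ Icc 1 R, 2 * K n := sum_nonneg fun m hm => by
      have := hK m
      positivity
    linarith
  refine ⟨C, hC1, fun D h X ρ E A hD1 hX hXd hρ hh hbox hE hhX hkey => ?_⟩
  have hD0 : 0 < D := by linarith
  have hh1 : (1 : ℝ) ≤ h := by exact_mod_cast hh
  have hh0 : (0 : ℝ) < h := by linarith
  have hX0 : 0 < X := lt_of_lt_of_le (by positivity) hX
  have hX1 : 1 ≤ X := (Real.one_le_rpow hD1 (by norm_num)).trans hX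
  have hdE : (1 : ℝ) ≤ 2 * D * E := by nlinarith
  have hdEε : 1 ≤ (2 * D * E) ^ ε := Real.one_le_rpow hdE hε.le
  rcases lt_or_ge (h : ℝ) ((2 * D * E) ^ ε) with hsm | hbig
  · have h1 : (A.card : ℝ) ≤ (h : ℝ) ^ 2 := by exact_mod_cast box_card hbox
    calc (A.card : ℝ) ≤ (h : ℝ) ^ 2 := h1
      _ = h * h := by ring
      _ ≤ (2 * D * E) ^ ε * h := by gcongr
      _ = 1 * (2 * D * E) ^ ε * (1 * h * 1) := by ring
      _ ≤ C * (2 * D * E) ^ ε * (E * h * ρ) := by gcongr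
  set G : ℝ := D / X with hG
  have hGD : G ≤ (2 * D * E) := by
    calc G ≤ D := by
          rw [hG]
          exact div_le_self hD0.le hX1
      _ ≤ 2 * D * E := by nlinarith
  have hRR : G ≤ (h : ℝ) ^ R := by
    calc G ≤ (2 * D * E) := hGD
      _ = (2 * D * E) ^ (1 : ℝ) := (Real.rpow_one _).symm
      _ ≤ (2 * D * E) ^ (ε * R) := Real.rpow_le_rpow_of_exponent_le hdE hRε
      _ = ((2 * D * E) ^ ε) ^ R := by rw [Real.rpow_mul (by positivity), Real.rpow_natCast]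
      _ ≤ (h : ℝ) ^ R := by gcongr
  have hex : ∃ n : ℕ, 1 ≤ n ∧ G ≤ (h : ℝ) ^ n := ⟨R, hR1, hRR⟩
  classical
  set n := Nat.find hex with hn
  obtain ⟨hn1, hnG⟩ := Nat.find_spec hex
  rw [← hn] at hn1 hnG
  have hnR : n ≤ R := by
    by_contra hlt
    push Not at hlt
    exact Nat.find_min hex hlt ⟨hR1, hRR⟩
  have hnX : (h : ℝ) ^ n ≤ X * E := by
    rcases Nat.eq_or_lt_of_le hn1 with h1 | h1
    · rw [← h1, pow_one]; exact hhX
    · have hm : ¬ (1 ≤ n - 1 ∧ G ≤ (h : ℝ) ^ (n - 1)) := Nat.find_min hex (by omega)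
      have hm' : (h : ℝ) ^ (n - 1) < G := by
        by_contra hcon
        push Not at hcon
        exact hm ⟨by omega, hcon⟩
      have hle : (h : ℝ) ≤ (h : ℝ) ^ (n - 1) := by
        calc (h : ℝ) = (h : ℝ) ^ 1 := (pow_one _).symm
          _ ≤ _ := pow_le_pow_right₀ hh1 (by omega)
      have e : (h : ℝ) ^ n = (h : ℝ) ^ (n - 1) * h := by
        rw [← pow_succ]; congr 1; omega
      have hX3 : D ^ 2 ≤ X ^ 3 := by
        calc D ^ 2 = (D ^ (2 / 3 : ℝ)) ^ 3 := by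
              rw [← Real.rpow_natCast, ← Real.rpow_natCast, ← Real.rpow_mul hD0.le]
              norm_num
          _ ≤ X ^ 3 := by gcongr
      have hG2 : G * G ≤ X := by
        rw [hG, div_mul_div_comm, div_le_iff₀ (by positivity)]
        nlinarith
      calc (h : ℝ) ^ n = (h : ℝ) ^ (n - 1) * h := e
        _ ≤ G * G := by
            have := hm'.le
            have h5 : (h : ℝ) ≤ G := hle.trans this
            gcongr
        _ ≤ X := hG2
        _ ≤ X * E := le_mul_of_one_le_right hX0.le hE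
  have key := hkey n hn1
  have hKn := hK n
  have hhε : (h : ℝ) ^ ε ≤ (2 * D * E) ^ ε := by
    apply Real.rpow_le_rpow hh0.le _ hε.le
    refine hhX.trans ?_
    gcongr
  have h2n : (h : ℝ) ^ (2 * n) = (h : ℝ) ^ n * (h : ℝ) ^ n := by rw [two_mul, pow_add]
  have hbr : G * (1 + (h : ℝ) ^ (2 * n) / D) ≤ 2 * ((h : ℝ) ^ n * E) := by
    have h3 : G * ((h : ℝ) ^ (2 * n) / D) ≤ (h : ℝ) ^ n * E := by
      rw [h2n, hG]
      calc D / X * ((h : ℝ) ^ n * (h : ℝ) ^ n / D) = (h : ℝ) ^ n * ((h : ℝ) ^ n / X) := by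
            field_simp
        _ ≤ (h : ℝ) ^ n * E := by
            gcongr
            rw [div_le_iff₀ hX0]; linarith
    have h5 : G ≤ (h : ℝ) ^ n * E := hnG.trans (le_mul_of_one_le_right (by positivity) hE)
    nlinarith
  have hpow : (A.card : ℝ) ^ n ≤ (C * (2 * D * E) ^ ε * (E * h * ρ)) ^ n := by
    calc (A.card : ℝ) ^ n ≤ K n * ((h : ℝ) ^ ε * ((D / X * ρ) * (1 + (h : ℝ) ^ (2 * n) / D))) := key
      _ ≤ K n * ((2 * D * E) ^ ε * ((D / X * ρ) * (1 + (h : ℝ) ^ (2 * n) / D))) := by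
          gcongr
      _ = K n * (2 * D * E) ^ ε * (ρ * (G * (1 + (h : ℝ) ^ (2 * n) / D))) := by
          rw [hG]; ring
      _ ≤ K n * (2 * D * E) ^ ε * (ρ * (2 * ((h : ℝ) ^ n * E))) := by gcongr
      _ = (2 * K n) * (2 * D * E) ^ ε * (E * ρ) * (h : ℝ) ^ n := by ring
      _ ≤ C * (2 * D * E) ^ ε * (E * ρ) * (h : ℝ) ^ n := by
          have := hCn n hn1 hnR
          gcongr
      _ ≤ (C * (2 * D * E) ^ ε * (E * ρ)) ^ n * (h : ℝ) ^ n := by
          gcongr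
          apply le_self_pow₀ _ (by omega)
          have h6 : 1 ≤ E * ρ := by nlinarith
          have h7 : 1 ≤ C * (2 * D * E) ^ ε := by nlinarith
          nlinarith
      _ = _ := by rw [← mul_pow]; congr 1; ring
  exact le_of_pow_le_pow_left₀ (by omega) (by positivity) hpow

end Pool.Agent.Y766
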