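import Pool.Agent.Y766.G1

/-!
Rationals of bounded height whose logarithms lie in few short intervals.
-/

set_option autoImplicit false

namespace Pool.Agent.Y766

open Finset Pool.Agent.Y766.PS
open scoped Pointwise

lemma log_gap {h : ℕ} (hh : 0 < h) {A : Finset ℚ} (hA : Box h h A) {c : ℝ} (hc : 0 < c)
    (hcc : ∀ r ∈ A, (r : ℝ) ≤ c) : ∀ r ∈ A, ∀ r' ∈ A, r < r' →
    1 / (c * (h : ℝ) ^ 2) ≤ Real.log r' - Real.log r := by
  intro r hr r' hr' hlt
  obtain ⟨p0, p1, p2⟩ := hA r hr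
  obtain ⟨p0', p1', p2'⟩ := hA r' hr'
  have hb := r.den_pos
  have hb' := r'.den_pos
  have e1 := rat_eq p0
  have e2 := rat_eq p0'
  have hh0 : (0 : ℝ) < h := by exact_mod_cast hh
  have hlt2 : r.num.natAbs * r'.den < r'.num.natAbs * r.den := by
    have h3 : (r.num.natAbs : ℚ) / r.den < (r'.num.natAbs : ℚ) / r'.den := by rwa [← e1, ← e2]
    rw [div_lt_div_iff₀ (by exact_mod_cast hb) (by exact_mod_cast hb')] at h3
    exact_mod_cast h3
  have hge' : (r.num.natAbs : ℝ) * r'.den + 1 ≤ r'.num.natAbs * r.den := by exact_mod_cast hlt2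
  have e1' : (r : ℝ) = (r.num.natAbs : ℝ) / r.den := by
    conv_lhs => rw [e1]
    push_cast; rfl
  have e2' : (r' : ℝ) = (r'.num.natAbs : ℝ) / r'.den := by
    conv_lhs => rw [e2]
    push_cast; rfl
  have hb1 : (0 : ℝ) < r.den := by exact_mod_cast hb
  have hb2 : (0 : ℝ) < r'.den := by exact_mod_cast hb'
  have hq1 : (r.den : ℝ) ≤ h := by exact_mod_cast p2
  have hq2 : (r'.den : ℝ) ≤ h := by exact_mod_cast p2'
  have hr0 : (0 : ℝ) < r := by exact_mod_cast p0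
  have hr0' : (0 : ℝ) < r' := by exact_mod_cast p0'
  have h5 : (r' : ℝ) - r = ((r'.num.natAbs : ℝ) * r.den - r.num.natAbs * r'.den) /
      (r.den * r'.den) := by
    rw [e1', e2']; field_simp
  have h6 : 1 / (h : ℝ) ^ 2 ≤ (r' : ℝ) - r := by
    rw [h5]
    calc 1 / (h : ℝ) ^ 2 ≤ 1 / (r.den * r'.den) := by
          gcongr
          nlinarith
      _ ≤ _ := by
          gcongr
          linarith
  have h7 : Real.log r - Real.log r' ≤ (r : ℝ) / r' - 1 := by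
    rw [← Real.log_div hr0.ne' hr0'.ne']
    have := Real.log_le_sub_one_of_pos (show 0 < (r : ℝ) / r' by positivity)
    linarith
  have h8 : ((r' : ℝ) - r) / r' ≤ Real.log r' - Real.log r := by
    have : (r : ℝ) / r' - 1 = -(((r' : ℝ) - r) / r') := by field_simp; ring
    linarith
  calc 1 / (c * (h : ℝ) ^ 2) = (1 / (h : ℝ) ^ 2) / c := by field_simp
    _ ≤ ((r' : ℝ) - r) / r' := by
        have := hcc r' hr'
        gcongr
        exact (by positivity : (0 : ℝ) ≤ 1 / (h : ℝ) ^ 2).trans h6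
    _ ≤ _ := h8

lemma fiber_log {h : ℕ} (hh : 0 < h) {A : Finset ℚ} (hA : Box h h A) {c : ℝ} (hc : 0 < c)
    (hcc : ∀ r ∈ A, (r : ℝ) ≤ c) {D : ℝ} (hD : 0 < D) (a : ℤ)
    (ha : ∀ r ∈ A, ⌊D * Real.log r⌋ = a) : (A.card : ℝ) ≤ 2 + c * (h : ℝ) ^ 2 / D := by
  have hh0 : (0 : ℝ) < h := by exact_mod_cast hh
  have gap := log_gap hh hA hc hcc
  have hin : ∀ r ∈ A, 0 ≤ Real.log r - a / D ∧ Real.log r - a / D ≤ 1 / D := by
    intro r hr
    have h1 := Int.floor_le (D * Real.log r)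
    have h2 := Int.lt_floor_add_one (D * Real.log r)
    rw [ha r hr] at h1 h2
    have e : Real.log r = D * Real.log r / D := by field_simp
    constructor
    · rw [e, ← sub_div]
      apply div_nonneg _ hD.le
      linarith
    · rw [e, ← sub_div]
      gcongr
      linarith
  have hinj : Set.InjOn (fun r : ℚ => ⌊(Real.log r - a / D) * (c * (h : ℝ) ^ 2)⌋₊) A := by
    intro r hr r' hr' hrr
    by_contra hne
    simp only at hrr
    have key : ∀ x ∈ A, ∀ y ∈ A, x < y → ⌊(Real.log x - a / D) * (c * (h : ℝ) ^ 2)⌋₊ ≠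
        ⌊(Real.log y - a / D) * (c * (h : ℝ) ^ 2)⌋₊ := by
      intro x hx y hy hxy heq
      have g := gap x hx y hy hxy
      have f1 := Nat.floor_le (mul_nonneg (hin x hx).1 (by positivity : 0 ≤ c * (h : ℝ) ^ 2))
      have f2 := Nat.lt_floor_add_one ((Real.log y - a / D) * (c * (h : ℝ) ^ 2))
      rw [← heq] at f2
      rw [div_le_iff₀ (by positivity)] at g
      nlinarith
    rcases lt_or_gt_of_ne hne with hlt | hlt
    · exact key r hr r' hr' hlt hrr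
    · exact key r' hr' r hr hlt hrr.symm
  have hmaps : Set.MapsTo (fun r : ℚ => ⌊(Real.log r - a / D) * (c * (h : ℝ) ^ 2)⌋₊) A
      (range (⌊c * (h : ℝ) ^ 2 / D⌋₊ + 1)) := by
    intro r hr
    simp only [coe_range, Set.mem_Iio, Nat.lt_succ_iff]
    apply Nat.floor_le_floor
    calc (Real.log r - a / D) * (c * (h : ℝ) ^ 2) ≤ (1 / D) * (c * (h : ℝ) ^ 2) := by
          have := (hin r hr).2
          gcongr
      _ = _ := by field_simp
  have hcard := card_le_card_of_injOn _ hmaps hinj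
  rw [card_range] at hcard
  have h7 : (A.card : ℝ) ≤ (⌊c * (h : ℝ) ^ 2 / D⌋₊ : ℝ) + 1 := by exact_mod_cast hcard
  have h8 := Nat.floor_le (show 0 ≤ c * (h : ℝ) ^ 2 / D by positivity)
  linarith

lemma fiber_log_sum {h : ℕ} (hh : 0 < h) (A : Finset ℚ) (hA : Box h h A) {c : ℝ} (hc : 0 < c)
    (hcc : ∀ r ∈ A, (r : ℝ) ≤ c) {D : ℝ} (hD : 0 < D) (S : Finset ℤ)
    (hs : ∀ r ∈ A, ⌊D * Real.log r⌋ ∈ S) :
    (A.card : ℝ) ≤ S.card * (2 + c * (h : ℝ) ^ 2 / D) := by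
  classical
  have e := card_eq_sum_card_fiberwise (f := fun r : ℚ => ⌊D * Real.log r⌋) (s := A) (t := S) hs
  rw [e]
  push_cast
  calc ∑ b ∈ S, (({a ∈ A | ⌊D * Real.log a⌋ = b} : Finset ℚ).card : ℝ)
      ≤ ∑ b ∈ S, (2 + c * (h : ℝ) ^ 2 / D) := by
        refine sum_le_sum fun b _ => ?_
        exact fiber_log hh (fun r hr => hA r (mem_filter.1 hr).1) hc
          (fun r hr => hcc r (mem_filter.1 hr).1) hD b (fun r hr => (mem_filter.1 hr).2)
    _ = _ := by rw [sum_const, nsmul_eq_mul]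

lemma pow_sets_real (A : Finset ℚ) {h : ℕ} (hA : Box h h A)
    (hcc : ∀ r ∈ A, (r : ℝ) ≤ 4) (hcc' : ∀ r ∈ A, 1 / 4 ≤ (r : ℝ)) (Q : ℕ → ℝ → Prop) (h0 : Q 0 0)
    (h1 : ∀ r ∈ A, Q 1 (Real.log r)) (hadd : ∀ n a b, Q n a → Q 1 b → Q (n + 1) (a + b)) (n : ℕ) :
    ∀ r ∈ A ^ n, (0 : ℝ) < r ∧ (r : ℝ) ≤ 4 ^ n ∧ |Real.log r| ≤ 2 * n ∧ Q n (Real.log r) := by
  have hl4 : Real.log 4 ≤ 2 := by
    have : Real.log 4 = 2 * Real.log 2 := by
      rw [show (4 : ℝ) = 2 ^ 2 by norm_num, Real.log_pow]; norm_num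
    have := Real.log_two_lt_d9
    linarith
  induction n with
  | zero =>
    intro r hr
    rw [pow_zero, Finset.mem_one] at hr
    subst hr
    simp [h0]
  | succ n ih =>
    intro x hx
    rw [pow_succ] at hx
    obtain ⟨r, hr, s, hs, rfl⟩ := mem_mul.1 hx
    obtain ⟨c1, c2, c3, c4⟩ := ih r hr
    have s0 : (0 : ℝ) < s := by exact_mod_cast (hA s hs).1
    have s4 := hcc s hs
    have s4' := hcc' s hs
    have e : Real.log ((r * s : ℚ) : ℝ) = Real.log r + Real.log s := by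
      push_cast
      rw [Real.log_mul c1.ne' s0.ne']
    have hls : |Real.log s| ≤ 2 := by
      rw [abs_le]
      constructor
      · have : Real.log (1 / 4) ≤ Real.log s := Real.log_le_log (by norm_num) s4'
        rw [one_div, Real.log_inv] at this
        linarith
      · have : Real.log s ≤ Real.log 4 := Real.log_le_log s0 s4
        linarith
    refine ⟨by push_cast; positivity, ?_, ?_, ?_⟩
    · push_cast
      rw [pow_succ]
      gcongr
    · rw [e]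
      push_cast
      calc |Real.log r + Real.log s| ≤ |Real.log r| + |Real.log s| := abs_add_le _ _
        _ ≤ _ := by linarith
    · rw [e]
      exact hadd n _ _ c4 (h1 s hs)

/-- the counting bound by product sets, real version -/
theorem count_pow_real {ε : ℝ} (hε : 0 < ε) (n : ℕ) (hn : 1 ≤ n) : ∃ C : ℝ, 1 ≤ C ∧
    ∀ (D : ℝ) (h : ℕ), 0 < D → 0 < h → ∀ A : Finset ℚ, Box h h A →
    (∀ r ∈ A, (r : ℝ) ≤ 4) → (∀ r ∈ A, 1 / 4 ≤ (r : ℝ)) → ∀ (Q : ℕ → ℝ → Prop), Q 0 0 →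
    (∀ r ∈ A, Q 1 (Real.log r)) →
    (∀ n a b, Q n a → Q 1 b → Q (n + 1) (a + b)) → ∀ S : Finset ℤ,
    (∀ x : ℝ, |x| ≤ 2 * n → Q n x → ⌊D * x⌋ ∈ S) →
    (A.card : ℝ) ^ n ≤ C * ((h : ℝ) ^ ε * (S.card * (1 + (h : ℝ) ^ (2 * n) / D))) := by
  obtain ⟨C, hC1, hC⟩ := prodset_pow hε n hn
  refine ⟨C * 4 ^ n, ?_, ?_⟩
  · have : (1 : ℝ) ≤ 4 ^ n := one_le_pow₀ (by norm_num)
    nlinarith
  intro D h hD hh A hA hcc hcc' Q h0 h1 hmul S hS
  have hp := pow_sets_real A hA hcc hcc' Q h0 h1 hmul n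
  have hf := fiber_log_sum (Nat.pow_pos (n := n) hh) (A ^ n) (box_pow hA n)
    (c := 4 ^ n) (by positivity) (fun r hr => (hp r hr).2.1) hD S
    (fun r hr => hS _ (hp r hr).2.2.1 (hp r hr).2.2.2)
  have h2 := hC h hh A hA
  have h4 : (2 : ℝ) ≤ 4 ^ n := by
    calc (2 : ℝ) ≤ 4 ^ 1 := by norm_num
      _ ≤ 4 ^ n := pow_le_pow_right₀ (by norm_num) hn
  have e : (((h ^ n : ℕ) : ℝ)) ^ 2 = (h : ℝ) ^ (2 * n) := by push_cast; ring
  rw [e] at hf
  calc (A.card : ℝ) ^ n ≤ C * (h : ℝ) ^ ε * ((A ^ n).card : ℝ) := h2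
    _ ≤ C * (h : ℝ) ^ ε * (S.card * (2 + 4 ^ n * (h : ℝ) ^ (2 * n) / D)) := by gcongr
    _ ≤ C * (h : ℝ) ^ ε * (S.card * (4 ^ n * (1 + (h : ℝ) ^ (2 * n) / D))) := by
        gcongr
        rw [mul_add, mul_one, mul_div_assoc]
        gcongr
    _ = _ := by ring

end Pool.Agent.Y766
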