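import Pool.Agent.Y766.G2
import Pool.Agent.Y766.CH

/-!
Frequencies in a generalised arithmetic progression: the grid points at which all of them are
close to one.
-/

set_option autoImplicit false

namespace Pool.Agent.Y766

open Finset

lemma sep_sum {ι : Type*} [DecidableEq ι] (P : Finset ι) (w : ι → ℝ) (D : ℝ) (hD : 1 ≤ D)
    (hsep : ∀ x ∈ P, ∀ y ∈ P, x ≠ y → 1 ≤ |w y - w x| ∧ |w y - w x| ≤ D) (x : ι) (hx : x ∈ P) :
    ∑ y ∈ P.erase x, 1 / |w y - w x| ≤ 2 * (1 + Real.log D) := by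
  have hmaps : ∀ y ∈ P.erase x, ⌊|w y - w x|⌋₊ ∈ Icc 1 ⌊D⌋₊ := by
    intro y hy
    rw [mem_erase] at hy
    have h := hsep x hx y hy.2 (Ne.symm hy.1)
    rw [mem_Icc]
    exact ⟨Nat.le_floor (by push_cast; exact h.1), Nat.floor_le_floor h.2⟩
  rw [← sum_fiberwise_of_maps_to hmaps]
  have hfib : ∀ n ∈ Icc 1 ⌊D⌋₊, ∑ y ∈ (P.erase x).filter (fun y => ⌊|w y - w x|⌋₊ = n),
      1 / |w y - w x| ≤ 2 * (1 / (n : ℝ)) := by
    intro n hn
    rw [mem_Icc] at hn
    have hn0 : (0 : ℝ) < n := by exact_mod_cast hn.1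
    set F := (P.erase x).filter (fun y => ⌊|w y - w x|⌋₊ = n) with hF
    have hmem : ∀ y ∈ F, y ∈ P ∧ y ≠ x ∧ (n : ℝ) ≤ |w y - w x| ∧ |w y - w x| < n + 1 := by
      intro y hy
      rw [hF, mem_filter, mem_erase] at hy
      refine ⟨hy.1.2, hy.1.1, ?_, ?_⟩
      · rw [← hy.2]; exact Nat.floor_le (abs_nonneg _)
      · rw [← hy.2]; exact Nat.lt_floor_add_one _
    have hc : F.card ≤ 2 := by
      have e : F = F.filter (fun y => w x < w y) ∪ F.filter (fun y => ¬ w x < w y) :=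
        (filter_union_filter_not_eq _ _).symm
      rw [e]
      refine (card_union_le _ _).trans ?_
      have c1 : (F.filter (fun y => w x < w y)).card ≤ 1 := by
        rw [card_le_one]
        intro y hy z hz
        rw [mem_filter] at hy hz
        by_contra hne
        obtain ⟨y1, y2, y3, y4⟩ := hmem y hy.1
        obtain ⟨z1, z2, z3, z4⟩ := hmem z hz.1
        have h := (hsep y y1 z z1 hne).1
        rw [abs_of_pos (by linarith [hy.2])] at y3 y4
        rw [abs_of_pos (by linarith [hz.2])] at z3 z4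
        rcases le_or_gt (w y) (w z) with h1 | h1
        · rw [abs_of_nonneg (by linarith)] at h; linarith
        · rw [abs_of_neg (by linarith)] at h; linarith
      have c2 : (F.filter (fun y => ¬ w x < w y)).card ≤ 1 := by
        rw [card_le_one]
        intro y hy z hz
        rw [mem_filter] at hy hz
        by_contra hne
        obtain ⟨y1, y2, y3, y4⟩ := hmem y hy.1
        obtain ⟨z1, z2, z3, z4⟩ := hmem z hz.1
        have h := (hsep y y1 z z1 hne).1
        rw [abs_of_nonpos (by linarith [hy.2])] at y3 y4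
        rw [abs_of_nonpos (by linarith [hz.2])] at z3 z4
        rcases le_or_gt (w y) (w z) with h1 | h1
        · rw [abs_of_nonneg (by linarith)] at h; linarith
        · rw [abs_of_neg (by linarith)] at h; linarith
      omega
    calc ∑ y ∈ F, 1 / |w y - w x| ≤ ∑ y ∈ F, 1 / (n : ℝ) := by
          refine sum_le_sum fun y hy => ?_
          have := (hmem y hy).2.2.1
          gcongr
      _ = F.card * (1 / (n : ℝ)) := by rw [sum_const, nsmul_eq_mul]
      _ ≤ 2 * (1 / (n : ℝ)) := by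
          have : (F.card : ℝ) ≤ 2 := by exact_mod_cast hc
          gcongr
  refine (sum_le_sum hfib).trans ?_
  rw [← mul_sum]
  have hlog : ∑ g ∈ Icc 1 ⌊D⌋₊, 1 / (g : ℝ) ≤ 1 + Real.log ⌊D⌋₊ := by
    have h := harmonic_le_one_add_log ⌊D⌋₊
    rw [harmonic_eq_sum_Icc] at h
    push_cast at h
    simpa using h
  have h0 : (0 : ℝ) < ⌊D⌋₊ := by exact_mod_cast Nat.floor_pos.2 hD
  have hlog2 : Real.log ⌊D⌋₊ ≤ Real.log D := Real.log_le_log h0 (Nat.floor_le (by linarith))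
  linarith

lemma exp_lower {θ : ℝ} (h : |θ| ≤ 1) : |θ| / 2 ≤ ‖Complex.exp (Complex.I * θ) - 1‖ := by
  rw [Complex.norm_exp_I_mul_ofReal_sub_one, Real.norm_eq_abs, abs_mul, abs_two]
  have h1 : |θ / 2| ≤ Real.pi / 2 := by
    rw [abs_div, abs_two]
    have := Real.pi_gt_three
    linarith
  have h2 := Real.mul_abs_le_abs_sin h1
  rw [abs_div, abs_two] at h2
  have h3 : (1 : ℝ) / 2 ≤ 2 / Real.pi := by
    rw [div_le_div_iff₀ (by norm_num) Real.pi_pos]
    have := Real.pi_lt_four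
    linarith
  have h4 := abs_nonneg θ
  have h5 : (1 : ℝ) / 2 * (|θ| / 2) ≤ 2 / Real.pi * (|θ| / 2) := by gcongr
  linarith

lemma geom_int (M : ℕ) {θ : ℝ} (h : |θ| ≤ 1) (h0 : θ ≠ 0) :
    ‖∑ a ∈ Icc (-(M : ℤ)) M, Complex.exp (Complex.I * ((θ * a : ℝ) : ℂ))‖ ≤ 4 / |θ| := by
  set z := Complex.exp (Complex.I * θ) with hz
  have hzn : ‖z‖ = 1 := by rw [hz, mul_comm]; exact Complex.norm_exp_ofReal_mul_I θ
  have hlow := exp_lower h
  have hθ : 0 < |θ| := abs_pos.2 h0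
  have hz1 : z ≠ 1 := by
    intro h1
    rw [← hz, h1, sub_self, norm_zero] at hlow
    linarith
  have e : ∑ a ∈ Icc (-(M : ℤ)) M, Complex.exp (Complex.I * ((θ * a : ℝ) : ℂ)) =
      Complex.exp (Complex.I * ((θ * (-(M : ℤ) : ℤ) : ℝ) : ℂ)) * ∑ b ∈ range (2 * M + 1), z ^ b := by
    rw [mul_sum]
    symm
    refine sum_bij' (fun b _ => -(M : ℤ) + b) (fun a _ => (a + M).toNat) ?_ ?_ ?_ ?_ ?_
    · intro b hb
      rw [mem_range] at hb
      rw [mem_Icc]
      constructor <;> omega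
    · intro a ha
      rw [mem_Icc] at ha
      rw [mem_range]
      omega
    · intro b hb
      omega
    · intro a ha
      rw [mem_Icc] at ha
      omega
    · intro b hb
      rw [hz, ← Complex.exp_nat_mul, ← Complex.exp_add]
      congr 1
      push_cast
      ring
  rw [e, norm_mul, mul_comm Complex.I, Complex.norm_exp_ofReal_mul_I, one_mul, geom_sum_eq hz1,
    norm_div]
  have h5 : 0 < ‖z - 1‖ := by linarith
  rw [div_le_div_iff₀ h5 hθ]
  have h6 : ‖z ^ (2 * M + 1) - 1‖ ≤ 2 := by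
    have := norm_sub_le (z ^ (2 * M + 1)) 1
    rw [norm_pow, hzn, one_pow, norm_one] at this
    linarith
  calc ‖z ^ (2 * M + 1) - 1‖ * |θ| ≤ 2 * (2 * ‖z - 1‖) := by
        gcongr
        linarith
    _ = _ := by ring

lemma near_card_real {k : ℕ} (Δ : Fin k → ℝ) (V : Fin k → ℕ) (hV1 : ∀ i, 1 ≤ V i) {D : ℝ}
    (hD : 1 ≤ D)
    (hsep : ∀ x ∈ Fintype.piFinset (fun i => range (V i)),
      ∀ y ∈ Fintype.piFinset (fun i => range (V i)), x ≠ y →
      1 ≤ |∑ i, (y i : ℝ) * Δ i - ∑ i, (x i : ℝ) * Δ i| ∧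
        |∑ i, (y i : ℝ) * Δ i - ∑ i, (x i : ℝ) * Δ i| ≤ D)
    (δ : Fin k → ℝ) (hδ : ∀ i, ((V i : ℝ) - 1) * δ i ≤ 1 / 2) (M : ℕ) (S : Finset ℤ)
    (hSM : S ⊆ Icc (-(M : ℤ)) M)
    (hS : ∀ a ∈ S, ∀ i, ‖Complex.exp (Complex.I * ((Δ i / D * a : ℝ) : ℂ)) - 1‖ ≤ δ i) :
    (S.card : ℝ) * (∏ i, (V i : ℝ)) ≤ 4 ^ k * (2 * M + 1 + 8 * D * (1 + Real.log D)) := by
  classical
  set P := Fintype.piFinset (fun i => range (V i)) with hP
  set w : (Fin k → ℕ) → ℝ := fun x => ∑ i, (x i : ℝ) * Δ i with hw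
  set X : ℝ := ∏ i, (V i : ℝ) with hX
  have hD0 : 0 < D := by linarith
  have hPc : (P.card : ℝ) = X := by
    rw [hP, Fintype.card_piFinset]; push_cast; simp [hX]
  have hX0 : 0 < X := prod_pos fun i _ => by exact_mod_cast hV1 i
  have hup : ∑ a ∈ Icc (-(M : ℤ)) M, ‖∑ x ∈ P, Complex.exp (Complex.I * ((w x / D * a : ℝ) : ℂ))‖ ^ 2 ≤
      X * (2 * M + 1 + 8 * D * (1 + Real.log D)) := by
    have e : ((∑ a ∈ Icc (-(M : ℤ)) M,
        ‖∑ x ∈ P, Complex.exp (Complex.I * ((w x / D * a : ℝ) : ℂ))‖ ^ 2 : ℝ) : ℂ) =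
        ∑ x ∈ P, ∑ y ∈ P, ∑ a ∈ Icc (-(M : ℤ)) M,
          Complex.exp (Complex.I * (((w x - w y) / D * a : ℝ) : ℂ)) := by
      push_cast
      have e1 : ∀ a : ℤ, ((‖∑ x ∈ P, Complex.exp (Complex.I * ((w x / D * a : ℝ) : ℂ))‖ : ℂ)) ^ 2 =
          ∑ x ∈ P, ∑ y ∈ P, Complex.exp (Complex.I * (((w x - w y) / D * a : ℝ) : ℂ)) := by
        intro a
        rw [← Complex.mul_conj', map_sum, sum_mul_sum]
        refine sum_congr rfl fun x _ => sum_congr rfl fun y _ => ?_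
        rw [← Complex.exp_conj, ← Complex.exp_add]
        congr 1
        rw [map_mul, Complex.conj_I, Complex.conj_ofReal]
        push_cast
        ring
      have e2 := e1
      push_cast at e2
      rw [sum_congr rfl fun a _ => e2 a, sum_comm]
      refine sum_congr rfl fun x _ => ?_
      rw [sum_comm]
    have hnn : 0 ≤ ∑ a ∈ Icc (-(M : ℤ)) M,
        ‖∑ x ∈ P, Complex.exp (Complex.I * ((w x / D * a : ℝ) : ℂ))‖ ^ 2 :=
      sum_nonneg fun _ _ => by positivity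
    have e3 : ∑ a ∈ Icc (-(M : ℤ)) M,
        ‖∑ x ∈ P, Complex.exp (Complex.I * ((w x / D * a : ℝ) : ℂ))‖ ^ 2 =
        ‖((∑ a ∈ Icc (-(M : ℤ)) M,
        ‖∑ x ∈ P, Complex.exp (Complex.I * ((w x / D * a : ℝ) : ℂ))‖ ^ 2 : ℝ) : ℂ)‖ := by
      rw [Complex.norm_real, Real.norm_eq_abs, abs_of_nonneg hnn]
    rw [e3, e]
    have hx : ∀ x ∈ P, ‖∑ y ∈ P, ∑ a ∈ Icc (-(M : ℤ)) M,
          Complex.exp (Complex.I * (((w x - w y) / D * a : ℝ) : ℂ))‖ ≤
        2 * M + 1 + 8 * D * (1 + Real.log D) := by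
      intro x hxP
      rw [← add_sum_erase P _ hxP]
      refine (norm_add_le _ _).trans ?_
      have h1 : ‖∑ a ∈ Icc (-(M : ℤ)) M,
          Complex.exp (Complex.I * (((w x - w x) / D * a : ℝ) : ℂ))‖ = 2 * M + 1 := by
        simp only [sub_self, zero_div, zero_mul, Complex.ofReal_zero, mul_zero, Complex.exp_zero,
          sum_const, Int.card_Icc, nsmul_eq_mul, mul_one]
        rw [Complex.norm_natCast]
        have : (((M : ℤ) + 1 - -(M : ℤ)).toNat : ℕ) = 2 * M + 1 := by omega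
        rw [this]; push_cast; ring
      have h2 : ‖∑ y ∈ P.erase x, ∑ a ∈ Icc (-(M : ℤ)) M,
          Complex.exp (Complex.I * (((w x - w y) / D * a : ℝ) : ℂ))‖ ≤
          4 * D * ∑ y ∈ P.erase x, 1 / |w y - w x| := by
        refine (norm_sum_le _ _).trans ?_
        rw [mul_sum]
        refine sum_le_sum fun y hy => ?_
        rw [mem_erase] at hy
        obtain ⟨s1, s2⟩ := hsep x hxP y hy.2 (Ne.symm hy.1)
        have hne : w x - w y ≠ 0 := by
          intro h0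
          have : w y - w x = 0 := by linarith
          rw [show (∑ i, (y i : ℝ) * Δ i - ∑ i, (x i : ℝ) * Δ i) = w y - w x from rfl, this,
            abs_zero] at s1
          linarith
        have hθ : |(w x - w y) / D| ≤ 1 := by
          rw [abs_div, abs_of_pos hD0, div_le_one hD0, abs_sub_comm]
          exact s2
        have h3 := geom_int M hθ (div_ne_zero hne hD0.ne')
        refine h3.trans (le_of_eq ?_)
        rw [abs_div, abs_of_pos hD0, abs_sub_comm]
        have : |w y - w x| ≠ 0 := by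
          rw [abs_sub_comm]; exact abs_ne_zero.2 hne
        field_simp
      have h4 := sep_sum P w D hD hsep x hxP
      rw [h1]
      have h5 : 4 * D * ∑ y ∈ P.erase x, 1 / |w y - w x| ≤ 4 * D * (2 * (1 + Real.log D)) := by
        gcongr
      linarith
    refine (norm_sum_le _ _).trans ((sum_le_sum hx).trans ?_)
    rw [sum_const, nsmul_eq_mul, hPc]
  have hlow : ∀ a ∈ S, (X / 2 ^ k) ^ 2 ≤
      ‖∑ x ∈ P, Complex.exp (Complex.I * ((w x / D * a : ℝ) : ℂ))‖ ^ 2 := by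
    intro a ha
    have h2 := hS a ha
    have e : ∑ x ∈ P, Complex.exp (Complex.I * ((w x / D * a : ℝ) : ℂ)) =
        ∏ i, ∑ j ∈ range (V i), (Complex.exp (Complex.I * ((Δ i / D * a : ℝ) : ℂ))) ^ j := by
      rw [prod_univ_sum]
      refine sum_congr rfl fun x _ => ?_
      simp_rw [← Complex.exp_nat_mul]
      rw [← Complex.exp_sum]
      congr 1
      simp only [hw]
      push_cast
      rw [sum_div, sum_mul, mul_sum]
      refine sum_congr rfl fun i _ => ?_
      ring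
    rw [e, norm_prod]
    have h3 : ∏ i, ((V i : ℝ) / 2) ≤
        ∏ i, ‖∑ j ∈ range (V i), (Complex.exp (Complex.I * ((Δ i / D * a : ℝ) : ℂ))) ^ j‖ := by
      refine prod_le_prod (fun i _ => by positivity) fun i _ => ?_
      refine geom_lower ?_ (hV1 i) (le_trans ?_ (hδ i))
      · rw [mul_comm, Complex.norm_exp_ofReal_mul_I]
      · have h4 : (0 : ℝ) ≤ (V i : ℝ) - 1 := by
          have : (1 : ℝ) ≤ V i := by exact_mod_cast hV1 i
          linarith
        exact mul_le_mul_of_nonneg_left (h2 i) h4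
    have h5 : X / 2 ^ k = ∏ i, ((V i : ℝ) / 2) := by
      rw [hX, prod_div_distrib]; simp
    rw [h5]
    exact pow_le_pow_left₀ (prod_nonneg fun i _ => by positivity) h3 2
  set Z := (2 * M + 1 + 8 * D * (1 + Real.log D)) with hZ
  have hfin : (S.card : ℝ) * (X / 2 ^ k) ^ 2 ≤ X * Z := by
    refine le_trans ?_ hup
    calc (S.card : ℝ) * (X / 2 ^ k) ^ 2 = ∑ a ∈ S, (X / 2 ^ k) ^ 2 := by
          rw [sum_const, nsmul_eq_mul]
      _ ≤ ∑ a ∈ S, ‖∑ x ∈ P, Complex.exp (Complex.I * ((w x / D * a : ℝ) : ℂ))‖ ^ 2 :=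
          sum_le_sum hlow
      _ ≤ _ := sum_le_sum_of_subset_of_nonneg hSM fun _ _ _ => by positivity
  have h4k : (2 ^ k : ℝ) ^ 2 = 4 ^ k := by rw [← pow_mul, mul_comm, pow_mul]; norm_num
  have h6 : (S.card : ℝ) * X * X ≤ 4 ^ k * Z * X := by
    have : (S.card : ℝ) * (X / 2 ^ k) ^ 2 * 4 ^ k = (S.card : ℝ) * X * X := by
      rw [div_pow, h4k]; field_simp
    calc (S.card : ℝ) * X * X = (S.card : ℝ) * (X / 2 ^ k) ^ 2 * 4 ^ k := this.symm
      _ ≤ X * Z * 4 ^ k := by gcongr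
      _ = _ := by ring
  exact le_of_mul_le_mul_right h6 hX0

end Pool.Agent.Y766
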