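import Pool.Agent.Y766.G3
import Pool.Agent.Y766.F2

/-!
Mean squares of Dirichlet polynomials over generalised arithmetic progressions.
-/

set_option autoImplicit false

namespace Pool.Agent.Y766

open Finset Pool.Agent.Y766.PS

/-- pairs at which all the ratios are close to one -/
noncomputable def prg {k : ℕ} (c : Fin k → ℕ → ℂ) (l : Fin k → ℕ) (s : Finset ℕ) :
    Finset (ℕ × ℕ) := by
  classical
  exact (s ×ˢ s).filter (fun p => ∀ i, ‖c i p.1 * (starRingEnd ℂ) (c i p.2) - 1‖ ≤ 2 / 2 ^ l i)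

theorem mean_square_gen {k : ℕ} (c : Fin k → ℕ → ℂ) (J : Fin k → ℕ) (hJ : ∀ i, 1 ≤ J i)
    (s : Finset ℕ) (hc1 : ∀ i, ∀ n ∈ s, ‖c i n‖ = 1) (a : ℕ → ℂ) (B : ℝ) (hB : ∀ n ∈ s, ‖a n‖ ≤ B) :
    ∑ j ∈ Fintype.piFinset (fun i => range (J i)), ‖∑ n ∈ s, a n * ∏ i, c i n ^ j i‖ ^ 2 ≤
    B ^ 2 * ∑ l ∈ Fintype.piFinset (fun i => range (Nat.log 2 (J i) + 1)),
      (∏ i, (8 * 2 ^ l i : ℝ)) * ((prg c l s).card : ℝ) := by
  classical
  have hJ0 : 0 < ∏ i, (J i : ℝ) := prod_pos fun i _ => by exact_mod_cast hJ i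
  set Ker : ℕ → ℕ → ℝ := fun m n => ∏ i, ‖∑ b ∈ range (2 * J i), (c i m * (starRingEnd ℂ) (c i n)) ^ b‖ ^ 2
    with hKer
  have hKer0 : ∀ m n, 0 ≤ Ker m n := fun m n => prod_nonneg fun i _ => by positivity
  have h1 := shift_le s a c hc1 J
  have h2 := expand s a c (fun i => 2 * J i)
  set X := ∑ b ∈ Fintype.piFinset (fun i => range (2 * J i)),
      ∑ b' ∈ Fintype.piFinset (fun i => range (2 * J i)),
        ‖∑ n ∈ s, a n * ∏ i, (c i n ^ b i * (starRingEnd ℂ) (c i n) ^ b' i)‖ ^ 2 with hX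
  have hX0 : 0 ≤ X := sum_nonneg fun _ _ => sum_nonneg fun _ _ => by positivity
  have h3 : X ≤ ∑ m ∈ s, ∑ n ∈ s, B * B * Ker m n := by
    have e3 : X = ‖(X : ℂ)‖ := by rw [Complex.norm_real, Real.norm_eq_abs, abs_of_nonneg hX0]
    rw [e3, h2]
    refine (norm_sum_le _ _).trans (sum_le_sum fun m hm => (norm_sum_le _ _).trans
      (sum_le_sum fun n hn => ?_))
    rw [norm_mul, norm_mul, Complex.norm_conj, Complex.norm_real, Real.norm_eq_abs,
      abs_of_nonneg (hKer0 m n)]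
    have hBm := hB m hm
    have hBn := hB n hn
    have hB0 : 0 ≤ B := (norm_nonneg _).trans hBm
    have h0 := hKer0 m n
    gcongr
  have h4 : ∀ m ∈ s, ∀ n ∈ s, Ker m n ≤
      (∏ i, (J i : ℝ)) * ∑ l ∈ Fintype.piFinset (fun i => range (Nat.log 2 (J i) + 1)),
        (∏ i, (8 * 2 ^ l i : ℝ)) *
        (if ∀ i, ‖c i m * (starRingEnd ℂ) (c i n) - 1‖ ≤ 2 / 2 ^ l i then 1 else 0) := by
    intro m hm n hn
    have hz : ∀ i, ‖c i m * (starRingEnd ℂ) (c i n)‖ = 1 := by
      intro i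
      rw [norm_mul, Complex.norm_conj, hc1 i m hm, hc1 i n hn, one_mul]
    calc Ker m n ≤ ∏ i, ∑ l ∈ range (Nat.log 2 (J i) + 1), (8 * J i * 2 ^ l : ℝ) *
          (if ‖c i m * (starRingEnd ℂ) (c i n) - 1‖ ≤ 2 / 2 ^ l then 1 else 0) := by
          refine prod_le_prod (fun i _ => by positivity) fun i _ => kernel_le (hz i) (hJ i)
      _ = ∑ l ∈ Fintype.piFinset (fun i => range (Nat.log 2 (J i) + 1)),
          ∏ i, ((8 * J i * 2 ^ l i : ℝ) *
          (if ‖c i m * (starRingEnd ℂ) (c i n) - 1‖ ≤ 2 / 2 ^ l i then 1 else 0)) := by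
          rw [prod_univ_sum]
      _ = _ := by
          rw [mul_sum]
          refine sum_congr rfl fun l _ => ?_
          have p1 : ∏ i, ((8 * J i * 2 ^ l i : ℝ) *
              (if ‖c i m * (starRingEnd ℂ) (c i n) - 1‖ ≤ 2 / 2 ^ l i then 1 else 0)) =
              ((∏ i, (J i : ℝ)) * ∏ i, (8 * 2 ^ l i : ℝ)) *
              ∏ i, (if ‖c i m * (starRingEnd ℂ) (c i n) - 1‖ ≤ 2 / 2 ^ l i then (1 : ℝ) else 0) := by
            rw [← prod_mul_distrib, ← prod_mul_distrib]
            refine prod_congr rfl fun i _ => ?_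
            ring
          have p2 : ∏ i, (if ‖c i m * (starRingEnd ℂ) (c i n) - 1‖ ≤ 2 / 2 ^ l i then (1 : ℝ) else 0) =
              (if ∀ i, ‖c i m * (starRingEnd ℂ) (c i n) - 1‖ ≤ 2 / 2 ^ l i then 1 else 0) := by
            split_ifs with h
            · refine prod_eq_one fun i _ => ?_
              rw [if_pos (h i)]
            · push Not at h
              obtain ⟨i, hi⟩ := h
              refine prod_eq_zero (mem_univ i) ?_
              rw [if_neg (not_le.2 hi)]
          rw [p1, p2, mul_assoc]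
  have h5 : X ≤ (∏ i, (J i : ℝ)) * (B ^ 2 *
      ∑ l ∈ Fintype.piFinset (fun i => range (Nat.log 2 (J i) + 1)),
      (∏ i, (8 * 2 ^ l i : ℝ)) * ((prg c l s).card : ℝ)) := by
    refine h3.trans ?_
    have e5 : ∀ l, ((prg c l s).card : ℝ) = ∑ m ∈ s, ∑ n ∈ s,
        (if (∀ i, ‖c i m * (starRingEnd ℂ) (c i n) - 1‖ ≤ 2 / 2 ^ l i) then (1 : ℝ) else 0) := by
      intro l
      unfold prg
      rw [card_filter]
      push_cast
      rw [sum_product]
    calc _ ≤ ∑ m ∈ s, ∑ n ∈ s, B * B *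
          ((∏ i, (J i : ℝ)) * ∑ l ∈ Fintype.piFinset (fun i => range (Nat.log 2 (J i) + 1)),
            (∏ i, (8 * 2 ^ l i : ℝ)) *
            (if ∀ i, ‖c i m * (starRingEnd ℂ) (c i n) - 1‖ ≤ 2 / 2 ^ l i then 1 else 0)) := by
          refine sum_le_sum fun m hm => sum_le_sum fun n hn => ?_
          exact mul_le_mul_of_nonneg_left (h4 m hm n hn) (mul_self_nonneg B)
      _ = _ := by
          simp_rw [e5]
          have e6 : ∀ m ∈ s, ∀ n ∈ s, B * B *
              ((∏ i, (J i : ℝ)) * ∑ l ∈ Fintype.piFinset (fun i => range (Nat.log 2 (J i) + 1)),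
                (∏ i, (8 * 2 ^ l i : ℝ)) *
                (if ∀ i, ‖c i m * (starRingEnd ℂ) (c i n) - 1‖ ≤ 2 / 2 ^ l i then 1 else 0)) =
              ∑ l ∈ Fintype.piFinset (fun i => range (Nat.log 2 (J i) + 1)),
                ((∏ i, (J i : ℝ)) * B ^ 2) * ((∏ i, (8 * 2 ^ l i : ℝ)) *
                (if (∀ i, ‖c i m * (starRingEnd ℂ) (c i n) - 1‖ ≤ 2 / 2 ^ l i) then (1 : ℝ) else 0)) := by
            intro m _ n _
            rw [mul_sum, mul_sum]
            refine sum_congr rfl fun l _ => ?_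
            ring
          rw [sum_congr rfl fun m hm => sum_congr rfl fun n hn => e6 m hm n hn]
          have e7 : ∀ m ∈ s, ∑ n ∈ s, ∑ l ∈ Fintype.piFinset (fun i => range (Nat.log 2 (J i) + 1)),
                ((∏ i, (J i : ℝ)) * B ^ 2) * ((∏ i, (8 * 2 ^ l i : ℝ)) *
                (if (∀ i, ‖c i m * (starRingEnd ℂ) (c i n) - 1‖ ≤ 2 / 2 ^ l i) then (1 : ℝ) else 0)) =
              ∑ l ∈ Fintype.piFinset (fun i => range (Nat.log 2 (J i) + 1)),
                ((∏ i, (J i : ℝ)) * B ^ 2) * ((∏ i, (8 * 2 ^ l i : ℝ)) *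
                ∑ n ∈ s, (if (∀ i, ‖c i m * (starRingEnd ℂ) (c i n) - 1‖ ≤ 2 / 2 ^ l i)
                  then (1 : ℝ) else 0)) := by
            intro m _
            rw [sum_comm]
            refine sum_congr rfl fun l _ => ?_
            rw [← mul_sum, ← mul_sum]
          rw [sum_congr rfl e7, sum_comm, mul_sum, mul_sum]
          refine sum_congr rfl fun l _ => ?_
          rw [← mul_sum, ← mul_sum]
          ring
  have h6 := h1.trans h5
  rw [mul_comm] at h6
  exact le_of_mul_le_mul_left h6 hJ0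

/-- the frequency of a member of the progression -/
noncomputable def fr {k : ℕ} (Δ : Fin k → ℝ) (j : Fin k → ℕ) : ℝ := ∑ i, (j i : ℝ) * Δ i

/-- the members are separated by at least one and lie in an interval of length `D` -/
def Sep {k : ℕ} (Δ : Fin k → ℝ) (J : Fin k → ℕ) (D : ℝ) : Prop :=
  ∀ x ∈ Fintype.piFinset (fun i => range (J i)), ∀ y ∈ Fintype.piFinset (fun i => range (J i)),
    x ≠ y → 1 ≤ |fr Δ y - fr Δ x| ∧ |fr Δ y - fr Δ x| ≤ D

lemma sep_card {k : ℕ} {Δ : Fin k → ℝ} {J : Fin k → ℕ} {D : ℝ} (hD : 1 ≤ D) (h : Sep Δ J D) :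
    ∏ i, (J i : ℝ) ≤ 2 * D := by
  classical
  set P := Fintype.piFinset (fun i => range (J i)) with hP
  have hPc : (P.card : ℝ) = ∏ i, (J i : ℝ) := by
    rw [hP, Fintype.card_piFinset]; push_cast; simp
  rw [← hPc]
  rcases P.eq_empty_or_nonempty with he | hne
  · rw [he]; simp; linarith
  · obtain ⟨x0, hx0, hmin⟩ := exists_min_image P (fr Δ) hne
    have hinj : Set.InjOn (fun y => ⌊fr Δ y - fr Δ x0⌋₊) P := by
      intro y hy z hz hyz
      by_contra hne
      have h1 := (h y hy z hz hne).1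
      simp only at hyz
      have y1 := Nat.floor_le (sub_nonneg.2 (hmin y hy))
      have y2 := Nat.lt_floor_add_one (fr Δ y - fr Δ x0)
      have z1 := Nat.floor_le (sub_nonneg.2 (hmin z hz))
      have z2 := Nat.lt_floor_add_one (fr Δ z - fr Δ x0)
      rw [hyz] at y1 y2
      rcases le_or_gt (fr Δ y) (fr Δ z) with h2 | h2
      · rw [abs_of_nonneg (by linarith)] at h1; linarith
      · rw [abs_of_neg (by linarith)] at h1; linarith
    have hmaps : Set.MapsTo (fun y => ⌊fr Δ y - fr Δ x0⌋₊) P (range (⌊D⌋₊ + 1)) := by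
      intro y hy
      simp only [coe_range, Set.mem_Iio, Nat.lt_succ_iff]
      apply Nat.floor_le_floor
      by_cases hxy : x0 = y
      · rw [hxy, sub_self]; linarith
      · exact (le_abs_self _).trans (h x0 hx0 y hy hxy).2
    have hcard := card_le_card_of_injOn _ hmaps hinj
    rw [card_range] at hcard
    have h7 : (P.card : ℝ) ≤ (⌊D⌋₊ : ℝ) + 1 := by exact_mod_cast hcard
    have h8 := Nat.floor_le (show 0 ≤ D by linarith)
    linarith

lemma exp_dist (x y : ℝ) : ‖Complex.exp (Complex.I * x) - 1‖ ≤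
    ‖Complex.exp (Complex.I * y) - 1‖ + |x - y| := by
  have e : Complex.exp (Complex.I * x) - 1 = (Complex.exp (Complex.I * y) - 1) +
      Complex.exp (Complex.I * y) * (Complex.exp (Complex.I * ((x - y : ℝ) : ℂ)) - 1) := by
    have : Complex.exp (Complex.I * x) = Complex.exp (Complex.I * y) *
        Complex.exp (Complex.I * ((x - y : ℝ) : ℂ)) := by
      rw [← Complex.exp_add]; congr 1; push_cast; ring
    rw [this]; ring
  rw [e]
  refine (norm_add_le _ _).trans ?_
  rw [norm_mul, mul_comm Complex.I (y : ℂ), Complex.norm_exp_ofReal_mul_I, one_mul]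
  have := Real.norm_exp_I_mul_ofReal_sub_one_le (x := x - y)
  rw [Real.norm_eq_abs] at this
  linarith

/-- one level of the kernel -/
lemma prg_bound {ε : ℝ} (hε : 0 < ε) (k : ℕ) : ∃ C : ℝ, 1 ≤ C ∧
    ∀ (Δ : Fin k → ℝ) (J : Fin k → ℕ) (D : ℝ), 1 ≤ D → Sep Δ J D → (∀ i, 1 ≤ J i) →
    D ^ (2 / 3 : ℝ) ≤ ∏ i, (J i : ℝ) →
    ∀ (l : Fin k → ℕ), (∀ i, 2 ^ l i ≤ J i) → ∀ (M : ℕ) (E : ℝ) (s : Finset ℕ), 1 ≤ E →
    (M : ℝ) ≤ (∏ i, (J i : ℝ)) * E →
    (∀ n ∈ s, 1 ≤ n ∧ n ≤ M) → (∀ m ∈ s, ∀ n ∈ s, m ≤ 4 * n) →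
    ((prg (fun i n => Complex.exp (-(Complex.I * ((Δ i * Real.log n : ℝ) : ℂ)))) l s).card : ℝ) ≤
      C * (2 * D * E) ^ ε * E * ((∏ i, (J i : ℝ)) / ∏ i, (2 : ℝ) ^ l i) * (1 + Real.log D) *
      (M * (1 + Real.log M)) := by
  classical
  choose! CC hCC1 hCC using fun n (hn : 1 ≤ n) => count_pow_real hε n hn
  set K : ℕ → ℝ := fun n => (1 + |CC n|) * (4 ^ k * (4 * n + 13) * (4 * n + 4) ^ k) with hK
  have hK1 : ∀ n, 1 ≤ K n := by
    intro n
    have h0 : (0 : ℝ) ≤ n := Nat.cast_nonneg n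
    have h1 : (1 : ℝ) ≤ 4 ^ k := one_le_pow₀ (by norm_num)
    have h2 : (1 : ℝ) ≤ (4 * n + 4) ^ k := one_le_pow₀ (by linarith)
    have h3 : (1 : ℝ) ≤ 4 ^ k * (4 * n + 13) * (4 * n + 4) ^ k := by
      calc (1 : ℝ) = 1 * 1 * 1 := by norm_num
        _ ≤ _ := by gcongr; linarith
    calc (1 : ℝ) = 1 * 1 := by norm_num
      _ ≤ (1 + |CC n|) * (4 ^ k * (4 * n + 13) * (4 * n + 4) ^ k) :=
          mul_le_mul (by linarith [abs_nonneg (CC n)]) h3 (by norm_num) (by positivity)
  obtain ⟨C, hC1, hC⟩ := W_abs hε K hK1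
  refine ⟨C, hC1, ?_⟩
  intro Δ J D hD hsep hJ hX l hl M E s hE hM hs h4
  have hD0 : 0 < D := by linarith
  set X : ℝ := ∏ i, (J i : ℝ) with hXd
  set ρ : ℝ := X / ∏ i, (2 : ℝ) ^ l i with hρ
  have hX0 : 0 < X := lt_of_lt_of_le (by positivity) hX
  have hXle : X ≤ 2 * D := sep_card hD hsep
  have h2l : 0 < ∏ i, (2 : ℝ) ^ l i := prod_pos fun i _ => by positivity
  have hρ1 : 1 ≤ ρ := by
    rw [hρ, le_div_iff₀ h2l, one_mul]
    exact prod_le_prod (fun i _ => by positivity) fun i _ => by exact_mod_cast hl i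
  have hlogD : 0 ≤ Real.log D := Real.log_nonneg hD
  set ρ' : ℝ := ρ * (1 + Real.log D) with hρ'
  have hρ'1 : 1 ≤ ρ' := by rw [hρ']; nlinarith
  set Q : ℕ → ℝ → Prop := fun n x => ∀ i, ‖Complex.exp (Complex.I * ((Δ i * x : ℝ) : ℂ)) - 1‖ ≤
    n * (2 / 2 ^ l i) with hQ
  have q0 : Q 0 0 := by intro i; simp
  have qm : ∀ n a b, Q n a → Q 1 b → Q (n + 1) (a + b) := by
    intro n a b ha hb i
    have e : Complex.exp (Complex.I * ((Δ i * (a + b) : ℝ) : ℂ)) - 1 =
        Complex.exp (Complex.I * ((Δ i * a : ℝ) : ℂ)) *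
          (Complex.exp (Complex.I * ((Δ i * b : ℝ) : ℂ)) - 1) +
        (Complex.exp (Complex.I * ((Δ i * a : ℝ) : ℂ)) - 1) := by
      have : Complex.exp (Complex.I * ((Δ i * (a + b) : ℝ) : ℂ)) =
          Complex.exp (Complex.I * ((Δ i * a : ℝ) : ℂ)) *
          Complex.exp (Complex.I * ((Δ i * b : ℝ) : ℂ)) := by
        rw [← Complex.exp_add]; congr 1; push_cast; ring
      rw [this]; ring
    rw [e]
    refine (norm_add_le _ _).trans ?_
    rw [norm_mul]
    have h1 := ha i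
    have h2 := hb i
    have h3 : ‖Complex.exp (Complex.I * ((Δ i * a : ℝ) : ℂ))‖ = 1 := by
      rw [mul_comm, Complex.norm_exp_ofReal_mul_I]
    rw [h3, one_mul]
    push_cast at h2 ⊢
    push_cast at h1
    linarith
  set P : ℚ → Prop := fun r => (r : ℝ) ≤ 4 ∧ 1 / 4 ≤ (r : ℝ) ∧ Q 1 (Real.log r) with hPdef
  set c : Fin k → ℕ → ℂ := fun i n => Complex.exp (-(Complex.I * ((Δ i * Real.log n : ℝ) : ℂ)))
    with hc
  have hpr := pairs_le M (prg c l s) P (by
    intro p hp
    unfold prg at hp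
    rw [mem_filter, mem_product] at hp
    obtain ⟨⟨hp1, hp2⟩, hp4⟩ := hp
    obtain ⟨l1, m1⟩ := hs p.1 hp1
    obtain ⟨l2, m2⟩ := hs p.2 hp2
    have h01 : (0 : ℝ) < p.1 := by exact_mod_cast l1
    have h0 : (0 : ℝ) < p.2 := by exact_mod_cast l2
    refine ⟨l1, m1, l2, m2, ?_, ?_, fun i => ?_⟩
    · push_cast
      rw [div_le_iff₀ h0]
      exact_mod_cast h4 p.1 hp1 p.2 hp2
    · push_cast
      rw [le_div_iff₀ h0]
      have : (p.2 : ℝ) ≤ 4 * p.1 := by exact_mod_cast h4 p.2 hp2 p.1 hp1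
      linarith
    · have h5 := hp4 i
      have e : Complex.exp (Complex.I * ((Δ i * Real.log (((p.1 : ℚ) / p.2 : ℚ) : ℝ) : ℝ) : ℂ)) =
          (starRingEnd ℂ) (c i p.1 * (starRingEnd ℂ) (c i p.2)) := by
        simp only [hc]
        rw [map_mul, Complex.conj_conj, ← Complex.exp_conj, ← Complex.exp_add]
        congr 1
        simp only [map_neg, map_mul, Complex.conj_I, Complex.conj_ofReal]
        push_cast
        rw [Real.log_div h01.ne' h0.ne']
        push_cast
        ring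
      rw [e]
      have e2 : ‖(starRingEnd ℂ) (c i p.1 * (starRingEnd ℂ) (c i p.2)) - 1‖ =
          ‖c i p.1 * (starRingEnd ℂ) (c i p.2) - 1‖ := by
        rw [← Complex.norm_conj, map_sub, Complex.conj_conj, map_one]
      rw [e2]
      push_cast
      linarith)
  have hΔ : ∀ i, 1 ≤ l i → |Δ i| / D ≤ 2 / 2 ^ l i := by
    intro i hi
    have hJi : 2 ≤ J i := by
      have h6 : 2 ≤ 2 ^ l i := Nat.le_self_pow (by omega) 2
      exact h6.trans (hl i)
    have hx0 : (fun _ : Fin k => 0) ∈ Fintype.piFinset (fun i => range (J i)) := by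
      rw [Fintype.mem_piFinset]
      intro a; rw [mem_range]; exact hJ a
    have hy0 : Function.update (fun _ : Fin k => 0) i (J i - 1) ∈
        Fintype.piFinset (fun i => range (J i)) := by
      rw [Fintype.mem_piFinset]
      intro a; rw [mem_range]
      by_cases hai : a = i
      · subst hai; rw [Function.update_self]; omega
      · rw [Function.update_of_ne hai]; exact hJ a
    have hne : (fun _ : Fin k => 0) ≠ Function.update (fun _ : Fin k => 0) i (J i - 1) := by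
      intro h
      have := congrFun h i
      rw [Function.update_self] at this
      omega
    have h6 := (hsep _ hx0 _ hy0 hne).2
    have e1 : fr Δ (fun _ => 0) = 0 := by unfold fr; simp
    have e2 : fr Δ (Function.update (fun _ : Fin k => 0) i (J i - 1)) = ((J i - 1 : ℕ) : ℝ) * Δ i := by
      unfold fr
      rw [sum_eq_single i]
      · rw [Function.update_self]
      · intro b _ hb
        rw [Function.update_of_ne hb]; simp
      · intro h; exact absurd (mem_univ _) h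
    rw [e1, e2, sub_zero, abs_mul, abs_of_nonneg (by positivity : (0 : ℝ) ≤ ((J i - 1 : ℕ) : ℝ))] at h6
    have h7 : (2 : ℝ) ^ l i ≤ 2 * ((J i - 1 : ℕ) : ℝ) := by
      have h8 : 2 ^ l i ≤ 2 * (J i - 1) := by have := hl i; omega
      exact_mod_cast h8
    have h9 : (0 : ℝ) < 2 ^ l i := by positivity
    rw [div_le_div_iff₀ hD0 h9]
    calc |Δ i| * 2 ^ l i ≤ |Δ i| * (2 * ((J i - 1 : ℕ) : ℝ)) := by gcongr
      _ = 2 * (((J i - 1 : ℕ) : ℝ) * |Δ i|) := by ring
      _ ≤ 2 * D := by linarith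
  have hA : ∀ g ∈ Icc 1 M, ((ratset (M / g) P).card : ℝ) ≤
      C * (2 * D * E) ^ ε * E * ρ' * (M * (1 / (g : ℝ))) := by
    intro g hg
    rw [mem_Icc] at hg
    have hMg : 0 < M / g := Nat.div_pos hg.2 hg.1
    have hMg2 : ((M / g : ℕ) : ℝ) ≤ M / g := Nat.cast_div_le
    have hg0 : (0 : ℝ) < g := by exact_mod_cast hg.1
    have hMgM : ((M / g : ℕ) : ℝ) ≤ M := by exact_mod_cast Nat.div_le_self M g
    have hkey : ∀ n, 1 ≤ n → ((ratset (M / g) P).card : ℝ) ^ n ≤
        K n * (((M / g : ℕ) : ℝ) ^ ε * ((D / X * ρ') * (1 + ((M / g : ℕ) : ℝ) ^ (2 * n) / D))) := by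
      intro n hn
      have hn0 : (0 : ℝ) < n := by exact_mod_cast hn
      have hn1 : (1 : ℝ) ≤ n := by exact_mod_cast hn
      set M' : ℕ := ⌈2 * n * D⌉₊ + 1 with hM'
      have hM'1 : (2 * (n : ℝ) * D) + 1 ≤ M' := by
        rw [hM']; push_cast
        have := Nat.le_ceil (2 * (n : ℝ) * D)
        linarith
      have hM'2 : (M' : ℝ) ≤ 2 * n * D + 2 := by
        rw [hM']; push_cast
        have := Nat.ceil_lt_add_one (show 0 ≤ 2 * (n : ℝ) * D by positivity)
        linarith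
      set S : Finset ℤ := (Icc (-(M' : ℤ)) M').filter (fun a => ∀ i,
        ‖Complex.exp (Complex.I * ((Δ i / D * a : ℝ) : ℂ)) - 1‖ ≤ (2 * n + 2) / 2 ^ l i) with hS
      have hSm : ∀ x : ℝ, |x| ≤ 2 * n → Q n x → ⌊D * x⌋ ∈ S := by
        intro x hx hQx
        have f1 := Int.floor_le (D * x)
        have f2 := Int.lt_floor_add_one (D * x)
        rw [abs_le] at hx
        rw [hS, mem_filter, mem_Icc]
        refine ⟨⟨?_, ?_⟩, fun i => ?_⟩
        · have h5 : (-(M' : ℝ)) ≤ ((⌊D * x⌋ : ℤ) : ℝ) := by nlinarith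
          exact_mod_cast h5
        · have h5 : ((⌊D * x⌋ : ℤ) : ℝ) ≤ (M' : ℝ) := by nlinarith
          exact_mod_cast h5
        · rcases Nat.eq_zero_or_pos (l i) with h0 | h0
          · rw [h0, pow_zero, div_one]
            have h5 := norm_sub_le (Complex.exp (Complex.I * ((Δ i / D * (⌊D * x⌋ : ℤ) : ℝ) : ℂ))) 1
            rw [mul_comm Complex.I, Complex.norm_exp_ofReal_mul_I, norm_one] at h5
            rw [mul_comm Complex.I]
            linarith
          · have h5 := exp_dist (Δ i / D * (⌊D * x⌋ : ℤ)) (Δ i * x)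
            have h6 := hQx i
            have h7 : |Δ i / D * (⌊D * x⌋ : ℤ) - Δ i * x| ≤ |Δ i| / D := by
              have e : Δ i / D * (⌊D * x⌋ : ℤ) - Δ i * x = (Δ i / D) * ((⌊D * x⌋ : ℤ) - D * x) := by
                field_simp
              rw [e, abs_mul, abs_div, abs_of_pos hD0]
              apply mul_le_of_le_one_right (by positivity)
              rw [abs_le]
              constructor <;> linarith
            have h8 := hΔ i h0
            have e9 : (2 * (n : ℝ) + 2) / 2 ^ l i = n * (2 / 2 ^ l i) + 2 / 2 ^ l i := by ring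
            rw [e9]
            linarith
      have hcnt := hCC n hn D (M / g) hD0 hMg (ratset (M / g) P) (ratset_box _ _)
        (fun r hr => (mem_ratset.1 hr).2.1) (fun r hr => (mem_ratset.1 hr).2.2.1) Q q0
        (fun r hr => (mem_ratset.1 hr).2.2.2) qm S hSm
      have hVsub : ∀ x ∈ Fintype.piFinset (fun i => range (2 ^ l i / (4 * n + 4) + 1)),
          x ∈ Fintype.piFinset (fun i => range (J i)) := by
        intro x hx
        rw [Fintype.mem_piFinset] at hx ⊢
        intro i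
        have h1 := hl i
        have h2 := hJ i
        have hxi := hx i
        rw [mem_range] at hxi ⊢
        have h3 : 2 ^ l i / (4 * n + 4) ≤ 2 ^ l i / 4 := Nat.div_le_div_left (by omega) (by norm_num)
        rcases Nat.eq_zero_or_pos (l i) with h5 | h5
        · have h6 : 2 ^ l i = 1 := by rw [h5, pow_zero]
          rw [h6] at h3 hxi
          generalize 1 / (4 * n + 4) = x at h3 hxi
          omega
        · have h6 : 2 ≤ 2 ^ l i := Nat.le_self_pow h5.ne' 2
          generalize 2 ^ l i / (4 * n + 4) = x at h3 hxi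
          generalize 2 ^ l i = y at h1 h3 h6
          omega
      have hV := near_card_real Δ (fun i => 2 ^ l i / (4 * n + 4) + 1) (fun i => Nat.succ_pos _) hD
        (fun x hx y hy hxy => hsep x (hVsub x hx) y (hVsub y hy) hxy)
        (fun i => (2 * n + 2) / 2 ^ l i) (fun i => by
          push_cast
          have h1 : ((2 ^ l i / (4 * n + 4) : ℕ) : ℝ) ≤ 2 ^ l i / (4 * n + 4) := by
            have := Nat.cast_div_le (α := ℝ) (m := 2 ^ l i) (n := 4 * n + 4)
            push_cast at this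
            exact this
          have h2 : (0 : ℝ) < 2 ^ l i := by positivity
          calc ((2 ^ l i / (4 * n + 4) : ℕ) + 1 - 1 : ℝ) * ((2 * n + 2) / 2 ^ l i)
              = ((2 ^ l i / (4 * n + 4) : ℕ) : ℝ) * ((2 * n + 2) / 2 ^ l i) := by ring
            _ ≤ (2 ^ l i / (4 * n + 4)) * ((2 * n + 2) / 2 ^ l i) := by gcongr
            _ = 1 / 2 := by field_simp; ring)
        M' S (filter_subset _ _) (fun a ha => (mem_filter.1 ha).2)
      have hVl : ∏ i, ((2 : ℝ) ^ l i / (4 * n + 4)) ≤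
          ∏ i, (((2 ^ l i / (4 * n + 4) + 1 : ℕ)) : ℝ) := by
        refine prod_le_prod (fun i _ => by positivity) fun i _ => ?_
        rw [div_le_iff₀ (by positivity)]
        have h1 : 2 ^ l i < (2 ^ l i / (4 * n + 4) + 1) * (4 * n + 4) := by
          have := Nat.lt_mul_div_succ (2 ^ l i) (show 0 < 4 * n + 4 by omega)
          rw [mul_comm]
          exact this
        exact_mod_cast h1.le
      have hZ : 4 ^ k * (2 * (M' : ℝ) + 1 + 8 * D * (1 + Real.log D)) ≤
          4 ^ k * (4 * n + 13) * (D * (1 + Real.log D)) := by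
        have h5 : D ≤ D * (1 + Real.log D) := le_mul_of_one_le_right hD0.le (by linarith)
        have h6 : 2 * (M' : ℝ) + 1 ≤ (4 * n + 5) * D := by nlinarith
        have h7 : 2 * (M' : ℝ) + 1 + 8 * D * (1 + Real.log D) ≤
            (4 * n + 13) * (D * (1 + Real.log D)) := by nlinarith
        calc 4 ^ k * (2 * (M' : ℝ) + 1 + 8 * D * (1 + Real.log D)) ≤
            4 ^ k * ((4 * n + 13) * (D * (1 + Real.log D))) := by gcongr
          _ = _ := by ring
      have h6 : ∏ i, ((2 : ℝ) ^ l i / (4 * n + 4)) = (∏ i, (2 : ℝ) ^ l i) / (4 * n + 4) ^ k := by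
        rw [prod_div_distrib]; simp
      have hScard : (S.card : ℝ) ≤ (4 ^ k * (4 * n + 13) * (4 * n + 4) ^ k) * (D / X * ρ') := by
        have h7 : (S.card : ℝ) * ((∏ i, (2 : ℝ) ^ l i) / (4 * n + 4) ^ k) ≤
            4 ^ k * (4 * n + 13) * (D * (1 + Real.log D)) := by
          rw [← h6]
          refine le_trans ?_ (hV.trans hZ)
          gcongr
        have e : (4 ^ k * (4 * n + 13) * (4 * n + 4) ^ k) * (D / X * ρ') =
            4 ^ k * (4 * n + 13) * (D * (1 + Real.log D)) /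
              ((∏ i, (2 : ℝ) ^ l i) / (4 * n + 4) ^ k) := by
          rw [hρ', hρ]
          field_simp
        rw [e, le_div_iff₀ (by positivity)]
        exact h7
      have hCCn := hCC1 n hn
      have hCabs : CC n ≤ 1 + |CC n| := by linarith [le_abs_self (CC n)]
      calc ((ratset (M / g) P).card : ℝ) ^ n
          ≤ CC n * (((M / g : ℕ) : ℝ) ^ ε * (S.card * (1 + ((M / g : ℕ) : ℝ) ^ (2 * n) / D))) := hcnt
        _ ≤ (1 + |CC n|) * (((M / g : ℕ) : ℝ) ^ ε *
            (((4 ^ k * (4 * n + 13) * (4 * n + 4) ^ k) * (D / X * ρ')) *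
              (1 + ((M / g : ℕ) : ℝ) ^ (2 * n) / D))) := by gcongr
        _ = _ := by rw [hK]; ring
    have := hC D (M / g) X ρ' E (ratset (M / g) P) hD hX hXle hρ'1 hMg (ratset_box _ _) hE
      (hMgM.trans hM) hkey
    refine this.trans ?_
    have hdE : 0 < (2 * D * E) ^ ε := by positivity
    have hρ'0 : 0 < ρ' := by linarith
    calc C * (2 * D * E) ^ ε * (E * ((M / g : ℕ) : ℝ) * ρ') ≤
          C * (2 * D * E) ^ ε * (E * (M / g) * ρ') := by gcongr
      _ = _ := by ring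
  have hsum : ((prg c l s).card : ℝ) ≤ ∑ g ∈ Icc 1 M, ((ratset (M / g) P).card : ℝ) := by
    exact_mod_cast hpr
  refine hsum.trans ((sum_le_sum hA).trans ?_)
  rw [← mul_sum, ← mul_sum]
  have hlog : ∑ g ∈ Icc 1 M, 1 / (g : ℝ) ≤ 1 + Real.log M := by
    have h := harmonic_le_one_add_log M
    rw [harmonic_eq_sum_Icc] at h
    push_cast at h
    simpa using h
  have hdE : 0 < (2 * D * E) ^ ε := by positivity
  have hρ'0 : 0 < ρ' := by linarith
  calc C * (2 * D * E) ^ ε * E * ρ' * (M * ∑ g ∈ Icc 1 M, 1 / (g : ℝ))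
      ≤ C * (2 * D * E) ^ ε * E * ρ' * (M * (1 + Real.log M)) := by gcongr
    _ = _ := by rw [hρ']; ring

end Pool.Agent.Y766
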