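import Pool.Agent.Y766.G4

/-!
Mean squares of Dirichlet polynomials over generalised arithmetic progressions: final form.
-/

set_option autoImplicit false

namespace Pool.Agent.Y766

open Finset Pool.Agent.Y766.PS

lemma log_absorb {ε : ℝ} (hε : 0 < ε) : ∃ C : ℝ, 1 ≤ C ∧ ∀ x : ℝ, 1 ≤ x →
    1 + Real.log x ≤ C * x ^ ε := by
  refine ⟨1 + 1 / ε, by have : 0 < 1 / ε := by positivity
                        linarith, fun x hx => ?_⟩
  have h1 := Real.log_le_rpow_div (show 0 ≤ x by linarith) hε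
  have h2 : 1 ≤ x ^ ε := Real.one_le_rpow hx hε.le
  calc 1 + Real.log x ≤ 1 * x ^ ε + x ^ ε / ε := by linarith
    _ = _ := by ring

theorem ms_gap {ε : ℝ} (hε : 0 < ε) (k : ℕ) : ∃ C : ℝ, 1 ≤ C ∧
    ∀ (Δ : Fin k → ℝ) (J : Fin k → ℕ) (D : ℝ), 1 ≤ D → Sep Δ J D → (∀ i, 1 ≤ J i) →
    D ^ (2 / 3 : ℝ) ≤ ∏ i, (J i : ℝ) →
    ∀ (M : ℕ) (E : ℝ) (s : Finset ℕ), 1 ≤ E →
    (M : ℝ) ≤ (∏ i, (J i : ℝ)) * E →
    (∀ n ∈ s, 1 ≤ n ∧ n ≤ M) → (∀ m ∈ s, ∀ n ∈ s, m ≤ 4 * n) →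
    ∀ (a : ℕ → ℂ) (B : ℝ), (∀ n ∈ s, ‖a n‖ ≤ B) →
    ∑ j ∈ Fintype.piFinset (fun i => range (J i)),
      ‖∑ n ∈ s, a n * Complex.exp (-(Complex.I * ((fr Δ j * Real.log n : ℝ) : ℂ)))‖ ^ 2 ≤
      C * (3 * D * E) ^ ε * E * (M * (1 + Real.log M)) * B ^ 2 * ∏ i, (J i : ℝ) := by
  have hε3 : 0 < ε / 3 := by positivity
  obtain ⟨C1, hC1, h1⟩ := prg_bound hε3 k
  obtain ⟨C2, hC2, h2⟩ := log_count hε3 k
  obtain ⟨C3, hC3, h3⟩ := log_absorb hε3
  refine ⟨C1 * C2 * C3 * 8 ^ k, ?_, ?_⟩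
  · have : (1 : ℝ) ≤ 8 ^ k := one_le_pow₀ (by norm_num)
    have h12 : 1 ≤ C1 * C2 := by nlinarith
    have h123 : 1 ≤ C1 * C2 * C3 := by nlinarith
    nlinarith
  intro Δ J D hD hsep hJ hX M E s hE hM hs h4 a B hB
  have hD0 : 0 < D := by linarith
  set X : ℝ := ∏ i, (J i : ℝ) with hXd
  have hXle : X ≤ 2 * D := sep_card hD hsep
  have hJ1 : ∀ i, (1 : ℝ) ≤ J i := fun i => by exact_mod_cast hJ i
  have hJ0 : 0 < X := prod_pos fun i _ => by linarith [hJ1 i]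
  set d : ℕ := ⌊2 * D⌋₊ with hd
  have hd1 : 1 ≤ d := Nat.le_floor (by push_cast; linarith)
  have hdD : (d : ℝ) ≤ 3 * D * E := by
    have : (d : ℝ) ≤ 2 * D := Nat.floor_le (by linarith)
    nlinarith
  have hJd : ∀ i, J i ≤ d := by
    intro i
    have h3 : (J i : ℝ) ≤ X := by
      classical
      rw [hXd, ← mul_prod_erase univ _ (mem_univ i)]
      apply le_mul_of_one_le_right (by positivity)
      exact (prod_const_one (s := univ.erase i) (M := ℝ)).symm.le.trans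
        (prod_le_prod (fun _ _ => zero_le_one) fun j _ => hJ1 j)
    exact Nat.le_floor (h3.trans hXle)
  set c : Fin k → ℕ → ℂ := fun i n => Complex.exp (-(Complex.I * ((Δ i * Real.log n : ℝ) : ℂ)))
    with hc
  have hc1 : ∀ i, ∀ n ∈ s, ‖c i n‖ = 1 := by
    intro i n _
    simp only [hc]
    rw [show -(Complex.I * ((Δ i * Real.log n : ℝ) : ℂ)) =
      ((-(Δ i * Real.log n) : ℝ) : ℂ) * Complex.I by push_cast; ring, Complex.norm_exp_ofReal_mul_I]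
  have hms := mean_square_gen c J hJ s hc1 a B hB
  have e1 : ∀ (j : Fin k → ℕ), ∑ n ∈ s, a n * Complex.exp (-(Complex.I * ((fr Δ j * Real.log n : ℝ) : ℂ))) =
      ∑ n ∈ s, a n * ∏ i, c i n ^ j i := by
    intro j
    refine sum_congr rfl fun n _ => ?_
    congr 1
    simp only [hc]
    simp_rw [← Complex.exp_nat_mul]
    rw [← Complex.exp_sum]
    congr 1
    unfold fr
    push_cast
    rw [sum_mul, mul_sum, ← sum_neg_distrib]
    refine sum_congr rfl fun i _ => ?_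
    ring
  simp_rw [e1]
  refine hms.trans ?_
  set L := Fintype.piFinset (fun i => range (Nat.log 2 (J i) + 1)) with hL
  have hdE : 1 ≤ 3 * D * E := by nlinarith
  have hdE0 : 0 < 3 * D * E := by linarith
  have hlogM : 0 ≤ Real.log M := Real.log_natCast_nonneg M
  have hlogD : 0 ≤ Real.log D := Real.log_nonneg hD
  have hterm : ∀ l ∈ L, (∏ i, (8 * 2 ^ l i : ℝ)) * ((prg c l s).card : ℝ) ≤
      8 ^ k * X * (C1 * (3 * D * E) ^ (ε / 3) * E * (1 + Real.log D) * (M * (1 + Real.log M))) := by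
    intro l hl
    have hlJ : ∀ i, 2 ^ l i ≤ J i := by
      intro i
      have h3 : l i ∈ range (Nat.log 2 (J i) + 1) := by
        rw [hL, Fintype.mem_piFinset] at hl; exact hl i
      rw [mem_range] at h3
      exact (Nat.pow_le_pow_right (by norm_num) (by omega)).trans
        (Nat.pow_log_le_self 2 (by have := hJ i; omega))
    have h3 := h1 Δ J D hD hsep hJ hX l hlJ M E s hE hM hs h4
    have h2l : 0 < ∏ i, (2 : ℝ) ^ l i := prod_pos fun i _ => by positivity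
    have e : ∏ i, (8 * 2 ^ l i : ℝ) = 8 ^ k * ∏ i, (2 : ℝ) ^ l i := by
      rw [prod_mul_distrib]; simp
    have h23 : (2 * D * E) ^ (ε / 3) ≤ (3 * D * E) ^ (ε / 3) :=
      Real.rpow_le_rpow (by positivity) (by nlinarith) hε3.le
    rw [e]
    calc _ ≤ 8 ^ k * (∏ i, (2 : ℝ) ^ l i) * (C1 * (2 * D * E) ^ (ε / 3) * E *
          (X / ∏ i, (2 : ℝ) ^ l i) * (1 + Real.log D) * (M * (1 + Real.log M))) := by gcongr
      _ ≤ 8 ^ k * (∏ i, (2 : ℝ) ^ l i) * (C1 * (3 * D * E) ^ (ε / 3) * E *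
          (X / ∏ i, (2 : ℝ) ^ l i) * (1 + Real.log D) * (M * (1 + Real.log M))) := by gcongr
      _ = _ := by field_simp
  have hsum := sum_le_sum hterm
  rw [sum_const, nsmul_eq_mul] at hsum
  have hLc := h2 d J hd1 hJ hJd
  have hd3 : (d : ℝ) ^ (ε / 3) ≤ (3 * D * E) ^ (ε / 3) :=
    Real.rpow_le_rpow (Nat.cast_nonneg _) hdD hε3.le
  have hlogD3 : 1 + Real.log D ≤ C3 * (3 * D * E) ^ (ε / 3) := by
    refine (h3 D hD).trans ?_
    have : D ^ (ε / 3) ≤ (3 * D * E) ^ (ε / 3) :=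
      Real.rpow_le_rpow hD0.le (by nlinarith) hε3.le
    gcongr
  have hε2 : (3 * D * E) ^ (ε / 3) * (3 * D * E) ^ (ε / 3) * (3 * D * E) ^ (ε / 3) =
      (3 * D * E) ^ ε := by
    rw [← Real.rpow_add hdE0, ← Real.rpow_add hdE0]
    congr 1; ring
  have hdEε : 0 < (3 * D * E) ^ (ε / 3) := by positivity
  calc B ^ 2 * ∑ l ∈ L, (∏ i, (8 * 2 ^ l i : ℝ)) * ((prg c l s).card : ℝ)
      ≤ B ^ 2 * (L.card * (8 ^ k * X *
          (C1 * (3 * D * E) ^ (ε / 3) * E * (1 + Real.log D) * (M * (1 + Real.log M))))) := by gcongr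
    _ ≤ B ^ 2 * ((C2 * (3 * D * E) ^ (ε / 3)) * (8 ^ k * X *
          (C1 * (3 * D * E) ^ (ε / 3) * E * (C3 * (3 * D * E) ^ (ε / 3)) *
            (M * (1 + Real.log M))))) := by
        have : (L.card : ℝ) ≤ C2 * (3 * D * E) ^ (ε / 3) := hLc.trans (by gcongr)
        gcongr
    _ = (C1 * C2 * C3 * 8 ^ k) * ((3 * D * E) ^ (ε / 3) * (3 * D * E) ^ (ε / 3) *
          (3 * D * E) ^ (ε / 3)) * E * (M * (1 + Real.log M)) * B ^ 2 * X := by ring
    _ = _ := by rw [hε2]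

end Pool.Agent.Y766
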