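import Pool.Agent.Y766.G6
import Pool.Agent.Y766.G7

/-!
Mean squares of the zeta function over generalised arithmetic progressions: the final steps.
-/

set_option autoImplicit false

namespace Pool.Agent.Y766

open Finset MeasureTheory
open Pool.Agent.H448R2.GC (cu cs XX)

/-- the coefficients of the smoothed sum on the line through `hl t0` -/
noncomputable def bco (k : ℕ) (c D t0 : ℝ) (n : ℕ) : ℂ :=
  (cu k c (Real.log n - D) : ℂ) * ((((n : ℝ) ^ (-(1 / 2) : ℝ) : ℝ)) : ℂ) *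
    Complex.exp (-(Complex.I * ((t0 * Real.log n : ℝ) : ℂ)))

lemma bco_norm (k : ℕ) {c : ℝ} (hc : 0 < c) (D t0 : ℝ) (n : ℕ) :
    ‖bco k c D t0 n‖ ≤ (n : ℝ) ^ (-(1 / 2) : ℝ) := by
  have h0 : 0 ≤ (n : ℝ) ^ (-(1 / 2) : ℝ) := by positivity
  unfold bco
  rw [norm_mul, norm_mul, Complex.norm_real, Complex.norm_real,
    Real.norm_of_nonneg (Pool.Agent.H448R2.GC.cu_nonneg k c _ hc), Real.norm_of_nonneg h0]
  have h1 : ‖Complex.exp (-(Complex.I * ((t0 * Real.log n : ℝ) : ℂ)))‖ = 1 := by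
    rw [show -(Complex.I * ((t0 * Real.log n : ℝ) : ℂ)) =
      ((-(t0 * Real.log n) : ℝ) : ℂ) * Complex.I by push_cast; ring]
    exact Complex.norm_exp_ofReal_mul_I _
  rw [h1, mul_one]
  calc cu k c (Real.log n - D) * (n : ℝ) ^ (-(1 / 2) : ℝ) ≤ 1 * (n : ℝ) ^ (-(1 / 2) : ℝ) := by
        gcongr
        exact Pool.Agent.H448R2.GC.cu_le_one k c _ hc
    _ = _ := one_mul _

lemma gs_dp (N k : ℕ) (c D t0 x : ℝ) :
    gs N k c (hl (t0 + x)) D = ∑ n ∈ Icc 1 N, bco k c D t0 n *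
      Complex.exp (-(Complex.I * ((x * Real.log n : ℝ) : ℂ))) := by
  unfold gs
  refine sum_congr rfl fun n hn => ?_
  rw [mem_Icc] at hn
  have hn0 : (n : ℂ) ≠ 0 := by
    have : n ≠ 0 := by omega
    exact_mod_cast this
  have hnr : (0 : ℝ) < n := by exact_mod_cast hn.1
  unfold bco
  rw [mul_assoc, mul_assoc]
  congr 1
  rw [Complex.cpow_def_of_ne_zero hn0, Real.rpow_def_of_pos hnr]
  push_cast
  rw [← Complex.exp_add, ← Complex.exp_add]
  congr 1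
  unfold hl
  push_cast
  ring

lemma gap_sum {ε : ℝ} (hε : 0 < ε) (k : ℕ) : ∃ C T₀ : ℝ, 1 ≤ C ∧ 1 ≤ T₀ ∧
    ∀ T : ℝ, T₀ ≤ T → ∀ (Δ : Fin k → ℝ) (J : Fin k → ℕ) (D t0 : ℝ), 1 ≤ D → D ≤ T →
    Sep Δ J D → (∀ i, 1 ≤ J i) → D ^ (2 / 3 : ℝ) ≤ ∏ i, (J i : ℝ) →
    T ^ (1 / 2 : ℝ) ≤ ∏ i, (J i : ℝ) →
    (∀ j ∈ Fintype.piFinset (fun i => range (J i)), T ≤ t0 + fr Δ j ∧ t0 + fr Δ j ≤ 2 * T) →
    ∑ j ∈ Fintype.piFinset (fun i => range (J i)), ‖riemannZeta (hl (t0 + fr Δ j))‖ ^ 2 ≤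
      C * T ^ ε * ∏ i, (J i : ℝ) := by
  have hε4 : 0 < ε / 4 := by positivity
  obtain ⟨C1, hC1, h1⟩ := dp_ms hε4 k
  obtain ⟨η, hη⟩ : ∃ η : ℝ, η = min (ε / 8) (1 / 100) := ⟨_, rfl⟩
  have hη0 : 0 < η := by rw [hη]; positivity
  have hη1 : η ≤ 1 / 100 := by rw [hη]; exact min_le_right _ _
  have hη2 : η ≤ ε / 8 := by rw [hη]; exact min_le_left _ _
  obtain ⟨K, C2, T₀, hC2, hT₀, h2⟩ := afe_sq hη0 hη1
  refine ⟨C2 * (1 + 14 * (C1 * 30 ^ (ε / 4) * 30)), T₀, ?_, hT₀, ?_⟩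
  · have a1 : (1 : ℝ) ≤ 30 ^ (ε / 4) := Real.one_le_rpow (by norm_num) hε4.le
    have b1 : (1 : ℝ) ≤ C1 * 30 ^ (ε / 4) := by nlinarith
    nlinarith
  intro T hT Δ J D t0 hD hDT hsep hJ hX1 hX2 hpts
  have hT1 : 1 ≤ T := hT₀.trans hT
  have hT0 : 0 < T := by linarith
  obtain ⟨c, D1, D2, N, hc, hN, hz⟩ := h2 T hT
  set X : ℝ := ∏ i, (J i : ℝ) with hXd
  have hX0 : 0 < X := lt_of_lt_of_le (by positivity) hX2
  set P := Fintype.piFinset (fun i => range (J i)) with hP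
  have hPc : (P.card : ℝ) = X := by
    rw [hP, hXd, Fintype.card_piFinset]; push_cast; simp
  set E : ℝ := 30 * T ^ (2 * η) with hE
  have hTη : 1 ≤ T ^ (2 * η) := Real.one_le_rpow hT1 (by positivity)
  have hE1 : 1 ≤ E := by rw [hE]; linarith
  have hNE : (N : ℝ) ≤ X * E := by
    refine hN.trans ?_
    rw [Real.rpow_add hT0, hE]
    calc 30 * (T ^ (1 / 2 : ℝ) * T ^ (2 * η)) ≤ 30 * (X * T ^ (2 * η)) := by gcongr
      _ = _ := by ring
  -- the bound for each polynomial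
  obtain ⟨B, hB⟩ : ∃ B : ℝ, B = C1 * (D * E) ^ (ε / 4) * E * X := ⟨_, rfl⟩
  have hpoly : ∀ (m : ℕ) (y : ℝ), ∑ j ∈ P, ‖gs N m c (hl (t0 + fr Δ j)) y‖ ^ 2 ≤ B := by
    intro m y
    have h5 := h1 Δ J D hD hsep hJ hX1 N E hE1 hNE (bco m c y t0)
      (fun n _ => bco_norm m hc y t0 n)
    rw [hB]
    refine le_trans (le_of_eq ?_) h5
    refine sum_congr rfl fun j _ => ?_
    rw [gs_dp]
  have hBle : B ≤ (C1 * 30 ^ (ε / 4) * 30) * T ^ ε * X := by
    have e1 : (D * E) ^ (ε / 4) ≤ 30 ^ (ε / 4) * T ^ (ε / 2) := by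
      have e2 : D * E ≤ 30 * T ^ (2 : ℝ) := by
        have e3 : T ^ (2 * η) ≤ T := by
          calc T ^ (2 * η) ≤ T ^ (1 : ℝ) := Real.rpow_le_rpow_of_exponent_le hT1 (by linarith)
            _ = T := Real.rpow_one T
        rw [hE, Real.rpow_two]
        calc D * (30 * T ^ (2 * η)) ≤ T * (30 * T) := by gcongr
          _ = _ := by ring
      calc (D * E) ^ (ε / 4) ≤ (30 * T ^ (2 : ℝ)) ^ (ε / 4) :=
            Real.rpow_le_rpow (by positivity) e2 hε4.le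
        _ = 30 ^ (ε / 4) * (T ^ (2 : ℝ)) ^ (ε / 4) := Real.mul_rpow (by norm_num) (by positivity)
        _ = 30 ^ (ε / 4) * T ^ (ε / 2) := by
          rw [← Real.rpow_mul hT0.le]
          congr 2
          ring
    have e4 : E ≤ 30 * T ^ (ε / 2) := by
      rw [hE]
      have : T ^ (2 * η) ≤ T ^ (ε / 2) := Real.rpow_le_rpow_of_exponent_le hT1 (by linarith)
      linarith
    rw [hB]
    calc C1 * (D * E) ^ (ε / 4) * E * X
        ≤ C1 * (30 ^ (ε / 4) * T ^ (ε / 2)) * (30 * T ^ (ε / 2)) * X := by gcongr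
      _ = (C1 * 30 ^ (ε / 4) * 30) * (T ^ (ε / 2) * T ^ (ε / 2)) * X := by ring
      _ = _ := by
        rw [← Real.rpow_add hT0]
        congr 3
        ring
  have hB0 : 0 ≤ B := by rw [hB]; positivity
  -- sum the inequality
  have hint : ∑ j ∈ P, (∫ u in (-3:ℝ)..3, (‖gs N (K + 1) c (hl (t0 + fr Δ j)) (D2 + u + c)‖ ^ 2 +
        ‖gs N (K + 1) c (hl (t0 + fr Δ j)) (D2 + u)‖ ^ 2)) ≤ 12 * B := by
    have hcont : ∀ j ∈ P, Continuous (fun u : ℝ =>
        (‖gs N (K + 1) c (hl (t0 + fr Δ j)) (D2 + u + c)‖ ^ 2 +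
        ‖gs N (K + 1) c (hl (t0 + fr Δ j)) (D2 + u)‖ ^ 2)) := by
      intro j _
      refine Continuous.add ?_ ?_
      · exact (((g_cont N K c hc (hl (t0 + fr Δ j))).comp (by fun_prop)).norm).pow 2
      · exact (((g_cont N K c hc (hl (t0 + fr Δ j))).comp (by fun_prop)).norm).pow 2
    rw [← intervalIntegral.integral_finsetSum (fun j hj => (hcont j hj).intervalIntegrable _ _)]
    calc (∫ u in (-3:ℝ)..3, ∑ j ∈ P, (‖gs N (K + 1) c (hl (t0 + fr Δ j)) (D2 + u + c)‖ ^ 2 +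
        ‖gs N (K + 1) c (hl (t0 + fr Δ j)) (D2 + u)‖ ^ 2)) ≤ ∫ u in (-3:ℝ)..3, (2 * B) := by
          apply intervalIntegral.integral_mono_on (by norm_num)
          · exact (continuous_finsetSum _ hcont).intervalIntegrable _ _
          · exact continuous_const.intervalIntegrable _ _
          · intro u _
            rw [sum_add_distrib]
            have := hpoly (K + 1) (D2 + u + c)
            have := hpoly (K + 1) (D2 + u)
            linarith
      _ = 12 * B := by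
        rw [intervalIntegral.integral_const, smul_eq_mul]; ring
  calc ∑ j ∈ P, ‖riemannZeta (hl (t0 + fr Δ j))‖ ^ 2
      ≤ ∑ j ∈ P, C2 * (1 + ‖gs N (K + 2) c (hl (t0 + fr Δ j)) D1‖ ^ 2 +
        ‖gs N (K + 2) c (hl (t0 + fr Δ j)) D2‖ ^ 2 +
        ∫ u in (-3:ℝ)..3, (‖gs N (K + 1) c (hl (t0 + fr Δ j)) (D2 + u + c)‖ ^ 2 +
        ‖gs N (K + 1) c (hl (t0 + fr Δ j)) (D2 + u)‖ ^ 2)) :=
        sum_le_sum fun j hj => hz _ (hpts j hj).1 (hpts j hj).2
    _ = C2 * (X + ∑ j ∈ P, ‖gs N (K + 2) c (hl (t0 + fr Δ j)) D1‖ ^ 2 +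
        ∑ j ∈ P, ‖gs N (K + 2) c (hl (t0 + fr Δ j)) D2‖ ^ 2 +
        ∑ j ∈ P, (∫ u in (-3:ℝ)..3, (‖gs N (K + 1) c (hl (t0 + fr Δ j)) (D2 + u + c)‖ ^ 2 +
        ‖gs N (K + 1) c (hl (t0 + fr Δ j)) (D2 + u)‖ ^ 2))) := by
        rw [← mul_sum, sum_add_distrib, sum_add_distrib, sum_add_distrib, sum_const, nsmul_eq_mul,
          hPc, mul_one]
    _ ≤ C2 * (X + B + B + 12 * B) := by
        have := hpoly (K + 2) D1
        have := hpoly (K + 2) D2
        gcongr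
    _ ≤ C2 * (T ^ ε * X + 14 * ((C1 * 30 ^ (ε / 4) * 30) * T ^ ε * X)) := by
        have e5 : 1 ≤ T ^ ε := Real.one_le_rpow hT1 hε.le
        have e6 : X ≤ T ^ ε * X := by nlinarith
        apply mul_le_mul_of_nonneg_left _ (by linarith)
        linarith
    _ = _ := by ring

/-- the mean square of zeta over a proper generalised arithmetic progression -/
theorem gap_final {ε : ℝ} (hε : 0 < ε) (k : ℕ) : ∃ C : ℝ, 1 ≤ C ∧
    ∀ T : ℝ, 1 ≤ T → ∀ (Δ : Fin k → ℝ) (J : Fin k → ℕ) (D t0 : ℝ), 1 ≤ D →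
    Sep Δ J D → (∀ i, 1 ≤ J i) → D ^ (2 / 3 : ℝ) ≤ ∏ i, (J i : ℝ) →
    T ^ (1 / 2 : ℝ) ≤ ∏ i, (J i : ℝ) →
    (∀ j ∈ Fintype.piFinset (fun i => range (J i)), T ≤ t0 + fr Δ j ∧ t0 + fr Δ j ≤ 2 * T) →
    ∑ j ∈ Fintype.piFinset (fun i => range (J i)), ‖riemannZeta (hl (t0 + fr Δ j))‖ ^ 2 ≤
      C * T ^ ε * ∏ i, (J i : ℝ) := by
  obtain ⟨C1, T₀, hC1, hT₀, h1⟩ := gap_sum hε k
  -- boundedness on a compact set
  have hcont : ContinuousOn (fun t : ℝ => ‖riemannZeta (hl t)‖ ^ 2) (Set.Icc 1 (2 * T₀)) := by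
    intro t ht
    have h2 : hl t ≠ 1 := by
      intro h
      have h3 := congrArg Complex.im h
      simp [hl] at h3
      have := ht.1
      linarith
    have h4 : ContinuousAt (fun t : ℝ => ‖riemannZeta (hl t)‖ ^ 2) t := by
      apply ContinuousAt.pow
      apply ContinuousAt.norm
      have h5 : ContinuousAt riemannZeta (hl t) :=
        (differentiableAt_riemannZeta h2).continuousAt
      have h6 : ContinuousAt hl t := by
        unfold hl
        fun_prop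
      exact ContinuousAt.comp (f := hl) h5 h6
    exact h4.continuousWithinAt
  obtain ⟨B, hB⟩ := (isCompact_Icc.bddAbove_image hcont)
  refine ⟨max C1 B, le_max_of_le_left hC1, ?_⟩
  intro T hT Δ J D t0 hD hsep hJ hX1 hX2 hpts
  have hT0 : 0 < T := by linarith
  have hX0 : 0 < ∏ i, (J i : ℝ) := lt_of_lt_of_le (by positivity) hX2
  rcases le_or_gt T₀ T with hTT | hTT
  · have hsep' : Sep Δ J (min D T) := by
      intro x hx y hy hxy
      refine ⟨(hsep x hx y hy hxy).1, le_min (hsep x hx y hy hxy).2 ?_⟩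
      rw [abs_le]
      constructor
      · linarith [(hpts x hx).1, (hpts x hx).2, (hpts y hy).1, (hpts y hy).2]
      · linarith [(hpts x hx).1, (hpts x hx).2, (hpts y hy).1, (hpts y hy).2]
    have hDm : 1 ≤ min D T := le_min hD hT
    refine (h1 T hTT Δ J (min D T) t0 hDm (min_le_right _ _) hsep' hJ
      ((Real.rpow_le_rpow (by linarith) (min_le_left _ _) (by norm_num)).trans hX1) hX2 hpts).trans ?_
    gcongr
    exact le_max_left _ _
  · have hTe : 1 ≤ T ^ ε := Real.one_le_rpow hT hε.le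
    calc ∑ j ∈ Fintype.piFinset (fun i => range (J i)), ‖riemannZeta (hl (t0 + fr Δ j))‖ ^ 2
        ≤ ∑ j ∈ Fintype.piFinset (fun i => range (J i)), max C1 B := by
          refine sum_le_sum fun j hj => le_max_of_le_right ?_
          apply hB
          refine ⟨t0 + fr Δ j, ⟨?_, ?_⟩, rfl⟩
          · linarith [(hpts j hj).1]
          · linarith [(hpts j hj).2]
      _ = max C1 B * ∏ i, (J i : ℝ) := by
          rw [sum_const, nsmul_eq_mul, Fintype.card_piFinset]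
          push_cast
          simp only [card_range]
          ring
      _ ≤ max C1 B * T ^ ε * ∏ i, (J i : ℝ) := by
          have h7 : 0 ≤ max C1 B := by
            have := le_max_left C1 B
            linarith
          have h8 : max C1 B ≤ max C1 B * T ^ ε := by nlinarith
          gcongr

/-- `F` is a proper generalised arithmetic progression of rank `k` in the real line -/
def ProperGAP (k : ℕ) (F : Finset ℝ) : Prop :=
  ∃ (t₀ : ℝ) (Δ : Fin k → ℝ) (J : Fin k → ℕ),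
    (∀ t : ℝ, t ∈ F ↔ ∃ j : Fin k → ℕ, (∀ i, j i < J i) ∧ t = t₀ + ∑ i, (j i : ℝ) * Δ i) ∧
    F.card = ∏ i, J i

theorem gap_set (k : ℕ) {ε : ℝ} (hε : 0 < ε) : ∃ C : ℝ, ∀ T : ℝ, 1 ≤ T → ∀ (D : ℝ) (F : Finset ℝ),
    ProperGAP k F → (∀ t ∈ F, T ≤ t ∧ t ≤ 2 * T) →
    (∀ t ∈ F, ∀ u ∈ F, t ≠ u → 1 ≤ |t - u| ∧ |t - u| ≤ D) →
    D ^ (2 / 3 : ℝ) ≤ F.card → T ^ (1 / 2 : ℝ) ≤ F.card →
    ∑ t ∈ F, ‖riemannZeta (1 / 2 + t * Complex.I)‖ ^ 2 ≤ C * T ^ ε * F.card := by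
  classical
  obtain ⟨C, hC, h⟩ := gap_final hε k
  refine ⟨C, ?_⟩
  intro T hT D F hF hFT hsep hD hTF
  obtain ⟨t₀, Δ, J, hmem, hcard⟩ := hF
  have hT1 : (1 : ℝ) ≤ T ^ (1 / 2 : ℝ) := Real.one_le_rpow hT (by norm_num)
  have hF1 : (1 : ℝ) ≤ F.card := hT1.trans hTF
  have hJ : ∀ i, 1 ≤ J i := by
    intro i
    by_contra hi
    have : J i = 0 := by omega
    have h2 : ∏ i, J i = 0 := prod_eq_zero (mem_univ i) this
    rw [hcard, h2] at hF1
    norm_num at hF1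
  set P := Fintype.piFinset (fun i => range (J i)) with hP
  have himg : F = P.image (fun j => t₀ + fr Δ j) := by
    ext t
    rw [hmem, mem_image]
    constructor
    · rintro ⟨j, hj, rfl⟩
      exact ⟨j, by rw [hP, Fintype.mem_piFinset]; intro i; exact mem_range.2 (hj i), rfl⟩
    · rintro ⟨j, hj, rfl⟩
      rw [hP, Fintype.mem_piFinset] at hj
      exact ⟨j, fun i => mem_range.1 (hj i), rfl⟩
  have hPc : P.card = ∏ i, J i := by
    rw [hP, Fintype.card_piFinset]; simp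
  have hinj : Set.InjOn (fun j => t₀ + fr Δ j) (P : Set (Fin k → ℕ)) := by
    rw [← card_image_iff, ← himg, hcard, hPc]
  have hin : ∀ j ∈ P, t₀ + fr Δ j ∈ F := by
    intro j hj
    rw [himg]
    exact mem_image_of_mem _ hj
  have hsep' : Sep Δ J (max D 1) := by
    intro x hx y hy hxy
    have hne : t₀ + fr Δ y ≠ t₀ + fr Δ x := by
      intro h4
      exact hxy (hinj hx hy h4.symm)
    have h5 := hsep _ (hin y hy) _ (hin x hx) hne
    rw [add_sub_add_left_eq_sub] at h5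
    exact ⟨h5.1, h5.2.trans (le_max_left _ _)⟩
  have hcR : (F.card : ℝ) = ∏ i, (J i : ℝ) := by
    rw [hcard]; push_cast; rfl
  have hDm : (max D 1) ^ (2 / 3 : ℝ) ≤ ∏ i, (J i : ℝ) := by
    rcases le_total D 1 with h6 | h6
    · rw [max_eq_right h6, Real.one_rpow, ← hcR]; exact hF1
    · rw [max_eq_left h6, ← hcR]; exact hD
  have h7 := h T hT Δ J (max D 1) t₀ (le_max_right _ _) hsep' hJ hDm (by rw [← hcR]; exact hTF)
    (fun j hj => hFT _ (hin j hj))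
  rw [hcR, himg, sum_image hinj]
  refine le_trans (le_of_eq ?_) h7
  refine sum_congr rfl fun j _ => ?_
  congr 3
  unfold hl
  push_cast
  ring

end Pool.Agent.Y766
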