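import Pool.Agent.Y766.CH

/-!
Mean squares over coset progressions of characters: reduction to a count of pairs.
-/

set_option autoImplicit false

namespace Pool.Agent.Y766

open Finset

lemma char_norm {d : ℕ} (χ : DirichletCharacter ℂ d) {a : ZMod d} (ha : IsUnit a) : ‖χ a‖ = 1 := by
  obtain ⟨u, rfl⟩ := ha
  exact χ.unit_norm_eq_one u

/-- shifting trick -/
lemma shift_le {k : ℕ} (s : Finset ℕ) (u : ℕ → ℂ) (c : Fin k → ℕ → ℂ)
    (hc : ∀ i, ∀ n ∈ s, ‖c i n‖ = 1) (J : Fin k → ℕ) :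
    (∑ j ∈ Fintype.piFinset (fun i => range (J i)), ‖∑ n ∈ s, u n * ∏ i, c i n ^ j i‖ ^ 2) *
      ∏ i, (J i : ℝ) ≤
    ∑ b ∈ Fintype.piFinset (fun i => range (2 * J i)),
      ∑ b' ∈ Fintype.piFinset (fun i => range (2 * J i)),
        ‖∑ n ∈ s, u n * ∏ i, (c i n ^ b i * (starRingEnd ℂ) (c i n) ^ b' i)‖ ^ 2 := by
  classical
  set T := Fintype.piFinset (fun i => range (J i)) with hT
  set T2 := Fintype.piFinset (fun i => range (2 * J i)) with hT2
  set F : (Fin k → ℕ) × (Fin k → ℕ) → ℝ := fun p =>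
    ‖∑ n ∈ s, u n * ∏ i, (c i n ^ p.1 i * (starRingEnd ℂ) (c i n) ^ p.2 i)‖ ^ 2 with hF
  have hF0 : ∀ p, 0 ≤ F p := fun p => by positivity
  have hTc : (T.card : ℝ) = ∏ i, (J i : ℝ) := by
    rw [hT, Fintype.card_piFinset]
    push_cast
    simp
  have e1 : (∑ j ∈ T, ‖∑ n ∈ s, u n * ∏ i, c i n ^ j i‖ ^ 2) * ∏ i, (J i : ℝ) =
      ∑ p ∈ T ×ˢ T, F (p.1 + p.2, p.2) := by
    rw [← hTc, sum_product, mul_comm, ← nsmul_eq_mul, ← sum_const, sum_comm]
    refine sum_congr rfl fun j _ => sum_congr rfl fun e _ => ?_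
    simp only [hF]
    congr 2
    refine sum_congr rfl fun n hn => ?_
    congr 1
    refine prod_congr rfl fun i _ => ?_
    rw [Pi.add_apply, pow_add, mul_assoc, ← mul_pow, Complex.mul_conj', hc i n hn]
    simp
  rw [e1]
  have hinj : Set.InjOn (fun p : (Fin k → ℕ) × (Fin k → ℕ) => (p.1 + p.2, p.2)) (T ×ˢ T : Finset _) := by
    rintro ⟨a, b⟩ _ ⟨a', b'⟩ _ h
    simp only [Prod.mk.injEq] at h
    obtain ⟨h1, h2⟩ := h
    subst h2
    have : a = a' := by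
      funext i
      have := congrFun h1 i
      simpa using this
    rw [this]
  have e2 : ∑ p ∈ T ×ˢ T, F (p.1 + p.2, p.2) =
      ∑ p ∈ (T ×ˢ T).image (fun p : (Fin k → ℕ) × (Fin k → ℕ) => (p.1 + p.2, p.2)), F p := by
    rw [sum_image hinj]
  rw [e2]
  have hsub : (T ×ˢ T).image (fun p : (Fin k → ℕ) × (Fin k → ℕ) => (p.1 + p.2, p.2)) ⊆ T2 ×ˢ T2 := by
    intro p hp
    rw [mem_image] at hp
    obtain ⟨⟨a, b⟩, h1, rfl⟩ := hp
    rw [mem_product] at h1 ⊢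
    simp only [hT, hT2, Fintype.mem_piFinset, mem_range, Pi.add_apply] at h1 ⊢
    constructor
    · intro i
      have := h1.1 i
      have := h1.2 i
      omega
    · intro i
      have := h1.2 i
      omega
  refine (sum_le_sum_of_subset_of_nonneg hsub fun _ _ _ => hF0 _).trans (le_of_eq ?_)
  rw [sum_product]

lemma expand {k : ℕ} (s : Finset ℕ) (u : ℕ → ℂ) (c : Fin k → ℕ → ℂ) (J : Fin k → ℕ) :
    ((∑ b ∈ Fintype.piFinset (fun i => range (J i)),
      ∑ b' ∈ Fintype.piFinset (fun i => range (J i)),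
        ‖∑ n ∈ s, u n * ∏ i, (c i n ^ b i * (starRingEnd ℂ) (c i n) ^ b' i)‖ ^ 2 : ℝ) : ℂ) =
    ∑ m ∈ s, ∑ n ∈ s, u m * (starRingEnd ℂ) (u n) *
      ((∏ i, ‖∑ b ∈ range (J i), (c i m * (starRingEnd ℂ) (c i n)) ^ b‖ ^ 2 : ℝ) : ℂ) := by
  classical
  set T := Fintype.piFinset (fun i => range (J i)) with hT
  push_cast
  have e1 : ∀ b b' : Fin k → ℕ,
      ((‖∑ n ∈ s, u n * ∏ i, (c i n ^ b i * (starRingEnd ℂ) (c i n) ^ b' i)‖ : ℂ)) ^ 2 =
      ∑ m ∈ s, ∑ n ∈ s, u m * (starRingEnd ℂ) (u n) *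
        ((∏ i, (c i m * (starRingEnd ℂ) (c i n)) ^ b i) *
         ∏ i, (starRingEnd ℂ) (c i m * (starRingEnd ℂ) (c i n)) ^ b' i) := by
    intro b b'
    rw [← Complex.mul_conj', map_sum, sum_mul_sum]
    refine sum_congr rfl fun m _ => sum_congr rfl fun n _ => ?_
    rw [map_mul, map_prod]
    simp only [map_mul, map_pow, Complex.conj_conj]
    have this : (∏ i, (c i m * (starRingEnd ℂ) (c i n)) ^ b i) *
        ∏ i, ((starRingEnd ℂ) (c i m) * c i n) ^ b' i =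
        (∏ i, (c i m ^ b i * (starRingEnd ℂ) (c i m) ^ b' i)) *
        ∏ i, ((starRingEnd ℂ) (c i n) ^ b i * c i n ^ b' i) := by
      rw [← prod_mul_distrib, ← prod_mul_distrib]
      refine prod_congr rfl fun i _ => ?_
      rw [mul_pow, mul_pow]; ring
    rw [this]
    ring
  simp_rw [e1]
  have e2 : ∑ b ∈ T, ∑ b' ∈ T, ∑ m ∈ s, ∑ n ∈ s, u m * (starRingEnd ℂ) (u n) *
        ((∏ i, (c i m * (starRingEnd ℂ) (c i n)) ^ b i) *
         ∏ i, (starRingEnd ℂ) (c i m * (starRingEnd ℂ) (c i n)) ^ b' i) =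
      ∑ m ∈ s, ∑ n ∈ s, ∑ b ∈ T, ∑ b' ∈ T, u m * (starRingEnd ℂ) (u n) *
        ((∏ i, (c i m * (starRingEnd ℂ) (c i n)) ^ b i) *
         ∏ i, (starRingEnd ℂ) (c i m * (starRingEnd ℂ) (c i n)) ^ b' i) := by
    have h1 : ∀ b ∈ T, ∑ b' ∈ T, ∑ m ∈ s, ∑ n ∈ s, u m * (starRingEnd ℂ) (u n) *
        ((∏ i, (c i m * (starRingEnd ℂ) (c i n)) ^ b i) *
         ∏ i, (starRingEnd ℂ) (c i m * (starRingEnd ℂ) (c i n)) ^ b' i) =
        ∑ m ∈ s, ∑ n ∈ s, ∑ b' ∈ T, u m * (starRingEnd ℂ) (u n) *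
        ((∏ i, (c i m * (starRingEnd ℂ) (c i n)) ^ b i) *
         ∏ i, (starRingEnd ℂ) (c i m * (starRingEnd ℂ) (c i n)) ^ b' i) := by
      intro b _
      rw [sum_comm]
      refine sum_congr rfl fun m _ => ?_
      rw [sum_comm]
    rw [sum_congr rfl h1, sum_comm]
    refine sum_congr rfl fun m _ => ?_
    rw [sum_comm]
  rw [e2]
  refine sum_congr rfl fun m _ => sum_congr rfl fun n _ => ?_
  simp_rw [← mul_sum]
  congr 1
  rw [← sum_mul]
  have e3 : ∑ b ∈ T, ∏ i, (c i m * (starRingEnd ℂ) (c i n)) ^ b i =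
      ∏ i, ∑ b ∈ range (J i), (c i m * (starRingEnd ℂ) (c i n)) ^ b := by
    rw [hT, prod_univ_sum]
  have e4 : ∑ b ∈ T, ∏ i, (starRingEnd ℂ) (c i m * (starRingEnd ℂ) (c i n)) ^ b i =
      (starRingEnd ℂ) (∏ i, ∑ b ∈ range (J i), (c i m * (starRingEnd ℂ) (c i n)) ^ b) := by
    rw [← e3, map_sum]
    refine sum_congr rfl fun b _ => ?_
    rw [map_prod]
    refine prod_congr rfl fun i _ => ?_
    rw [map_pow]
  rw [e3, e4, Complex.mul_conj', norm_prod]
  push_cast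
  rw [prod_pow]

lemma sum_subgroup {d : ℕ} (H : Subgroup (DirichletCharacter ℂ d)) [Fintype H] {m n : ZMod d}
    (hm : IsUnit m) (hn : IsUnit n) [Decidable (∀ χ0 ∈ H, χ0 m = χ0 n)] :
    ∑ x : H, (x : DirichletCharacter ℂ d) m * (starRingEnd ℂ) ((x : DirichletCharacter ℂ d) n) =
      if ∀ χ0 ∈ H, χ0 m = χ0 n then (Fintype.card H : ℂ) else 0 := by
  split_ifs with h
  · have : ∀ x : H, (x : DirichletCharacter ℂ d) m * (starRingEnd ℂ) ((x : DirichletCharacter ℂ d) n) = 1 := by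
      intro x
      rw [h x x.2, Complex.mul_conj', char_norm _ hn]
      simp
    simp_rw [this]
    simp
  · push Not at h
    obtain ⟨χ1, h1, h2⟩ := h
    set c : ℂ := χ1 m * (starRingEnd ℂ) (χ1 n) with hc
    have hc1 : c ≠ 1 := by
      intro h3
      apply h2
      have h4 : χ1 m * ((starRingEnd ℂ) (χ1 n) * χ1 n) = χ1 n := by
        rw [← mul_assoc, ← hc, h3, one_mul]
      rw [mul_comm ((starRingEnd ℂ) (χ1 n)), Complex.mul_conj', char_norm _ hn] at h4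
      simpa using h4
    set S := ∑ x : H, (x : DirichletCharacter ℂ d) m *
      (starRingEnd ℂ) ((x : DirichletCharacter ℂ d) n) with hS
    have e : c * S = S := by
      rw [hS, mul_sum]
      refine Fintype.sum_equiv (Equiv.mulLeft (⟨χ1, h1⟩ : H)) _ _ fun x => ?_
      simp only [Equiv.coe_mulLeft, Subgroup.coe_mul, MulChar.mul_apply, map_mul, hc]
      ring
    have h5 : (c - 1) * S = 0 := by rw [sub_mul, e, one_mul, sub_self]
    rcases mul_eq_zero.1 h5 with h6 | h6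
    · exact absurd (sub_eq_zero.1 h6) hc1
    · exact h6

lemma kernel_le {z : ℂ} (hz : ‖z‖ = 1) {J : ℕ} (hJ : 1 ≤ J) :
    ‖∑ b ∈ range (2 * J), z ^ b‖ ^ 2 ≤
      ∑ l ∈ range (Nat.log 2 J + 1), (8 * J * 2 ^ l : ℝ) * (if ‖z - 1‖ ≤ 2 / 2 ^ l then 1 else 0) := by
  classical
  have hz2 : ‖z - 1‖ ≤ 2 := by
    have := norm_sub_le z 1
    rw [hz, norm_one] at this
    linarith
  set P : ℕ → Prop := fun l => ‖z - 1‖ ≤ 2 / 2 ^ l with hP
  have hP0 : P 0 := by simp only [hP, pow_zero, div_one]; exact hz2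
  set l := Nat.findGreatest P (Nat.log 2 J) with hl
  have hPl : P l := Nat.findGreatest_spec (Nat.zero_le _) hP0
  have hlJ : l ≤ Nat.log 2 J := Nat.findGreatest_le _
  have h2l : (2 : ℝ) ^ l ≤ J := by
    have h1 : 2 ^ l ≤ J := (Nat.pow_le_pow_right (by norm_num) hlJ).trans
      (Nat.pow_log_le_self 2 (by omega))
    exact_mod_cast h1
  have hterm : (8 * J * 2 ^ l : ℝ) ≤ ∑ l ∈ range (Nat.log 2 J + 1), (8 * J * 2 ^ l : ℝ) *
      (if ‖z - 1‖ ≤ 2 / 2 ^ l then 1 else 0) := by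
    have := single_le_sum (f := fun l => (8 * J * 2 ^ l : ℝ) *
      (if ‖z - 1‖ ≤ 2 / 2 ^ l then 1 else 0)) (s := range (Nat.log 2 J + 1))
      (fun i _ => by positivity) (mem_range.2 (by omega : l < Nat.log 2 J + 1))
    rw [if_pos hPl, mul_one] at this
    exact this
  refine le_trans ?_ hterm
  rcases Nat.eq_or_lt_of_le hlJ with h | h
  · have h1 : ‖∑ b ∈ range (2 * J), z ^ b‖ ≤ 2 * J := by
      refine (norm_sum_le _ _).trans ?_
      simp_rw [norm_pow, hz, one_pow]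
      simp
    have h3 : (J : ℝ) ≤ 2 * 2 ^ l := by
      have h2 := Nat.lt_pow_succ_log_self (b := 2) (by norm_num) J
      rw [← h] at h2
      have h4 : (J : ℝ) ≤ 2 ^ (l + 1) := by exact_mod_cast h2.le
      rw [pow_succ] at h4
      linarith
    have hJ0 : (0 : ℝ) ≤ J := Nat.cast_nonneg _
    calc ‖∑ b ∈ range (2 * J), z ^ b‖ ^ 2 ≤ (2 * (J : ℝ)) ^ 2 := by gcongr
      _ = 4 * (J : ℝ) * J := by ring
      _ ≤ 4 * (J : ℝ) * (2 * 2 ^ l) := by gcongr
      _ = _ := by ring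
  · have hnot : ¬ P (l + 1) := by
      intro hcon
      have := Nat.le_findGreatest (P := P) (show l + 1 ≤ Nat.log 2 J by omega) hcon
      omega
    simp only [hP, not_le] at hnot
    have h5 : 0 < ‖z - 1‖ := lt_trans (by positivity) hnot
    have hz1 : z ≠ 1 := by
      intro h6; rw [h6, sub_self, norm_zero] at h5; exact lt_irrefl _ h5
    have h7 : ‖∑ b ∈ range (2 * J), z ^ b‖ ≤ 2 / ‖z - 1‖ := by
      rw [geom_sum_eq hz1, norm_div]
      gcongr
      have := norm_sub_le (z ^ (2 * J)) 1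
      rw [norm_pow, hz, one_pow, norm_one] at this
      linarith
    have h8 : 2 / ‖z - 1‖ ≤ 2 * 2 ^ l := by
      rw [div_le_iff₀ h5]
      have h9 : 2 / 2 ^ (l + 1) ≤ ‖z - 1‖ := hnot.le
      rw [div_le_iff₀ (by positivity), pow_succ] at h9
      nlinarith
    calc ‖∑ b ∈ range (2 * J), z ^ b‖ ^ 2 ≤ (2 * 2 ^ l) ^ 2 := by
          gcongr
          exact h7.trans h8
      _ = 4 * 2 ^ l * 2 ^ l := by ring
      _ ≤ 8 * J * 2 ^ l := by
          have : (0 : ℝ) < 2 ^ l := by positivity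
          nlinarith

/-- pairs with ratio close to the annihilator -/
noncomputable def prs {d k : ℕ} (H : Subgroup (DirichletCharacter ℂ d))
    (χ : Fin k → DirichletCharacter ℂ d) (l : Fin k → ℕ) (s : Finset ℕ) : Finset (ℕ × ℕ) := by
  classical
  exact (s ×ˢ s).filter (fun p => (∀ χ0 ∈ H, χ0 (p.1 : ZMod d) = χ0 (p.2 : ZMod d)) ∧
    ∀ i, ‖χ i (p.1 : ZMod d) * (starRingEnd ℂ) (χ i (p.2 : ZMod d)) - 1‖ ≤ 2 / 2 ^ l i)

theorem mean_square {d k : ℕ} (H : Subgroup (DirichletCharacter ℂ d)) [Fintype H]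
    (χ : Fin k → DirichletCharacter ℂ d) (J : Fin k → ℕ) (hJ : ∀ i, 1 ≤ J i) (s : Finset ℕ)
    (hs : ∀ n ∈ s, IsUnit (n : ZMod d)) (a : ℕ → ℂ) (B : ℝ) (hB : ∀ n ∈ s, ‖a n‖ ≤ B) :
    ∑ x : H, ∑ j ∈ Fintype.piFinset (fun i => range (J i)),
      ‖∑ n ∈ s, a n * mem χ x j (n : ZMod d)‖ ^ 2 ≤
    Fintype.card H * B ^ 2 * ∑ l ∈ Fintype.piFinset (fun i => range (Nat.log 2 (J i) + 1)),
      (∏ i, (8 * 2 ^ l i : ℝ)) * ((prs H χ l s).card : ℝ) := by
  classical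
  set c : Fin k → ℕ → ℂ := fun i n => χ i (n : ZMod d) with hc
  have hc1 : ∀ i, ∀ n ∈ s, ‖c i n‖ = 1 := fun i n hn => char_norm _ (hs n hn)
  have hJ0 : 0 < ∏ i, (J i : ℝ) := prod_pos fun i _ => by exact_mod_cast hJ i
  have e1 : ∀ (x : H) (j : Fin k → ℕ), ∑ n ∈ s, a n * mem χ x j (n : ZMod d) =
      ∑ n ∈ s, (a n * (x : DirichletCharacter ℂ d) (n : ZMod d)) * ∏ i, c i n ^ j i := by
    intro x j
    refine sum_congr rfl fun n hn => ?_
    rw [mem_apply χ _ _ (hs n hn)]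
    ring
  simp_rw [e1]
  set Ker : ℕ → ℕ → ℝ := fun m n => ∏ i, ‖∑ b ∈ range (2 * J i), (c i m * (starRingEnd ℂ) (c i n)) ^ b‖ ^ 2
    with hKer
  have hKer0 : ∀ m n, 0 ≤ Ker m n := fun m n => prod_nonneg fun i _ => by positivity
  have h1 : (∑ x : H, ∑ j ∈ Fintype.piFinset (fun i => range (J i)),
      ‖∑ n ∈ s, (a n * (x : DirichletCharacter ℂ d) (n : ZMod d)) * ∏ i, c i n ^ j i‖ ^ 2) *
        ∏ i, (J i : ℝ) ≤
      ∑ x : H, ∑ b ∈ Fintype.piFinset (fun i => range (2 * J i)),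
      ∑ b' ∈ Fintype.piFinset (fun i => range (2 * J i)),
        ‖∑ n ∈ s, (a n * (x : DirichletCharacter ℂ d) (n : ZMod d)) *
          ∏ i, (c i n ^ b i * (starRingEnd ℂ) (c i n) ^ b' i)‖ ^ 2 := by
    rw [sum_mul]
    exact sum_le_sum fun x _ => shift_le s _ c hc1 J
  have h2 : ((∑ x : H, ∑ b ∈ Fintype.piFinset (fun i => range (2 * J i)),
      ∑ b' ∈ Fintype.piFinset (fun i => range (2 * J i)),
        ‖∑ n ∈ s, (a n * (x : DirichletCharacter ℂ d) (n : ZMod d)) *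
          ∏ i, (c i n ^ b i * (starRingEnd ℂ) (c i n) ^ b' i)‖ ^ 2 : ℝ) : ℂ) =
      ∑ m ∈ s, ∑ n ∈ s, a m * (starRingEnd ℂ) (a n) *
        (if ∀ χ0 ∈ H, χ0 (m : ZMod d) = χ0 (n : ZMod d) then (Fintype.card H : ℂ) else 0) *
        (Ker m n : ℂ) := by
    rw [Complex.ofReal_sum]
    have e2 := fun x : H => expand s (fun n => a n * (x : DirichletCharacter ℂ d) (n : ZMod d)) c
      (fun i => 2 * J i)
    rw [sum_congr rfl fun x _ => e2 x, sum_comm]
    refine sum_congr rfl fun m hm => ?_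
    rw [sum_comm]
    refine sum_congr rfl fun n hn => ?_
    rw [← sum_subgroup H (hs m hm) (hs n hn), mul_sum, sum_mul]
    refine sum_congr rfl fun x _ => ?_
    rw [map_mul]
    simp only [hKer]
    ring
  set X := ∑ x : H, ∑ b ∈ Fintype.piFinset (fun i => range (2 * J i)),
      ∑ b' ∈ Fintype.piFinset (fun i => range (2 * J i)),
        ‖∑ n ∈ s, (a n * (x : DirichletCharacter ℂ d) (n : ZMod d)) *
          ∏ i, (c i n ^ b i * (starRingEnd ℂ) (c i n) ^ b' i)‖ ^ 2 with hX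
  have hX0 : 0 ≤ X := sum_nonneg fun _ _ => sum_nonneg fun _ _ => sum_nonneg fun _ _ => by positivity
  have h3 : X ≤ ∑ m ∈ s, ∑ n ∈ s, B * B *
      (if ∀ χ0 ∈ H, χ0 (m : ZMod d) = χ0 (n : ZMod d) then (Fintype.card H : ℝ) else 0) *
        Ker m n := by
    have e3 : X = ‖(X : ℂ)‖ := by rw [Complex.norm_real, Real.norm_eq_abs, abs_of_nonneg hX0]
    rw [e3, h2]
    refine (norm_sum_le _ _).trans (sum_le_sum fun m hm => (norm_sum_le _ _).trans
      (sum_le_sum fun n hn => ?_))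
    rw [norm_mul, norm_mul, norm_mul, Complex.norm_conj, Complex.norm_real, Real.norm_eq_abs,
      abs_of_nonneg (hKer0 m n)]
    have hBm := hB m hm
    have hBn := hB n hn
    have hB0 : 0 ≤ B := (norm_nonneg _).trans hBm
    have e4 : ‖(if ∀ χ0 ∈ H, χ0 (m : ZMod d) = χ0 (n : ZMod d) then (Fintype.card H : ℂ) else 0)‖ =
        (if ∀ χ0 ∈ H, χ0 (m : ZMod d) = χ0 (n : ZMod d) then (Fintype.card H : ℝ) else 0) := by
      split_ifs
      · rw [Complex.norm_natCast]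
      · rw [norm_zero]
    rw [e4]
    have h0 := hKer0 m n
    have h00 : (0 : ℝ) ≤ (if ∀ χ0 ∈ H, χ0 (m : ZMod d) = χ0 (n : ZMod d) then
        (Fintype.card H : ℝ) else 0) := by split_ifs <;> positivity
    gcongr
  -- the kernel
  have h4 : ∀ m ∈ s, ∀ n ∈ s, Ker m n ≤
      (∏ i, (J i : ℝ)) * ∑ l ∈ Fintype.piFinset (fun i => range (Nat.log 2 (J i) + 1)),
        (∏ i, (8 * 2 ^ l i : ℝ)) *
        (if ∀ i, ‖c i m * (starRingEnd ℂ) (c i n) - 1‖ ≤ 2 / 2 ^ l i then 1 else 0) := by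
    intro m hm n hn
    have hz : ∀ i, ‖c i m * (starRingEnd ℂ) (c i n)‖ = 1 := by
      intro i
      rw [norm_mul, Complex.norm_conj, hc1 i m hm, hc1 i n hn, one_mul]
    calc Ker m n ≤ ∏ i, ∑ l ∈ range (Nat.log 2 (J i) + 1), (8 * J i * 2 ^ l : ℝ) *
          (if ‖c i m * (starRingEnd ℂ) (c i n) - 1‖ ≤ 2 / 2 ^ l then 1 else 0) := by
          refine prod_le_prod (fun i _ => by positivity) fun i _ => kernel_le (hz i) (hJ i)
      _ = ∑ l ∈ Fintype.piFinset (fun i => range (Nat.log 2 (J i) + 1)),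
          ∏ i, ((8 * J i * 2 ^ l i : ℝ) *
          (if ‖c i m * (starRingEnd ℂ) (c i n) - 1‖ ≤ 2 / 2 ^ l i then 1 else 0)) := by
          rw [prod_univ_sum]
      _ = _ := by
          rw [mul_sum]
          refine sum_congr rfl fun l _ => ?_
          have p1 : ∏ i, ((8 * J i * 2 ^ l i : ℝ) *
              (if ‖c i m * (starRingEnd ℂ) (c i n) - 1‖ ≤ 2 / 2 ^ l i then 1 else 0)) =
              ((∏ i, (J i : ℝ)) * ∏ i, (8 * 2 ^ l i : ℝ)) *
              ∏ i, (if ‖c i m * (starRingEnd ℂ) (c i n) - 1‖ ≤ 2 / 2 ^ l i then (1 : ℝ) else 0) := by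
            rw [← prod_mul_distrib, ← prod_mul_distrib]
            refine prod_congr rfl fun i _ => ?_
            ring
          have p2 : ∏ i, (if ‖c i m * (starRingEnd ℂ) (c i n) - 1‖ ≤ 2 / 2 ^ l i then (1 : ℝ) else 0) =
              (if ∀ i, ‖c i m * (starRingEnd ℂ) (c i n) - 1‖ ≤ 2 / 2 ^ l i then 1 else 0) := by
            split_ifs with h
            · refine prod_eq_one fun i _ => ?_
              rw [if_pos (h i)]
            · push Not at h
              obtain ⟨i, hi⟩ := h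
              refine prod_eq_zero (mem_univ i) ?_
              rw [if_neg (not_le.2 hi)]
          rw [p1, p2, mul_assoc]
  have h5 : X ≤ (∏ i, (J i : ℝ)) * (Fintype.card H * B ^ 2 *
      ∑ l ∈ Fintype.piFinset (fun i => range (Nat.log 2 (J i) + 1)),
      (∏ i, (8 * 2 ^ l i : ℝ)) * ((prs H χ l s).card : ℝ)) := by
    refine h3.trans ?_
    have e5 : ∀ l, ((prs H χ l s).card : ℝ) = ∑ m ∈ s, ∑ n ∈ s,
        (if (∀ χ0 ∈ H, χ0 (m : ZMod d) = χ0 (n : ZMod d)) ∧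
          (∀ i, ‖c i m * (starRingEnd ℂ) (c i n) - 1‖ ≤ 2 / 2 ^ l i) then (1 : ℝ) else 0) := by
      intro l
      unfold prs
      rw [card_filter]
      push_cast
      rw [sum_product]
    calc _ ≤ ∑ m ∈ s, ∑ n ∈ s, B * B *
          (if ∀ χ0 ∈ H, χ0 (m : ZMod d) = χ0 (n : ZMod d) then (Fintype.card H : ℝ) else 0) *
          ((∏ i, (J i : ℝ)) * ∑ l ∈ Fintype.piFinset (fun i => range (Nat.log 2 (J i) + 1)),
            (∏ i, (8 * 2 ^ l i : ℝ)) *
            (if ∀ i, ‖c i m * (starRingEnd ℂ) (c i n) - 1‖ ≤ 2 / 2 ^ l i then 1 else 0)) := by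
          refine sum_le_sum fun m hm => sum_le_sum fun n hn => ?_
          refine mul_le_mul_of_nonneg_left (h4 m hm n hn) ?_
          have : (0 : ℝ) ≤ (if ∀ χ0 ∈ H, χ0 (m : ZMod d) = χ0 (n : ZMod d) then
            (Fintype.card H : ℝ) else 0) := by split_ifs <;> positivity
          have hBB : 0 ≤ B * B := mul_self_nonneg B
          positivity
      _ = _ := by
          simp_rw [e5]
          have e6 : ∀ m ∈ s, ∀ n ∈ s, B * B *
              (if ∀ χ0 ∈ H, χ0 (m : ZMod d) = χ0 (n : ZMod d) then (Fintype.card H : ℝ) else 0) *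
              ((∏ i, (J i : ℝ)) * ∑ l ∈ Fintype.piFinset (fun i => range (Nat.log 2 (J i) + 1)),
                (∏ i, (8 * 2 ^ l i : ℝ)) *
                (if ∀ i, ‖c i m * (starRingEnd ℂ) (c i n) - 1‖ ≤ 2 / 2 ^ l i then 1 else 0)) =
              ∑ l ∈ Fintype.piFinset (fun i => range (Nat.log 2 (J i) + 1)),
                ((∏ i, (J i : ℝ)) * (Fintype.card H * B ^ 2)) * ((∏ i, (8 * 2 ^ l i : ℝ)) *
                (if (∀ χ0 ∈ H, χ0 (m : ZMod d) = χ0 (n : ZMod d)) ∧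
                  (∀ i, ‖c i m * (starRingEnd ℂ) (c i n) - 1‖ ≤ 2 / 2 ^ l i) then (1 : ℝ) else 0)) := by
            intro m _ n _
            rw [mul_sum, mul_sum]
            refine sum_congr rfl fun l _ => ?_
            by_cases hA : ∀ χ0 ∈ H, χ0 (m : ZMod d) = χ0 (n : ZMod d)
            · by_cases hBb : ∀ i, ‖c i m * (starRingEnd ℂ) (c i n) - 1‖ ≤ 2 / 2 ^ l i
              · rw [if_pos hA, if_pos hBb, if_pos ⟨hA, hBb⟩]; ring
              · have hAB : ¬ ((∀ χ0 ∈ H, χ0 (m : ZMod d) = χ0 (n : ZMod d)) ∧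
                  (∀ i, ‖c i m * (starRingEnd ℂ) (c i n) - 1‖ ≤ 2 / 2 ^ l i)) := fun h => hBb h.2
                rw [if_neg hBb, if_neg hAB]; ring
            · have hAB : ¬ ((∀ χ0 ∈ H, χ0 (m : ZMod d) = χ0 (n : ZMod d)) ∧
                  (∀ i, ‖c i m * (starRingEnd ℂ) (c i n) - 1‖ ≤ 2 / 2 ^ l i)) := fun h => hA h.1
              rw [if_neg hA, if_neg hAB]; ring
          rw [sum_congr rfl fun m hm => sum_congr rfl fun n hn => e6 m hm n hn]
          have e7 : ∀ m ∈ s, ∑ n ∈ s, ∑ l ∈ Fintype.piFinset (fun i => range (Nat.log 2 (J i) + 1)),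
                ((∏ i, (J i : ℝ)) * (Fintype.card H * B ^ 2)) * ((∏ i, (8 * 2 ^ l i : ℝ)) *
                (if (∀ χ0 ∈ H, χ0 (m : ZMod d) = χ0 (n : ZMod d)) ∧
                  (∀ i, ‖c i m * (starRingEnd ℂ) (c i n) - 1‖ ≤ 2 / 2 ^ l i) then (1 : ℝ) else 0)) =
              ∑ l ∈ Fintype.piFinset (fun i => range (Nat.log 2 (J i) + 1)),
                ((∏ i, (J i : ℝ)) * (Fintype.card H * B ^ 2)) * ((∏ i, (8 * 2 ^ l i : ℝ)) *
                ∑ n ∈ s, (if (∀ χ0 ∈ H, χ0 (m : ZMod d) = χ0 (n : ZMod d)) ∧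
                  (∀ i, ‖c i m * (starRingEnd ℂ) (c i n) - 1‖ ≤ 2 / 2 ^ l i) then (1 : ℝ) else 0)) := by
            intro m _
            rw [sum_comm]
            refine sum_congr rfl fun l _ => ?_
            rw [← mul_sum, ← mul_sum]
          rw [sum_congr rfl e7, sum_comm, mul_sum, mul_sum]
          refine sum_congr rfl fun l _ => ?_
          rw [← mul_sum, ← mul_sum]
          ring
  have h6 := h1.trans h5
  rw [mul_comm] at h6
  exact le_of_mul_le_mul_left h6 hJ0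

end Pool.Agent.Y766
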