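import Pool.Agent.H505R2.DivB

/-!
Product sets of rationals: `|A B| ≥ c H^(-ε) |A| |B|` for finite sets of positive rationals of
height at most `H`.
-/

set_option autoImplicit false

namespace Pool.Agent.Y766.PS

open Finset
open scoped Pointwise

/-- positive rationals with numerator `≤ a` and denominator `≤ b` -/
def Box (a b : ℕ) (A : Finset ℚ) : Prop :=
  ∀ r ∈ A, 0 < r ∧ r.num.natAbs ≤ a ∧ r.den ≤ b

lemma num_pos {r : ℚ} (h : 0 < r) : 0 < r.num.natAbs := by
  have := Rat.num_pos.2 h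
  omega

lemma rat_eq {r : ℚ} (h : 0 < r) : r = (r.num.natAbs : ℚ) / (r.den : ℚ) := by
  have h1 := Rat.num_pos.2 h
  have h2 : ((r.num.natAbs : ℕ) : ℤ) = r.num := by omega
  have h3 : (r.num : ℚ) = ((r.num.natAbs : ℕ) : ℚ) := by
    rw [← Int.cast_natCast, h2]
  rw [← h3]
  exact (Rat.num_div_den r).symm

/-- the reduced form of a quotient of coprime positive integers -/
lemma nd_of_coprime {a b : ℕ} (_ : 0 < a) (hb : 0 < b) (h : Nat.Coprime a b) :
    ((a : ℚ) / b).num.natAbs = a ∧ ((a : ℚ) / b).den = b := by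
  have h1 := Rat.num_div_eq_of_coprime (a := (a : ℤ)) (b := (b : ℤ)) (by exact_mod_cast hb)
    (by simpa using h)
  have h2 := Rat.den_div_eq_of_coprime (a := (a : ℤ)) (b := (b : ℤ)) (by exact_mod_cast hb)
    (by simpa using h)
  push_cast at h1 h2
  constructor
  · rw [h1]; simp
  · exact_mod_cast h2

/-- the product of two rationals: numerators and denominators -/
lemma mul_nd {r s : ℚ} (hr : 0 < r) (hs : 0 < s) :
    (r * s).num.natAbs * (Nat.gcd r.num.natAbs s.den * Nat.gcd s.num.natAbs r.den) =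
      r.num.natAbs * s.num.natAbs ∧
    (r * s).den * (Nat.gcd r.num.natAbs s.den * Nat.gcd s.num.natAbs r.den) =
      r.den * s.den := by
  set m1 := r.num.natAbs with hm1
  set n1 := r.den with hn1
  set m2 := s.num.natAbs with hm2
  set n2 := s.den with hn2
  have hm1p : 0 < m1 := num_pos hr
  have hm2p : 0 < m2 := num_pos hs
  have hn1p : 0 < n1 := r.den_pos
  have hn2p : 0 < n2 := s.den_pos
  have c1 : Nat.Coprime m1 n1 := r.reduced
  have c2 : Nat.Coprime m2 n2 := s.reduced
  set g1 := Nat.gcd m1 n2 with hg1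
  set g2 := Nat.gcd m2 n1 with hg2
  have hg1p : 0 < g1 := Nat.gcd_pos_of_pos_left _ hm1p
  have hg2p : 0 < g2 := Nat.gcd_pos_of_pos_left _ hm2p
  obtain ⟨a1, ha1⟩ : g1 ∣ m1 := Nat.gcd_dvd_left _ _
  obtain ⟨b2, hb2⟩ : g1 ∣ n2 := Nat.gcd_dvd_right _ _
  obtain ⟨a2, ha2⟩ : g2 ∣ m2 := Nat.gcd_dvd_left _ _
  obtain ⟨b1, hb1⟩ : g2 ∣ n1 := Nat.gcd_dvd_right _ _
  have ha1p : 0 < a1 := Nat.pos_of_ne_zero (by rintro rfl; simp at ha1; omega)
  have ha2p : 0 < a2 := Nat.pos_of_ne_zero (by rintro rfl; simp at ha2; omega)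
  have hb1p : 0 < b1 := Nat.pos_of_ne_zero (by rintro rfl; simp at hb1; omega)
  have hb2p : 0 < b2 := Nat.pos_of_ne_zero (by rintro rfl; simp at hb2; omega)
  have k1 : Nat.Coprime a1 b1 := (c1.coprime_dvd_left (ha1 ▸ Dvd.intro_left _ rfl)).coprime_dvd_right
    (hb1 ▸ Dvd.intro_left _ rfl)
  have k2 : Nat.Coprime a2 b2 := (c2.coprime_dvd_left (ha2 ▸ Dvd.intro_left _ rfl)).coprime_dvd_right
    (hb2 ▸ Dvd.intro_left _ rfl)
  have k3 : Nat.Coprime a1 b2 := by
    have h := Nat.coprime_div_gcd_div_gcd (m := m1) (n := n2) hg1p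
    have e1 : m1 / Nat.gcd m1 n2 = a1 := by
      rw [← hg1]; exact Nat.div_eq_of_eq_mul_right hg1p ha1
    have e2 : n2 / Nat.gcd m1 n2 = b2 := by
      rw [← hg1]; exact Nat.div_eq_of_eq_mul_right hg1p hb2
    rwa [e1, e2] at h
  have k4 : Nat.Coprime a2 b1 := by
    have h := Nat.coprime_div_gcd_div_gcd (m := m2) (n := n1) hg2p
    have e1 : m2 / Nat.gcd m2 n1 = a2 := by
      rw [← hg2]; exact Nat.div_eq_of_eq_mul_right hg2p ha2
    have e2 : n1 / Nat.gcd m2 n1 = b1 := by
      rw [← hg2]; exact Nat.div_eq_of_eq_mul_right hg2p hb1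
    rwa [e1, e2] at h
  have k : Nat.Coprime (a1 * a2) (b1 * b2) :=
    Nat.Coprime.mul_left (Nat.Coprime.mul_right k1 k3) (Nat.Coprime.mul_right k4 k2)
  have hx : r * s = ((a1 * a2 : ℕ) : ℚ) / ((b1 * b2 : ℕ) : ℚ) := by
    rw [rat_eq hr, rat_eq hs, ← hm1, ← hm2, ← hn1, ← hn2, ha1, ha2, hb1, hb2]
    have := hg1p.ne'; have := hg2p.ne'
    push_cast
    field_simp
  obtain ⟨e1, e2⟩ := nd_of_coprime (Nat.mul_pos ha1p ha2p) (Nat.mul_pos hb1p hb2p) k
  rw [hx, e1, e2]
  constructor
  · conv_rhs => rw [ha1, ha2]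
    ring
  · conv_rhs => rw [hb1, hb2]
    ring

lemma div_nd {r : ℚ} (hr : 0 < r) {g : ℕ} (hg : 0 < g) (h : g ∣ r.num.natAbs) :
    (r / g).num.natAbs = r.num.natAbs / g ∧ (r / g).den = r.den := by
  obtain ⟨a, ha⟩ := h
  have hm := num_pos hr
  have hap : 0 < a := Nat.pos_of_ne_zero (by rintro rfl; rw [mul_zero] at ha; omega)
  have c : Nat.Coprime a r.den := Nat.Coprime.coprime_dvd_left (ha ▸ Dvd.intro_left _ rfl) r.reduced
  have e : r / g = (a : ℚ) / (r.den : ℚ) := by
    conv_lhs => rw [rat_eq hr, ha]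
    have := hg.ne'
    push_cast
    field_simp
  obtain ⟨e1, e2⟩ := nd_of_coprime hap r.den_pos c
  rw [e, e1, e2, ha]
  exact ⟨(Nat.mul_div_cancel_left a hg).symm, rfl⟩

lemma mul_nd' {r : ℚ} (hr : 0 < r) {g : ℕ} (hg : 0 < g) (h : g ∣ r.den) :
    (r * g).num.natAbs = r.num.natAbs ∧ (r * g).den = r.den / g := by
  obtain ⟨a, ha⟩ := h
  have hm := r.den_pos
  have hap : 0 < a := Nat.pos_of_ne_zero (by rintro rfl; simp at ha)
  have c : Nat.Coprime r.num.natAbs a :=
    Nat.Coprime.coprime_dvd_right (ha ▸ Dvd.intro_left _ rfl) r.reduced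
  have e : r * g = (r.num.natAbs : ℚ) / (a : ℚ) := by
    conv_lhs => rw [rat_eq hr, ha]
    have := hg.ne'
    push_cast
    field_simp
  obtain ⟨e1, e2⟩ := nd_of_coprime (num_pos hr) hap c
  rw [e, e1, e2, ha]
  exact ⟨rfl, (Nat.mul_div_cancel_left a hg).symm⟩

/-- a popular value -/
lemma popular (A : Finset ℚ) (τ G m : ℕ) (f : ℚ → ℕ) (hf : ∀ r ∈ A, f r ∣ m) (hm0 : m ≠ 0)
    (hm : m.divisors.card ≤ τ) :
    ∃ g, G ≤ g ∧ g ∣ m ∧ (A.filter (fun r => G ≤ f r)).card ≤
      τ * (A.filter (fun r => G ≤ f r ∧ f r = g)).card ∨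
      (A.filter (fun r => G ≤ f r)) = ∅ := by
  classical
  rcases (A.filter (fun r => G ≤ f r)).eq_empty_or_nonempty with h | h
  · exact ⟨G, Or.inr h⟩
  · obtain ⟨g, hg, hmax⟩ := exists_max_image ((A.filter (fun r => G ≤ f r)).image f)
      (fun g => ((A.filter (fun r => G ≤ f r)).filter (fun r => f r = g)).card) (h.image f)
    obtain ⟨r, hr, rfl⟩ := mem_image.1 hg
    refine ⟨f r, Or.inl ⟨(mem_filter.1 hr).2, hf r (mem_filter.1 hr).1, ?_⟩⟩
    have h1 := card_le_mul_card_image (s := A.filter (fun r => G ≤ f r)) (f := f)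
      _ (fun y hy => hmax y hy)
    rw [filter_filter] at h1
    refine h1.trans ?_
    rw [mul_comm]
    refine Nat.mul_le_mul_right _ (le_trans (card_le_card ?_) hm)
    intro y hy
    obtain ⟨x, hx, rfl⟩ := mem_image.1 hy
    exact Nat.mem_divisors.2 ⟨hf x (mem_filter.1 hx).1, hm0⟩

/-- **the product set of two sets of rationals** -/
theorem prodset (H τ G : ℕ) (hτ1 : 1 ≤ τ)
    (hτ : ∀ n, 1 ≤ n → n ≤ H ^ 2 → n.divisors.card ≤ τ) (hG : 1 ≤ G) (η : ℝ) (hη : 0 < η)
    (hGη : 4 * (τ : ℝ) ≤ (G : ℝ) ^ η) (B : Finset ℚ) (hB : Box H H B) :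
    ∀ n : ℕ, ∀ a b : ℕ, a * b = n → a ≤ H → b ≤ H → ∀ A : Finset ℚ, Box a b A →
      (A.card : ℝ) * B.card ≤ 2 * (G : ℝ) ^ 2 * (τ : ℝ) ^ 2 * (n : ℝ) ^ η * ((A * B).card : ℝ) := by
  classical
  intro n
  induction n using Nat.strong_induction_on with
  | _ n ih =>
  intro a b hab haH hbH A hA
  have hτr : (1 : ℝ) ≤ τ := by exact_mod_cast hτ1
  have hGr : (1 : ℝ) ≤ G := by exact_mod_cast hG
  rcases A.eq_empty_or_nonempty with rfl | ⟨r0, hr0⟩
  · simp
  rcases B.eq_empty_or_nonempty with rfl | ⟨s0, hs0⟩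
  · simp
  have hApos : (0 : ℝ) < A.card := by exact_mod_cast Finset.card_pos.2 ⟨r0, hr0⟩
  have hBpos : (0 : ℝ) < B.card := by exact_mod_cast Finset.card_pos.2 ⟨s0, hs0⟩
  obtain ⟨hr0p, hr0a, hr0b⟩ := hA r0 hr0
  have ha1 : 1 ≤ a := (num_pos hr0p).trans_le hr0a
  have hb1 : 1 ≤ b := r0.den_pos.trans_le hr0b
  have hn1 : 1 ≤ n := by rw [← hab]; exact Nat.mul_pos ha1 hb1
  have hnr : (1 : ℝ) ≤ (n : ℝ) ^ η := Real.one_le_rpow (by exact_mod_cast hn1) hη.le
  set g1 : ℚ × ℚ → ℕ := fun p => Nat.gcd p.1.num.natAbs p.2.den with hg1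
  set g2 : ℚ × ℚ → ℕ := fun p => Nat.gcd p.2.num.natAbs p.1.den with hg2
  set Gd := (A ×ˢ B).filter (fun p => g1 p < G ∧ g2 p < G) with hGd
  set B1 := (A ×ˢ B).filter (fun p => G ≤ g1 p) with hB1
  set B2 := (A ×ˢ B).filter (fun p => G ≤ g2 p) with hB2
  have hcard : (A ×ˢ B).card ≤ Gd.card + B1.card + B2.card := by
    have : A ×ˢ B ⊆ Gd ∪ B1 ∪ B2 := by
      intro p hp
      simp only [hGd, hB1, hB2, mem_union, mem_filter]
      by_cases h1 : g1 p < G
      · by_cases h2 : g2 p < G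
        · exact Or.inl (Or.inl ⟨hp, h1, h2⟩)
        · exact Or.inr ⟨hp, by omega⟩
      · exact Or.inl (Or.inr ⟨hp, by omega⟩)
    exact (card_le_card this).trans ((card_union_le _ _).trans
      (Nat.add_le_add_right (card_union_le _ _) _))
  rw [card_product] at hcard
  -- the good pairs
  have hgood : Gd.card ≤ τ ^ 2 * ((A * B).card * G ^ 2) := by
    have h1 : Gd.card ≤ τ ^ 2 * (Gd.image (fun p => (p.1 * p.2, g1 p * g2 p))).card := by
      apply card_le_mul_card_image
      intro y hy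
      rw [mem_image] at hy
      obtain ⟨p0, hp0, rfl⟩ := hy
      have hp0' := (mem_filter.1 hp0).1
      rw [mem_product] at hp0'
      obtain ⟨hr, hra, hrb⟩ := hA p0.1 hp0'.1
      obtain ⟨hs, hsa, hsb⟩ := hB p0.2 hp0'.2
      obtain ⟨e1, e2⟩ := mul_nd hr hs
      set u := (p0.1 * p0.2).num.natAbs * (g1 p0 * g2 p0) with hu
      set v := (p0.1 * p0.2).den * (g1 p0 * g2 p0) with hv
      have hu1 : 1 ≤ u := by
        rw [e1]; exact Nat.mul_pos (num_pos hr) (num_pos hs)
      have hu2 : u ≤ H ^ 2 := by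
        rw [e1, sq]; exact Nat.mul_le_mul (hra.trans haH) hsa
      have hv1 : 1 ≤ v := by
        rw [e2]; exact Nat.mul_pos p0.1.den_pos p0.2.den_pos
      have hv2 : v ≤ H ^ 2 := by
        rw [e2, sq]; exact Nat.mul_le_mul (hrb.trans hbH) hsb
      have h2 : (Gd.filter (fun p => (p.1 * p.2, g1 p * g2 p) =
          (p0.1 * p0.2, g1 p0 * g2 p0))).card ≤ (u.divisors ×ˢ v.divisors).card := by
        apply card_le_card_of_injOn (fun p => (p.1.num.natAbs, p.1.den))
        · intro p hp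
          rw [mem_coe, mem_filter] at hp
          obtain ⟨hp1, hp2⟩ := hp
          have hp1' := (mem_filter.1 hp1).1
          rw [mem_product] at hp1'
          obtain ⟨hr', -, -⟩ := hA p.1 hp1'.1
          obtain ⟨hs', -, -⟩ := hB p.2 hp1'.2
          obtain ⟨e1', e2'⟩ := mul_nd hr' hs'
          rw [Prod.mk.injEq] at hp2
          rw [mem_coe, mem_product, Nat.mem_divisors, Nat.mem_divisors]
          refine ⟨⟨?_, by omega⟩, ?_, by omega⟩
          · have : u = p.1.num.natAbs * p.2.num.natAbs := by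
              rw [hu, ← hp2.1, ← hp2.2]; exact e1'
            rw [this]; exact Dvd.intro _ rfl
          · have : v = p.1.den * p.2.den := by
              rw [hv, ← hp2.1, ← hp2.2]; exact e2'
            rw [this]; exact Dvd.intro _ rfl
        · intro p hp p' hp' hpp
          rw [mem_coe, mem_filter] at hp hp'
          obtain ⟨hp1, hp2⟩ := hp
          obtain ⟨hp1', hp2'⟩ := hp'
          have k1 := mem_product.1 (mem_filter.1 hp1).1
          have k2 := mem_product.1 (mem_filter.1 hp1').1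
          have r1 := (hA p.1 k1.1).1
          have r2 := (hA p'.1 k2.1).1
          simp only [Prod.mk.injEq] at hpp hp2 hp2'
          have e3 : p.1 = p'.1 := by
            rw [rat_eq r1, rat_eq r2, hpp.1, hpp.2]
          have e4 : p.2 = p'.2 := by
            have h5 : p.1 * p.2 = p.1 * p'.2 := by
              rw [hp2.1, e3, hp2'.1]
            exact mul_left_cancel₀ r1.ne' h5
          exact Prod.ext e3 e4
      refine h2.trans ?_
      rw [card_product, sq]
      exact Nat.mul_le_mul (hτ u hu1 hu2) (hτ v hv1 hv2)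
    refine h1.trans (Nat.mul_le_mul_left _ ?_)
    calc (Gd.image (fun p => (p.1 * p.2, g1 p * g2 p))).card
        ≤ ((A * B) ×ˢ range (G ^ 2)).card := by
          apply card_le_card
          intro y hy
          rw [mem_image] at hy
          obtain ⟨p, hp, rfl⟩ := hy
          obtain ⟨hp1, hp2, hp3⟩ := mem_filter.1 hp
          rw [mem_product] at hp1 ⊢
          refine ⟨mul_mem_mul hp1.1 hp1.2, ?_⟩
          rw [mem_range, sq]
          show g1 p * g2 p < G * G
          exact Nat.mul_lt_mul'' hp2 hp3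
      _ = (A * B).card * G ^ 2 := by rw [card_product, card_range]
  have hABpos : (0 : ℝ) ≤ ((A * B).card : ℝ) := Nat.cast_nonneg _
  by_cases hcase : (A.card : ℝ) * B.card ≤ 2 * (Gd.card : ℝ)
  · have h2 : (Gd.card : ℝ) ≤ (τ : ℝ) ^ 2 * (((A * B).card : ℝ) * (G : ℝ) ^ 2) := by
      exact_mod_cast hgood
    calc (A.card : ℝ) * B.card ≤ 2 * ((τ : ℝ) ^ 2 * (((A * B).card : ℝ) * (G : ℝ) ^ 2)) := by
          linarith
      _ = 2 * (G : ℝ) ^ 2 * (τ : ℝ) ^ 2 * 1 * ((A * B).card : ℝ) := by ring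
      _ ≤ 2 * (G : ℝ) ^ 2 * (τ : ℝ) ^ 2 * (n : ℝ) ^ η * ((A * B).card : ℝ) := by gcongr
  · push Not at hcase
    have hcard' : (A.card : ℝ) * B.card ≤ Gd.card + B1.card + B2.card := by exact_mod_cast hcard
    have hbad : (A.card : ℝ) * B.card ≤ 4 * B1.card ∨ (A.card : ℝ) * B.card ≤ 4 * B2.card := by
      by_contra h
      push Not at h
      linarith [h.1, h.2]
    -- the reduction step, from a popular divisor `g` and a scaling `σ`
    have red : ∀ (A' : Finset ℚ) (c : ℚ) (g a' b' : ℕ), c ≠ 0 → A' ⊆ A → G ≤ g →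
        a' * b' * g ≤ n → a' ≤ H → b' ≤ H → Box a' b' (A'.image (fun r => r * c)) →
        (A.card : ℝ) ≤ 4 * τ * A'.card →
        (A.card : ℝ) * B.card ≤
          2 * (G : ℝ) ^ 2 * (τ : ℝ) ^ 2 * (n : ℝ) ^ η * ((A * B).card : ℝ) := by
      intro A' c g a' b' hc hA'A hGg hn' ha' hb' hbox hA'
      have hτ4 : (4 : ℝ) ≤ (G : ℝ) ^ η := by
        nlinarith
      have hG2 : 2 ≤ G := by
        by_contra hlt
        have : G = 1 := by omega
        rw [this] at hτ4
        norm_num at hτ4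
      have hlt : a' * b' < n := by
        rcases Nat.eq_zero_or_pos (a' * b') with h0 | h0
        · omega
        · have : a' * b' * 2 ≤ n := le_trans (Nat.mul_le_mul_left _ (hG2.trans hGg)) hn'
          omega
      have hinj : Function.Injective (fun r : ℚ => r * c) := fun x y h => mul_right_cancel₀ hc h
      have h1 := ih (a' * b') hlt a' b' rfl ha' hb' _ hbox
      rw [card_image_of_injective _ hinj] at h1
      have h2 : ((A'.image (fun r => r * c)) * B).card ≤ (A * B).card := by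
        have : (A'.image (fun r => r * c)) * B = (A' * B).image (fun r => r * c) := by
          ext x
          simp only [mem_mul, mem_image]
          constructor
          · rintro ⟨y, ⟨z, hz, rfl⟩, w, hw, rfl⟩
            exact ⟨z * w, ⟨z, hz, w, hw, rfl⟩, by ring⟩
          · rintro ⟨y, ⟨z, hz, w, hw, rfl⟩, rfl⟩
            exact ⟨z * c, ⟨z, hz, rfl⟩, w, hw, by ring⟩
        rw [this]
        exact card_image_le.trans (card_le_card (mul_subset_mul_right hA'A))
      have h2' : (((A'.image (fun r => r * c)) * B).card : ℝ) ≤ ((A * B).card : ℝ) := by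
        exact_mod_cast h2
      have hgr : (0 : ℝ) < g := by exact_mod_cast (by omega : 0 < g)
      have h3 : (((a' * b' : ℕ)) : ℝ) ^ η * (4 * τ) ≤ (n : ℝ) ^ η := by
        calc (((a' * b' : ℕ)) : ℝ) ^ η * (4 * τ) ≤ (((a' * b' : ℕ)) : ℝ) ^ η * (g : ℝ) ^ η := by
              gcongr
              refine hGη.trans ?_
              exact Real.rpow_le_rpow (by positivity) (by exact_mod_cast hGg) hη.le
          _ = ((((a' * b' : ℕ)) : ℝ) * g) ^ η := by
              rw [Real.mul_rpow (by positivity) (by positivity)]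
          _ ≤ (n : ℝ) ^ η := by
              apply Real.rpow_le_rpow (by positivity) _ hη.le
              exact_mod_cast hn'
      calc (A.card : ℝ) * B.card ≤ (4 * τ * A'.card) * B.card := by gcongr
        _ = 4 * τ * (A'.card * B.card) := by ring
        _ ≤ 4 * τ * (2 * (G : ℝ) ^ 2 * (τ : ℝ) ^ 2 * (((a' * b' : ℕ)) : ℝ) ^ η *
              ((A * B).card : ℝ)) := by
            refine mul_le_mul_of_nonneg_left (h1.trans ?_) (by positivity)
            gcongr
        _ = 2 * (G : ℝ) ^ 2 * (τ : ℝ) ^ 2 * ((((a' * b' : ℕ)) : ℝ) ^ η * (4 * τ)) *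
              ((A * B).card : ℝ) := by ring
        _ ≤ _ := by gcongr
    rcases hbad with hbad | hbad
    · -- large gcd of the numerator of `r` and the denominator of `s`
      have hsum : B1.card = ∑ s ∈ B, (A.filter (fun r => G ≤ g1 (r, s))).card := by
        rw [hB1, card_filter, sum_product_right]
        exact sum_congr rfl fun s _ => (card_filter _ _).symm
      obtain ⟨s, hs, hle⟩ : ∃ s ∈ B, (A.card : ℝ) ≤
          4 * ((A.filter (fun r => G ≤ g1 (r, s))).card : ℝ) := by
        by_contra hno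
        push Not at hno
        have h5 : 4 * (B1.card : ℝ) < A.card * B.card := by
          rw [hsum]
          push_cast
          rw [mul_sum]
          calc ∑ s ∈ B, 4 * ((A.filter (fun r => G ≤ g1 (r, s))).card : ℝ) <
              ∑ _s ∈ B, (A.card : ℝ) := sum_lt_sum_of_nonempty ⟨s0, hs0⟩ hno
            _ = A.card * B.card := by rw [sum_const, nsmul_eq_mul, mul_comm]
        linarith
      obtain ⟨hsp, hsa, hsb⟩ := hB s hs
      have hsd : s.den ≤ H ^ 2 := by
        have : 1 ≤ H := s.den_pos.trans_le hsb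
        nlinarith
      obtain ⟨g, hg⟩ := popular A τ G s.den (fun r => g1 (r, s))
        (fun r _ => Nat.gcd_dvd_right _ _) s.den_nz (hτ _ s.den_pos hsd)
      rcases hg with ⟨hGg, hgd, hc⟩ | hg
      · have hg0 : 0 < g := by omega
        refine red (A.filter (fun r => G ≤ g1 (r, s) ∧ g1 (r, s) = g)) (1 / g) g (a / g) b
          (by positivity) (filter_subset _ _) hGg ?_ ((Nat.div_le_self _ _).trans haH) hbH ?_ ?_
        · rw [← hab]
          calc a / g * b * g = (a / g * g) * b := by ring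
            _ ≤ a * b := Nat.mul_le_mul_right _ (Nat.div_mul_le_self _ _)
        · intro x hx
          obtain ⟨r, hr, rfl⟩ := mem_image.1 hx
          obtain ⟨hr1, hr2, hr3⟩ := mem_filter.1 hr
          obtain ⟨hrp, hra, hrb⟩ := hA r hr1
          have hdv : g ∣ r.num.natAbs := by
            rw [← hr3]; exact Nat.gcd_dvd_left _ _
          obtain ⟨e1, e2⟩ := div_nd hrp hg0 hdv
          have e3 : r * (1 / (g : ℚ)) = r / g := by ring
          simp only [e3]
          refine ⟨by positivity, ?_, ?_⟩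
          · rw [e1]; exact Nat.div_le_div_right hra
          · rw [e2]; exact hrb
        · have hc' : ((A.filter (fun r => G ≤ g1 (r, s))).card : ℝ) ≤
              τ * ((A.filter (fun r => G ≤ g1 (r, s) ∧ g1 (r, s) = g)).card : ℝ) := by
            exact_mod_cast hc
          linarith
      · exfalso
        rw [hg] at hle
        simp at hle
        rw [hle] at hr0
        simp at hr0
    · have hsum : B2.card = ∑ s ∈ B, (A.filter (fun r => G ≤ g2 (r, s))).card := by
        rw [hB2, card_filter, sum_product_right]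
        exact sum_congr rfl fun s _ => (card_filter _ _).symm
      obtain ⟨s, hs, hle⟩ : ∃ s ∈ B, (A.card : ℝ) ≤
          4 * ((A.filter (fun r => G ≤ g2 (r, s))).card : ℝ) := by
        by_contra hno
        push Not at hno
        have h5 : 4 * (B2.card : ℝ) < A.card * B.card := by
          rw [hsum]
          push_cast
          rw [mul_sum]
          calc ∑ s ∈ B, 4 * ((A.filter (fun r => G ≤ g2 (r, s))).card : ℝ) <
              ∑ _s ∈ B, (A.card : ℝ) := sum_lt_sum_of_nonempty ⟨s0, hs0⟩ hno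
            _ = A.card * B.card := by rw [sum_const, nsmul_eq_mul, mul_comm]
        linarith
      obtain ⟨hsp, hsa, hsb⟩ := hB s hs
      have hsd : s.num.natAbs ≤ H ^ 2 := by
        have : 1 ≤ H := s.den_pos.trans_le hsb
        nlinarith
      obtain ⟨g, hg⟩ := popular A τ G s.num.natAbs (fun r => g2 (r, s))
        (fun r _ => Nat.gcd_dvd_left _ _) (num_pos hsp).ne' (hτ _ (num_pos hsp) hsd)
      rcases hg with ⟨hGg, hgd, hc⟩ | hg
      · have hg0 : 0 < g := by omega
        refine red (A.filter (fun r => G ≤ g2 (r, s) ∧ g2 (r, s) = g)) g g a (b / g)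
          (by positivity) (filter_subset _ _) hGg ?_ haH ((Nat.div_le_self _ _).trans hbH) ?_ ?_
        · rw [← hab]
          calc a * (b / g) * g = a * (b / g * g) := by ring
            _ ≤ a * b := Nat.mul_le_mul_left _ (Nat.div_mul_le_self _ _)
        · intro x hx
          obtain ⟨r, hr, rfl⟩ := mem_image.1 hx
          obtain ⟨hr1, hr2, hr3⟩ := mem_filter.1 hr
          obtain ⟨hrp, hra, hrb⟩ := hA r hr1
          have hdv : g ∣ r.den := by
            rw [← hr3]; exact Nat.gcd_dvd_right _ _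
          obtain ⟨e1, e2⟩ := mul_nd' hrp hg0 hdv
          refine ⟨by positivity, ?_, ?_⟩
          · simp only [e1]; exact hra
          · simp only [e2]; exact Nat.div_le_div_right hrb
        · have hc' : ((A.filter (fun r => G ≤ g2 (r, s))).card : ℝ) ≤
              τ * ((A.filter (fun r => G ≤ g2 (r, s) ∧ g2 (r, s) = g)).card : ℝ) := by
            exact_mod_cast hc
          linarith
      · exfalso
        rw [hg] at hle
        simp at hle
        rw [hle] at hr0
        simp at hr0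

end Pool.Agent.Y766.PS
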