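import Pool.Agent.Y766.PS
import Pool.Agent.H505R2.DivB

/-!
Product sets of Farey fractions: clean forms.
-/

set_option autoImplicit false

namespace Pool.Agent.Y766

open Finset Pool.Agent.Y766.PS
open scoped Pointwise

lemma box_mono {a b a' b' : ℕ} {A : Finset ℚ} (h : Box a b A) (ha : a ≤ a') (hb : b ≤ b') :
    Box a' b' A := fun r hr => ⟨(h r hr).1, (h r hr).2.1.trans ha, (h r hr).2.2.trans hb⟩

lemma box_mul {a b c d : ℕ} {A B : Finset ℚ} (hA : Box a b A) (hB : Box c d B) :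
    Box (a * c) (b * d) (A * B) := by
  intro x hx
  obtain ⟨r, hr, s, hs, rfl⟩ := mem_mul.1 hx
  obtain ⟨r0, r1, r2⟩ := hA r hr
  obtain ⟨s0, s1, s2⟩ := hB s hs
  obtain ⟨e1, e2⟩ := mul_nd r0 s0
  have hg : 0 < Nat.gcd r.num.natAbs s.den * Nat.gcd s.num.natAbs r.den :=
    Nat.mul_pos (Nat.gcd_pos_of_pos_left _ (num_pos r0)) (Nat.gcd_pos_of_pos_left _ (num_pos s0))
  refine ⟨mul_pos r0 s0, ?_, ?_⟩
  · calc (r * s).num.natAbs ≤ (r * s).num.natAbs *
          (Nat.gcd r.num.natAbs s.den * Nat.gcd s.num.natAbs r.den) := Nat.le_mul_of_pos_right _ hg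
      _ = r.num.natAbs * s.num.natAbs := e1
      _ ≤ a * c := Nat.mul_le_mul r1 s1
  · calc (r * s).den ≤ (r * s).den *
          (Nat.gcd r.num.natAbs s.den * Nat.gcd s.num.natAbs r.den) := Nat.le_mul_of_pos_right _ hg
      _ = r.den * s.den := e2
      _ ≤ b * d := Nat.mul_le_mul r2 s2

lemma box_pow {h : ℕ} {A : Finset ℚ} (hA : Box h h A) (n : ℕ) : Box (h ^ n) (h ^ n) (A ^ n) := by
  induction n with
  | zero =>
    intro r hr
    rw [pow_zero] at hr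
    rw [Finset.mem_one] at hr
    subst hr
    simp
  | succ n ih =>
    rw [pow_succ, pow_succ]
    exact box_mul ih hA

theorem prodset' {ε : ℝ} (hε : 0 < ε) : ∃ C : ℝ, 1 ≤ C ∧ ∀ H : ℕ, 1 ≤ H → ∀ A B : Finset ℚ,
    Box H H A → Box H H B →
    (A.card : ℝ) * B.card ≤ C * (H : ℝ) ^ ε * ((A * B).card : ℝ) := by
  set η : ℝ := ε / 8 with hη
  have hη0 : 0 < η := by positivity
  set δ : ℝ := ε / (8 * (1 / η + 1)) with hδ
  have hδ0 : 0 < δ := by positivity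
  obtain ⟨D, hD1, hD⟩ := Pool.Agent.H505R2.div_bound hδ0
  refine ⟨2 * (4 * (8 * D) ^ (2 / η + 2)), ?_, ?_⟩
  · have h1 : 1 ≤ (8 * D) ^ (2 / η + 2) := Real.one_le_rpow (by linarith) (by positivity)
    linarith
  intro H hH A B hA hB
  have hH1 : (1 : ℝ) ≤ H := by exact_mod_cast hH
  have hH0 : (0 : ℝ) < H := by linarith
  set T : ℝ := D * (H : ℝ) ^ (2 * δ) with hT
  have hT1 : 1 ≤ T := by
    have : 1 ≤ (H : ℝ) ^ (2 * δ) := Real.one_le_rpow hH1 (by positivity)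
    nlinarith
  set τ : ℕ := ⌈T⌉₊ with hτ
  have hτT : T ≤ τ := Nat.le_ceil T
  have hτ1 : 1 ≤ τ := Nat.one_le_ceil_iff.2 (by linarith)
  have hτ2 : (τ : ℝ) ≤ 2 * T := by
    have := Nat.ceil_lt_add_one (show 0 ≤ T by linarith)
    rw [← hτ] at this
    linarith
  have hτd : ∀ n, 1 ≤ n → n ≤ H ^ 2 → n.divisors.card ≤ τ := by
    intro n hn1 hn2
    have h1 := hD n (by omega)
    have h2 : (n : ℝ) ^ δ ≤ (H : ℝ) ^ (2 * δ) := by
      have h3 : (n : ℝ) ≤ (H : ℝ) ^ (2 : ℝ) := by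
        have : (n : ℝ) ≤ (H : ℝ) ^ 2 := by exact_mod_cast hn2
        rwa [← Real.rpow_natCast, Nat.cast_ofNat] at this
      rw [Real.rpow_mul hH0.le]
      exact Real.rpow_le_rpow (Nat.cast_nonneg _) h3 hδ0.le
    have h4 : (n.divisors.card : ℝ) ≤ T := h1.trans (by rw [hT]; gcongr)
    exact_mod_cast h4.trans hτT
  set Gr : ℝ := (4 * (τ : ℝ)) ^ (1 / η) with hGr
  have hτ1' : (1 : ℝ) ≤ τ := by exact_mod_cast hτ1
  have hGr1 : 1 ≤ Gr := Real.one_le_rpow (by linarith) (by positivity)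
  set G : ℕ := ⌈Gr⌉₊ with hG
  have hG1 : 1 ≤ G := Nat.one_le_ceil_iff.2 (by linarith)
  have hGle : Gr ≤ G := Nat.le_ceil Gr
  have hG2 : (G : ℝ) ≤ 2 * Gr := by
    have := Nat.ceil_lt_add_one (show 0 ≤ Gr by linarith)
    rw [← hG] at this
    linarith
  have hGη : 4 * (τ : ℝ) ≤ (G : ℝ) ^ η := by
    calc 4 * (τ : ℝ) = Gr ^ η := by
          rw [hGr, ← Real.rpow_mul (by positivity), one_div, inv_mul_cancel₀ hη0.ne', Real.rpow_one]
      _ ≤ _ := Real.rpow_le_rpow (by linarith) hGle hη0.le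
  have key := prodset H τ G hτ1 hτd hG1 η hη0 hGη B hB (H * H) H H rfl le_rfl le_rfl A hA
  refine key.trans ?_
  have e1 : (((H * H : ℕ) : ℝ)) ^ η = (H : ℝ) ^ (ε / 4) := by
    push_cast
    rw [← pow_two, ← Real.rpow_natCast, ← Real.rpow_mul hH0.le]
    congr 1
    rw [hη]; push_cast; ring
  have e2 : (G : ℝ) ^ 2 * (τ : ℝ) ^ 2 ≤ 4 * (8 * D) ^ (2 / η + 2) * (H : ℝ) ^ (ε / 2) := by
    calc (G : ℝ) ^ 2 * (τ : ℝ) ^ 2 ≤ (2 * Gr) ^ 2 * (4 * (τ : ℝ)) ^ 2 := by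
          gcongr
          linarith
      _ = 4 * (Gr ^ (2 : ℕ) * (4 * (τ : ℝ)) ^ (2 : ℕ)) := by ring
      _ = 4 * (4 * (τ : ℝ)) ^ (2 / η + 2) := by
          rw [hGr, ← Real.rpow_natCast, ← Real.rpow_mul (by positivity), ← Real.rpow_natCast,
            ← Real.rpow_add (by positivity)]
          congr 2
          push_cast; ring
      _ ≤ 4 * (8 * T) ^ (2 / η + 2) := by
          have := Real.rpow_le_rpow (by positivity) (show 4 * (τ : ℝ) ≤ 8 * T by linarith)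
            (show 0 ≤ 2 / η + 2 by positivity)
          linarith
      _ = 4 * (8 * D) ^ (2 / η + 2) * (H : ℝ) ^ (ε / 2) := by
          have e : 2 * δ * (2 / η + 2) = ε / 2 := by
            rw [hδ]
            field_simp
            ring
          rw [hT, ← mul_assoc 8, Real.mul_rpow (by positivity) (by positivity),
            ← Real.rpow_mul hH0.le, e, mul_assoc]
  have e3 : (H : ℝ) ^ (ε / 2) * (H : ℝ) ^ (ε / 4) ≤ (H : ℝ) ^ ε := by
    rw [← Real.rpow_add hH0]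
    exact Real.rpow_le_rpow_of_exponent_le hH1 (by linarith)
  rw [e1]
  calc 2 * (G : ℝ) ^ 2 * (τ : ℝ) ^ 2 * (H : ℝ) ^ (ε / 4) * ((A * B).card : ℝ)
      = 2 * ((G : ℝ) ^ 2 * (τ : ℝ) ^ 2) * (H : ℝ) ^ (ε / 4) * ((A * B).card : ℝ) := by ring
    _ ≤ 2 * (4 * (8 * D) ^ (2 / η + 2) * (H : ℝ) ^ (ε / 2)) * (H : ℝ) ^ (ε / 4) *
        ((A * B).card : ℝ) := by gcongr
    _ = 2 * (4 * (8 * D) ^ (2 / η + 2)) * ((H : ℝ) ^ (ε / 2) * (H : ℝ) ^ (ε / 4)) *
        ((A * B).card : ℝ) := by ring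
    _ ≤ 2 * (4 * (8 * D) ^ (2 / η + 2)) * (H : ℝ) ^ ε * ((A * B).card : ℝ) := by gcongr

theorem prodset_pow {ε : ℝ} (hε : 0 < ε) (n : ℕ) (hn : 1 ≤ n) : ∃ C : ℝ, 1 ≤ C ∧ ∀ H : ℕ, 1 ≤ H →
    ∀ A : Finset ℚ, Box H H A → (A.card : ℝ) ^ n ≤ C * (H : ℝ) ^ ε * ((A ^ n).card : ℝ) := by
  set ε' : ℝ := ε / n ^ 2 with hε'
  have hn0 : (0 : ℝ) < n := by exact_mod_cast hn
  have hε0 : 0 < ε' := by positivity
  obtain ⟨C, hC1, hC⟩ := prodset' hε0
  have main : ∀ m : ℕ, m ≤ n → 1 ≤ m → ∀ H : ℕ, 1 ≤ H → ∀ A : Finset ℚ, Box H H A →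
      (A.card : ℝ) ^ m ≤ C ^ m * (H : ℝ) ^ (m * n * ε') * ((A ^ m).card : ℝ) := by
    intro m
    induction m with
    | zero => intro _ h; omega
    | succ m ih =>
      intro hm _ H hH A hA
      have hH1 : (1 : ℝ) ≤ H := by exact_mod_cast hH
      have hH0 : (0 : ℝ) < H := by linarith
      rcases Nat.eq_zero_or_pos m with h0 | h0
      · subst h0
        have h1 : 1 ≤ (H : ℝ) ^ (((0 + 1 : ℕ) : ℝ) * n * ε') := Real.one_le_rpow hH1 (by positivity)
        have h2 : 1 ≤ C ^ (0 + 1) * (H : ℝ) ^ (((0 + 1 : ℕ) : ℝ) * n * ε') := by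
          rw [zero_add, pow_one]
          nlinarith
        rw [zero_add, pow_one, pow_one]
        rw [zero_add, pow_one] at h2
        rw [pow_one]
        exact le_mul_of_one_le_left (Nat.cast_nonneg _) h2
      · have h1 := ih (by omega) h0 H hH A hA
        have hHm : 1 ≤ H ^ m := Nat.one_le_pow _ _ hH
        have hHle : H ≤ H ^ m := Nat.le_self_pow h0.ne' H
        have h2 := hC (H ^ m) hHm (A ^ m) A (box_pow hA m) (box_mono hA hHle hHle)
        rw [← pow_succ] at h2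
        have e1 : (((H ^ m : ℕ) : ℝ)) ^ ε' ≤ (H : ℝ) ^ (n * ε') := by
          push_cast
          rw [← Real.rpow_natCast, ← Real.rpow_mul hH0.le]
          apply Real.rpow_le_rpow_of_exponent_le hH1
          have : (m : ℝ) ≤ n := by exact_mod_cast (by omega : m ≤ n)
          gcongr
        calc (A.card : ℝ) ^ (m + 1) = (A.card : ℝ) ^ m * A.card := pow_succ _ _
          _ ≤ (C ^ m * (H : ℝ) ^ (m * n * ε') * ((A ^ m).card : ℝ)) * A.card := by gcongr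
          _ = C ^ m * (H : ℝ) ^ (m * n * ε') * (((A ^ m).card : ℝ) * A.card) := by ring
          _ ≤ C ^ m * (H : ℝ) ^ (m * n * ε') * (C * (H : ℝ) ^ (n * ε') *
              ((A ^ (m + 1)).card : ℝ)) := by
              refine mul_le_mul_of_nonneg_left (h2.trans ?_) (by positivity)
              gcongr
          _ = C ^ (m + 1) * ((H : ℝ) ^ (m * n * ε') * (H : ℝ) ^ (n * ε')) *
              ((A ^ (m + 1)).card : ℝ) := by ring
          _ = _ := by
              rw [← Real.rpow_add hH0]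
              congr 3
              push_cast; ring
  refine ⟨C ^ n, one_le_pow₀ hC1, fun H hH A hA => ?_⟩
  have h := main n le_rfl hn H hH A hA
  have e : (n : ℝ) * n * ε' = ε := by rw [hε']; field_simp
  rwa [e] at h

end Pool.Agent.Y766
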