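import Pool.Agent.Y766.ZD

/-!
Zero density for coset progressions of Dirichlet characters.
-/

set_option autoImplicit false

namespace Pool.Agent.Y766

open Finset

/-- `F` is a proper coset progression of rank `k` -/
def CosetProg {d : ℕ} (k : ℕ) (F : Finset (DirichletCharacter ℂ d)) : Prop :=
  ∃ (H : Subgroup (DirichletCharacter ℂ d)) (χ : Fin k → DirichletCharacter ℂ d) (J : Fin k → ℕ),
    (∀ θ : DirichletCharacter ℂ d, θ ∈ F ↔
      ∃ η ∈ H, ∃ j : Fin k → ℕ, (∀ i, j i < J i) ∧ θ = η * ∏ i, χ i ^ j i) ∧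
    F.card = Nat.card H * ∏ i, J i

lemma cp_struct {d k : ℕ} [NeZero d] {F : Finset (DirichletCharacter ℂ d)} (hF : CosetProg k F) :
    ∃ (H : Subgroup (DirichletCharacter ℂ d)) (_ : Fintype H) (χ : Fin k → DirichletCharacter ℂ d)
      (J : Fin k → ℕ), Proper H χ J ∧ (F.card : ℝ) = Fintype.card H * ∏ i, (J i : ℝ) ∧
      ∀ f : DirichletCharacter ℂ d → ℝ, ∑ θ ∈ F, f θ =
        ∑ x : H, ∑ j ∈ Fintype.piFinset (fun i => range (J i)), f (mem χ x j) := by
  classical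
  obtain ⟨H, χ, J, hF, hcard⟩ := hF
  have : Fintype H := Fintype.ofFinite _
  rw [Nat.card_eq_fintype_card] at hcard
  set P : Finset (H × (Fin k → ℕ)) := univ ×ˢ Fintype.piFinset (fun s => range (J s)) with hPd
  have hPc : P.card = Fintype.card H * ∏ i, J i := by
    rw [hPd, card_product, card_univ, Fintype.card_piFinset]; simp
  have himg : F = P.image (fun p : H × (Fin k → ℕ) => mem χ p.1 p.2) := by
    ext θ
    rw [hF, mem_image]
    constructor
    · rintro ⟨η, hη, j, hj, rfl⟩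
      refine ⟨(⟨η, hη⟩, j), ?_, rfl⟩
      rw [hPd, mem_product, Fintype.mem_piFinset]
      exact ⟨mem_univ _, fun i => mem_range.2 (hj i)⟩
    · rintro ⟨⟨η, j⟩, hp, rfl⟩
      rw [hPd, mem_product, Fintype.mem_piFinset] at hp
      exact ⟨η, η.2, j, fun i => mem_range.1 (hp.2 i), rfl⟩
  have hinj : Set.InjOn (fun p : H × (Fin k → ℕ) => mem χ p.1 p.2) P := by
    rw [← card_image_iff, ← himg, hPc, hcard]
  refine ⟨H, this, χ, J, ?_, ?_, ?_⟩
  · intro a ha b hb i hi j hj hab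
    have h1 : ((⟨a, ha⟩ : H), i) ∈ (P : Set (H × (Fin k → ℕ))) := by
      rw [mem_coe, hPd, mem_product]; exact ⟨mem_univ _, hi⟩
    have h2 : ((⟨b, hb⟩ : H), j) ∈ (P : Set (H × (Fin k → ℕ))) := by
      rw [mem_coe, hPd, mem_product]; exact ⟨mem_univ _, hj⟩
    have h3 := hinj h1 h2 hab
    simp only [Prod.mk.injEq, Subtype.mk.injEq] at h3
    exact h3
  · rw [hcard]; push_cast; rfl
  · intro f
    rw [himg, sum_image hinj, hPd, sum_product]

/-- Dirichlet polynomials over a coset progression -/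
lemma cp_poly {ε : ℝ} (hε : 0 < ε) (k : ℕ) : ∃ C : ℝ, 1 ≤ C ∧
    ∀ (d : ℕ) [NeZero d] (F : Finset (DirichletCharacter ℂ d)), CosetProg k F →
    (d : ℝ) ^ (2 / 3 : ℝ) ≤ F.card → (F.card : ℝ) ≤ d ∧
    ∀ (b : ℕ → ℂ), (∀ n ∈ Icc 1 F.card, ‖b n‖ ≤ (n : ℝ) ^ (-(1 / 2) : ℝ)) →
    ∑ θ ∈ F, ‖∑ n ∈ Icc 1 F.card, b n * θ (n : ZMod d)‖ ^ 2 ≤ C * (d : ℝ) ^ ε * F.card := by
  obtain ⟨C, hC, h⟩ := dp_char hε k
  refine ⟨C, hC, ?_⟩
  intro d _ F hF hd
  obtain ⟨H, hH, χ, J, hP, hcard, hsum⟩ := cp_struct hF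
  have hd1 : (1 : ℝ) ≤ d := by exact_mod_cast NeZero.one_le (n := d)
  have hF1 : (1 : ℝ) ≤ F.card := (Real.one_le_rpow hd1 (by norm_num)).trans hd
  have hJ : ∀ i, 1 ≤ J i := by
    intro i
    by_contra hi
    have h0 : J i = 0 := by omega
    have h2 : ∏ i, (J i : ℝ) = 0 := prod_eq_zero (mem_univ i) (by rw [h0]; simp)
    rw [hcard, h2, mul_zero] at hF1
    linarith
  refine ⟨by rw [hcard]; exact prog_card_le H χ J hP, ?_⟩
  intro b hb
  rw [hsum]
  have key := h d H χ J hP hJ (by rw [← hcard]; exact hd) F.card 1 le_rfl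
    (by rw [← hcard, mul_one]) b hb
  rw [← hcard] at key
  refine key.trans (le_of_eq ?_)
  rw [mul_one, mul_one]

open Classical in
theorem zd_coset (k : ℕ) {ε : ℝ} (hε : 0 < ε) : ∃ (C : ℝ) (A : ℕ), 0 < C ∧
    ∀ (q d : ℕ) [NeZero q] [NeZero d], 1 < q → ∀ (hd : d ∣ q)
    (F : Finset (DirichletCharacter ℂ d)), CosetProg k F →
    (d : ℝ) ^ (2 / 3 : ℝ) ≤ F.card → (q : ℝ) ^ (1 / 2 : ℝ) ≤ F.card →
    ∀ (ψ : DirichletCharacter ℂ q) (σ T : ℝ), 1 / 2 ≤ σ → σ ≤ 1 → 0 ≤ T →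
    ((F.filter (fun θ => (ψ * DirichletCharacter.changeLevel hd θ).IsPrimitive ∧
      ∃ ρ : ℂ, (ψ * DirichletCharacter.changeLevel hd θ).LFunction ρ = 0 ∧ σ ≤ ρ.re ∧
        |ρ.im| ≤ T)).card : ℝ) ≤ C * (1 + T) ^ A * (q : ℝ) ^ ε * (F.card : ℝ) ^ (3 / 2 - σ) := by
  -- parameters
  obtain ⟨δ, hδ⟩ : ∃ δ : ℝ, δ = min ε 1 / 4 := ⟨_, rfl⟩
  have hδ0 : 0 < δ := by rw [hδ]; positivity
  have hδε : 4 * δ ≤ ε := by rw [hδ]; linarith [min_le_left ε 1]
  have hδ1 : δ ≤ 1 / 4 := by rw [hδ]; linarith [min_le_right ε 1]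
  obtain ⟨C1, A, hC1, h1⟩ := coset_final k hδ0
  obtain ⟨C2, hC2, h2⟩ := cp_poly hδ0 k
  obtain ⟨c, hc, h3⟩ := mol_inv
  obtain ⟨κ, hκ⟩ : ∃ κ : ℝ, κ = 1 / 2 + 2 / δ := ⟨_, rfl⟩
  have hκ8 : 8 ≤ κ := by
    rw [hκ]
    have : 8 ≤ 2 / δ := by rw [le_div_iff₀ hδ0]; linarith
    linarith
  obtain ⟨C3, hC3, h4⟩ := interp_sum A κ (by linarith)
  obtain ⟨Q, hQ⟩ : ∃ Q : ℝ, Q = C1 + C2 + 1 := ⟨_, rfl⟩
  have hQ1 : 1 ≤ Q := by rw [hQ]; linarith
  refine ⟨(4 / δ + 1) * (8 / δ + 2) * (2 * (C3 * 2 ^ A * (Q * c))) + 1, A + 1, by positivity, ?_⟩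
  intro q d _ _ hq hd F hF hdF hqF ψ σ T hσ hσ1 hT
  have hq1 : (1 : ℝ) ≤ q := by exact_mod_cast hq.le
  have hq0 : (0 : ℝ) < q := by linarith
  obtain ⟨hFd, hpoly⟩ := h2 d F hF hdF
  have hdq : (d : ℝ) ≤ q := by exact_mod_cast Nat.le_of_dvd (by omega) hd
  have hF1 : (1 : ℝ) ≤ F.card := (Real.one_le_rpow hq1 (by norm_num)).trans hqF
  have hF1' : 1 ≤ F.card := by exact_mod_cast hF1
  have hF0 : (0 : ℝ) < F.card := by linarith
  set X : ℝ := (F.card : ℝ) with hX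
  have hXq : X ≤ q := hFd.trans hdq
  set Z := F.filter (fun θ => (ψ * DirichletCharacter.changeLevel hd θ).IsPrimitive ∧
      ∃ ρ : ℂ, (ψ * DirichletCharacter.changeLevel hd θ).LFunction ρ = 0 ∧ σ ≤ ρ.re ∧
        |ρ.im| ≤ T) with hZ
  have hT1 : (1 : ℝ) ≤ (1 + T) ^ (A + 1) := one_le_pow₀ (by linarith)
  have hZF : (Z.card : ℝ) ≤ X := by
    rw [hX]
    exact_mod_cast card_le_card (filter_subset _ _)
  -- trivial range
  rcases lt_or_ge σ (1 / 2 + δ) with hsm | hbig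
  · have e1 : X ≤ q ^ ε * X ^ (3 / 2 - σ) := by
      calc X = X ^ (σ - 1 / 2) * X ^ (3 / 2 - σ) := by
            rw [← Real.rpow_add hF0]
            rw [show σ - 1 / 2 + (3 / 2 - σ) = 1 by ring, Real.rpow_one]
        _ ≤ q ^ ε * X ^ (3 / 2 - σ) := by
            gcongr
            calc X ^ (σ - 1 / 2) ≤ q ^ (σ - 1 / 2) := Real.rpow_le_rpow hF0.le hXq (by linarith)
              _ ≤ q ^ ε := Real.rpow_le_rpow_of_exponent_le hq1 (by linarith)
    have e2 : 0 ≤ (q : ℝ) ^ ε * X ^ (3 / 2 - σ) := by positivity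
    have e3 : (1 : ℝ) ≤ ((4 / δ + 1) * (8 / δ + 2) * (2 * (C3 * 2 ^ A * (Q * c))) + 1) *
        (1 + T) ^ (A + 1) := by
      have : 0 ≤ (4 / δ + 1) * (8 / δ + 2) * (2 * (C3 * 2 ^ A * (Q * c))) := by positivity
      nlinarith
    calc (Z.card : ℝ) ≤ 1 * (q ^ ε * X ^ (3 / 2 - σ)) := by rw [one_mul]; exact hZF.trans e1
      _ ≤ _ := by
        rw [mul_assoc]
        exact mul_le_mul_of_nonneg_right e3 e2
  -- the family of analytic functions
  set ch : DirichletCharacter ℂ d → DirichletCharacter ℂ q :=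
    fun θ => ψ * DirichletCharacter.changeLevel hd θ with hch
  set P := F.filter (fun θ => (ch θ).IsPrimitive) with hP
  have hch1 : ∀ θ ∈ P, ch θ ≠ 1 := by
    intro θ hθ h
    rw [hP, mem_filter] at hθ
    have h5 := hθ.2
    rw [h, DirichletCharacter.isPrimitive_def, DirichletCharacter.conductor_one] at h5
    omega
  set bb : DirichletCharacter ℂ d → ℕ → ℂ := fun θ n =>
    ch θ (n : ZMod q) * (ArithmeticFunction.moebius n : ℂ) with hbb
  have hmu : ∀ n : ℕ, ‖((ArithmeticFunction.moebius n : ℤ) : ℂ)‖ ≤ 1 := by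
    intro n
    rw [Complex.norm_intCast]
    exact_mod_cast ArithmeticFunction.abs_moebius_le_one
  have hbb1 : ∀ θ n, ‖bb θ n‖ ≤ 1 := by
    intro θ n
    rw [hbb]
    simp only
    rw [norm_mul]
    have := mul_le_mul ((ch θ).norm_le_one (n : ZMod q)) (hmu n) (norm_nonneg _) zero_le_one
    linarith
  set G : DirichletCharacter ℂ d → ℂ → ℂ := fun θ s =>
    (ch θ).LFunction s * mol (bb θ) F.card s - 1 with hG
  have hGd : ∀ θ ∈ P, ∀ s : ℂ, 1 / 4 < s.re → DifferentiableAt ℂ (G θ) s := by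
    intro θ hθ s _
    rw [hG]
    exact ((DirichletCharacter.differentiable_LFunction (hch1 θ hθ) s).mul
      (mol_diff (bb θ) F.card s)).sub_const 1
  have hgrow : ∀ θ ∈ P, ∃ (K : ℝ) (m : ℕ), ∀ s : ℂ, 1 / 2 ≤ s.re → s.re ≤ κ →
      ‖G θ s‖ ≤ K * (1 + |s.im|) ^ m := by
    intro θ hθ
    refine ⟨(1 + κ * (q * 2) + q * 2) * X + 1, 1, ?_⟩
    intro s hs1 hs2
    have hL := Pool.Agent.H307R2.LFunction_eq (hch1 θ hθ) (le_refl 1)
      (show 0 < s.re by linarith)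
    have hTM := Pool.Agent.H307R2.TM_norm_le (le_refl 1)
      (Pool.Agent.H307R2.Ech_norm_le (hch1 θ hθ) 1) (show 0 < s.re by linarith)
    have h5 : ‖(ch θ).LFunction s‖ ≤ 1 + ‖s‖ * (q * 2) := by
      rw [hL]
      refine (norm_add_le _ _).trans ?_
      apply add_le_add
      · simp only [Icc_self, sum_singleton, Nat.cast_one, Complex.one_cpow, mul_one]
        exact (ch θ).norm_le_one _
      · rw [norm_mul]
        apply mul_le_mul_of_nonneg_left _ (norm_nonneg _)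
        refine hTM.trans ?_
        apply mul_le_mul_of_nonneg_left _ hq0.le
        rw [Nat.cast_one, Real.one_rpow, div_le_iff₀ (by linarith)]
        linarith
    have h6 : ‖s‖ ≤ κ + |s.im| := by
      refine (Complex.norm_le_abs_re_add_abs_im s).trans ?_
      rw [abs_of_pos (show 0 < s.re by linarith)]
      linarith
    have h7 : ‖mol (bb θ) F.card s‖ ≤ X := mol_norm (hbb1 θ) F.card (by linarith)
    have hi := abs_nonneg s.im
    have h8 : ‖(ch θ).LFunction s‖ ≤ (1 + κ * (q * 2) + q * 2) * (1 + |s.im|) := by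
      have h9 : ‖s‖ * (q * 2) ≤ (κ + |s.im|) * (q * 2) := by gcongr
      have h10 : 0 ≤ (1 + κ * (q * 2)) * |s.im| := by positivity
      nlinarith
    rw [hG]
    simp only
    calc ‖(ch θ).LFunction s * mol (bb θ) F.card s - 1‖
        ≤ ‖(ch θ).LFunction s‖ * ‖mol (bb θ) F.card s‖ + 1 := by
          refine (norm_sub_le _ _).trans ?_
          rw [norm_mul, norm_one]
      _ ≤ ((1 + κ * (q * 2) + q * 2) * (1 + |s.im|)) * X + 1 := by
          gcongr
      _ ≤ ((1 + κ * (q * 2) + q * 2) * X + 1) * (1 + |s.im|) ^ 1 := by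
          rw [pow_one]
          nlinarith
  -- the line one half
  have hline1 : ∀ s : ℂ, s.re = 1 / 2 → ∑ θ ∈ P, ‖G θ s‖ ≤
      (Q * (q : ℝ) ^ δ * X) * (1 + |s.im|) ^ A := by
    intro s hs
    have hs' : s = 1 / 2 + (s.im : ℂ) * Complex.I := by
      apply Complex.ext
      · rw [hs]; simp
      · simp
    have e1 := h1 q d hq hd F hF hdF hqF ψ s.im
    rw [← hs'] at e1
    have e2 : ∑ θ ∈ P, ‖mol (bb θ) F.card s‖ ^ 2 ≤ C2 * (d : ℝ) ^ δ * X := by
      have e3 := hpoly (fun n => ψ (n : ZMod q) * (ArithmeticFunction.moebius n : ℂ) *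
        (n : ℂ) ^ (-s)) (by
        intro n hn
        rw [mem_Icc] at hn
        rw [norm_mul, norm_mul, Complex.norm_natCast_cpow_of_pos (by omega), Complex.neg_re, hs]
        have h5 : ‖ψ (n : ZMod q)‖ * ‖((ArithmeticFunction.moebius n : ℤ) : ℂ)‖ ≤ 1 := by
          have := mul_le_mul (ψ.norm_le_one (n : ZMod q)) (hmu n) (norm_nonneg _) zero_le_one
          linarith
        calc _ ≤ 1 * (n : ℝ) ^ (-(1 / 2) : ℝ) :=
              mul_le_mul_of_nonneg_right h5 (by positivity)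
          _ = _ := one_mul _)
      refine le_trans ?_ e3
      refine (sum_le_sum_of_subset_of_nonneg (filter_subset _ _)
        (f := fun θ => ‖mol (bb θ) F.card s‖ ^ 2) fun i _ _ => by positivity).trans
        (le_of_eq ?_)
      refine sum_congr rfl fun θ _ => ?_
      congr 2
      unfold mol
      refine sum_congr rfl fun n hn => ?_
      have h5 : ch θ (n : ZMod q) = ψ (n : ZMod q) * θ (n : ZMod d) := by
        rw [hch]
        simp only
        rw [MulChar.mul_apply]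
        by_cases hu : IsUnit (n : ZMod q)
        · congr 1
          obtain ⟨u, hu'⟩ := hu
          rw [← hu', DirichletCharacter.changeLevel_eq_cast_of_dvd, hu', ZMod.cast_natCast hd]
        · rw [MulChar.map_nonunit ψ hu, zero_mul, zero_mul]
      rw [hbb]
      simp only
      rw [h5]
      ring
    have e4 : ∀ θ ∈ P, ‖G θ s‖ ≤ ‖(ch θ).LFunction s‖ ^ 2 + ‖mol (bb θ) F.card s‖ ^ 2 + 1 := by
      intro θ _
      rw [hG]
      simp only
      refine (norm_sub_le _ _).trans ?_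
      rw [norm_mul, norm_one]
      nlinarith [sq_nonneg (‖(ch θ).LFunction s‖ - ‖mol (bb θ) F.card s‖),
        norm_nonneg ((ch θ).LFunction s), norm_nonneg (mol (bb θ) F.card s)]
    have e5 := sum_le_sum e4
    rw [sum_add_distrib, sum_add_distrib, sum_const, nsmul_eq_mul, mul_one] at e5
    have e6 : (P.card : ℝ) ≤ X := by
      rw [hX]; exact_mod_cast card_le_card (filter_subset _ _)
    have hqd : (1 : ℝ) ≤ (q : ℝ) ^ δ := Real.one_le_rpow hq1 hδ0.le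
    have hdd : (d : ℝ) ^ δ ≤ (q : ℝ) ^ δ := Real.rpow_le_rpow (Nat.cast_nonneg d) hdq hδ0.le
    have hp1 : (1 : ℝ) ≤ (1 + |s.im|) ^ A := one_le_pow₀ (by linarith [abs_nonneg s.im])
    calc ∑ θ ∈ P, ‖G θ s‖ ≤ C1 * (1 + |s.im|) ^ A * (q : ℝ) ^ δ * X + C2 * (d : ℝ) ^ δ * X + X := by
          linarith
      _ ≤ C1 * (1 + |s.im|) ^ A * (q : ℝ) ^ δ * X + C2 * (q : ℝ) ^ δ * X * (1 + |s.im|) ^ A +
          (q : ℝ) ^ δ * X * (1 + |s.im|) ^ A := by
          have g1 : C2 * (d : ℝ) ^ δ * X ≤ C2 * (q : ℝ) ^ δ * X * (1 + |s.im|) ^ A := by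
            calc C2 * (d : ℝ) ^ δ * X ≤ C2 * (q : ℝ) ^ δ * X :=
                  mul_le_mul_of_nonneg_right (mul_le_mul_of_nonneg_left hdd (by linarith)) hF0.le
              _ ≤ _ := le_mul_of_one_le_right (mul_nonneg (mul_nonneg (by linarith)
                  (by linarith)) hF0.le) hp1
          have g2 : X ≤ (q : ℝ) ^ δ * X * (1 + |s.im|) ^ A := by
            calc X ≤ (q : ℝ) ^ δ * X := le_mul_of_one_le_left hF0.le hqd
              _ ≤ _ := le_mul_of_one_le_right (mul_nonneg (by linarith) hF0.le) hp1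
          linarith
      _ = _ := by rw [hQ]; ring
  -- the line far to the right
  have hline2 : ∀ s : ℂ, s.re = κ → ∑ θ ∈ P, ‖G θ s‖ ≤ c * X ^ (3 - κ) := by
    intro s hs
    have e1 : ∀ θ ∈ P, ‖G θ s‖ ≤ c * X ^ (2 - κ) := by
      intro θ _
      have e2 := h3 (fun n => ch θ (n : ZMod q)) (bb θ) (fun n => (ch θ).norm_le_one _) (hbb1 θ) s
        (by rw [hs]; linarith) (by
          have := DirichletCharacter.LSeries.mul_mu_eq_one (ch θ) (s := s) (by rw [hs]; linarith)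
          exact this) F.card hF1'
      rw [hs] at e2
      rw [hG]
      simp only
      rw [DirichletCharacter.LFunction_eq_LSeries _ (by rw [hs]; linarith)]
      exact e2
    calc ∑ θ ∈ P, ‖G θ s‖ ≤ ∑ θ ∈ P, c * X ^ (2 - κ) := sum_le_sum e1
      _ = (P.card : ℝ) * (c * X ^ (2 - κ)) := by rw [sum_const, nsmul_eq_mul]
      _ ≤ X * (c * X ^ (2 - κ)) := by
          have e6 : (P.card : ℝ) ≤ X := by
            rw [hX]; exact_mod_cast card_le_card (filter_subset _ _)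
          gcongr
      _ = c * (X ^ (1 : ℝ) * X ^ (2 - κ)) := by rw [Real.rpow_one]; ring
      _ = _ := by rw [← Real.rpow_add hF0]; congr 2; ring
  have hmid := h4 P G (Q * (q : ℝ) ^ δ * X) (c * X ^ (3 - κ)) (by positivity) (by positivity)
    hGd hgrow hline1 hline2
  -- the value in the middle
  obtain ⟨S, hS⟩ : ∃ S : ℝ, S = C3 * (2 + T) ^ A * (Q * c * (q : ℝ) ^ δ *
    ((q : ℝ) ^ (2 * δ) * X ^ (3 / 2 - σ))) := ⟨_, rfl⟩
  have hSb : ∀ z : ℂ, σ - δ ≤ z.re → z.re ≤ 2 → |z.im| ≤ T + 1 → ∑ θ ∈ P, ‖G θ z‖ ≤ S := by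
    intro z hz1 hz2 hz3
    refine (hmid z (by linarith) (by linarith)).trans ?_
    set x : ℝ := (z.re - 1 / 2) / (κ - 1 / 2) with hx
    have hκ' : κ - 1 / 2 = 2 / δ := by rw [hκ]; ring
    have hx0 : 0 ≤ x := div_nonneg (by linarith) (by linarith)
    have hx1 : x ≤ 1 := by rw [hx, div_le_one (by linarith)]; linarith
    have e1 : (Q * (q : ℝ) ^ δ * X) ^ (1 - x) ≤ (Q * (q : ℝ) ^ δ) * X ^ (1 - x) := by
      rw [Real.mul_rpow (by positivity) hF0.le]
      gcongr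
      have g1 : 1 ≤ Q * (q : ℝ) ^ δ := by
        have := Real.one_le_rpow hq1 hδ0.le
        nlinarith
      calc (Q * (q : ℝ) ^ δ) ^ (1 - x) ≤ (Q * (q : ℝ) ^ δ) ^ (1 : ℝ) :=
            Real.rpow_le_rpow_of_exponent_le g1 (by linarith)
        _ = _ := Real.rpow_one _
    have e2 : (c * X ^ (3 - κ)) ^ x ≤ c * X ^ ((3 - κ) * x) := by
      rw [Real.mul_rpow (by linarith) (by positivity), ← Real.rpow_mul hF0.le]
      gcongr
      calc c ^ x ≤ c ^ (1 : ℝ) := Real.rpow_le_rpow_of_exponent_le hc hx1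
        _ = _ := Real.rpow_one _
    have e3 : X ^ (1 - x) * X ^ ((3 - κ) * x) ≤ (q : ℝ) ^ (2 * δ) * X ^ (3 / 2 - σ) := by
      rw [← Real.rpow_add hF0]
      have g1 : 1 - x + (3 - κ) * x ≤ 2 * δ + (3 / 2 - σ) := by
        have g2 : (κ - 1 / 2) * x = z.re - 1 / 2 := by
          rw [hx]
          exact mul_div_cancel₀ _ (by linarith)
        have g3 : x = (z.re - 1 / 2) * (δ / 2) := by
          rw [hx, hκ']; field_simp
        have g4 : (z.re - 1 / 2) * (δ / 2) ≤ (3 / 2) * (δ / 2) := by gcongr; linarith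
        have g5 : 1 - x + (3 - κ) * x = 1 - (κ - 1 / 2) * x + (3 / 2) * x := by ring
        rw [g5, g2, g3]
        nlinarith
      calc X ^ (1 - x + (3 - κ) * x) ≤ X ^ (2 * δ + (3 / 2 - σ)) :=
            Real.rpow_le_rpow_of_exponent_le hF1 g1
        _ = X ^ (2 * δ) * X ^ (3 / 2 - σ) := Real.rpow_add hF0 _ _
        _ ≤ _ := by
            gcongr
    have e4 : (1 + |z.im|) ^ A ≤ (2 + T) ^ A :=
      pow_le_pow_left₀ (by positivity) (by linarith) A
    rw [hS]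
    calc C3 * (1 + |z.im|) ^ A * ((Q * (q : ℝ) ^ δ * X) ^ (1 - x) * (c * X ^ (3 - κ)) ^ x)
        ≤ C3 * (2 + T) ^ A * (((Q * (q : ℝ) ^ δ) * X ^ (1 - x)) * (c * X ^ ((3 - κ) * x))) := by
          gcongr
      _ = C3 * (2 + T) ^ A * (Q * c * (q : ℝ) ^ δ * (X ^ (1 - x) * X ^ ((3 - κ) * x))) := by ring
      _ ≤ _ := by gcongr
  -- choose a zero for every member
  have hZP : ∀ θ ∈ Z, θ ∈ P := by
    intro θ hθ
    rw [hZ, mem_filter] at hθ
    rw [hP, mem_filter]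
    exact ⟨hθ.1, hθ.2.1⟩
  have hex : ∀ θ : DirichletCharacter ℂ d, ∃ ρ : ℂ, θ ∈ Z →
      ((ch θ).LFunction ρ = 0 ∧ σ ≤ ρ.re ∧ |ρ.im| ≤ T) := by
    intro θ
    by_cases hθ : θ ∈ Z
    · have hθ' := hθ
      rw [hZ, mem_filter] at hθ'
      obtain ⟨ρ, h5⟩ := hθ'.2.2
      exact ⟨ρ, fun _ => h5⟩
    · exact ⟨0, fun h => absurd h hθ⟩
  choose ρ hρ using hex
  have hS0 : 0 ≤ S := by rw [hS]; positivity
  have hcount := count_boxes Z G ρ (δ / 2) 1 S T σ (by positivity) (by linarith) hT hS0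
    (by linarith) (by
      intro θ hθ
      obtain ⟨g1, g2, g3⟩ := hρ θ hθ
      refine ⟨g2, ?_, g3⟩
      by_contra h
      push Not at h
      exact DirichletCharacter.LFunction_ne_zero_of_one_le_re (ch θ) (Or.inl (hch1 θ (hZP θ hθ)))
        h.le g1) (fun θ hθ => hGd θ (hZP θ hθ)) (by
      intro θ hθ
      rw [hG]
      simp only
      rw [(hρ θ hθ).1]
      simp) (by
      intro z hz1 hz2 hz3
      refine (sum_le_sum_of_subset_of_nonneg hZP fun i _ _ => norm_nonneg _).trans ?_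
      exact hSb z (by linarith) hz2 hz3)
  rw [one_mul] at hcount
  refine hcount.trans ?_
  have e1 : 2 / (δ / 2) + 1 = 4 / δ + 1 := by field_simp; ring
  have e2 : 4 * T / (δ / 2) + 2 ≤ (8 / δ + 2) * (1 + T) := by
    have : 4 * T / (δ / 2) = (8 / δ) * T := by field_simp; ring
    rw [this]
    have : 0 ≤ 8 / δ := by positivity
    nlinarith
  have e3 : (2 + T) ^ A ≤ 2 ^ A * (1 + T) ^ A := by
    rw [← mul_pow]
    exact pow_le_pow_left₀ (by positivity) (by linarith) A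
  have e4 : (q : ℝ) ^ δ * (q : ℝ) ^ (2 * δ) ≤ (q : ℝ) ^ ε := by
    rw [← Real.rpow_add hq0]
    exact Real.rpow_le_rpow_of_exponent_le hq1 (by linarith)
  rw [e1]
  calc (4 / δ + 1) * (4 * T / (δ / 2) + 2) * (2 * S)
      ≤ (4 / δ + 1) * ((8 / δ + 2) * (1 + T)) * (2 * (C3 * (2 ^ A * (1 + T) ^ A) *
        (Q * c * ((q : ℝ) ^ δ * (q : ℝ) ^ (2 * δ)) * X ^ (3 / 2 - σ)))) := by
        rw [hS]
        have : C3 * (2 + T) ^ A * (Q * c * (q : ℝ) ^ δ * ((q : ℝ) ^ (2 * δ) * X ^ (3 / 2 - σ))) =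
          C3 * (2 + T) ^ A * (Q * c * ((q : ℝ) ^ δ * (q : ℝ) ^ (2 * δ)) * X ^ (3 / 2 - σ)) := by ring
        rw [this]
        gcongr
    _ ≤ (4 / δ + 1) * ((8 / δ + 2) * (1 + T)) * (2 * (C3 * (2 ^ A * (1 + T) ^ A) *
        (Q * c * (q : ℝ) ^ ε * X ^ (3 / 2 - σ)))) := by gcongr
    _ = ((4 / δ + 1) * (8 / δ + 2) * (2 * (C3 * 2 ^ A * (Q * c)))) * (1 + T) ^ (A + 1) *
        (q : ℝ) ^ ε * X ^ (3 / 2 - σ) := by ring
    _ ≤ _ := by
        gcongr
        linarith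

end Pool.Agent.Y766
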