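import Pool.Agent.H442R2.TSM.QApx
import Pool.Agent.Helper112.MultLS

/-!
Weights for the approximation of `L(1/2 + it, χ)` by short smooth sums.
-/

set_option autoImplicit false

namespace Pool.Agent.Y766

open Finset MeasureTheory
open Pool.Agent.H442R2 Pool.Agent.H442R2.TSM Pool.Agent.H442R2.TSM.TaskTA
open Pool.Agent.H442R2.TSM.TaskQI

/-- test functions with bounds for two derivatives -/
structure Good (B : ℝ) (g : ℝ → ℂ) : Prop where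
  tst : Tst g
  b0 : ∀ x, ‖g x‖ ≤ B
  b1 : ∀ x, ‖deriv g x‖ ≤ B
  b2 : ∀ x, ‖deriv (deriv g) x‖ ≤ B

lemma Good.mono {B B' : ℝ} {g : ℝ → ℂ} (h : Good B g) (hB : B ≤ B') : Good B' g :=
  ⟨h.tst, fun x => (h.b0 x).trans hB, fun x => (h.b1 x).trans hB, fun x => (h.b2 x).trans hB⟩

lemma tst_bdd {ψ : ℝ → ℂ} (hψ : Tst ψ) : ∃ C : ℝ, 0 < C ∧ ∀ x, ‖ψ x‖ ≤ C := by
  obtain ⟨C, hC⟩ := (tst_cs hψ).exists_bound_of_continuous (tst_cont hψ)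
  exact ⟨|C| + 1, by positivity, fun x => (hC x).trans (by linarith [le_abs_self C])⟩

lemma deriv_EE1 {ψ : ℝ → ℂ} (hψ : Tst ψ) (t : ℝ) :
    deriv (fun u => ψ u * EE t 0 0 u) = fun u => deriv ψ u * EE t 0 0 u +
      (-(t : ℂ) * Complex.I) * ((ψ u * (((u ^ 1)⁻¹ : ℝ) : ℂ)) * EE t 0 0 u) := by
  rw [deriv_mul_EE hψ]
  funext u
  push_cast
  ring

lemma good_EE {ψ : ℝ → ℂ} (hψ : Tst ψ) : ∃ C : ℝ, 0 < C ∧ ∀ t : ℝ,
    Good (C * (1 + |t|) ^ 2) (fun u => ψ u * EE t 0 0 u) := by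
  have h1 := tst_inv hψ 1
  have hd := tst_deriv hψ
  have h11 := tst_inv h1 1
  have h1d := tst_deriv h1
  have hd1 := tst_inv hd 1
  have hdd := tst_deriv hd
  obtain ⟨C0, hC0, b0⟩ := tst_bdd hψ
  obtain ⟨C1, hC1, b1⟩ := tst_bdd h1
  obtain ⟨C2, hC2, b2⟩ := tst_bdd hd
  obtain ⟨C3, hC3, b3⟩ := tst_bdd h11
  obtain ⟨C4, hC4, b4⟩ := tst_bdd h1d
  obtain ⟨C5, hC5, b5⟩ := tst_bdd hd1
  obtain ⟨C6, hC6, b6⟩ := tst_bdd hdd
  refine ⟨C0 + C1 + C2 + C3 + C4 + C5 + C6, by positivity, fun t => ?_⟩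
  have hE : ∀ u, ‖EE t 0 0 u‖ ≤ 1 := fun u => EE_norm t 0 0 u le_rfl
  have key : ∀ (φ : ℝ → ℂ) (C : ℝ), (∀ x, ‖φ x‖ ≤ C) → ∀ u, ‖φ u * EE t 0 0 u‖ ≤ C := by
    intro φ C h u
    rw [norm_mul]
    calc ‖φ u‖ * ‖EE t 0 0 u‖ ≤ ‖φ u‖ * 1 := by gcongr; exact hE u
      _ ≤ C := by rw [mul_one]; exact h u
  have ht : 1 ≤ 1 + |t| := by linarith [abs_nonneg t]
  have ht2 : 1 ≤ (1 + |t|) ^ 2 := one_le_pow₀ ht
  have ht3 : |t| ≤ (1 + |t|) ^ 2 := by nlinarith [abs_nonneg t]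
  have ht4 : |t| * |t| ≤ (1 + |t|) ^ 2 := by nlinarith [abs_nonneg t]
  have nI : ‖(-(t : ℂ) * Complex.I)‖ = |t| := by
    rw [norm_mul, norm_neg, Complex.norm_I, mul_one, Complex.norm_real, Real.norm_eq_abs]
  refine ⟨osc_tst ψ hψ t 0 0, fun u => ?_, fun u => ?_, fun u => ?_⟩
  · refine (key ψ C0 b0 u).trans ?_
    nlinarith
  · rw [deriv_EE1 hψ]
    refine (norm_add_le _ _).trans ?_
    rw [norm_mul (-(t : ℂ) * Complex.I), nI]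
    have e1 := key _ _ b2 u
    have e2 := key _ _ b1 u
    calc _ ≤ C2 + |t| * C1 := by gcongr
      _ ≤ C2 * (1 + |t|) ^ 2 + (1 + |t|) ^ 2 * C1 := by
          gcongr
          exact le_mul_of_one_le_right hC2.le ht2
      _ ≤ _ := by nlinarith
  · rw [deriv_EE1 hψ]
    have d1 : ∀ u, HasDerivAt (fun u => deriv ψ u * EE t 0 0 u)
        (deriv (fun u => deriv ψ u * EE t 0 0 u) u) u := tst_hasDeriv (osc_tst _ hd t 0 0)
    have d2 : ∀ u, HasDerivAt (fun u => (ψ u * (((u ^ 1)⁻¹ : ℝ) : ℂ)) * EE t 0 0 u)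
        (deriv (fun u => (ψ u * (((u ^ 1)⁻¹ : ℝ) : ℂ)) * EE t 0 0 u) u) u :=
      tst_hasDeriv (osc_tst _ h1 t 0 0)
    have e := ((d1 u).add ((d2 u).const_mul (-(t : ℂ) * Complex.I))).deriv
    have e' : deriv (fun u => deriv ψ u * EE t 0 0 u +
      (-(t : ℂ) * Complex.I) * ((ψ u * (((u ^ 1)⁻¹ : ℝ) : ℂ)) * EE t 0 0 u)) u = _ := e
    rw [e', deriv_EE1 hd, deriv_EE1 h1]
    simp only
    refine (norm_add_le _ _).trans ?_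
    rw [norm_mul (-(t : ℂ) * Complex.I), nI]
    have e1 := key _ _ b6 u
    have e2 := key _ _ b5 u
    have e3 := key _ _ b4 u
    have e4 := key _ _ b3 u
    have n1 : ‖deriv (deriv ψ) u * EE t 0 0 u +
        (-(t : ℂ) * Complex.I) * ((deriv ψ u * (((u ^ 1)⁻¹ : ℝ) : ℂ)) * EE t 0 0 u)‖ ≤
        C6 + |t| * C5 := by
      refine (norm_add_le _ _).trans ?_
      rw [norm_mul (-(t : ℂ) * Complex.I), nI]
      gcongr
    have n2 : ‖deriv (fun u => ψ u * (((u ^ 1)⁻¹ : ℝ) : ℂ)) u * EE t 0 0 u +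
        (-(t : ℂ) * Complex.I) * ((ψ u * (((u ^ 1)⁻¹ : ℝ) : ℂ)) * (((u ^ 1)⁻¹ : ℝ) : ℂ) *
          EE t 0 0 u)‖ ≤ C4 + |t| * C3 := by
      refine (norm_add_le _ _).trans ?_
      rw [norm_mul (-(t : ℂ) * Complex.I), nI]
      gcongr
    calc _ ≤ (C6 + |t| * C5) + |t| * (C4 + |t| * C3) := by
          gcongr
      _ = C6 * 1 + |t| * C5 + |t| * C4 + (|t| * |t|) * C3 := by ring
      _ ≤ C6 * (1 + |t|) ^ 2 + (1 + |t|) ^ 2 * C5 + (1 + |t|) ^ 2 * C4 + (1 + |t|) ^ 2 * C3 := by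
          gcongr
      _ ≤ _ := by nlinarith

lemma ph_good : ∃ C : ℝ, 0 < C ∧ ∀ t : ℝ, Good (C * (1 + |t|) ^ 2) (ph t) := good_EE tst_half

end Pool.Agent.Y766
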