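import Pool.Agent.Y766.W1

/-!
Fourier transforms of test functions, as weights.
-/

set_option autoImplicit false

namespace Pool.Agent.Y766

open Finset MeasureTheory FourierTransform
open Pool.Agent.H442R2 Pool.Agent.H442R2.TSM Pool.Agent.H442R2.TSM.TaskTA
open Pool.Agent.H442R2.TSM.TaskQI

lemma fh_eq {f : ℝ → ℂ} (hf : Tst f) (w : ℝ) : (𝓕 f : ℝ → ℂ) w = Fh f w := by
  have h := TaskB.fourier_sch f hf 1 one_pos w
  simpa using h

lemma fh_smooth {f : ℝ → ℂ} (hf : Tst f) : ContDiff ℝ ((⊤ : ℕ∞) : WithTop ℕ∞) (Fh f) := by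
  have e : Fh f = (𝓕 (TaskB.sch f hf 1 one_pos) : SchwartzMap ℝ ℂ) := by
    funext w
    rw [← fh_eq hf, SchwartzMap.fourier_coe]
    have h : f = (TaskB.sch f hf 1 one_pos : ℝ → ℂ) := by
      funext y
      rw [TaskB.sch_apply, one_mul]
    exact congrArg (fun g : ℝ → ℂ => (𝓕 g : ℝ → ℂ) w) h
  rw [e]
  exact (𝓕 (TaskB.sch f hf 1 one_pos) : SchwartzMap ℝ ℂ).smooth _

lemma fh_hasDeriv {f : ℝ → ℂ} (hf : Tst f) (w : ℝ) :
    HasDerivAt (Fh f) ((-2 * Real.pi * Complex.I) * Fh (fun u => f u * (u : ℂ)) w) w := by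
  have h1 : Integrable (fun x : ℝ => x • f x) := by
    refine (tst_int (tst_id hf)).congr (Filter.Eventually.of_forall fun u => ?_)
    simp [mul_comm]
  have h := Real.hasDerivAt_fourier (tst_int hf) h1 w
  have e : Fh f = 𝓕 f := by
    funext w
    exact (fh_eq hf w).symm
  rw [e]
  refine h.congr_deriv ?_
  rw [← fh_eq (tst_id hf), Real.fourier_real_eq_integral_exp_smul,
    Real.fourier_real_eq_integral_exp_smul, ← integral_const_mul]
  refine integral_congr_ae (Filter.Eventually.of_forall fun u => ?_)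
  simp only [smul_eq_mul, Complex.real_smul]
  ring

lemma fh_le {f : ℝ → ℂ} (hf : Tst f) {B : ℝ} (hB : ∀ x, ‖f x‖ ≤ B) (w : ℝ) :
    ‖Fh f w‖ ≤ 3 * B := by
  have e : Fh f w = ∫ u in Set.Icc (1 : ℝ) 4, f u * KF.e (-(w * u)) := by
    unfold Fh
    refine (setIntegral_eq_integral_of_forall_compl_eq_zero fun u hu => ?_).symm
    rw [hf.supp u hu, zero_mul]
  rw [e]
  have h := norm_setIntegral_le_of_norm_le_const (μ := volume) (s := Set.Icc (1 : ℝ) 4) (C := B)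
    (f := fun u => f u * KF.e (-(w * u))) (by simp) (fun u _ => by
      rw [norm_mul, KF.norm_e, mul_one]; exact hB u)
  refine h.trans (le_of_eq ?_)
  rw [Real.volume_real_Icc_of_le (by norm_num)]
  ring

/-- decay of the transform of `ψ · exp(-it log)` -/
lemma fh_decay {ψ : ℝ → ℂ} (hψ : Tst ψ) (A : ℕ) : ∃ C : ℝ, 0 < C ∧ ∀ t w : ℝ,
    ‖Fh (fun u => ψ u * EE t 0 0 u) w‖ ≤ C ∧
      ‖Fh (fun u => ψ u * EE t 0 0 u) w‖ * |w| ^ A ≤ C * (1 + |t|) ^ A := by
  obtain ⟨C1, hC1, h1⟩ := tst_bdd hψ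
  obtain ⟨C2, hC2, h2⟩ := osc_fourier ψ hψ A
  have hb : ∀ t w : ℝ, ‖Fh (fun u => ψ u * EE t 0 0 u) w‖ ≤ 3 * C1 := by
    intro t w
    refine fh_le (osc_tst ψ hψ t 0 0) (fun x => ?_) w
    rw [norm_mul]
    calc _ ≤ ‖ψ x‖ * 1 := by gcongr; exact EE_norm t 0 0 x le_rfl
      _ ≤ C1 := by rw [mul_one]; exact h1 x
  refine ⟨3 * C1 + C2, by positivity, fun t w => ⟨(hb t w).trans (by linarith), ?_⟩⟩
  have ht : (1 : ℝ) ≤ (1 + |t|) ^ A := one_le_pow₀ (by linarith [abs_nonneg t])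
  rcases eq_or_ne w 0 with hw | hw
  · rcases Nat.eq_zero_or_pos A with hA | hA
    · subst hA
      simp only [pow_zero, mul_one]
      exact (hb t w).trans (by linarith)
    · rw [hw, abs_zero, zero_pow hA.ne', mul_zero]
      positivity
  · have h := h2 t 0 0 le_rfl w hw
    rw [abs_zero, add_zero, add_zero, div_pow] at h
    have hw0 : 0 < |w| ^ A := by positivity
    have h3 : ‖Fh (fun u => ψ u * EE t 0 0 u) w‖ * |w| ^ A ≤ C2 * (1 + |t|) ^ A := by
      calc _ ≤ (C2 * ((1 + |t|) ^ A / |w| ^ A)) * |w| ^ A := by gcongr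
        _ = _ := by field_simp
    nlinarith

end Pool.Agent.Y766
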