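import Pool.Agent.Y766.W2

/-!
The dual weights.
-/

set_option autoImplicit false

namespace Pool.Agent.Y766

open Finset MeasureTheory FourierTransform
open Pool.Agent.H442R2 Pool.Agent.H442R2.TSM Pool.Agent.H442R2.TSM.TaskTA
open Pool.Agent.H442R2.TSM.TaskQI

/-- the dual weight -/
noncomputable def dw (f : ℝ → ℂ) (v : ℝ) (x : ℝ) : ℂ :=
  ((|v| ^ (1 / 2 : ℝ) : ℝ) : ℂ) * (((Bu x : ℝ) : ℂ) * Fh f (v * x))

/-- `Bu` as a complex function -/
noncomputable def Bc (x : ℝ) : ℂ := ((Bu x : ℝ) : ℂ)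

lemma Bc_tst : Tst Bc := by
  have := tst_bu (fun _ => 1) (fun u _ => contDiffAt_const)
  convert this using 2 with u
  simp [Bc]

lemma pw_le (v x : ℝ) (hx : 1 ≤ x) (k : ℕ) (hk : k ≤ 2) {F C T : ℝ} (hF : 0 ≤ F)
    (h0 : F ≤ C) (h3 : F * |v * x| ^ 3 ≤ C * T) (hT : 1 ≤ T) (hC : 0 ≤ C) :
    |v| ^ (1 / 2 : ℝ) * |v| ^ k * F ≤ C * T := by
  rcases le_total |v| 1 with hv | hv
  · have h1 : |v| ^ (1 / 2 : ℝ) ≤ 1 := Real.rpow_le_one (abs_nonneg _) hv (by norm_num)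
    have h2 : |v| ^ k ≤ 1 := pow_le_one₀ (abs_nonneg _) hv
    calc _ ≤ 1 * 1 * C := by gcongr
      _ ≤ C * T := by nlinarith
  · have h1 : |v| ^ (1 / 2 : ℝ) ≤ |v| := by
      calc _ ≤ |v| ^ (1 : ℝ) := Real.rpow_le_rpow_of_exponent_le hv (by norm_num)
        _ = _ := Real.rpow_one _
    have h2 : |v| ^ k ≤ |v| ^ 2 := pow_le_pow_right₀ hv hk
    have h4 : |v| ≤ |v * x| := by
      rw [abs_mul]
      exact le_mul_of_one_le_right (abs_nonneg _) (hx.trans (le_abs_self _))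
    calc _ ≤ |v| * |v| ^ 2 * F := by gcongr
      _ = F * |v| ^ 3 := by ring
      _ ≤ F * |v * x| ^ 3 := by gcongr
      _ ≤ _ := h3

lemma dw_good {ψ : ℝ → ℂ} (hψ : Tst ψ) : ∃ C : ℝ, 0 < C ∧ ∀ t v : ℝ,
    Good (C * (1 + |t|) ^ 3) (dw (fun u => ψ u * EE t 0 0 u) v) := by
  have hi1 := tst_id hψ
  have hi2 := tst_id hi1
  obtain ⟨C0, hC0, d0⟩ := fh_decay hψ 3
  obtain ⟨C1, hC1, d1⟩ := fh_decay hi1 3
  obtain ⟨C2, hC2, d2⟩ := fh_decay hi2 3
  obtain ⟨B0, hB0, b0⟩ := tst_bdd Bc_tst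
  obtain ⟨B1, hB1, b1⟩ := tst_bdd (tst_deriv Bc_tst)
  obtain ⟨B2, hB2, b2⟩ := tst_bdd (tst_deriv (tst_deriv Bc_tst))
  set P : ℝ := 2 * Real.pi with hP
  have hP0 : 0 < P := by positivity
  refine ⟨(B0 + B1 + B2) * (C0 + C1 + C2) * (1 + P) ^ 2 * 2, by positivity, fun t v => ?_⟩
  set f0 : ℝ → ℂ := fun u => ψ u * EE t 0 0 u with hf0
  set f1 : ℝ → ℂ := fun u => (ψ u * (u : ℂ)) * EE t 0 0 u with hf1
  set f2 : ℝ → ℂ := fun u => (ψ u * (u : ℂ) * (u : ℂ)) * EE t 0 0 u with hf2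
  have hT0 : Tst f0 := osc_tst _ hψ t 0 0
  have hT1 : Tst f1 := osc_tst _ hi1 t 0 0
  have hT2 : Tst f2 := osc_tst _ hi2 t 0 0
  have e01 : (fun u => f0 u * (u : ℂ)) = f1 := by
    funext u; simp only [hf0, hf1]; ring
  have e12 : (fun u => f1 u * (u : ℂ)) = f2 := by
    funext u; simp only [hf1, hf2]; ring
  have g0 : ∀ w, HasDerivAt (Fh f0) ((-2 * Real.pi * Complex.I) * Fh f1 w) w := by
    intro w; have := fh_hasDeriv hT0 w; rwa [e01] at this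
  have g1 : ∀ w, HasDerivAt (Fh f1) ((-2 * Real.pi * Complex.I) * Fh f2 w) w := by
    intro w; have := fh_hasDeriv hT1 w; rwa [e12] at this
  set c : ℂ := (-2 * Real.pi * Complex.I) * (v : ℂ) with hc
  have hcn : ‖c‖ = P * |v| := by
    rw [hc, norm_mul, norm_mul, norm_mul, Complex.norm_I, mul_one, norm_neg, Complex.norm_real,
      Complex.norm_real, Real.norm_eq_abs, Real.norm_eq_abs, abs_of_pos Real.pi_pos, hP]
    norm_num
  have k0 : ∀ x, HasDerivAt (fun x : ℝ => Fh f0 (v * x)) (c * Fh f1 (v * x)) x := by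
    intro x
    have h := (g0 (v * x)).scomp x ((hasDerivAt_id x).const_mul v)
    refine h.congr_deriv ?_
    rw [Complex.real_smul, hc]; push_cast; ring
  have k1 : ∀ x, HasDerivAt (fun x : ℝ => Fh f1 (v * x)) (c * Fh f2 (v * x)) x := by
    intro x
    have h := (g1 (v * x)).scomp x ((hasDerivAt_id x).const_mul v)
    refine h.congr_deriv ?_
    rw [Complex.real_smul, hc]; push_cast; ring
  set a : ℝ := |v| ^ (1 / 2 : ℝ) with ha
  have ha0 : 0 ≤ a := by positivity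
  have hD : ∀ x, HasDerivAt Bc (deriv Bc x) x := tst_hasDeriv Bc_tst
  have hD2 : ∀ x, HasDerivAt (deriv Bc) (deriv (deriv Bc) x) x := tst_hasDeriv (tst_deriv Bc_tst)
  have D1 : ∀ x, HasDerivAt (dw f0 v)
      ((a : ℂ) * (deriv Bc x * Fh f0 (v * x) + Bc x * (c * Fh f1 (v * x)))) x := by
    intro x
    exact ((hD x).mul (k0 x)).const_mul (a : ℂ)
  have D1' : deriv (dw f0 v) = fun x =>
      (a : ℂ) * (deriv Bc x * Fh f0 (v * x) + Bc x * (c * Fh f1 (v * x))) := by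
    funext x; exact (D1 x).deriv
  have D2 : ∀ x, HasDerivAt (deriv (dw f0 v))
      ((a : ℂ) * ((deriv (deriv Bc) x * Fh f0 (v * x) + deriv Bc x * (c * Fh f1 (v * x))) +
        (deriv Bc x * (c * Fh f1 (v * x)) + Bc x * (c * (c * Fh f2 (v * x)))))) x := by
    intro x
    rw [D1']
    exact (((hD2 x).mul (k0 x)).add ((hD x).mul ((k1 x).const_mul c))).const_mul (a : ℂ)
  have ht1 : (1 : ℝ) ≤ (1 + |t|) ^ 3 := one_le_pow₀ (by linarith [abs_nonneg t])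
  set T : ℝ := (1 + |t|) ^ 3 with hTdef
  -- basic bounds
  have F0 : ∀ x, 1 ≤ x → ∀ k : ℕ, k ≤ 2 → a * |v| ^ k * ‖Fh f0 (v * x)‖ ≤ C0 * T := fun x hx k hk =>
    pw_le v x hx k hk (norm_nonneg _) (d0 t (v * x)).1 (d0 t (v * x)).2 ht1 hC0.le
  have F1 : ∀ x, 1 ≤ x → ∀ k : ℕ, k ≤ 2 → a * |v| ^ k * ‖Fh f1 (v * x)‖ ≤ C1 * T := fun x hx k hk =>
    pw_le v x hx k hk (norm_nonneg _) (d1 t (v * x)).1 (d1 t (v * x)).2 ht1 hC1.le
  have F2 : ∀ x, 1 ≤ x → ∀ k : ℕ, k ≤ 2 → a * |v| ^ k * ‖Fh f2 (v * x)‖ ≤ C2 * T := fun x hx k hk =>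
    pw_le v x hx k hk (norm_nonneg _) (d2 t (v * x)).1 (d2 t (v * x)).2 ht1 hC2.le
  have key : ∀ (φ : ℝ → ℂ) (B : ℝ), 0 < B → Tst φ → (∀ x, ‖φ x‖ ≤ B) → ∀ (F : ℝ → ℂ) (C : ℝ) (k : ℕ),
      0 < C → (∀ x, 1 ≤ x → a * |v| ^ k * ‖F x‖ ≤ C * T) → ∀ x,
      a * (‖φ x‖ * (|v| ^ k * ‖F x‖)) ≤ B * C * T := by
    intro φ B hB hφ hb F C k hC hF x
    by_cases hx : x ∈ Set.Icc (1 : ℝ) 4
    · calc a * (‖φ x‖ * (|v| ^ k * ‖F x‖)) = ‖φ x‖ * (a * |v| ^ k * ‖F x‖) := by ring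
        _ ≤ B * (C * T) := mul_le_mul (hb x) (hF x hx.1) (by positivity) hB.le
        _ = _ := by ring
    · rw [hφ.supp x hx, norm_zero, zero_mul, mul_zero]
      positivity
  have tB := Bc_tst
  have tB1 := tst_deriv Bc_tst
  have tB2 := tst_deriv tB1
  have hna : ‖(a : ℂ)‖ = a := by rw [Complex.norm_real, Real.norm_eq_abs, abs_of_nonneg ha0]
  have hT00 : 0 < T := by linarith
  -- the six terms
  have s00 := key Bc B0 hB0 tB b0 (fun x => Fh f0 (v * x)) C0 0 hC0 (fun x hx => F0 x hx 0 (by norm_num))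
  have s10 := key _ B1 hB1 tB1 b1 (fun x => Fh f0 (v * x)) C0 0 hC0 (fun x hx => F0 x hx 0 (by norm_num))
  have s01 := key Bc B0 hB0 tB b0 (fun x => Fh f1 (v * x)) C1 1 hC1 (fun x hx => F1 x hx 1 (by norm_num))
  have s20 := key _ B2 hB2 tB2 b2 (fun x => Fh f0 (v * x)) C0 0 hC0 (fun x hx => F0 x hx 0 (by norm_num))
  have s11 := key _ B1 hB1 tB1 b1 (fun x => Fh f1 (v * x)) C1 1 hC1 (fun x hx => F1 x hx 1 (by norm_num))
  have s02 := key Bc B0 hB0 tB b0 (fun x => Fh f2 (v * x)) C2 2 hC2 (fun x hx => F2 x hx 2 (by norm_num))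
  have E : ∀ X : ℝ, X ≤ (B0 + B1 + B2) * (C0 + C1 + C2) * T → X * (1 + P) ^ 2 * 2 ≤
      (B0 + B1 + B2) * (C0 + C1 + C2) * (1 + P) ^ 2 * 2 * T := by
    intro X hX
    nlinarith [sq_nonneg (1 + P)]
  have hP1 : 1 ≤ (1 + P) ^ 2 := one_le_pow₀ (by linarith)
  have hP2 : P ≤ (1 + P) ^ 2 := by nlinarith
  have hP3 : P * P ≤ (1 + P) ^ 2 := by nlinarith
  have q00 : 0 < B0 * C0 := by positivity
  have q01 : 0 < B0 * C1 := by positivity
  have q02 : 0 < B0 * C2 := by positivity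
  have q10 : 0 < B1 * C0 := by positivity
  have q11 : 0 < B1 * C1 := by positivity
  have q12 : 0 < B1 * C2 := by positivity
  have q20 : 0 < B2 * C0 := by positivity
  have q21 : 0 < B2 * C1 := by positivity
  have q22 : 0 < B2 * C2 := by positivity
  refine ⟨⟨?_, fun x hx => ?_⟩, fun x => ?_, fun x => ?_, fun x => ?_⟩
  · have h1 : ContDiff ℝ ((⊤ : ℕ∞) : WithTop ℕ∞) (fun x : ℝ => Fh f0 (v * x)) :=
      (fh_smooth hT0).comp (contDiff_const.mul contDiff_id)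
    exact contDiff_const.mul (tB.smooth.mul h1)
  · have : ((Bu x : ℝ) : ℂ) = 0 := tB.supp x hx
    simp only [dw, this, zero_mul, mul_zero]
  · have e : ‖dw f0 v x‖ = a * (‖Bc x‖ * (|v| ^ 0 * ‖Fh f0 (v * x)‖)) := by
      unfold dw
      rw [norm_mul, norm_mul, hna, pow_zero, one_mul]; rfl
    rw [e]
    refine (s00 x).trans ?_
    calc B0 * C0 * T ≤ B0 * C0 * T * (1 + P) ^ 2 * 2 := by
          have : 0 < B0 * C0 * T := by positivity
          nlinarith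
      _ ≤ _ := E _ (by nlinarith)
  · rw [D1']
    simp only
    have e : ‖(a : ℂ) * (deriv Bc x * Fh f0 (v * x) + Bc x * (c * Fh f1 (v * x)))‖ ≤
        a * (‖deriv Bc x‖ * (|v| ^ 0 * ‖Fh f0 (v * x)‖)) +
        P * (a * (‖Bc x‖ * (|v| ^ 1 * ‖Fh f1 (v * x)‖))) := by
      rw [norm_mul, hna]
      calc _ ≤ a * (‖deriv Bc x * Fh f0 (v * x)‖ + ‖Bc x * (c * Fh f1 (v * x))‖) := by
            gcongr; exact norm_add_le _ _
        _ = _ := by rw [norm_mul, norm_mul, norm_mul, hcn]; ring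
    refine e.trans ?_
    calc _ ≤ B1 * C0 * T + P * (B0 * C1 * T) := add_le_add (s10 x) (mul_le_mul_of_nonneg_left (s01 x) hP0.le)
      _ ≤ B1 * C0 * T * (1 + P) ^ 2 + (1 + P) ^ 2 * (B0 * C1 * T) :=
          add_le_add (le_mul_of_one_le_right (by positivity) hP1)
            (mul_le_mul_of_nonneg_right hP2 (by positivity))
      _ ≤ (B1 * C0 * T + B0 * C1 * T) * (1 + P) ^ 2 * 2 := by
          have : 0 < (B1 * C0 * T + B0 * C1 * T) * (1 + P) ^ 2 := by positivity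
          nlinarith
      _ ≤ _ := E _ (by nlinarith)
  · rw [(D2 x).deriv]
    have e : ‖(a : ℂ) * ((deriv (deriv Bc) x * Fh f0 (v * x) + deriv Bc x * (c * Fh f1 (v * x))) +
        (deriv Bc x * (c * Fh f1 (v * x)) + Bc x * (c * (c * Fh f2 (v * x)))))‖ ≤
        a * (‖deriv (deriv Bc) x‖ * (|v| ^ 0 * ‖Fh f0 (v * x)‖)) +
        P * (a * (‖deriv Bc x‖ * (|v| ^ 1 * ‖Fh f1 (v * x)‖))) * 2 +
        (P * P) * (a * (‖Bc x‖ * (|v| ^ 2 * ‖Fh f2 (v * x)‖))) := by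
      rw [norm_mul, hna]
      calc _ ≤ a * ((‖deriv (deriv Bc) x * Fh f0 (v * x)‖ + ‖deriv Bc x * (c * Fh f1 (v * x))‖) +
            (‖deriv Bc x * (c * Fh f1 (v * x))‖ + ‖Bc x * (c * (c * Fh f2 (v * x)))‖)) := by
            gcongr
            refine (norm_add_le _ _).trans (add_le_add (norm_add_le _ _) (norm_add_le _ _))
        _ = _ := by simp only [norm_mul, hcn]; ring
    refine e.trans ?_
    calc _ ≤ B2 * C0 * T + P * (B1 * C1 * T) * 2 + (P * P) * (B0 * C2 * T) :=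
          add_le_add (add_le_add (s20 x) (mul_le_mul_of_nonneg_right (mul_le_mul_of_nonneg_left (s11 x) hP0.le)
            (by norm_num))) (mul_le_mul_of_nonneg_left (s02 x) (by positivity))
      _ ≤ B2 * C0 * T * (1 + P) ^ 2 + (1 + P) ^ 2 * (B1 * C1 * T) * 2 + (1 + P) ^ 2 * (B0 * C2 * T) :=
          add_le_add (add_le_add (le_mul_of_one_le_right (by positivity) hP1)
            (mul_le_mul_of_nonneg_right (mul_le_mul_of_nonneg_right hP2 (by positivity))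
              (by norm_num))) (mul_le_mul_of_nonneg_right hP3 (by positivity))
      _ ≤ (B2 * C0 * T + B1 * C1 * T + B0 * C2 * T) * (1 + P) ^ 2 * 2 := by
          have : 0 < (B2 * C0 * T + B0 * C2 * T) * (1 + P) ^ 2 := by positivity
          nlinarith
      _ ≤ _ := E _ (by nlinarith)

lemma good_conj {B : ℝ} {g : ℝ → ℂ} (h : Good B g) : Good B (fun x => (starRingEnd ℂ) (g x)) := by
  have hd : ∀ (φ : ℝ → ℂ), Tst φ → deriv (fun x => (starRingEnd ℂ) (φ x)) =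
      fun x => (starRingEnd ℂ) (deriv φ x) := by
    intro φ hφ
    funext x
    exact (tst_hasDeriv hφ x).star.deriv
  refine ⟨⟨?_, fun x hx => ?_⟩, fun x => ?_, fun x => ?_, fun x => ?_⟩
  · exact (Complex.conjCLE.toContinuousLinearMap.contDiff).comp h.tst.smooth
  · rw [h.tst.supp x hx, map_zero]
  · rw [Complex.norm_conj]; exact h.b0 x
  · rw [hd g h.tst]
    simp only
    rw [Complex.norm_conj]; exact h.b1 x
  · rw [hd g h.tst, hd _ (tst_deriv h.tst)]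
    simp only
    rw [Complex.norm_conj]; exact h.b2 x

end Pool.Agent.Y766
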