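import Mathlib
import Pool.Agent.H505R2.DivB

/-!
Weyl's inequality in degree five.
-/

set_option autoImplicit false

namespace Pool.Agent.Y766

open Finset Polynomial

/-- `exp(2πix)` -/
noncomputable def eu (x : ℝ) : ℂ := Complex.exp (2 * Real.pi * Complex.I * x)

lemma eu_norm (x : ℝ) : ‖eu x‖ = 1 := by
  unfold eu
  rw [show (2 * Real.pi * Complex.I * x : ℂ) = ((2 * Real.pi * x : ℝ) : ℂ) * Complex.I by
    push_cast; ring, Complex.norm_exp_ofReal_mul_I]

lemma eu_add (x y : ℝ) : eu (x + y) = eu x * eu y := by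
  unfold eu
  rw [← Complex.exp_add]; congr 1; push_cast; ring

lemma eu_conj (x : ℝ) : (starRingEnd ℂ) (eu x) = eu (-x) := by
  unfold eu
  rw [← Complex.exp_conj]
  congr 1
  simp only [map_mul, Complex.conj_I, Complex.conj_ofReal, map_ofNat]
  push_cast
  ring

lemma eu_int (n : ℤ) : eu n = 1 := by
  unfold eu
  rw [show (2 * Real.pi * Complex.I * ((n : ℝ) : ℂ)) = n * (2 * Real.pi * Complex.I) by
    push_cast; ring, Complex.exp_int_mul_two_pi_mul_I]

lemma eu_sub (x y : ℝ) : eu (x - y) = eu x * (starRingEnd ℂ) (eu y) := by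
  rw [eu_conj, ← eu_add, sub_eq_add_neg]

/-- squaring out -/
lemma sq_out (f : ℕ → ℂ) (N : ℕ) : ‖∑ n ∈ range N, f n‖ ^ 2 ≤
    2 * ∑ h ∈ range N, ‖∑ n ∈ range (N - h), f (n + h) * (starRingEnd ℂ) (f n)‖ := by
  have e : ((‖∑ n ∈ range N, f n‖ ^ 2 : ℝ) : ℂ) =
      ∑ m ∈ range N, ∑ n ∈ range N, f m * (starRingEnd ℂ) (f n) := by
    push_cast
    rw [← Complex.mul_conj', map_sum, sum_mul_sum]
  have tri : ∀ g : ℕ → ℕ → ℂ, ∑ m ∈ range N, ∑ n ∈ (range N).filter (fun n => n ≤ m), g m n =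
      ∑ h ∈ range N, ∑ n ∈ range (N - h), g (n + h) n := by
    intro g
    rw [sum_sigma', sum_sigma']
    refine sum_bij' (fun p _ => ⟨p.1 - p.2, p.2⟩) (fun p _ => ⟨p.2 + p.1, p.2⟩) ?_ ?_ ?_ ?_ ?_
    · rintro ⟨m, n⟩ h
      simp only [mem_sigma, mem_range, mem_filter] at h ⊢
      omega
    · rintro ⟨h, n⟩ hh
      simp only [mem_sigma, mem_range, mem_filter] at hh ⊢
      omega
    · rintro ⟨m, n⟩ h
      simp only [mem_sigma, mem_range, mem_filter] at h ⊢
      have : n + (m - n) = m := by omega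
      rw [this]
    · rintro ⟨h, n⟩ hh
      simp only [mem_sigma, mem_range, mem_filter] at hh ⊢
      have : n + h - n = h := by omega
      rw [this]
    · rintro ⟨m, n⟩ h
      simp only [mem_sigma, mem_range, mem_filter] at h ⊢
      have : n + (m - n) = m := by omega
      rw [this]
  have tri' : ∀ g : ℕ → ℕ → ℂ, ∑ m ∈ range N, ∑ n ∈ (range N).filter (fun n => ¬ n ≤ m), g m n =
      ∑ h ∈ Ico 1 N, ∑ n ∈ range (N - h), g n (n + h) := by
    intro g
    rw [sum_sigma', sum_sigma']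
    refine sum_bij' (fun p _ => ⟨p.2 - p.1, p.1⟩) (fun p _ => ⟨p.2, p.2 + p.1⟩) ?_ ?_ ?_ ?_ ?_
    · rintro ⟨m, n⟩ h
      simp only [mem_sigma, mem_range, mem_filter, mem_Ico] at h ⊢
      omega
    · rintro ⟨h, n⟩ hh
      simp only [mem_sigma, mem_range, mem_filter, mem_Ico] at hh ⊢
      omega
    · rintro ⟨m, n⟩ h
      simp only [mem_sigma, mem_range, mem_filter, mem_Ico] at h ⊢
      have : m + (n - m) = n := by omega
      rw [this]
    · rintro ⟨h, n⟩ hh
      simp only [mem_sigma, mem_range, mem_filter, mem_Ico] at hh ⊢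
      have : n + h - n = h := by omega
      rw [this]
    · rintro ⟨m, n⟩ h
      simp only [mem_sigma, mem_range, mem_filter, mem_Ico] at h ⊢
      have : m + (n - m) = n := by omega
      rw [this]
  have e2 : ∑ m ∈ range N, ∑ n ∈ range N, f m * (starRingEnd ℂ) (f n) =
      ∑ h ∈ range N, ∑ n ∈ range (N - h), f (n + h) * (starRingEnd ℂ) (f n) +
      ∑ h ∈ Ico 1 N, ∑ n ∈ range (N - h), f n * (starRingEnd ℂ) (f (n + h)) := by
    rw [← tri (fun m n => f m * (starRingEnd ℂ) (f n)), ← tri' (fun m n => f m * (starRingEnd ℂ) (f n)),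
      ← sum_add_distrib]
    refine sum_congr rfl fun m _ => ?_
    rw [sum_filter_add_sum_filter_not]
  have e3 : ‖∑ n ∈ range N, f n‖ ^ 2 = ‖((‖∑ n ∈ range N, f n‖ ^ 2 : ℝ) : ℂ)‖ := by
    rw [Complex.norm_real, Real.norm_eq_abs, abs_of_nonneg (by positivity)]
  rw [e3, e, e2]
  have h1 : ‖∑ h ∈ range N, ∑ n ∈ range (N - h), f (n + h) * (starRingEnd ℂ) (f n)‖ ≤
      ∑ h ∈ range N, ‖∑ n ∈ range (N - h), f (n + h) * (starRingEnd ℂ) (f n)‖ := norm_sum_le _ _
  have h2 : ‖∑ h ∈ Ico 1 N, ∑ n ∈ range (N - h), f n * (starRingEnd ℂ) (f (n + h))‖ ≤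
      ∑ h ∈ range N, ‖∑ n ∈ range (N - h), f (n + h) * (starRingEnd ℂ) (f n)‖ := by
    refine (norm_sum_le _ _).trans ?_
    have : ∀ h ∈ Ico 1 N, ‖∑ n ∈ range (N - h), f n * (starRingEnd ℂ) (f (n + h))‖ =
        ‖∑ n ∈ range (N - h), f (n + h) * (starRingEnd ℂ) (f n)‖ := by
      intro h _
      rw [← Complex.norm_conj, map_sum]
      congr 1
      refine sum_congr rfl fun n _ => ?_
      rw [map_mul, Complex.conj_conj]; ring
    rw [sum_congr rfl this]
    refine sum_le_sum_of_subset_of_nonneg (fun h hh => ?_) fun _ _ _ => norm_nonneg _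
    rw [mem_Ico] at hh; rw [mem_range]; exact hh.2
  refine (norm_add_le _ _).trans ?_
  linarith

/-- the iterated bound -/
noncomputable def GG : ℕ → ℕ → ℝ → ℝ
  | 0, N, α => ‖∑ n ∈ range N, eu (α * n)‖
  | (d + 1), N, α => 2 ^ (2 ^ d) * (N : ℝ) ^ (2 ^ d - 1) * ∑ h ∈ range N, GG d (N - h) ((d + 2) * h * α)

lemma GG_nonneg (d N : ℕ) (α : ℝ) : 0 ≤ GG d N α := by
  induction d generalizing N α with
  | zero => exact norm_nonneg _
  | succ d ih =>
    unfold GG
    have : 0 ≤ ∑ h ∈ range N, GG d (N - h) ((d + 2) * h * α) := sum_nonneg fun h _ => ih _ _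
    positivity

lemma diff_coeff (P : ℝ[X]) (d : ℕ) (hP : P.natDegree ≤ d+2) (h : ℝ) :
    (taylor h P - P).natDegree ≤ d+1 ∧ (taylor h P - P).coeff (d+1) = (d+2) * h * P.coeff (d+2) := by
  have key : ∀ k, (taylor h P).coeff k = (hasseDeriv k P).eval h := fun k => taylor_coeff _ _ _
  have hdeg : ∀ k, (hasseDeriv k P).natDegree ≤ P.natDegree - k := natDegree_hasseDeriv_le P
  constructor
  · rw [natDegree_le_iff_coeff_eq_zero]
    intro N hN
    rw [coeff_sub, key]
    rcases Nat.lt_or_ge (d+2) N with h1 | h1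
    · have e1 : P.coeff N = 0 := coeff_eq_zero_of_natDegree_lt (by omega)
      have e2 : hasseDeriv N P = 0 := hasseDeriv_eq_zero_of_lt_natDegree P N (by omega)
      rw [e1, e2]; simp
    · have hN2 : N = d+2 := by omega
      subst hN2
      have h2 := hdeg (d+2)
      rw [eval_eq_sum_range' (n := 1) (by omega)]
      simp [hasseDeriv_coeff]
  · rw [coeff_sub, key]
    have h2 := hdeg (d+1)
    rw [eval_eq_sum_range' (n := 2) (by omega)]
    simp only [Finset.sum_range_succ, Finset.sum_range_zero, hasseDeriv_coeff]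
    rw [show 1 + (d+1) = d+2 by omega, show (d+2).choose (d+1) = d+2 from Nat.choose_succ_self_right (d+1)]
    simp
    ring

lemma weyl_iter (d : ℕ) : ∀ (P : ℝ[X]), P.natDegree ≤ d + 1 → ∀ N : ℕ,
    ‖∑ n ∈ range N, eu (P.eval (n : ℝ))‖ ^ (2 ^ d) ≤ GG d N (P.coeff (d + 1)) := by
  induction d with
  | zero =>
    intro P hP N
    have h2 : ∀ l ∈ range N, eu (P.eval (l:ℝ)) = eu (P.coeff 0) * eu (P.coeff 1 * l) := by
      intro l _
      rw [← eu_add, eval_eq_sum_range' (n := 2) (by omega)]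
      simp only [Finset.sum_range_succ, Finset.sum_range_zero]
      congr 1
      ring
    rw [Finset.sum_congr rfl h2, ← Finset.mul_sum, norm_mul, eu_norm, one_mul, pow_zero, pow_one]
    rfl
  | succ d ih =>
    intro P hP N
    have h1 := sq_out (fun n => eu (P.eval (n : ℝ))) N
    have h2 : ∀ h ∈ range N, ‖∑ n ∈ range (N - h), eu (P.eval ((n + h : ℕ) : ℝ)) *
        (starRingEnd ℂ) (eu (P.eval (n : ℝ)))‖ ^ (2 ^ d) ≤
        GG d (N - h) ((d + 2) * h * P.coeff (d + 2)) := by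
      intro h _
      obtain ⟨d1, d2⟩ := diff_coeff P d hP (h : ℝ)
      have := ih (taylor (h : ℝ) P - P) d1 (N - h)
      rw [d2] at this
      refine le_trans (le_of_eq ?_) this
      congr 2
      refine sum_congr rfl fun n _ => ?_
      rw [← eu_sub, eval_sub, taylor_eval]
      push_cast
      rfl
    have h3 : ‖∑ n ∈ range N, eu (P.eval (n : ℝ))‖ ^ (2 ^ (d + 1)) =
        (‖∑ n ∈ range N, eu (P.eval (n : ℝ))‖ ^ 2) ^ (2 ^ d) := by
      rw [← pow_mul, pow_succ, mul_comm]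
    rw [h3]
    have h4 := pow_le_pow_left₀ (by positivity) h1 (2 ^ d)
    refine h4.trans ?_
    rw [mul_pow]
    have h6 : 2 ^ d = (2 ^ d - 1) + 1 := by
      have := Nat.one_le_two_pow (n := d)
      omega
    have hj : (∑ h ∈ range N, ‖∑ n ∈ range (N - h), eu (P.eval ((n + h : ℕ) : ℝ)) *
        (starRingEnd ℂ) (eu (P.eval (n : ℝ)))‖) ^ (2 ^ d) ≤ (N : ℝ) ^ (2 ^ d - 1) *
        ∑ h ∈ range N, ‖∑ n ∈ range (N - h), eu (P.eval ((n + h : ℕ) : ℝ)) *
        (starRingEnd ℂ) (eu (P.eval (n : ℝ)))‖ ^ (2 ^ d) := by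
      have h7 := pow_sum_le_card_mul_sum_pow (s := range N)
        (f := fun h => ‖∑ n ∈ range (N - h), eu (P.eval ((n + h : ℕ) : ℝ)) *
        (starRingEnd ℂ) (eu (P.eval (n : ℝ)))‖) (fun _ _ => norm_nonneg _) (2 ^ d - 1)
      rw [card_range, ← h6] at h7
      exact h7
    have e9 : GG (d + 1) N (P.coeff (d + 1 + 1)) = 2 ^ (2 ^ d) * (N : ℝ) ^ (2 ^ d - 1) *
        ∑ h ∈ range N, GG d (N - h) ((d + 2) * h * P.coeff (d + 2)) := rfl
    rw [e9, mul_assoc]
    gcongr
    refine hj.trans ?_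
    gcongr with h hh
    exact h2 h hh

end Pool.Agent.Y766
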