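import Pool.Agent.Y766.ZA

/-!
The number of members of a family with a large value in a rectangle.
-/

set_option autoImplicit false

namespace Pool.Agent.Y766

open Finset Complex

lemma floor_box {x r : ℝ} (hr : 0 < r) : |x - ((⌊x / (r / 2)⌋ : ℝ) + 1 / 2) * (r / 2)| ≤ r / 4 := by
  have h1 := Int.floor_le (x / (r / 2))
  have h2 := Int.lt_floor_add_one (x / (r / 2))
  have hr2 : 0 < r / 2 := by positivity
  rw [le_div_iff₀ hr2] at h1
  rw [div_lt_iff₀ hr2] at h2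
  rw [abs_le]
  constructor <;> nlinarith

lemma count_boxes {ι : Type} (Z : Finset ι) (G : ι → ℂ → ℂ) (ρ : ι → ℂ) (r w S T σ : ℝ)
    (hr : 0 < r) (hr1 : r ≤ 1 / 2) (hT : 0 ≤ T) (hS0 : 0 ≤ S) (hσ : 1 / 2 ≤ σ - 2 * r)
    (hρ : ∀ i ∈ Z, σ ≤ (ρ i).re ∧ (ρ i).re ≤ 1 ∧ |(ρ i).im| ≤ T)
    (hG : ∀ i ∈ Z, ∀ s : ℂ, 1 / 4 < s.re → DifferentiableAt ℂ (G i) s)
    (hwG : ∀ i ∈ Z, w ≤ ‖G i (ρ i)‖)
    (hS : ∀ z : ℂ, σ - 2 * r ≤ z.re → z.re ≤ 2 → |z.im| ≤ T + 1 → ∑ i ∈ Z, ‖G i z‖ ≤ S) :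
    w * (Z.card : ℝ) ≤ (2 / r + 1) * (4 * T / r + 2) * (2 * S) := by
  classical
  set lab : ι → ℤ × ℤ := fun i => (⌊(ρ i).re / (r / 2)⌋, ⌊(ρ i).im / (r / 2)⌋) with hlab
  set Λ : Finset (ℤ × ℤ) := (Icc 0 ⌊2 / r⌋) ×ˢ (Icc ⌊-(2 * T / r)⌋ ⌊2 * T / r⌋) with hΛ
  have hr2 : 0 < r / 2 := by positivity
  have hmaps : ∀ i ∈ Z, lab i ∈ Λ := by
    intro i hi
    obtain ⟨h1, h2, h3⟩ := hρ i hi
    rw [abs_le] at h3
    rw [hΛ, mem_product, mem_Icc, mem_Icc]
    have e1 : 2 / r = 1 / (r / 2) := by field_simp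
    have e2 : 2 * T / r = T / (r / 2) := by field_simp
    refine ⟨⟨?_, ?_⟩, ?_, ?_⟩
    · apply Int.floor_nonneg.2
      apply div_nonneg _ hr2.le
      linarith
    · apply Int.floor_le_floor
      rw [e1]
      exact div_le_div_of_nonneg_right h2 hr2.le
    · apply Int.floor_le_floor
      rw [e2, ← neg_div]
      exact div_le_div_of_nonneg_right h3.1 hr2.le
    · apply Int.floor_le_floor
      rw [e2]
      exact div_le_div_of_nonneg_right h3.2 hr2.le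
  have hΛc : (Λ.card : ℝ) ≤ (2 / r + 1) * (4 * T / r + 2) := by
    rw [hΛ, card_product, Int.card_Icc, Int.card_Icc]
    push_cast
    have h1 : ((⌊2 / r⌋ + 1 - 0).toNat : ℝ) ≤ 2 / r + 1 := by
      have h2 : (0 : ℤ) ≤ ⌊2 / r⌋ := Int.floor_nonneg.2 (by positivity)
      have h3 : ((⌊2 / r⌋ + 1 - 0).toNat : ℝ) = ((⌊2 / r⌋ + 1 - 0 : ℤ) : ℝ) := by
        exact_mod_cast (Int.toNat_of_nonneg (by omega : (0 : ℤ) ≤ ⌊2 / r⌋ + 1 - 0))
      rw [h3]
      push_cast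
      linarith [Int.floor_le (2 / r)]
    have h4 : ((⌊2 * T / r⌋ + 1 - ⌊-(2 * T / r)⌋).toNat : ℝ) ≤ 4 * T / r + 2 := by
      have h5 : ⌊-(2 * T / r)⌋ ≤ ⌊2 * T / r⌋ := by
        apply Int.floor_le_floor
        have : 0 ≤ 2 * T / r := by positivity
        linarith
      have h6 : ((⌊2 * T / r⌋ + 1 - ⌊-(2 * T / r)⌋).toNat : ℝ) =
          ((⌊2 * T / r⌋ + 1 - ⌊-(2 * T / r)⌋ : ℤ) : ℝ) := by
        exact_mod_cast (Int.toNat_of_nonneg (by omega : (0 : ℤ) ≤ ⌊2 * T / r⌋ + 1 - ⌊-(2 * T / r)⌋))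
      rw [h6]
      push_cast
      have h7 := Int.floor_le (2 * T / r)
      have h8 := Int.lt_floor_add_one (-(2 * T / r))
      have h9 : 4 * T / r = 2 * T / r + 2 * T / r := by ring
      linarith
    exact mul_le_mul h1 h4 (Nat.cast_nonneg _) (by positivity)
  have hfib : ∀ l ∈ Λ, w * ((Z.filter (fun i => lab i = l)).card : ℝ) ≤ 2 * S := by
    intro l _
    rcases (Z.filter (fun i => lab i = l)).eq_empty_or_nonempty with he | ⟨i0, hi0⟩
    · rw [he]; simp; exact hS0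
    rw [mem_filter] at hi0
    set c : ℂ := ⟨((l.1 : ℝ) + 1 / 2) * (r / 2), ((l.2 : ℝ) + 1 / 2) * (r / 2)⟩ with hc
    have hdist : ∀ i ∈ Z.filter (fun i => lab i = l), |(ρ i).re - c.re| ≤ r / 4 ∧
        |(ρ i).im - c.im| ≤ r / 4 := by
      intro i hi
      rw [mem_filter] at hi
      have h1 : l = lab i := hi.2.symm
      have h2 : c.re = ((⌊(ρ i).re / (r / 2)⌋ : ℝ) + 1 / 2) * (r / 2) := by
        rw [hc, h1]
      have h3 : c.im = ((⌊(ρ i).im / (r / 2)⌋ : ℝ) + 1 / 2) * (r / 2) := by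
        rw [hc, h1]
      rw [h2, h3]
      exact ⟨floor_box hr, floor_box hr⟩
    have hd0 := hdist i0 (mem_filter.2 hi0)
    obtain ⟨g1, g2, g3⟩ := hρ i0 hi0.1
    rw [abs_le] at g3
    rw [abs_le, abs_le] at hd0
    have hz : ∀ z : ℂ, ‖z - c‖ ≤ r → σ - 2 * r ≤ z.re ∧ z.re ≤ 2 ∧ |z.im| ≤ T + 1 := by
      intro z hz
      have h1 := (Complex.abs_re_le_norm (z - c)).trans hz
      have h2 := (Complex.abs_im_le_norm (z - c)).trans hz
      rw [Complex.sub_re, abs_le] at h1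
      rw [Complex.sub_im, abs_le] at h2
      refine ⟨by linarith [hd0.1.1, hd0.1.2], by linarith [hd0.1.1, hd0.1.2], ?_⟩
      rw [abs_le]
      constructor
      · linarith [hd0.2.1, hd0.2.2]
      · linarith [hd0.2.1, hd0.2.2]
    refine count_circle _ G ρ c r w S hr ?_ ?_ ?_ ?_
    · intro i hi
      have h1 := hdist i hi
      refine (Complex.norm_le_abs_re_add_abs_im (ρ i - c)).trans ?_
      rw [Complex.sub_re, Complex.sub_im]
      linarith [h1.1, h1.2]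
    · intro i hi
      apply DifferentiableOn.diffContOnCl
      intro z hz1
      have h2 : z ∈ Metric.closedBall c r := Metric.closure_ball_subset_closedBall hz1
      rw [Metric.mem_closedBall, dist_eq_norm] at h2
      apply DifferentiableAt.differentiableWithinAt
      apply hG i (mem_filter.1 hi).1
      linarith [(hz z h2).1]
    · intro i hi
      exact hwG i (mem_filter.1 hi).1
    · intro z hz1
      obtain ⟨h1, h2, h3⟩ := hz z hz1.le
      exact (sum_le_sum_of_subset_of_nonneg (filter_subset _ _) fun i _ _ => norm_nonneg _).trans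
        (hS z h1 h2 h3)
  rw [card_eq_sum_card_fiberwise hmaps]
  push_cast
  rw [mul_sum]
  calc ∑ l ∈ Λ, w * ((Z.filter (fun i => lab i = l)).card : ℝ) ≤ ∑ l ∈ Λ, 2 * S :=
        sum_le_sum hfib
    _ = (Λ.card : ℝ) * (2 * S) := by rw [sum_const, nsmul_eq_mul]
    _ ≤ _ := by gcongr

end Pool.Agent.Y766
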