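import Pool.Agent.Y766.F4
import Pool.Agent.Y766.G2
import Pool.Agent.Y766.G5
import Pool.Agent.Y766.ZB
import Pool.Agent.Y766.ZC
import Pool.Agent.H307R2.LU

/-!
Dirichlet polynomials at the members of a coset progression of characters.
-/

set_option autoImplicit false

namespace Pool.Agent.Y766

open Finset

lemma dp_char {ε : ℝ} (hε : 0 < ε) (k : ℕ) : ∃ C : ℝ, 1 ≤ C ∧
    ∀ (d : ℕ) [NeZero d] (H : Subgroup (DirichletCharacter ℂ d)) [Fintype H]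
    (χ : Fin k → DirichletCharacter ℂ d) (J : Fin k → ℕ), Proper H χ J → (∀ i, 1 ≤ J i) →
    (d : ℝ) ^ (2 / 3 : ℝ) ≤ Fintype.card H * ∏ i, (J i : ℝ) →
    ∀ (M : ℕ) (E : ℝ), 1 ≤ E → (M : ℝ) ≤ (Fintype.card H * ∏ i, (J i : ℝ)) * E →
    ∀ (b : ℕ → ℂ), (∀ n ∈ Icc 1 M, ‖b n‖ ≤ (n : ℝ) ^ (-(1 / 2) : ℝ)) →
    ∑ x : H, ∑ j ∈ Fintype.piFinset (fun i => range (J i)),
      ‖∑ n ∈ Icc 1 M, b n * mem χ x j (n : ZMod d)‖ ^ 2 ≤
      C * (d * E) ^ ε * E * (Fintype.card H * ∏ i, (J i : ℝ)) := by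
  classical
  have hε4 : 0 < ε / 4 := by positivity
  obtain ⟨C1, hC1, h1⟩ := ms_prog hε4 k
  obtain ⟨C3, hC3, h3⟩ := log_absorb hε4
  obtain ⟨c0, hc0⟩ : ∃ c0 : ℝ, c0 = 1 / (ε / 4 * Real.log 2) := ⟨_, rfl⟩
  have hlog2 : 0 < Real.log 2 := Real.log_pos (by norm_num)
  have hc00 : 0 < c0 := by rw [hc0]; positivity
  refine ⟨C1 * 2 ^ (ε / 4) * 4 * (C3 * 2 ^ (ε / 4)) * (((c0 + 1)) *
    ((c0 + 1))), ?_, ?_⟩
  · have a3 : (1 : ℝ) ≤ 2 ^ (ε / 4) := Real.one_le_rpow (by norm_num) hε4.le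
    have b1 : (1 : ℝ) ≤ C1 * 2 ^ (ε / 4) := by nlinarith
    have b2 : (1 : ℝ) ≤ C3 * 2 ^ (ε / 4) := by nlinarith
    have b4 : (1 : ℝ) ≤ ((c0 + 1)) * ((c0 + 1)) := by nlinarith
    have b5 : (1 : ℝ) ≤ C1 * 2 ^ (ε / 4) * 4 := by linarith
    have b6 : (1 : ℝ) ≤ C1 * 2 ^ (ε / 4) * 4 * (C3 * 2 ^ (ε / 4)) := by nlinarith
    nlinarith
  intro d _ H _ χ J hP hJ hX M E hE hM b hb
  have hd1' : 1 ≤ d := NeZero.one_le
  have hd1 : (1 : ℝ) ≤ d := by exact_mod_cast hd1'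
  have hd0 : (0 : ℝ) < d := by linarith
  set X : ℝ := Fintype.card H * ∏ i, (J i : ℝ) with hXd
  have hXle : X ≤ d := prog_card_le H χ J hP
  have hX0 : 0 < X := lt_of_lt_of_le (by positivity) hX
  rcases Nat.eq_zero_or_pos M with hM0 | hM0
  · subst hM0
    simp only [Finset.Icc_eq_empty_of_lt (show (0 : ℕ) < 1 by norm_num), sum_empty, norm_zero]
    rw [zero_pow two_ne_zero, sum_const_zero, sum_const_zero]
    positivity
  have hM1 : (1 : ℝ) ≤ M := by exact_mod_cast hM0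
  set P := Fintype.piFinset (fun i => range (J i)) with hPd
  set I := Nat.log 2 M + 1 with hI
  set U := (Icc 1 M).filter (fun n : ℕ => IsUnit (n : ZMod d)) with hU
  have hmaps : ∀ n ∈ U, Nat.log 2 n ∈ range I := by
    intro n hn
    rw [hU, mem_filter, mem_Icc] at hn
    rw [mem_range, hI]
    exact Nat.lt_succ_of_le (Nat.log_mono_right hn.1.2)
  have hunit : ∀ (x : H) j, ∑ n ∈ Icc 1 M, b n * mem χ x j (n : ZMod d) =
      ∑ n ∈ U, b n * mem χ x j (n : ZMod d) := by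
    intro x j
    rw [hU, sum_filter]
    refine sum_congr rfl fun n _ => ?_
    split_ifs with h
    · rfl
    · rw [MulChar.map_nonunit _ h, mul_zero]
  have hdec : ∀ (x : H) j, ∑ n ∈ Icc 1 M, b n * mem χ x j (n : ZMod d) =
      ∑ i ∈ range I, ∑ n ∈ U.filter (fun n => Nat.log 2 n = i), b n * mem χ x j (n : ZMod d) := by
    intro x j
    rw [hunit, sum_fiberwise_of_maps_to hmaps]
  have hI0 : (0 : ℝ) ≤ (I : ℝ) := Nat.cast_nonneg _
  have hcs : ∀ (x : H) j, ‖∑ n ∈ Icc 1 M, b n * mem χ x j (n : ZMod d)‖ ^ 2 ≤ I * ∑ i ∈ range I,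
      ‖∑ n ∈ U.filter (fun n => Nat.log 2 n = i), b n * mem χ x j (n : ZMod d)‖ ^ 2 := by
    intro x j
    rw [hdec]
    have h4 := sq_sum_le_card_mul_sum_sq (s := range I)
      (f := fun i => ‖∑ n ∈ U.filter (fun n => Nat.log 2 n = i), b n * mem χ x j (n : ZMod d)‖)
    rw [card_range] at h4
    refine le_trans ?_ h4
    gcongr
    exact norm_sum_le _ _
  have hpiece : ∀ i ∈ range I, ∑ x : H, ∑ j ∈ P,
      ‖∑ n ∈ U.filter (fun n => Nat.log 2 n = i), b n * mem χ x j (n : ZMod d)‖ ^ 2 ≤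
      C1 * (d * (2 * E)) ^ (ε / 4) * (2 * E) * (2 * (1 + Real.log (2 * M))) * X := by
    intro i hi
    rw [mem_range, hI] at hi
    have h2i : 2 ^ i ≤ M := (Nat.pow_le_pow_right (by norm_num) (by omega)).trans
      (Nat.pow_log_le_self 2 (by omega))
    have h2i' : ((2 : ℝ) ^ i) ≤ M := by exact_mod_cast h2i
    have hmem : ∀ n ∈ U.filter (fun n => Nat.log 2 n = i), IsUnit (n : ZMod d) ∧ 1 ≤ n ∧ n ≤ M ∧
        2 ^ i ≤ n ∧ n < 2 ^ (i + 1) := by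
      intro n hn
      rw [mem_filter, hU, mem_filter, mem_Icc] at hn
      refine ⟨hn.1.2, hn.1.1.1, hn.1.1.2, ?_, ?_⟩
      · rw [← hn.2]; exact Nat.pow_log_le_self 2 (by omega)
      · rw [← hn.2]; exact Nat.lt_pow_succ_log_self (by norm_num) n
    have h5 := h1 d H χ J hP hJ hX (2 ^ (i + 1)) (2 * E)
      (U.filter (fun n => Nat.log 2 n = i)) (by linarith) (by
        push_cast
        rw [pow_succ]
        nlinarith) (fun n hn => ⟨(hmem n hn).1, (hmem n hn).2.1, (hmem n hn).2.2.2.2.le⟩)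
      (fun m hm n hn => by
        have h6 := (hmem m hm).2.2.2.2
        have h7 := (hmem n hn).2.2.2.1
        rw [pow_succ] at h6
        omega) b (((2 : ℝ) ^ i) ^ (-(1 / 2) : ℝ)) (fun n hn => by
        have h8 := hmem n hn
        refine (hb n (mem_Icc.2 ⟨h8.2.1, h8.2.2.1⟩)).trans ?_
        apply Real.rpow_le_rpow_of_nonpos (by positivity) _ (by norm_num)
        exact_mod_cast h8.2.2.2.1)
    refine h5.trans ?_
    have e1 : (((2 : ℝ) ^ i) ^ (-(1 / 2) : ℝ)) ^ 2 = ((2 : ℝ) ^ i)⁻¹ := by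
      rw [← Real.rpow_natCast, ← Real.rpow_mul (by positivity)]
      norm_num
      rw [Real.rpow_neg_one]
    rw [e1]
    have hlog : Real.log ((2 ^ (i + 1) : ℕ) : ℝ) ≤ Real.log (2 * M) := by
      apply Real.log_le_log (by positivity)
      push_cast
      rw [pow_succ]
      linarith
    have h20 : (0 : ℝ) < 2 ^ i := by positivity
    calc C1 * (d * (2 * E)) ^ (ε / 4) * (2 * E) *
          (((2 ^ (i + 1) : ℕ) : ℝ) * (1 + Real.log ((2 ^ (i + 1) : ℕ) : ℝ))) * ((2 : ℝ) ^ i)⁻¹ * X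
        = C1 * (d * (2 * E)) ^ (ε / 4) * (2 * E) *
            (2 * (1 + Real.log ((2 ^ (i + 1) : ℕ) : ℝ))) * X := by
          push_cast
          rw [pow_succ]
          field_simp
      _ ≤ _ := by gcongr
  have hDE : 1 ≤ (d : ℝ) * E := by nlinarith
  have hDE0 : 0 < (d : ℝ) * E := by linarith
  have hM2 : (M : ℝ) ≤ d * E := by
    calc (M : ℝ) ≤ X * E := hM
      _ ≤ d * E := by gcongr
  have hlogM : 1 + Real.log (2 * M) ≤ (C3 * 2 ^ (ε / 4)) * (d * E) ^ (ε / 4) := by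
    have h5 := h3 (2 * M) (by linarith)
    refine h5.trans ?_
    have h6 : (2 * (M : ℝ)) ^ (ε / 4) ≤ 2 ^ (ε / 4) * (d * E) ^ (ε / 4) := by
      rw [← Real.mul_rpow (by norm_num) hDE0.le]
      exact Real.rpow_le_rpow (by positivity) (by linarith) hε4.le
    calc C3 * (2 * (M : ℝ)) ^ (ε / 4) ≤ C3 * (2 ^ (ε / 4) * (d * E) ^ (ε / 4)) := by gcongr
      _ = _ := by ring
  have hIb : (I : ℝ) ≤ ((c0 + 1)) * (d * E) ^ (ε / 4) := by
    have h5 := nat_le_pow hε4 (Nat.log 2 M)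
    have h6 : (2 : ℝ) ^ (Nat.log 2 M) ≤ d * E := by
      have h7 := Nat.pow_log_le_self 2 (show M ≠ 0 by omega)
      have h8 : (2 : ℝ) ^ (Nat.log 2 M) ≤ M := by exact_mod_cast h7
      linarith
    have h7 : ((2 : ℝ) ^ (Nat.log 2 M)) ^ (ε / 4) ≤ (d * E) ^ (ε / 4) :=
      Real.rpow_le_rpow (by positivity) h6 hε4.le
    have h8 : 1 ≤ (d * E) ^ (ε / 4) := Real.one_le_rpow hDE hε4.le
    rw [hI]
    push_cast
    rw [← hc0] at h5
    calc (Nat.log 2 M : ℝ) + 1 ≤ c0 * (d * E) ^ (ε / 4) + (d * E) ^ (ε / 4) := by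
          have := mul_le_mul_of_nonneg_left h7 hc00.le
          linarith
      _ = _ := by ring
  have h6DE : ((d : ℝ) * (2 * E)) ^ (ε / 4) = 2 ^ (ε / 4) * (d * E) ^ (ε / 4) := by
    rw [← Real.mul_rpow (by norm_num) hDE0.le]
    congr 1; ring
  have hlogM0 : 0 ≤ Real.log (2 * M) := Real.log_nonneg (by linarith)
  calc ∑ x : H, ∑ j ∈ P, ‖∑ n ∈ Icc 1 M, b n * mem χ x j (n : ZMod d)‖ ^ 2
      ≤ ∑ x : H, ∑ j ∈ P, (I * ∑ i ∈ range I,
        ‖∑ n ∈ U.filter (fun n => Nat.log 2 n = i), b n * mem χ x j (n : ZMod d)‖ ^ 2) :=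
        sum_le_sum fun x _ => sum_le_sum fun j _ => hcs x j
    _ = I * ∑ i ∈ range I, ∑ x : H, ∑ j ∈ P,
        ‖∑ n ∈ U.filter (fun n => Nat.log 2 n = i), b n * mem χ x j (n : ZMod d)‖ ^ 2 := by
        simp_rw [← mul_sum]
        congr 1
        rw [sum_congr rfl fun x _ => sum_comm]
        exact sum_comm
    _ ≤ I * ∑ i ∈ range I, C1 * (d * (2 * E)) ^ (ε / 4) * (2 * E) *
          (2 * (1 + Real.log (2 * M))) * X := by
        gcongr with i hi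
        exact hpiece i hi
    _ = (I * I) * (C1 * (2 ^ (ε / 4) * (d * E) ^ (ε / 4)) * (2 * E) *
          (2 * (1 + Real.log (2 * M))) * X) := by
        rw [sum_const, card_range, nsmul_eq_mul, h6DE]; ring
    _ ≤ ((((c0 + 1)) * (d * E) ^ (ε / 4)) * (((c0 + 1)) *
          (d * E) ^ (ε / 4))) * (C1 * (2 ^ (ε / 4) * (d * E) ^ (ε / 4)) * (2 * E) *
          (2 * ((C3 * 2 ^ (ε / 4)) * (d * E) ^ (ε / 4))) * X) := by gcongr
    _ = (C1 * 2 ^ (ε / 4) * 4 * (C3 * 2 ^ (ε / 4)) * (((c0 + 1)) *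
          ((c0 + 1)))) * ((d * E) ^ (ε / 4) * (d * E) ^ (ε / 4) *
          (d * E) ^ (ε / 4) * (d * E) ^ (ε / 4)) * E * X := by ring
    _ = _ := by
        rw [← Real.rpow_add hDE0, ← Real.rpow_add hDE0, ← Real.rpow_add hDE0]
        congr 4
        ring

end Pool.Agent.Y766
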