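import Pool.Agent.Y766.G8
import Pool.Agent.Y766.ZB
import Pool.Agent.Y766.ZC
import Pool.Agent.H307R2.LU

/-!
Zeta at the shifts of a generalised arithmetic progression.
-/

set_option autoImplicit false

namespace Pool.Agent.Y766

open Finset MeasureTheory Filter Complex
open Pool.Agent.H448R2.GC (cu cs XX)

lemma exp_three_ge : (8 : ℝ) ≤ Real.exp 3 := by
  have h2 := Real.add_one_le_exp (1:ℝ)
  have h3 : Real.exp 3 = Real.exp 1 ^ 3 := by
    rw [← Real.exp_nat_mul]; norm_num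
  rw [h3]
  have : (2:ℝ) ^ 3 ≤ Real.exp 1 ^ 3 := pow_le_pow_left₀ (by norm_num) (by linarith) 3
  linarith

/-- the square of zeta is bounded by squares of Dirichlet polynomials with fixed coefficients -/
theorem afe_sq2 {η : ℝ} (hη : 0 < η) (hη1 : η ≤ 1 / 100) : ∃ k : ℕ, ∃ C T₀ : ℝ, 1 ≤ C ∧ 1 ≤ T₀ ∧
    ∀ T : ℝ, T₀ ≤ T → ∃ c D1 D2 : ℝ, ∃ N : ℕ, 0 < c ∧ (N : ℝ) ≤ 30 * T ^ (1 / 2 + 2 * η) ∧
    ∀ t : ℝ, T / 8 ≤ t → t ≤ 8 * T → ‖riemannZeta (hl t)‖ ^ 2 ≤ C *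
      (1 + ‖gs N (k + 2) c (hl t) D1‖ ^ 2 + ‖gs N (k + 2) c (hl t) D2‖ ^ 2 +
      ∫ u in (-3:ℝ)..3, (‖gs N (k + 1) c (hl t) (D2 + u + c)‖ ^ 2 +
        ‖gs N (k + 1) c (hl t) (D2 + u)‖ ^ 2)) := by
  obtain ⟨k₀, hk₀⟩ := Pool.Agent.TH75.AFE1.main η hη hη1
  obtain ⟨T₁, hT₁⟩ := hk₀ (k₀ + 2) (by omega)
  refine ⟨k₀, 4 + 48 * ((k₀ : ℝ) + 2) ^ 2 / η ^ 2, max T₁ (Real.exp 100), ?_, ?_, ?_⟩
  · have : 0 ≤ 48 * ((k₀ : ℝ) + 2) ^ 2 / η ^ 2 := by positivity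
    linarith
  · exact le_max_of_le_right (Real.one_le_exp (by norm_num))
  intro T hT
  have hT1 : T₁ ≤ T := (le_max_left _ _).trans hT
  have hTe : Real.exp 100 ≤ T := (le_max_right _ _).trans hT
  have hTpos : 0 < T := (Real.exp_pos _).trans_le hTe
  have hL : 100 ≤ Real.log T := (Real.le_log_iff_exp_le hTpos).2 hTe
  obtain ⟨c, hc⟩ : ∃ c : ℝ, c = η * Real.log T / ((k₀ : ℝ) + 2) := ⟨_, rfl⟩
  obtain ⟨D1, hD1⟩ : ∃ D1 : ℝ, D1 = 1 / 2 * Real.log T := ⟨_, rfl⟩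
  obtain ⟨D2, hD2⟩ : ∃ D2 : ℝ, D2 = Real.log (T / (2 * Real.pi)) - D1 - η * Real.log T := ⟨_, rfl⟩
  have hcpos : 0 < c := by
    rw [hc]
    positivity
  have hkc : ((k₀ : ℝ) + 2) * c = η * Real.log T := by
    rw [hc]
    field_simp
  refine ⟨c, D1, D2, ⌊30 * T ^ (1 / 2 + 2 * η)⌋₊, hcpos, Nat.floor_le (by positivity), ?_⟩
  set N := ⌊30 * T ^ (1 / 2 + 2 * η)⌋₊ with hNd
  have hpi : 0 < Real.log (2 * Real.pi) := Real.log_pos (by linarith [Real.pi_gt_three])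
  have hexp3 : Real.exp 3 ≤ 21 := by
    have h3 : Real.exp 3 = Real.exp 1 ^ 3 := by
      rw [← Real.exp_nat_mul]; norm_num
    rw [h3]
    have h4 := Real.exp_one_lt_d9
    have h5 : Real.exp 1 ≤ 2.7183 := by linarith
    calc Real.exp 1 ^ 3 ≤ 2.7183 ^ 3 := pow_le_pow_left₀ (Real.exp_pos _).le h5 3
      _ ≤ 21 := by norm_num
  have hTp : 1 ≤ T ^ (1 / 2 + 2 * η) := by
    apply Real.one_le_rpow _ (by positivity)
    exact (Real.one_le_exp (by norm_num)).trans hTe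
  have hNbd : ∀ x : ℝ, x ≤ (1 / 2 + 2 * η) * Real.log T + 3 → Real.exp x ≤ N := by
    intro x hx
    have h1 : Real.exp x ≤ 21 * T ^ (1 / 2 + 2 * η) := by
      calc Real.exp x ≤ Real.exp ((1 / 2 + 2 * η) * Real.log T + 3) := Real.exp_le_exp.2 hx
        _ = Real.exp 3 * T ^ (1 / 2 + 2 * η) := by
          rw [Real.rpow_def_of_pos hTpos, Real.exp_add, mul_comm (Real.log T), mul_comm]
        _ ≤ _ := by gcongr
    have h2 := Nat.lt_floor_add_one (30 * T ^ (1 / 2 + 2 * η))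
    rw [← hNd] at h2
    linarith
  have hlogT2 : Real.log (T / (2 * Real.pi)) = Real.log T - Real.log (2 * Real.pi) :=
    Real.log_div hTpos.ne' (by positivity)
  intro t ht1 ht2
  have htpos : 0 < t := by linarith
  -- the approximate functional equation
  have h1 := hT₁ T hT1 t ht1 D1 (by rw [hD1]; nlinarith) (by rw [hD1]) (hl t) rfl
  have hcc : η * Real.log T / ((k₀ + 2 : ℕ) : ℝ) = c := by
    rw [hc]; push_cast; ring
  rw [hcc] at h1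
  set D2t := Real.log (t / (2 * Real.pi)) - D1 - η * Real.log T with hD2t
  have hconj : cs (k₀ + 2) c D2t (1 - hl t) = (starRingEnd ℂ) (cs (k₀ + 2) c D2t (hl t)) := by
    rw [one_sub_hl, cs_conj']
  rw [hconj] at h1
  -- the change of the length
  set v := Real.log (t / T) with hv
  have hv3 : |v| ≤ 3 := by
    rw [abs_le, hv]
    constructor
    · rw [Real.le_log_iff_exp_le (by positivity), le_div_iff₀ hTpos]
      have : Real.exp (-3) ≤ 1 / 8 := by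
        rw [Real.exp_neg, ← one_div]
        exact one_div_le_one_div_of_le (by norm_num) exp_three_ge
      nlinarith
    · rw [Real.log_le_iff_le_exp (by positivity), div_le_iff₀ hTpos]
      have := exp_three_ge
      nlinarith
  have hv1 : v ≤ 3 := (abs_le.1 hv3).2
  have hD2v : D2t = D2 + v := by
    rw [hD2t, hD2, hv, Real.log_div (by positivity) (by positivity),
      Real.log_div (by positivity) (by positivity), Real.log_div (by positivity) (by positivity)]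
    ring
  have e1 : cs (k₀ + 2) c D1 (hl t) = gs N (k₀ + 2) c (hl t) D1 := by
    apply g_ext _ _ _ hcpos
    apply hNbd
    push_cast
    rw [hkc, hD1]
    nlinarith
  have e2 : cs (k₀ + 2) c D2t (hl t) = gs N (k₀ + 2) c (hl t) (D2 + v) := by
    rw [hD2v]
    apply g_ext _ _ _ hcpos
    apply hNbd
    push_cast
    rw [hkc, hD2, hlogT2, hD1]
    nlinarith
  rw [e1, e2] at h1
  have h2 := g_diff N k₀ c hcpos (hl t) D2 v hv3
  set a := gs N (k₀ + 2) c (hl t) D1 with ha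
  set x := gs N (k₀ + 2) c (hl t) (D2 + v) with hx
  set y := gs N (k₀ + 2) c (hl t) D2 with hy
  set J := ∫ u in (-3:ℝ)..3, (‖gs N (k₀ + 1) c (hl t) (D2 + u + c)‖ ^ 2 +
    ‖gs N (k₀ + 1) c (hl t) (D2 + u)‖ ^ 2) with hJ
  have hJ0 : 0 ≤ J := intervalIntegral.integral_nonneg (by norm_num) fun u _ => by positivity
  have hT5 : T ^ (-(1 / 5) : ℝ) ≤ 1 := by
    apply Real.rpow_le_one_of_one_le_of_nonpos _ (by norm_num)
    exact (Real.one_le_exp (by norm_num)).trans hTe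
  have h3 : ‖riemannZeta (hl t)‖ ≤ 1 + ‖a‖ + ‖y‖ + ‖x - y‖ := by
    have e : riemannZeta (hl t) = (riemannZeta (hl t) - a - XX (1 - hl t) * (starRingEnd ℂ) x) +
        a + (XX (1 - hl t) * (starRingEnd ℂ) y + XX (1 - hl t) * (starRingEnd ℂ) (x - y)) := by
      rw [map_sub]; ring
    rw [e]
    refine (norm_add_le _ _).trans ?_
    have e4 : ‖XX (1 - hl t) * (starRingEnd ℂ) y + XX (1 - hl t) * (starRingEnd ℂ) (x - y)‖ ≤
        ‖y‖ + ‖x - y‖ := by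
      refine (norm_add_le _ _).trans ?_
      rw [norm_mul, norm_mul, norm_XX_hl, one_mul, one_mul, RCLike.norm_conj, RCLike.norm_conj]
    have e5 := norm_add_le (riemannZeta (hl t) - a - XX (1 - hl t) * (starRingEnd ℂ) x) a
    linarith
  have h4 : ‖riemannZeta (hl t)‖ ^ 2 ≤ 4 * (1 + ‖a‖ ^ 2 + ‖y‖ ^ 2 + ‖x - y‖ ^ 2) := by
    have := pow_le_pow_left₀ (norm_nonneg _) h3 2
    nlinarith [sq_nonneg (1 - ‖a‖), sq_nonneg (1 - ‖y‖), sq_nonneg (1 - ‖x - y‖),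
      sq_nonneg (‖a‖ - ‖y‖), sq_nonneg (‖a‖ - ‖x - y‖), sq_nonneg (‖y‖ - ‖x - y‖)]
  have h6 : 12 / c ^ 2 ≤ 12 * ((k₀ : ℝ) + 2) ^ 2 / η ^ 2 := by
    have h7 : η / ((k₀ : ℝ) + 2) ≤ c := by
      rw [hc]
      apply div_le_div_of_nonneg_right _ (by positivity)
      nlinarith
    have h8 : 0 < η / ((k₀ : ℝ) + 2) := by positivity
    calc 12 / c ^ 2 ≤ 12 / (η / ((k₀ : ℝ) + 2)) ^ 2 := by gcongr
      _ = _ := by
        field_simp
  have h9 : ‖x - y‖ ^ 2 ≤ 12 * ((k₀ : ℝ) + 2) ^ 2 / η ^ 2 * J := by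
    refine h2.trans ?_
    exact mul_le_mul_of_nonneg_right h6 hJ0
  obtain ⟨Q, hQ⟩ : ∃ Q : ℝ, Q = 12 * ((k₀ : ℝ) + 2) ^ 2 / η ^ 2 := ⟨_, rfl⟩
  have hQ0 : 0 ≤ Q := by rw [hQ]; positivity
  have e7 : 48 * ((k₀ : ℝ) + 2) ^ 2 / η ^ 2 = 4 * Q := by rw [hQ]; ring
  rw [e7]
  rw [← hQ] at h9
  calc ‖riemannZeta (hl t)‖ ^ 2 ≤ 4 * (1 + ‖a‖ ^ 2 + ‖y‖ ^ 2 + ‖x - y‖ ^ 2) := h4
    _ ≤ 4 * (1 + ‖a‖ ^ 2 + ‖y‖ ^ 2 + Q * J) := by gcongr
    _ ≤ (4 + 4 * Q) * (1 + ‖a‖ ^ 2 + ‖y‖ ^ 2 + J) := by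
      have : 0 ≤ Q * (1 + ‖a‖ ^ 2 + ‖y‖ ^ 2) := by positivity
      nlinarith

lemma gap_sum2 {ε : ℝ} (hε : 0 < ε) (k : ℕ) : ∃ C T₀ : ℝ, 1 ≤ C ∧ 1 ≤ T₀ ∧
    ∀ T : ℝ, T₀ ≤ T → ∀ (Δ : Fin k → ℝ) (J : Fin k → ℕ) (D t0 : ℝ), 1 ≤ D → D ≤ T →
    Sep Δ J D → (∀ i, 1 ≤ J i) → D ^ (2 / 3 : ℝ) ≤ ∏ i, (J i : ℝ) →
    T ^ (1 / 2 : ℝ) ≤ ∏ i, (J i : ℝ) →
    (∀ j ∈ Fintype.piFinset (fun i => range (J i)), T / 8 ≤ t0 + fr Δ j ∧ t0 + fr Δ j ≤ 8 * T) →
    ∑ j ∈ Fintype.piFinset (fun i => range (J i)), ‖riemannZeta (hl (t0 + fr Δ j))‖ ^ 2 ≤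
      C * T ^ ε * ∏ i, (J i : ℝ) := by
  have hε4 : 0 < ε / 4 := by positivity
  obtain ⟨C1, hC1, h1⟩ := dp_ms hε4 k
  obtain ⟨η, hη⟩ : ∃ η : ℝ, η = min (ε / 8) (1 / 100) := ⟨_, rfl⟩
  have hη0 : 0 < η := by rw [hη]; positivity
  have hη1 : η ≤ 1 / 100 := by rw [hη]; exact min_le_right _ _
  have hη2 : η ≤ ε / 8 := by rw [hη]; exact min_le_left _ _
  obtain ⟨K, C2, T₀, hC2, hT₀, h2⟩ := afe_sq2 hη0 hη1
  refine ⟨C2 * (1 + 14 * (C1 * 30 ^ (ε / 4) * 30)), T₀, ?_, hT₀, ?_⟩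
  · have a1 : (1 : ℝ) ≤ 30 ^ (ε / 4) := Real.one_le_rpow (by norm_num) hε4.le
    have b1 : (1 : ℝ) ≤ C1 * 30 ^ (ε / 4) := by nlinarith
    nlinarith
  intro T hT Δ J D t0 hD hDT hsep hJ hX1 hX2 hpts
  have hT1 : 1 ≤ T := hT₀.trans hT
  have hT0 : 0 < T := by linarith
  obtain ⟨c, D1, D2, N, hc, hN, hz⟩ := h2 T hT
  set X : ℝ := ∏ i, (J i : ℝ) with hXd
  have hX0 : 0 < X := lt_of_lt_of_le (by positivity) hX2
  set P := Fintype.piFinset (fun i => range (J i)) with hP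
  have hPc : (P.card : ℝ) = X := by
    rw [hP, hXd, Fintype.card_piFinset]; push_cast; simp
  set E : ℝ := 30 * T ^ (2 * η) with hE
  have hTη : 1 ≤ T ^ (2 * η) := Real.one_le_rpow hT1 (by positivity)
  have hE1 : 1 ≤ E := by rw [hE]; linarith
  have hNE : (N : ℝ) ≤ X * E := by
    refine hN.trans ?_
    rw [Real.rpow_add hT0, hE]
    calc 30 * (T ^ (1 / 2 : ℝ) * T ^ (2 * η)) ≤ 30 * (X * T ^ (2 * η)) := by gcongr
      _ = _ := by ring
  obtain ⟨B, hB⟩ : ∃ B : ℝ, B = C1 * (D * E) ^ (ε / 4) * E * X := ⟨_, rfl⟩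
  have hpoly : ∀ (m : ℕ) (y : ℝ), ∑ j ∈ P, ‖gs N m c (hl (t0 + fr Δ j)) y‖ ^ 2 ≤ B := by
    intro m y
    have h5 := h1 Δ J D hD hsep hJ hX1 N E hE1 hNE (bco m c y t0)
      (fun n _ => bco_norm m hc y t0 n)
    rw [hB]
    refine le_trans (le_of_eq ?_) h5
    refine sum_congr rfl fun j _ => ?_
    rw [gs_dp]
  have hBle : B ≤ (C1 * 30 ^ (ε / 4) * 30) * T ^ ε * X := by
    have e1 : (D * E) ^ (ε / 4) ≤ 30 ^ (ε / 4) * T ^ (ε / 2) := by
      have e2 : D * E ≤ 30 * T ^ (2 : ℝ) := by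
        have e3 : T ^ (2 * η) ≤ T := by
          calc T ^ (2 * η) ≤ T ^ (1 : ℝ) := Real.rpow_le_rpow_of_exponent_le hT1 (by linarith)
            _ = T := Real.rpow_one T
        rw [hE, Real.rpow_two]
        calc D * (30 * T ^ (2 * η)) ≤ T * (30 * T) := by gcongr
          _ = _ := by ring
      calc (D * E) ^ (ε / 4) ≤ (30 * T ^ (2 : ℝ)) ^ (ε / 4) :=
            Real.rpow_le_rpow (by positivity) e2 hε4.le
        _ = 30 ^ (ε / 4) * (T ^ (2 : ℝ)) ^ (ε / 4) := Real.mul_rpow (by norm_num) (by positivity)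
        _ = 30 ^ (ε / 4) * T ^ (ε / 2) := by
          rw [← Real.rpow_mul hT0.le]
          congr 2
          ring
    have e4 : E ≤ 30 * T ^ (ε / 2) := by
      rw [hE]
      have : T ^ (2 * η) ≤ T ^ (ε / 2) := Real.rpow_le_rpow_of_exponent_le hT1 (by linarith)
      linarith
    rw [hB]
    calc C1 * (D * E) ^ (ε / 4) * E * X
        ≤ C1 * (30 ^ (ε / 4) * T ^ (ε / 2)) * (30 * T ^ (ε / 2)) * X := by gcongr
      _ = (C1 * 30 ^ (ε / 4) * 30) * (T ^ (ε / 2) * T ^ (ε / 2)) * X := by ring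
      _ = _ := by
        rw [← Real.rpow_add hT0]
        congr 3
        ring
  have hB0 : 0 ≤ B := by rw [hB]; positivity
  have hint : ∑ j ∈ P, (∫ u in (-3:ℝ)..3, (‖gs N (K + 1) c (hl (t0 + fr Δ j)) (D2 + u + c)‖ ^ 2 +
        ‖gs N (K + 1) c (hl (t0 + fr Δ j)) (D2 + u)‖ ^ 2)) ≤ 12 * B := by
    have hcont : ∀ j ∈ P, Continuous (fun u : ℝ =>
        (‖gs N (K + 1) c (hl (t0 + fr Δ j)) (D2 + u + c)‖ ^ 2 +
        ‖gs N (K + 1) c (hl (t0 + fr Δ j)) (D2 + u)‖ ^ 2)) := by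
      intro j _
      refine Continuous.add ?_ ?_
      · exact (((g_cont N K c hc (hl (t0 + fr Δ j))).comp (by fun_prop)).norm).pow 2
      · exact (((g_cont N K c hc (hl (t0 + fr Δ j))).comp (by fun_prop)).norm).pow 2
    rw [← intervalIntegral.integral_finsetSum (fun j hj => (hcont j hj).intervalIntegrable _ _)]
    calc (∫ u in (-3:ℝ)..3, ∑ j ∈ P, (‖gs N (K + 1) c (hl (t0 + fr Δ j)) (D2 + u + c)‖ ^ 2 +
        ‖gs N (K + 1) c (hl (t0 + fr Δ j)) (D2 + u)‖ ^ 2)) ≤ ∫ u in (-3:ℝ)..3, (2 * B) := by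
          apply intervalIntegral.integral_mono_on (by norm_num)
          · exact (continuous_finsetSum _ hcont).intervalIntegrable _ _
          · exact continuous_const.intervalIntegrable _ _
          · intro u _
            rw [sum_add_distrib]
            have := hpoly (K + 1) (D2 + u + c)
            have := hpoly (K + 1) (D2 + u)
            linarith
      _ = 12 * B := by
        rw [intervalIntegral.integral_const, smul_eq_mul]; ring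
  calc ∑ j ∈ P, ‖riemannZeta (hl (t0 + fr Δ j))‖ ^ 2
      ≤ ∑ j ∈ P, C2 * (1 + ‖gs N (K + 2) c (hl (t0 + fr Δ j)) D1‖ ^ 2 +
        ‖gs N (K + 2) c (hl (t0 + fr Δ j)) D2‖ ^ 2 +
        ∫ u in (-3:ℝ)..3, (‖gs N (K + 1) c (hl (t0 + fr Δ j)) (D2 + u + c)‖ ^ 2 +
        ‖gs N (K + 1) c (hl (t0 + fr Δ j)) (D2 + u)‖ ^ 2)) :=
        sum_le_sum fun j hj => hz _ (hpts j hj).1 (hpts j hj).2
    _ = C2 * (X + ∑ j ∈ P, ‖gs N (K + 2) c (hl (t0 + fr Δ j)) D1‖ ^ 2 +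
        ∑ j ∈ P, ‖gs N (K + 2) c (hl (t0 + fr Δ j)) D2‖ ^ 2 +
        ∑ j ∈ P, (∫ u in (-3:ℝ)..3, (‖gs N (K + 1) c (hl (t0 + fr Δ j)) (D2 + u + c)‖ ^ 2 +
        ‖gs N (K + 1) c (hl (t0 + fr Δ j)) (D2 + u)‖ ^ 2))) := by
        rw [← mul_sum, sum_add_distrib, sum_add_distrib, sum_add_distrib, sum_const, nsmul_eq_mul,
          hPc, mul_one]
    _ ≤ C2 * (X + B + B + 12 * B) := by
        have := hpoly (K + 2) D1
        have := hpoly (K + 2) D2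
        gcongr
    _ ≤ C2 * (T ^ ε * X + 14 * ((C1 * 30 ^ (ε / 4) * 30) * T ^ ε * X)) := by
        have e5 : 1 ≤ T ^ ε := Real.one_le_rpow hT1 hε.le
        have e6 : X ≤ T ^ ε * X := by nlinarith
        apply mul_le_mul_of_nonneg_left _ (by linarith)
        linarith
    _ = _ := by ring

/-- the entire function `(w - 1) ζ(w)` -/
noncomputable def Zf (w : ℂ) : ℂ := DirichletCharacter.LFunctionTrivChar₁ 1 w

lemma Zf_eq {w : ℂ} (hw : w ≠ 1) : Zf w = (w - 1) * riemannZeta w := by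
  unfold Zf DirichletCharacter.LFunctionTrivChar₁
  rw [Function.update_of_ne hw]
  congr 1
  unfold DirichletCharacter.LFunctionTrivChar
  rw [DirichletCharacter.LFunction_modOne_eq]

lemma Zf_diff : Differentiable ℂ Zf := DirichletCharacter.differentiable_LFunctionTrivChar₁ 1

lemma Zf_bound {w : ℂ} (hw : 1 / 2 ≤ w.re) : ‖Zf w‖ ≤ 1 + (‖w‖ + 1) * (1 + 2 * ‖w‖) := by
  have hcore : ∀ w : ℂ, 1 / 2 ≤ w.re → w ≠ 1 → ‖Zf w‖ ≤ 1 + (‖w‖ + 1) * (1 + 2 * ‖w‖) := by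
    intro w hw hw1
    have h1 := Pool.Agent.H307R2.zeta_eq (le_refl 1) (show 0 < w.re by linarith) hw1
    have h2 := Pool.Agent.H307R2.TM_norm_le (le_refl 1) Pool.Agent.H307R2.Ez_norm_le
      (show 0 < w.re by linarith)
    have h3 : ‖Pool.Agent.H307R2.TM 1 Pool.Agent.H307R2.Ez w‖ ≤ 2 := by
      refine h2.trans ?_
      rw [one_mul, Nat.cast_one, Real.one_rpow, div_le_iff₀ (by linarith)]
      linarith
    have hsub : w - 1 ≠ 0 := sub_ne_zero.2 hw1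
    have h4 : Zf w = (w - 1) + 1 + (w - 1) * (w * Pool.Agent.H307R2.TM 1 Pool.Agent.H307R2.Ez w) := by
      rw [Zf_eq hw1, h1]
      simp only [Icc_self, sum_singleton, Nat.cast_one, Complex.one_cpow]
      field_simp
    have h5 : ‖w - 1‖ ≤ ‖w‖ + 1 := by
      refine (norm_sub_le _ _).trans ?_
      rw [norm_one]
    rw [h4]
    calc ‖(w - 1) + 1 + (w - 1) * (w * Pool.Agent.H307R2.TM 1 Pool.Agent.H307R2.Ez w)‖
        ≤ ‖w - 1‖ + 1 + ‖w - 1‖ * (‖w‖ * ‖Pool.Agent.H307R2.TM 1 Pool.Agent.H307R2.Ez w‖) := by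
          refine (norm_add_le _ _).trans ?_
          rw [norm_mul, norm_mul]
          have := norm_add_le (w - 1) 1
          rw [norm_one] at this
          linarith
      _ ≤ (‖w‖ + 1) + 1 + (‖w‖ + 1) * (‖w‖ * 2) := by gcongr
      _ = _ := by ring
  rcases eq_or_ne w 1 with h | h
  · rw [h]
    unfold Zf DirichletCharacter.LFunctionTrivChar₁
    simp
    norm_num
  · exact hcore w hw h

lemma zeta_crude (y : ℝ) : ‖riemannZeta (hl y)‖ ^ 2 ≤ 16 * (1 + |y|) ^ 2 := by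
  have hre : (hl y).re = 1 / 2 := by simp [hl]
  have hne : hl y ≠ 1 := by
    intro h
    have := congrArg Complex.re h
    rw [hre] at this
    norm_num at this
  have h1 := Pool.Agent.H307R2.zeta_eq (le_refl 1) (show 0 < (hl y).re by rw [hre]; norm_num) hne
  have h2 := Pool.Agent.H307R2.TM_norm_le (le_refl 1) Pool.Agent.H307R2.Ez_norm_le
    (show 0 < (hl y).re by rw [hre]; norm_num)
  have h3 : ‖Pool.Agent.H307R2.TM 1 Pool.Agent.H307R2.Ez (hl y)‖ ≤ 2 := by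
    refine h2.trans ?_
    rw [one_mul, Nat.cast_one, Real.one_rpow, hre]
    norm_num
  have h4 : ‖hl y‖ ≤ 1 / 2 + |y| := by
    refine (Complex.norm_le_abs_re_add_abs_im _).trans ?_
    rw [hre]
    have : (hl y).im = y := by simp [hl]
    rw [this, abs_of_pos (by norm_num : (0 : ℝ) < 1 / 2)]
  have h5 : 1 / 2 ≤ ‖hl y - 1‖ := by
    have := Complex.abs_re_le_norm (hl y - 1)
    rw [Complex.sub_re, hre, Complex.one_re] at this
    norm_num at this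
    linarith
  have h6 : ‖riemannZeta (hl y)‖ ≤ 4 + 2 * |y| := by
    rw [h1]
    simp only [Icc_self, sum_singleton, Nat.cast_one, Complex.one_cpow]
    calc ‖(1 : ℂ) + 1 / (hl y - 1) + hl y * Pool.Agent.H307R2.TM 1 Pool.Agent.H307R2.Ez (hl y)‖
        ≤ 1 + 1 / ‖hl y - 1‖ + ‖hl y‖ * ‖Pool.Agent.H307R2.TM 1 Pool.Agent.H307R2.Ez (hl y)‖ := by
          refine (norm_add_le _ _).trans ?_
          rw [norm_mul]
          have := norm_add_le (1 : ℂ) (1 / (hl y - 1))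
          rw [norm_one, norm_div, norm_one] at this
          linarith
      _ ≤ 1 + 1 / (1 / 2) + (1 / 2 + |y|) * 2 := by gcongr
      _ = _ := by ring
  have h7 : ‖riemannZeta (hl y)‖ ≤ 4 * (1 + |y|) := by
    have := abs_nonneg y
    linarith
  calc ‖riemannZeta (hl y)‖ ^ 2 ≤ (4 * (1 + |y|)) ^ 2 := pow_le_pow_left₀ (norm_nonneg _) h7 2
    _ = _ := by ring

/-- zeta at all shifts of a progression -/
lemma gap_shift {ε : ℝ} (hε : 0 < ε) (k : ℕ) : ∃ C T₀ : ℝ, 1 ≤ C ∧ 1 ≤ T₀ ∧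
    ∀ T : ℝ, T₀ ≤ T → ∀ (Δ : Fin k → ℝ) (J : Fin k → ℕ) (D t0 : ℝ), 1 ≤ D → D ≤ T →
    Sep Δ J D → (∀ i, 1 ≤ J i) → D ^ (2 / 3 : ℝ) ≤ ∏ i, (J i : ℝ) →
    T ^ (1 / 2 : ℝ) ≤ ∏ i, (J i : ℝ) →
    (∀ j ∈ Fintype.piFinset (fun i => range (J i)), T ≤ t0 + fr Δ j ∧ t0 + fr Δ j ≤ 2 * T) →
    ∀ u : ℝ,
    ∑ j ∈ Fintype.piFinset (fun i => range (J i)), ‖riemannZeta (hl (u + (t0 + fr Δ j)))‖ ^ 2 ≤
      C * T ^ ε * (∏ i, (J i : ℝ)) * (1 + |u|) ^ 2 := by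
  obtain ⟨C1, T₀, hC1, hT₀, h1⟩ := gap_sum2 hε k
  refine ⟨C1 + 400, T₀, by linarith, hT₀, ?_⟩
  intro T hT Δ J D t0 hD hDT hsep hJ hX1 hX2 hpts u
  have hT1 : 1 ≤ T := hT₀.trans hT
  have hT0 : 0 < T := by linarith
  set X : ℝ := ∏ i, (J i : ℝ) with hXd
  have hX0 : 0 < X := lt_of_lt_of_le (by positivity) hX2
  set P := Fintype.piFinset (fun i => range (J i)) with hP
  have hPc : (P.card : ℝ) = X := by
    rw [hP, hXd, Fintype.card_piFinset]; push_cast; simp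
  have hTe : 1 ≤ T ^ ε := Real.one_le_rpow hT1 hε.le
  have hu1 : (1 : ℝ) ≤ (1 + |u|) ^ 2 := one_le_pow₀ (by linarith [abs_nonneg u])
  have hmain : 0 < T ^ ε * X * (1 + |u|) ^ 2 := by positivity
  rcases le_or_gt |u| (T / 2) with hu | hu
  · rw [abs_le] at hu
    have h2 := h1 T hT Δ J D (u + t0) hD hDT hsep hJ hX1 hX2 (fun j hj => by
      have := hpts j hj
      constructor
      · linarith
      · linarith)
    simp_rw [add_assoc] at h2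
    refine h2.trans ?_
    have : C1 * T ^ ε * X ≤ (C1 + 400) * T ^ ε * X := by gcongr; linarith
    calc C1 * T ^ ε * X ≤ (C1 + 400) * T ^ ε * X := this
      _ ≤ (C1 + 400) * T ^ ε * X * (1 + |u|) ^ 2 := le_mul_of_one_le_right (by positivity) hu1
  · calc ∑ j ∈ P, ‖riemannZeta (hl (u + (t0 + fr Δ j)))‖ ^ 2
        ≤ ∑ j ∈ P, 400 * (1 + |u|) ^ 2 := by
          refine sum_le_sum fun j hj => (zeta_crude _).trans ?_
          have h2 : |u + (t0 + fr Δ j)| ≤ 5 * |u| := by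
            have h3 := abs_add_le u (t0 + fr Δ j)
            have h4 := hpts j hj
            rw [abs_of_nonneg (show 0 ≤ t0 + fr Δ j by linarith)] at h3
            linarith
          have h5 : 1 + |u + (t0 + fr Δ j)| ≤ 5 * (1 + |u|) := by linarith
          calc 16 * (1 + |u + (t0 + fr Δ j)|) ^ 2 ≤ 16 * (5 * (1 + |u|)) ^ 2 := by gcongr
            _ = 400 * (1 + |u|) ^ 2 := by ring
      _ = 400 * (X * (1 + |u|) ^ 2) := by rw [sum_const, nsmul_eq_mul, hPc]; ring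
      _ ≤ (C1 + 400) * (T ^ ε * X * (1 + |u|) ^ 2) := by
          have h6 : X * (1 + |u|) ^ 2 ≤ T ^ ε * X * (1 + |u|) ^ 2 := by
            rw [mul_assoc]
            exact le_mul_of_one_le_left (by positivity) hTe
          nlinarith
      _ = _ := by ring

end Pool.Agent.Y766
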