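import Pool.Agent.Y766.ZF

/-!
Zeros of the zeta function near the members of a sparse generalised arithmetic progression.
-/

set_option autoImplicit false

namespace Pool.Agent.Y766

open Finset

lemma npow_split {n : ℕ} (hn : 1 ≤ n) (a : ℂ) (x : ℝ) : (n : ℂ) ^ (-(a + x * Complex.I)) =
    (n : ℂ) ^ (-a) * Complex.exp (-(Complex.I * ((x * Real.log n : ℝ) : ℂ))) := by
  have hn0 : (n : ℂ) ≠ 0 := by
    have : n ≠ 0 := by omega
    exact_mod_cast this
  rw [Complex.cpow_def_of_ne_zero hn0, Complex.cpow_def_of_ne_zero hn0, ← Complex.exp_add]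
  congr 1
  push_cast
  ring

lemma ratio_le_one {w : ℂ} (hw : 0 < w.re) : ‖(w - 1) / (w + 1)‖ ≤ 1 := by
  rw [norm_div]
  apply div_le_one_of_le₀ _ (norm_nonneg _)
  rw [Complex.norm_eq_sqrt_sq_add_sq, Complex.norm_eq_sqrt_sq_add_sq]
  apply Real.sqrt_le_sqrt
  simp only [Complex.sub_re, Complex.one_re, Complex.sub_im, Complex.one_im, Complex.add_re,
    Complex.add_im]
  nlinarith

lemma ratio_ge {w : ℂ} (hw : 0 < w.re) (hi : 1 ≤ |w.im|) : 1 / 3 ≤ ‖(w - 1) / (w + 1)‖ := by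
  have h1 : 1 ≤ ‖w - 1‖ := by
    have := Complex.abs_im_le_norm (w - 1)
    rw [Complex.sub_im, Complex.one_im, sub_zero] at this
    linarith
  have h2 : ‖w + 1‖ ≤ ‖w - 1‖ + 2 := by
    have e : w + 1 = (w - 1) + 2 := by ring
    rw [e]
    refine (norm_add_le _ _).trans ?_
    simp
  have h3 : 0 < ‖w + 1‖ := by
    rw [norm_pos_iff]
    intro h
    have := congrArg Complex.re h
    simp at this
    linarith
  rw [norm_div, le_div_iff₀ h3]
  linarith

/-- zeros near a progression, parametrised form -/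
theorem zd_gap_param (k : ℕ) {ε : ℝ} (hε : 0 < ε) : ∃ (C T₀ : ℝ), 1 ≤ C ∧ 1 ≤ T₀ ∧
    ∀ T : ℝ, T₀ ≤ T → ∀ (Δ : Fin k → ℝ) (J : Fin k → ℕ) (D t0 : ℝ), 1 ≤ D → D ≤ T →
    Sep Δ J D → (∀ i, 1 ≤ J i) → D ^ (2 / 3 : ℝ) ≤ ∏ i, (J i : ℝ) →
    T ^ (1 / 2 : ℝ) ≤ ∏ i, (J i : ℝ) →
    (∀ j ∈ Fintype.piFinset (fun i => range (J i)), T ≤ t0 + fr Δ j ∧ t0 + fr Δ j ≤ 2 * T) →
    ∀ (σ W : ℝ), 1 / 2 ≤ σ → σ ≤ 1 → 0 ≤ W → W ≤ T / 2 →
    ∀ Z ⊆ Fintype.piFinset (fun i => range (J i)),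
    (∀ j ∈ Z, ∃ ρ : ℂ, riemannZeta ρ = 0 ∧ σ ≤ ρ.re ∧ |ρ.im - (t0 + fr Δ j)| ≤ W) →
    (Z.card : ℝ) ≤ C * (1 + W) ^ 3 * T ^ ε * (∏ i, (J i : ℝ)) ^ (3 / 2 - σ) := by
  classical
  obtain ⟨δ, hδ⟩ : ∃ δ : ℝ, δ = min ε 1 / 4 := ⟨_, rfl⟩
  have hδ0 : 0 < δ := by rw [hδ]; positivity
  have hδε : 4 * δ ≤ ε := by rw [hδ]; linarith [min_le_left ε 1]
  have hδ1 : δ ≤ 1 / 4 := by rw [hδ]; linarith [min_le_right ε 1]
  obtain ⟨C1, T₀, hC1, hT₀, h1⟩ := gap_shift hδ0 k
  obtain ⟨C2, hC2, h2⟩ := dp_ms hδ0 k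
  obtain ⟨c, hc, h3⟩ := mol_inv
  obtain ⟨κ, hκ⟩ : ∃ κ : ℝ, κ = 1 / 2 + 2 / δ := ⟨_, rfl⟩
  have hκ8 : 8 ≤ κ := by
    rw [hκ]
    have : 8 ≤ 2 / δ := by rw [le_div_iff₀ hδ0]; linarith
    linarith
  obtain ⟨C3, hC3, h4⟩ := interp_sum 2 κ (by linarith)
  obtain ⟨Q, hQ⟩ : ∃ Q : ℝ, Q = C1 + C2 + 1 := ⟨_, rfl⟩
  have hQ1 : 1 ≤ Q := by rw [hQ]; linarith
  refine ⟨3 * ((4 / δ + 1) * (8 / δ + 2) * (2 * (C3 * 4 * (Q * c * 2)))) + 2, max T₀ 2, ?_,
    le_max_of_le_left hT₀, ?_⟩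
  · have : 0 ≤ 3 * ((4 / δ + 1) * (8 / δ + 2) * (2 * (C3 * 4 * (Q * c * 2)))) := by positivity
    linarith
  intro T hTT Δ J D t0 hD hDT hsep hJ hX1 hX2 hpts σ W hσ hσ1 hW hWT Z hZP hZ
  have hT : T₀ ≤ T := (le_max_left _ _).trans hTT
  have hT2 : 2 ≤ T := (le_max_right _ _).trans hTT
  have hT1 : 1 ≤ T := hT₀.trans hT
  have hT0 : 0 < T := by linarith
  set P := Fintype.piFinset (fun i => range (J i)) with hP
  obtain ⟨X, hX⟩ : ∃ X : ℝ, X = ∏ i, (J i : ℝ) := ⟨_, rfl⟩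
  rw [← hX] at hX1 hX2 ⊢
  have hPc : (P.card : ℝ) = X := by
    rw [hP, hX, Fintype.card_piFinset]; push_cast; simp
  obtain ⟨Y, hY⟩ : ∃ Y : ℕ, Y = ∏ i, J i := ⟨_, rfl⟩
  have hYX : (Y : ℝ) = X := by rw [hY, hX]; push_cast; rfl
  have hF1 : (1 : ℝ) ≤ X := (Real.one_le_rpow hT1 (by norm_num)).trans hX2
  have hF0 : (0 : ℝ) < X := by linarith
  have hY1 : 1 ≤ Y := by exact_mod_cast (hYX ▸ hF1 : (1 : ℝ) ≤ (Y : ℝ))
  have hXT : X ≤ 2 * T := by
    have := sep_card hD hsep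
    rw [← hX] at this
    linarith
  have hT3 : (1 : ℝ) ≤ (1 + W) ^ 3 := one_le_pow₀ (by linarith)
  have hZF : (Z.card : ℝ) ≤ X := by
    rw [← hPc]
    exact_mod_cast card_le_card hZP
  have hTδ : (1 : ℝ) ≤ T ^ δ := Real.one_le_rpow hT1 hδ0.le
  have hX2δ : X ^ (2 * δ) ≤ 2 * T ^ (2 * δ) := by
    calc X ^ (2 * δ) ≤ (2 * T) ^ (2 * δ) := Real.rpow_le_rpow hF0.le hXT (by positivity)
      _ = 2 ^ (2 * δ) * T ^ (2 * δ) := Real.mul_rpow (by norm_num) hT0.le
      _ ≤ 2 ^ (1 : ℝ) * T ^ (2 * δ) := by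
          gcongr
          · norm_num
          · linarith
      _ = _ := by rw [Real.rpow_one]
  -- trivial range
  rcases lt_or_ge σ (1 / 2 + δ) with hsm | hbig
  · have e1 : X ≤ 2 * (T ^ ε * X ^ (3 / 2 - σ)) := by
      calc X = X ^ (σ - 1 / 2) * X ^ (3 / 2 - σ) := by
            rw [← Real.rpow_add hF0]
            rw [show σ - 1 / 2 + (3 / 2 - σ) = 1 by ring, Real.rpow_one]
        _ ≤ (2 * T ^ (2 * δ)) * X ^ (3 / 2 - σ) := by
            gcongr
            calc X ^ (σ - 1 / 2) ≤ X ^ (2 * δ) := Real.rpow_le_rpow_of_exponent_le hF1 (by linarith)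
              _ ≤ _ := hX2δ
        _ ≤ (2 * T ^ ε) * X ^ (3 / 2 - σ) := by
            gcongr
            linarith
        _ = _ := by ring
    have e2 : 0 ≤ T ^ ε * X ^ (3 / 2 - σ) := by positivity
    have e3 : (2 : ℝ) ≤ (3 * ((4 / δ + 1) * (8 / δ + 2) * (2 * (C3 * 4 * (Q * c * 2)))) + 2) *
        (1 + W) ^ 3 := by
      have : 0 ≤ 3 * ((4 / δ + 1) * (8 / δ + 2) * (2 * (C3 * 4 * (Q * c * 2)))) := by positivity
      nlinarith
    calc (Z.card : ℝ) ≤ 2 * (T ^ ε * X ^ (3 / 2 - σ)) := hZF.trans e1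
      _ ≤ _ := by
        rw [mul_assoc]
        exact mul_le_mul_of_nonneg_right e3 e2
  -- the family of analytic functions
  set tt : (Fin k → ℕ) → ℝ := fun j => t0 + fr Δ j with htt
  set ww : (Fin k → ℕ) → ℂ → ℂ := fun j s => s + tt j * Complex.I with hww
  have hwre : ∀ j s, (ww j s).re = s.re := by intro j s; simp [hww]
  have hwim : ∀ j s, (ww j s).im = s.im + tt j := by intro j s; simp [hww]
  set mu : ℕ → ℂ := fun n => (ArithmeticFunction.moebius n : ℂ) with hmud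
  have hmu : ∀ n : ℕ, ‖mu n‖ ≤ 1 := by
    intro n
    rw [hmud]
    simp only
    rw [Complex.norm_intCast]
    exact_mod_cast ArithmeticFunction.abs_moebius_le_one
  set G : (Fin k → ℕ) → ℂ → ℂ := fun j s =>
    (Zf (ww j s) * mol mu Y (ww j s) - (ww j s - 1)) / (ww j s + 1) with hG
  have hw1 : ∀ j s, 0 < s.re → ww j s + 1 ≠ 0 := by
    intro j s hs h
    have := congrArg Complex.re h
    rw [Complex.add_re, hwre] at this
    simp at this
    linarith
  have hGd : ∀ j ∈ P, ∀ s : ℂ, 1 / 4 < s.re → DifferentiableAt ℂ (G j) s := by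
    intro j _ s hs
    have hwd : DifferentiableAt ℂ (ww j) s := by
      rw [hww]; fun_prop
    rw [hG]
    apply DifferentiableAt.div
    · apply DifferentiableAt.sub
      · apply DifferentiableAt.mul
        · exact DifferentiableAt.comp (g := Zf) s (Zf_diff (ww j s)) hwd
        · exact DifferentiableAt.comp (g := mol mu Y) s (mol_diff mu Y (ww j s)) hwd
      · exact hwd.sub_const 1
    · exact hwd.add_const 1
    · exact hw1 j s (by linarith)
  -- away from the pole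
  have hGeq : ∀ j s, 0 < s.re → ww j s ≠ 1 → G j s =
      (ww j s - 1) / (ww j s + 1) * (riemannZeta (ww j s) * mol mu Y (ww j s) - 1) := by
    intro j s hs h
    rw [hG]
    simp only
    rw [Zf_eq h]
    field_simp [hw1 j s hs]
  have hgrow : ∀ j ∈ P, ∃ (K : ℝ) (m : ℕ), ∀ s : ℂ, 1 / 2 ≤ s.re → s.re ≤ κ →
      ‖G j s‖ ≤ K * (1 + |s.im|) ^ m := by
    intro j _
    set R : ℝ := κ + |tt j| + 1 with hR
    have hR1 : 1 ≤ R := by
      have := abs_nonneg (tt j)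
      rw [hR]; linarith
    refine ⟨7 * R ^ 2 * X + 2 * R, 2, ?_⟩
    intro s hs1 hs2
    have hi := abs_nonneg s.im
    have h5 : ‖ww j s‖ ≤ R * (1 + |s.im|) := by
      refine (Complex.norm_le_abs_re_add_abs_im _).trans ?_
      rw [hwre, hwim, abs_of_pos (show 0 < s.re by linarith)]
      have := abs_add_le s.im (tt j)
      have := abs_nonneg (tt j)
      rw [hR]
      nlinarith
    have h6 : 1 ≤ R * (1 + |s.im|) := by nlinarith
    have h7 : ‖mol mu Y (ww j s)‖ ≤ X := by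
      rw [← hYX]
      exact mol_norm hmu Y (by rw [hwre]; linarith)
    have h8 : ‖Zf (ww j s)‖ ≤ 7 * R ^ 2 * (1 + |s.im|) ^ 2 := by
      refine (Zf_bound (by rw [hwre]; exact hs1)).trans ?_
      have hn := norm_nonneg (ww j s)
      calc 1 + (‖ww j s‖ + 1) * (1 + 2 * ‖ww j s‖)
          ≤ (R * (1 + |s.im|)) ^ 2 + (R * (1 + |s.im|) + R * (1 + |s.im|)) *
            (R * (1 + |s.im|) + 2 * (R * (1 + |s.im|))) := by
            apply add_le_add
            · exact one_le_pow₀ h6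
            · gcongr
        _ = _ := by ring
    have h9 : 1 ≤ ‖ww j s + 1‖ := by
      have := Complex.abs_re_le_norm (ww j s + 1)
      rw [Complex.add_re, hwre, Complex.one_re] at this
      have h10 := le_abs_self (s.re + 1)
      linarith
    rw [hG]
    simp only
    rw [norm_div]
    calc ‖Zf (ww j s) * mol mu Y (ww j s) - (ww j s - 1)‖ / ‖ww j s + 1‖
        ≤ ‖Zf (ww j s) * mol mu Y (ww j s) - (ww j s - 1)‖ := div_le_self (norm_nonneg _) h9
      _ ≤ ‖Zf (ww j s)‖ * ‖mol mu Y (ww j s)‖ + (‖ww j s‖ + 1) := by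
          refine (norm_sub_le _ _).trans ?_
          rw [norm_mul]
          have := norm_sub_le (ww j s) 1
          rw [norm_one] at this
          linarith
      _ ≤ (7 * R ^ 2 * (1 + |s.im|) ^ 2) * X + (R * (1 + |s.im|) + R * (1 + |s.im|)) := by
          gcongr
      _ ≤ _ := by
          have h10 : (1 + |s.im|) ≤ (1 + |s.im|) ^ 2 := by nlinarith
          have h11 : 0 ≤ 2 * R := by linarith
          have h12 := mul_le_mul_of_nonneg_left h10 h11
          nlinarith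
  -- the line one half
  have hline1 : ∀ s : ℂ, s.re = 1 / 2 → ∑ j ∈ P, ‖G j s‖ ≤
      (Q * T ^ δ * X) * (1 + |s.im|) ^ 2 := by
    intro s hs
    have hwhl : ∀ j, ww j s = hl (s.im + (t0 + fr Δ j)) := by
      intro j
      apply Complex.ext
      · rw [hwre, hs]; simp [hl]
      · rw [hwim]; simp [hl, htt]
    have hne : ∀ j, ww j s ≠ 1 := by
      intro j h
      have := congrArg Complex.re h
      rw [hwre, hs] at this
      norm_num at this
    have e1 := h1 T hT Δ J D t0 hD hDT hsep hJ (by rw [← hX]; exact hX1) (by rw [← hX]; exact hX2)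
      hpts s.im
    rw [← hX] at e1
    have e2 : ∑ j ∈ P, ‖mol mu Y (ww j s)‖ ^ 2 ≤ C2 * T ^ δ * X := by
      have e3 := h2 Δ J D hD hsep hJ (by rw [← hX]; exact hX1) Y 1 le_rfl
        (by rw [← hX, hYX, mul_one]) (fun n => mu n * (n : ℂ) ^ (-(s + t0 * Complex.I))) (by
          intro n hn
          rw [mem_Icc] at hn
          rw [norm_mul, Complex.norm_natCast_cpow_of_pos (by omega)]
          have e4 : (-(s + t0 * Complex.I)).re = -(1 / 2) := by
            simp [hs]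
          rw [e4]
          calc ‖mu n‖ * (n : ℝ) ^ (-(1 / 2) : ℝ) ≤ 1 * (n : ℝ) ^ (-(1 / 2) : ℝ) :=
                mul_le_mul_of_nonneg_right (hmu n) (by positivity)
            _ = _ := one_mul _)
      rw [← hX, mul_one, mul_one] at e3
      refine le_trans (le_of_eq ?_) (e3.trans ?_)
      · refine sum_congr rfl fun j _ => ?_
        congr 2
        unfold mol
        refine sum_congr rfl fun n hn => ?_
        rw [mem_Icc] at hn
        have e5 : ww j s = (s + t0 * Complex.I) + (fr Δ j : ℝ) * Complex.I := by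
          rw [hww, htt]
          simp only
          push_cast
          ring
        rw [e5, npow_split hn.1]
        ring
      · have : D ^ δ ≤ T ^ δ := Real.rpow_le_rpow (by linarith) hDT hδ0.le
        gcongr
    have e4 : ∀ j ∈ P, ‖G j s‖ ≤ ‖riemannZeta (hl (s.im + (t0 + fr Δ j)))‖ ^ 2 +
        ‖mol mu Y (ww j s)‖ ^ 2 + 1 := by
      intro j _
      rw [hGeq j s (by rw [hs]; norm_num) (hne j), norm_mul, ← hwhl j]
      have e5 := ratio_le_one (w := ww j s) (by rw [hwre, hs]; norm_num)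
      have e6 : ‖riemannZeta (ww j s) * mol mu Y (ww j s) - 1‖ ≤
          ‖riemannZeta (ww j s)‖ * ‖mol mu Y (ww j s)‖ + 1 := by
        refine (norm_sub_le _ _).trans ?_
        rw [norm_mul, norm_one]
      have e7 := mul_le_mul e5 e6 (norm_nonneg _) zero_le_one
      nlinarith [sq_nonneg (‖riemannZeta (ww j s)‖ - ‖mol mu Y (ww j s)‖),
        norm_nonneg (riemannZeta (ww j s)), norm_nonneg (mol mu Y (ww j s))]
    have e5 := sum_le_sum e4
    rw [sum_add_distrib, sum_add_distrib, sum_const, nsmul_eq_mul, mul_one, hPc] at e5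
    have hp1 : (1 : ℝ) ≤ (1 + |s.im|) ^ 2 := one_le_pow₀ (by linarith [abs_nonneg s.im])
    calc ∑ j ∈ P, ‖G j s‖ ≤ C1 * T ^ δ * X * (1 + |s.im|) ^ 2 + C2 * T ^ δ * X + X := by
          linarith
      _ ≤ C1 * T ^ δ * X * (1 + |s.im|) ^ 2 + C2 * T ^ δ * X * (1 + |s.im|) ^ 2 +
          T ^ δ * X * (1 + |s.im|) ^ 2 := by
          have g1 : C2 * T ^ δ * X ≤ C2 * T ^ δ * X * (1 + |s.im|) ^ 2 :=
            le_mul_of_one_le_right (by positivity) hp1
          have g2 : X ≤ T ^ δ * X * (1 + |s.im|) ^ 2 := by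
            calc X ≤ T ^ δ * X := le_mul_of_one_le_left hF0.le hTδ
              _ ≤ _ := le_mul_of_one_le_right (by positivity) hp1
          linarith
      _ = _ := by rw [hQ]; ring
  -- the line far to the right
  have hline2 : ∀ s : ℂ, s.re = κ → ∑ j ∈ P, ‖G j s‖ ≤ c * X ^ (3 - κ) := by
    intro s hs
    have hne : ∀ j, ww j s ≠ 1 := by
      intro j h
      have := congrArg Complex.re h
      rw [hwre, hs] at this
      simp at this
      linarith
    have e1 : ∀ j ∈ P, ‖G j s‖ ≤ c * X ^ (2 - κ) := by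
      intro j _
      have hlt : 1 < (ww j s).re := by rw [hwre, hs]; linarith
      have e2 := h3 1 mu (fun n => by simp) hmu (ww j s) (by rw [hwre, hs]; linarith)
        (LSeries_one_mul_Lseries_moebius hlt) Y hY1
      rw [hwre, hs, hYX, LSeries_one_eq_riemannZeta hlt] at e2
      rw [hGeq j s (by rw [hs]; linarith) (hne j), norm_mul]
      have e5 := ratio_le_one (w := ww j s) (by rw [hwre, hs]; linarith)
      have e7 := mul_le_mul e5 e2 (norm_nonneg _) zero_le_one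
      linarith
    calc ∑ j ∈ P, ‖G j s‖ ≤ ∑ j ∈ P, c * X ^ (2 - κ) := sum_le_sum e1
      _ = X * (c * X ^ (2 - κ)) := by rw [sum_const, nsmul_eq_mul, hPc]
      _ = c * (X ^ (1 : ℝ) * X ^ (2 - κ)) := by rw [Real.rpow_one]; ring
      _ = _ := by rw [← Real.rpow_add hF0]; congr 2; ring
  have hmid := h4 P G (Q * T ^ δ * X) (c * X ^ (3 - κ)) (by positivity) (by positivity)
    hGd hgrow hline1 hline2
  -- the value in the middle
  obtain ⟨S, hS⟩ : ∃ S : ℝ, S = C3 * (2 + W) ^ 2 * (Q * c * T ^ δ *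
    ((2 * T ^ (2 * δ)) * X ^ (3 / 2 - σ))) := ⟨_, rfl⟩
  have hSb : ∀ z : ℂ, σ - δ ≤ z.re → z.re ≤ 2 → |z.im| ≤ W + 1 → ∑ j ∈ P, ‖G j z‖ ≤ S := by
    intro z hz1 hz2 hz3
    refine (hmid z (by linarith) (by linarith)).trans ?_
    set x : ℝ := (z.re - 1 / 2) / (κ - 1 / 2) with hx
    have hκ' : κ - 1 / 2 = 2 / δ := by rw [hκ]; ring
    have hx0 : 0 ≤ x := div_nonneg (by linarith) (by linarith)
    have hx1 : x ≤ 1 := by rw [hx, div_le_one (by linarith)]; linarith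
    have e1 : (Q * T ^ δ * X) ^ (1 - x) ≤ (Q * T ^ δ) * X ^ (1 - x) := by
      rw [Real.mul_rpow (by positivity) hF0.le]
      gcongr
      have g1 : 1 ≤ Q * T ^ δ := by nlinarith
      calc (Q * T ^ δ) ^ (1 - x) ≤ (Q * T ^ δ) ^ (1 : ℝ) :=
            Real.rpow_le_rpow_of_exponent_le g1 (by linarith)
        _ = _ := Real.rpow_one _
    have e2 : (c * X ^ (3 - κ)) ^ x ≤ c * X ^ ((3 - κ) * x) := by
      rw [Real.mul_rpow (by linarith) (by positivity), ← Real.rpow_mul hF0.le]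
      gcongr
      calc c ^ x ≤ c ^ (1 : ℝ) := Real.rpow_le_rpow_of_exponent_le hc hx1
        _ = _ := Real.rpow_one _
    have e3 : X ^ (1 - x) * X ^ ((3 - κ) * x) ≤ (2 * T ^ (2 * δ)) * X ^ (3 / 2 - σ) := by
      rw [← Real.rpow_add hF0]
      have g1 : 1 - x + (3 - κ) * x ≤ 2 * δ + (3 / 2 - σ) := by
        have g2 : (κ - 1 / 2) * x = z.re - 1 / 2 := by
          rw [hx]
          exact mul_div_cancel₀ _ (by linarith)
        have g3 : x = (z.re - 1 / 2) * (δ / 2) := by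
          rw [hx, hκ']; field_simp
        have g4 : (z.re - 1 / 2) * (δ / 2) ≤ (3 / 2) * (δ / 2) := by gcongr; linarith
        have g5 : 1 - x + (3 - κ) * x = 1 - (κ - 1 / 2) * x + (3 / 2) * x := by ring
        rw [g5, g2, g3]
        nlinarith
      calc X ^ (1 - x + (3 - κ) * x) ≤ X ^ (2 * δ + (3 / 2 - σ)) :=
            Real.rpow_le_rpow_of_exponent_le hF1 g1
        _ = X ^ (2 * δ) * X ^ (3 / 2 - σ) := Real.rpow_add hF0 _ _
        _ ≤ _ := by gcongr
    have e4 : (1 + |z.im|) ^ 2 ≤ (2 + W) ^ 2 :=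
      pow_le_pow_left₀ (by positivity) (by linarith) 2
    rw [hS]
    calc C3 * (1 + |z.im|) ^ 2 * ((Q * T ^ δ * X) ^ (1 - x) * (c * X ^ (3 - κ)) ^ x)
        ≤ C3 * (2 + W) ^ 2 * (((Q * T ^ δ) * X ^ (1 - x)) * (c * X ^ ((3 - κ) * x))) := by
          gcongr
      _ = C3 * (2 + W) ^ 2 * (Q * c * T ^ δ * (X ^ (1 - x) * X ^ ((3 - κ) * x))) := by ring
      _ ≤ _ := by gcongr
  -- choose a zero for every member
  have hex : ∀ j : Fin k → ℕ, ∃ ρ : ℂ, j ∈ Z →
      (riemannZeta ρ = 0 ∧ σ ≤ ρ.re ∧ |ρ.im - tt j| ≤ W) := by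
    intro j
    by_cases hj : j ∈ Z
    · obtain ⟨ρ, h5⟩ := hZ j hj
      exact ⟨ρ, fun _ => h5⟩
    · exact ⟨0, fun h => absurd h hj⟩
  choose ρ hρ using hex
  have hS0 : 0 ≤ S := by rw [hS]; positivity
  have hww2 : ∀ j, ww j (ρ j - tt j * Complex.I) = ρ j := by
    intro j; rw [hww]; simp
  have hcount := count_boxes Z G (fun j => ρ j - tt j * Complex.I) (δ / 2) (1 / 3) S W σ
    (by positivity) (by linarith) hW hS0
    (by linarith) (by
      intro j hj
      obtain ⟨g1, g2, g3⟩ := hρ j hj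
      refine ⟨by simpa using g2, ?_, by simpa using g3⟩
      by_contra h
      push Not at h
      have h5 : 1 ≤ (ρ j).re := by
        simp at h
        linarith
      exact riemannZeta_ne_zero_of_one_le_re h5 g1) (fun j hj => hGd j (hZP hj)) (by
      intro j hj
      obtain ⟨g1, g2, g3⟩ := hρ j hj
      have h5 : 0 < (ρ j).re := by linarith
      have h6 : 1 ≤ |(ρ j).im| := by
        have h7 := (hpts j (hZP hj)).1
        rw [abs_le] at g3
        have h9 : T / 2 ≤ (ρ j).im := by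
          have : T ≤ tt j := h7
          linarith [g3.1]
        rw [le_abs]
        left
        linarith
      have hne : ρ j ≠ 1 := by
        intro h
        rw [h] at h6
        norm_num at h6
      have h7 : G j (ρ j - tt j * Complex.I) = -((ρ j - 1) / (ρ j + 1)) := by
        rw [hG]
        simp only
        rw [hww2, Zf_eq hne, g1]
        ring
      rw [h7, norm_neg]
      exact ratio_ge h5 h6) (by
      intro z hz1 hz2 hz3
      refine (sum_le_sum_of_subset_of_nonneg hZP fun i _ _ => norm_nonneg _).trans ?_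
      exact hSb z (by linarith) hz2 hz3)
  have hcount' : (Z.card : ℝ) ≤ 3 * ((2 / (δ / 2) + 1) * (4 * W / (δ / 2) + 2) * (2 * S)) := by
    linarith
  refine hcount'.trans ?_
  have e1 : 2 / (δ / 2) + 1 = 4 / δ + 1 := by field_simp; ring
  have e2 : 4 * W / (δ / 2) + 2 ≤ (8 / δ + 2) * (1 + W) := by
    have : 4 * W / (δ / 2) = (8 / δ) * W := by field_simp; ring
    rw [this]
    have : 0 ≤ 8 / δ := by positivity
    nlinarith
  have e3 : (2 + W) ^ 2 ≤ 4 * (1 + W) ^ 2 := by nlinarith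
  have e4 : T ^ δ * T ^ (2 * δ) ≤ T ^ ε := by
    rw [← Real.rpow_add hT0]
    exact Real.rpow_le_rpow_of_exponent_le hT1 (by linarith)
  rw [e1]
  calc 3 * ((4 / δ + 1) * (4 * W / (δ / 2) + 2) * (2 * S))
      ≤ 3 * ((4 / δ + 1) * ((8 / δ + 2) * (1 + W)) * (2 * (C3 * (4 * (1 + W) ^ 2) *
        (Q * c * 2 * (T ^ δ * T ^ (2 * δ)) * X ^ (3 / 2 - σ))))) := by
        rw [hS]
        have : C3 * (2 + W) ^ 2 * (Q * c * T ^ δ * ((2 * T ^ (2 * δ)) * X ^ (3 / 2 - σ))) =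
          C3 * (2 + W) ^ 2 * (Q * c * 2 * (T ^ δ * T ^ (2 * δ)) * X ^ (3 / 2 - σ)) := by ring
        rw [this]
        gcongr
    _ ≤ 3 * ((4 / δ + 1) * ((8 / δ + 2) * (1 + W)) * (2 * (C3 * (4 * (1 + W) ^ 2) *
        (Q * c * 2 * T ^ ε * X ^ (3 / 2 - σ))))) := by gcongr
    _ = (3 * ((4 / δ + 1) * (8 / δ + 2) * (2 * (C3 * 4 * (Q * c * 2))))) * (1 + W) ^ 3 *
        T ^ ε * X ^ (3 / 2 - σ) := by ring
    _ ≤ _ := by
        gcongr
        linarith

end Pool.Agent.Y766
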