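import Pool.Agent.Y766.ZG

/-!
Zeros of the zeta function near the members of a sparse generalised arithmetic progression:
the form for sets.
-/

set_option autoImplicit false

namespace Pool.Agent.Y766

open Finset

open Classical in
theorem zd_gap_set (k : ℕ) {ε : ℝ} (hε : 0 < ε) : ∃ C : ℝ, ∀ T : ℝ, 1 ≤ T →
    ∀ (D : ℝ) (F : Finset ℝ), ProperGAP k F → (∀ t ∈ F, T ≤ t ∧ t ≤ 2 * T) →
    (∀ t ∈ F, ∀ u ∈ F, t ≠ u → 1 ≤ |t - u| ∧ |t - u| ≤ D) →
    D ^ (2 / 3 : ℝ) ≤ F.card → T ^ (1 / 2 : ℝ) ≤ F.card →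
    ∀ (σ W : ℝ), 1 / 2 ≤ σ → σ ≤ 1 → 0 ≤ W →
    ((F.filter (fun t => ∃ ρ : ℂ, riemannZeta ρ = 0 ∧ σ ≤ ρ.re ∧ |ρ.im - t| ≤ W)).card : ℝ) ≤
      C * (1 + W) ^ 3 * T ^ ε * (F.card : ℝ) ^ (3 / 2 - σ) := by
  obtain ⟨C, T₀, hC, hT₀, h⟩ := zd_gap_param k hε
  refine ⟨C + 2 * T₀ + 4, ?_⟩
  intro T hT D F hF hFT hsep hD hTF σ W hσ hσ1 hW
  obtain ⟨t₀, Δ, J, hmem, hcard⟩ := hF
  have hT1 : (1 : ℝ) ≤ T ^ (1 / 2 : ℝ) := Real.one_le_rpow hT (by norm_num)
  have hF1 : (1 : ℝ) ≤ F.card := hT1.trans hTF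
  have hF0 : (0 : ℝ) < F.card := by linarith
  have hJ : ∀ i, 1 ≤ J i := by
    intro i
    by_contra hi
    have : J i = 0 := by omega
    have h2 : ∏ i, J i = 0 := prod_eq_zero (mem_univ i) this
    rw [hcard, h2] at hF1
    norm_num at hF1
  set P := Fintype.piFinset (fun i => range (J i)) with hP
  have himg : F = P.image (fun j => t₀ + fr Δ j) := by
    ext t
    rw [hmem, mem_image]
    constructor
    · rintro ⟨j, hj, rfl⟩
      exact ⟨j, by rw [hP, Fintype.mem_piFinset]; intro i; exact mem_range.2 (hj i), rfl⟩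
    · rintro ⟨j, hj, rfl⟩
      rw [hP, Fintype.mem_piFinset] at hj
      exact ⟨j, fun i => mem_range.1 (hj i), rfl⟩
  have hPc : P.card = ∏ i, J i := by
    rw [hP, Fintype.card_piFinset]; simp
  have hinj : Set.InjOn (fun j => t₀ + fr Δ j) (P : Set (Fin k → ℕ)) := by
    rw [← card_image_iff, ← himg, hcard, hPc]
  have hin : ∀ j ∈ P, t₀ + fr Δ j ∈ F := by
    intro j hj
    rw [himg]
    exact mem_image_of_mem _ hj
  set D' : ℝ := min (max D 1) T with hD'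
  have hsep' : Sep Δ J D' := by
    intro x hx y hy hxy
    have hne : t₀ + fr Δ y ≠ t₀ + fr Δ x := by
      intro h4
      exact hxy (hinj hx hy h4.symm)
    have h5 := hsep _ (hin y hy) _ (hin x hx) hne
    have h6 := hFT _ (hin y hy)
    have h7 := hFT _ (hin x hx)
    rw [add_sub_add_left_eq_sub] at h5
    refine ⟨h5.1, le_min (h5.2.trans (le_max_left _ _)) ?_⟩
    rw [abs_le]
    constructor <;> linarith [h6.1, h6.2, h7.1, h7.2]
  have hD'1 : 1 ≤ D' := le_min (le_max_right _ _) hT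
  have hcR : (F.card : ℝ) = ∏ i, (J i : ℝ) := by
    rw [hcard]; push_cast; rfl
  have hDm : D' ^ (2 / 3 : ℝ) ≤ ∏ i, (J i : ℝ) := by
    refine (Real.rpow_le_rpow (by linarith) (min_le_left _ _) (by norm_num)).trans ?_
    rcases le_total D 1 with h6 | h6
    · rw [max_eq_right h6, Real.one_rpow, ← hcR]; exact hF1
    · rw [max_eq_left h6, ← hcR]; exact hD
  have hX2T : (F.card : ℝ) ≤ 2 * T := by
    have h5 := sep_card hD'1 hsep'
    rw [← hcR] at h5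
    have := min_le_right (max D 1) T
    linarith
  set Z := P.filter (fun j => ∃ ρ : ℂ, riemannZeta ρ = 0 ∧ σ ≤ ρ.re ∧
    |ρ.im - (t₀ + fr Δ j)| ≤ W) with hZ
  have hW3 : (1 : ℝ) ≤ (1 + W) ^ 3 := one_le_pow₀ (by linarith)
  have hTe : 1 ≤ T ^ ε := Real.one_le_rpow hT hε.le
  have hle : ((F.filter (fun t => ∃ ρ : ℂ, riemannZeta ρ = 0 ∧ σ ≤ ρ.re ∧
      |ρ.im - t| ≤ W)).card : ℝ) ≤ Z.card := by
    rw [himg, filter_image]
    exact_mod_cast card_image_le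
  have hpos : 0 < T ^ ε * (F.card : ℝ) ^ (3 / 2 - σ) := by positivity
  have hpos3 : 0 < (1 + W) ^ 3 * (T ^ ε * (F.card : ℝ) ^ (3 / 2 - σ)) := by positivity
  by_cases hcase : T₀ ≤ T ∧ W ≤ T / 2
  · have h5 := h T hcase.1 Δ J D' t₀ hD'1 (min_le_right _ _) hsep' hJ hDm
      (by rw [← hcR]; exact hTF) (fun j hj => hFT _ (hin j hj)) σ W hσ hσ1 hW hcase.2 Z
      (filter_subset _ _) (fun j hj => (mem_filter.1 hj).2)
    rw [← hcR] at h5
    refine hle.trans (h5.trans ?_)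
    have e : C * (1 + W) ^ 3 * T ^ ε * (F.card : ℝ) ^ (3 / 2 - σ) =
      C * ((1 + W) ^ 3 * (T ^ ε * (F.card : ℝ) ^ (3 / 2 - σ))) := by ring
    have e' : (C + 2 * T₀ + 4) * (1 + W) ^ 3 * T ^ ε * (F.card : ℝ) ^ (3 / 2 - σ) =
      (C + 2 * T₀ + 4) * ((1 + W) ^ 3 * (T ^ ε * (F.card : ℝ) ^ (3 / 2 - σ))) := by ring
    rw [e, e']
    exact mul_le_mul_of_nonneg_right (by linarith) hpos3.le
  · have hsmall : 2 * T ≤ (2 * T₀ + 4) * (1 + W) ^ 3 := by
      rw [not_and_or, not_le, not_le] at hcase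
      rcases hcase with h5 | h5
      · nlinarith
      · have h6 : 1 + W ≤ (1 + W) ^ 3 := by
          have : (1 : ℝ) ≤ 1 + W := by linarith
          calc (1 + W) = (1 + W) ^ 1 := (pow_one _).symm
            _ ≤ (1 + W) ^ 3 := pow_le_pow_right₀ this (by norm_num)
        nlinarith
    have e1 : (F.card : ℝ) ≤ (2 * T) * (F.card : ℝ) ^ (3 / 2 - σ) := by
      calc (F.card : ℝ) = (F.card : ℝ) ^ (σ - 1 / 2) * (F.card : ℝ) ^ (3 / 2 - σ) := by
            rw [← Real.rpow_add hF0]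
            rw [show σ - 1 / 2 + (3 / 2 - σ) = 1 by ring, Real.rpow_one]
        _ ≤ (2 * T) * (F.card : ℝ) ^ (3 / 2 - σ) := by
            gcongr
            calc (F.card : ℝ) ^ (σ - 1 / 2) ≤ (F.card : ℝ) ^ (1 : ℝ) :=
                  Real.rpow_le_rpow_of_exponent_le hF1 (by linarith)
              _ = F.card := Real.rpow_one _
              _ ≤ 2 * T := hX2T
    have e0 : ((F.filter (fun t => ∃ ρ : ℂ, riemannZeta ρ = 0 ∧ σ ≤ ρ.re ∧
        |ρ.im - t| ≤ W)).card : ℝ) ≤ F.card := by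
      exact_mod_cast card_le_card (filter_subset _ _)
    have hp : 0 < (F.card : ℝ) ^ (3 / 2 - σ) := by positivity
    calc ((F.filter (fun t => ∃ ρ : ℂ, riemannZeta ρ = 0 ∧ σ ≤ ρ.re ∧
          |ρ.im - t| ≤ W)).card : ℝ) ≤ (2 * T) * (F.card : ℝ) ^ (3 / 2 - σ) := e0.trans e1
      _ ≤ ((2 * T₀ + 4) * (1 + W) ^ 3) * (F.card : ℝ) ^ (3 / 2 - σ) :=
          mul_le_mul_of_nonneg_right hsmall hp.le
      _ ≤ ((C + 2 * T₀ + 4) * (1 + W) ^ 3) * (T ^ ε * (F.card : ℝ) ^ (3 / 2 - σ)) := by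
          apply mul_le_mul _ _ hp.le (by positivity)
          · apply mul_le_mul_of_nonneg_right _ (by positivity)
            linarith
          · exact le_mul_of_one_le_left hp.le hTe
      _ = _ := by ring

end Pool.Agent.Y766
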